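import Pool.Agent.UMG.Defs

/-!
# Squad UMG: the codes of a degree sequence
-/

set_option autoImplicit false

namespace Pool.Agent.UMG

open Finset

/-- the codes of the degree sequence `d` (nondecreasing) -/
def Cd : List ℕ → Code → Prop
  | d, [] => d = []
  | d, (l, p) :: c => ∃ (k : ℕ) (t : List ℕ), d = List.replicate l k ++ t ∧ p.sum = k ∧ 1 ≤ l ∧
      (∀ i ∈ p, 1 ≤ i) ∧ Cd t c

/-- the families of numbers of matchings, `x j < F (j+1) (C_{j+1})`, `j < M` -/
def Xs (M : ℕ) (c : Code) : Finset (Fin M → ℕ) :=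
  Fintype.piFinset (fun j : Fin M => range (F ((j : ℕ) + 1) (cnt c ((j : ℕ) + 1))))

/-- extension to a function of the size -/
def ex {M : ℕ} (x : Fin M → ℕ) (j : ℕ) : ℕ := if h : j - 1 < M then x ⟨j - 1, h⟩ else 0

end Pool.Agent.UMG
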