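import Pool.Agent.UMG.AlgDefs
import Pool.Agent.UMG.DefsD

/-!
# Squad UMG (MP_34c13a_lc, Theorem X), BLOCK D: exactness of the algorithm

namespace for rows `Pool.Agent.UMG.D.HNN`; every row is `theorem xxx : XxxStmt` (with the statements of
the column `uses` as hypotheses).
-/

set_option autoImplicit false

namespace Pool.Agent.UMG

open Finset

/-! ## D1. Unranking -/

/-- PCK (easy/medium). Proof: induction on `m`. `pick m w u` is the number of the `i < m` with `cum w (i+1) ≤ u`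
(`cum w` is nondecreasing). For `u < cum w m`: `pick (m+1) w u = pick m w u`; for
`cum w m ≤ u < cum w (m+1)`: `pick (m+1) w u = m`. Split `∑_{u < cum w (m+1)}` at `cum w m`. -/
def PckStmt : Prop := ∀ (m : ℕ) (w : ℕ → ℕ) (Ψ : ℕ → ℕ → ℕ),
  ∑ u ∈ range (cum w m), Ψ (pick m w u) (u - cum w (pick m w u)) =
    ∑ i ∈ range m, ∑ z ∈ range (w i), Ψ i z

/-- MOD (easy). Proof: induction on `m`, `(m V + z) % V = z` for `z < V`. -/
def ModStmt : Prop := ∀ (m V : ℕ) (Ψ : ℕ → ℕ),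
  ∑ z ∈ range (m * V), Ψ (z % V) = m * ∑ z ∈ range V, Ψ z

/-- UNE (medium, from PCK, MOD). Proof: strong induction on `k`. `k = 0` clear. `k + 1`:
`w i = k.descFactorial i * vE x l A k W i`, `cum w (k+1) = W * (Eint x l (k+1) * A)`. By PCK and MOD
the left side is `∑_i k.descFactorial i * ∑_{z < vE i} Ψ ((i+1) :: q.1) q.2.1 q.2.2`,
`q = unE x l A (k-i) (W * x (l*(i+1))) z`, `vE i = (W * x (l*(i+1))) * (Eint x l (k-i) * A)`; induction
hypothesis for `k - i`. -/
def UneStmt : Prop := ∀ (x : ℕ → ℕ) (l A k W : ℕ) (Ψ : List ℕ → ℕ → ℕ → ℕ),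
  ∑ u ∈ range (W * (Eint x l k * A)),
      Ψ (unE x l A k W u).1 (unE x l A k W u).2.1 (unE x l A k W u).2.2 =
    csum k (fun p => ∑ z ∈ range (W * (p.map (fun i => x (l * i))).prod * A),
      Ψ p (W * (p.map (fun i => x (l * i))).prod) z)

/-- UNA (medium, from PCK, MOD, UNE). Proof: strong induction on the length; as UNE, with
`wt x ((i+1, p) :: c) = (p.map (fun j => x ((i+1) * j))).prod * wt x c`. -/
def UnaStmt : Prop := ∀ (x : ℕ → ℕ) (d : List ℕ) (W : ℕ) (Ψ : Code → ℕ → ℕ → ℕ),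
  ∑ u ∈ range (W * Aint x d), Ψ (unA x d W u).1 (unA x d W u).2.1 (unA x d W u).2.2 =
    gsum d (fun c => ∑ z ∈ range (W * wt x c), Ψ c (W * wt x c) z)

/-! ## D2. The leaf -/

/-- MXR (easy). Mixed radix for product functions. Proof: induction on `J`; `z < (∏_{j<J} B j) * B J` is
`z = z' + (∏_{j<J} B j) q`, `z' < ∏_{j<J} B j`, `q < B J`; the digits `j < J` of `z` are those of `z'`,
the digit `J` is `q`. -/
def MxrStmt : Prop := ∀ (J : ℕ) (B : ℕ → ℕ) (ψ : ℕ → ℕ → ℕ),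
  ∑ z ∈ range (∏ j ∈ range J, B j), ∏ j ∈ range J, ψ j (z / (∏ i ∈ range j, B i) % B j) =
    ∏ j ∈ range J, ∑ r ∈ range (B j), ψ j r

/-- total range of the number for the size `j + 1` -/
def Yt (M K : ℕ) (c : Code) (j : ℕ) : ℕ :=
  if j < K then ∑ b ∈ range (M + 1), coef M (j + 1) b * Xb M (j + 1) b ^ cnt c (j + 1)
  else ((2 * (M + 1)) ^ (j + 1) * be M) ^ cnt c (j + 1)

/-- YPR (medium, from MXR, DGT). Proof: MXR for fixed `g` with `B j = YB M K g c j` and
`ψ' j r = ψ j (off_j + r)`, `off_j = ∑_{b < b_j} coef M (j+1) b * Xb M (j+1) b ^ cnt` (`j < K`), `0`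
(`j ≥ K`): the inner sum is `∏_j ∑_{r < B j} ψ j (off_j + r)`. The factors `j ≥ K` do not depend on `g`
and are `∑_{y < Yt} ψ j y`. The factors `j < K` depend only on the digit `b_j = dg M g j` (`j < K`:
`YB = coef M (j+1) b_j * Xb M (j+1) b_j ^ cnt`, as `fX M K g (j+1) = Xb M (j+1) (dg M g j)`); by DGT (cast
to `ℝ`, or its proof for `ℕ`) the sum over `g` is `∏_{j<K} ∑_{b ≤ M} ∑_{r < B} ψ j (off_b + r) =
∏_{j<K} ∑_{y < Yt} ψ j y` (consecutive intervals; induction on the number of `b`). -/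
def YprStmt : Prop := ∀ (M K : ℕ) (c : Code) (ψ : ℕ → ℕ → ℕ),
  ∑ g ∈ range ((M + 1) ^ K), ∑ z ∈ range (∏ j ∈ range (K + M), YB M K g c j),
      ∏ j ∈ range (K + M), ψ j (yy M K g c z j) =
    ∏ j ∈ range (K + M), ∑ y ∈ range (Yt M K c j), ψ j y

/-- COE (easy). Proof: `ct M j b = ∏_{i<b} Bn M j (i+1) / Bn M j (b+1)^b` (the powers of `2(M+1)` cancel) and
`WW M j = Bn M j (b+1)^b * ∏_{b' ≠ b}`. -/
def CoeStmt : Prop := ∀ (M j b : ℕ), b ≤ M → (coef M j b : ℝ) = (WW M j : ℝ) * ct M j b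

/-- YGR (easy from COE). Proof: `Xb M (j+1) b = (2(M+1))^(j+1) * sq M (j+1) (b+1)`. -/
def YgrStmt : Prop := ∀ (M K : ℕ) (c : Code) (j : ℕ),
  (Yt M K c j : ℝ) = (scl M K c j : ℝ) * G M K (j + 1) (cnt c (j + 1))

/-- CDV (medium). Properties of the codes of `d`: the sizes of the bundles are between 1 and `M`,
`∑_j j C_j = M`, in particular `C_j = 0` for `j > M` and `j C_j ≤ M`. Proof: induction on `c`:
the sum of the sizes of the bundles of `(l, p)` is `l * p.sum = l * k`. `∑_j (j+1) * cnt c (j+1)` over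
`j < J`, `J ≥ M`, is the sum of all sizes. -/
def CdvStmt : Prop := ∀ (d : List ℕ) (c : Code), Cd d c →
  (∀ v, ∀ b ∈ bund v c, 1 ≤ bsz b ∧ bsz b ≤ d.sum) ∧
  (∀ J, d.sum ≤ J → ∑ j ∈ range J, (j + 1) * cnt c (j + 1) = d.sum) ∧
  (∀ j, 1 ≤ j → j * cnt c j ≤ d.sum) ∧ (∀ j, d.sum < j → cnt c j = 0) ∧
  (c.map Prod.fst).sum = d.length

/-- GCD (easy/medium). Congruence of `gsum` for sorted `d`. Proof: strong induction on the length, after
`csum k Ψ = csum k Ψ'` if `Ψ p = Ψ' p` for all `p` with `p.sum = k` and entries `≥ 1`. `d = k :: t`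
sorted, `i ≤ t.count k`: `d = replicate (i+1) k ++ t.drop i`. -/
def GcdStmt : Prop := ∀ (R : Type) [CommSemiring R] (d : List ℕ) (Ψ Ψ' : Code → R),
  d.Pairwise (· ≤ ·) → (∀ c, Cd d c → Ψ c = Ψ' c) → gsum d Ψ = gsum d Ψ'

/-- GLN (easy). Linearity and casts of `gsum`. Proof: strong induction (first the same for `csum`). -/
def GlnStmt : Prop := ∀ (d : List ℕ),
  (∀ (a : ℕ) (Ψ : Code → ℕ), gsum d (fun c => a * Ψ c) = a * gsum d Ψ) ∧
  (∀ (ι : Type) (S : Finset ι) (Ψ : ι → Code → ℕ),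
    gsum d (fun c => ∑ i ∈ S, Ψ i c) = ∑ i ∈ S, gsum d (Ψ i)) ∧
  (∀ (Ψ : Code → ℕ), ((gsum d Ψ : ℕ) : ℝ) = gsum d (fun c => (Ψ c : ℝ)))

/-- WYB (medium). Proof: the left side is `(∏_{j<K} coef M (j+1) (dg M g j)) * ∏_{bundles} fX (size)`, and the
product over the bundles is `∏_{j<K+M} fX M K g (j+1) ^ cnt c (j+1)` (all sizes are between 1 and
`K + M`). -/
def WybStmt : Prop := ∀ (M K g : ℕ) (c : Code), (∀ b ∈ bund 0 c, 1 ≤ bsz b ∧ bsz b ≤ M) →
  cfg M K g * wt (fX M K g) c = ∏ j ∈ range (K + M), YB M K g c j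

/-- the total scale -/
def SCL (K : ℕ) (d : List ℕ) : ℕ := (∏ j ∈ range K, WW d.sum (j + 1)) * (2 * (d.sum + 1)) ^ d.sum

/-- SCP (easy from CDV). Proof: `∏_{j<K+M} scl = ∏_{j<K} WW * (2(M+1))^(∑ (j+1) C_{j+1})`. -/
def ScpStmt : Prop := ∀ (K : ℕ) (d : List ℕ) (c : Code), Cd d c →
  ∏ j ∈ range (K + d.sum), scl d.sum K c j = SCL K d

/-- ZLE (easy from YGR, FUP, TAN, BET, CDV). Proof: `scl * F ≤ scl * G` as `F ≤ Fh ≤ G`: for `j < K`
FUP and TAN (`C ≤ M`); for `j ≥ K` FUP and BET (`(j+1) C_{j+1} ≤ M`). -/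
def ZleStmt : Prop := ∀ (K : ℕ) (d : List ℕ) (c : Code) (j : ℕ), Cd d c →
  scl d.sum K c j * F (j + 1) (cnt c (j + 1)) ≤ Yt d.sum K c j

/-- HIT (medium/hard, from YPR, ZLE, CDV, SCP). Proof: write `M = d.sum`, `C_j = cnt c j`, `F_j = F j C_j`,
`Z_j = scl j * F_{j+1}`. If `acc` holds, then `F_{j+1} > 0` for all `j < K + M`, and exactly one
`x ∈ Xs M c` satisfies `yy j % F_{j+1} = x j` for all `j < M`; for this `x` the functions `ix` and
`ex x` agree on `1, …, M` so `Φ (ix …) = Φ (ex x)`. Hence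
`(if acc then Φ (ix) else 0) = ∑_{x ∈ Xs M c} Φ (ex x) * ∏_{j<K+M} ψ_x j (yy j)`,
`ψ_x j y = 1` if `y < Z_j` and (`j < M → y % F_{j+1} = x j`), else 0. Exchange the sums, YPR:
`∑_g ∑_z ∏_j ψ_x j (yy) = ∏_j #{y < Yt : ψ_x j y = 1} = ∏_j #{y < Z_j : (j < M → y % F_{j+1} = x j)}` (ZLE:
`Z_j ≤ Yt`) `= ∏_j scl j`: for `j < M`, `x j < F_{j+1}`, there are `scl j` numbers `y < scl j * F_{j+1}` with
`y % F_{j+1} = x j`; for `j ≥ M` we have `C_{j+1} = 0`, `F_{j+1} = 1` and `Z_j = scl j`. SCP. -/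
def HitStmt : Prop := ∀ (K : ℕ) (d : List ℕ) (c : Code) (Φ : (ℕ → ℕ) → ℕ), Cd d c →
  (∀ x x' : ℕ → ℕ, (∀ j, 1 ≤ j → j ≤ d.sum → x j = x' j) → Φ x = Φ x') →
  ∑ g ∈ range ((d.sum + 1) ^ K), ∑ z ∈ range (∏ j ∈ range (K + d.sum), YB d.sum K g c j),
      (if acc d.sum K g c z then Φ (ix d.sum K g c z) else 0) =
    SCL K d * ∑ x ∈ Xs d.sum c, Φ (ex x)

/-- EXS (medium, from PCK, UNA, GCD, GLN, WYB, CDV, HIT). The number of the `u` with a given output property. Proof: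
`TT K d = cum (wg K d) ((M+1)^K)`; PCK: the left side is `∑_g ∑_{z < wg K d g} P (leaf …)`,
`wg = cfg * Aint`; UNA (with `W = cfg`, the second component is not used): `= ∑_g gsum d (fun c =>
∑_{z < cfg * wt (fX g) c} P (leaf K d g c z))`; GLN (exchange), GCD + WYB + CDV: `= gsum d (fun c =>
∑_g ∑_{z < ∏ YB} P (leaf K d g c z))`; `P (leaf) = if acc then Φ (ix) else P 0 = 0` with
`Φ x = P (out M (gr n (edg M c x)))`, which depends only on `x j`, `1 ≤ j ≤ M`; HIT, GLN. -/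
def ExsStmt : Prop := ∀ (K : ℕ) (d : List ℕ) (P : ℕ → ℕ), d.Pairwise (· ≤ ·) → P 0 = 0 →
  ∑ u ∈ range (TT K d), P (algo K d u) =
    SCL K d * gsum d (fun c => ∑ x ∈ Xs d.sum c, P (out d.sum (gr d.length (edg d.sum c (ex x)))))

/-- TTG (medium, from UNA, GLN, GCD, WYB, CDV, YPR, YGR, SCP). Proof: `W * Aint x d = gsum d (fun c => W * wt x c)` (UNA with
`Ψ = 1`), so `TT K d = gsum d (fun c => ∑_g cfg * wt (fX g) c) = gsum d (fun c => ∑_g ∏_j YB)
= gsum d (fun c => ∏_j Yt)` (YPR with `ψ = 1`), `Yt = scl * G` (YGR), SCP. -/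
def TtgStmt : Prop := ∀ (K : ℕ) (d : List ℕ), d.Pairwise (· ≤ ·) →
  (TT K d : ℝ) = (SCL K d : ℝ) *
    gsum d (fun c => ∏ j ∈ range (K + d.sum), G d.sum K (j + 1) (cnt c (j + 1)))

/-- ACN (medium, from EXS, GLN, GCD, CDV). The number of successful `u`. Proof: EXS with `P y = if y = 0 then 0 else 1`;
`out ≥ 1`, so the inner sum is the number of elements of `Xs`, `∏_{j<M} F (j+1) C_{j+1}`, equal to
`∏_{j<K+M}` as `C_j = 0`, `F j 0 = 1` for `j > M`; cast to `ℝ`. -/
def AcnStmt : Prop := ∀ (K : ℕ) (d : List ℕ), d.Pairwise (· ≤ ·) →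
  ((((range (TT K d)).filter (fun u => algo K d u ≠ 0)).card : ℕ) : ℝ) = (SCL K d : ℝ) *
    gsum d (fun c => ∏ j ∈ range (K + d.sum), Fr (j + 1) (cnt c (j + 1)))

/-- RAT (easy, from ANA, TTG, ACN, GCD, CDV). Proof: ANA times `SCL`, casts. Second part: `SCL ≥ 1` and the `gsum` of the
product of the `F` is positive, because it is positive for the code of the identity
(`d.map (fun k => (1, replicate k 1))`, only `C_1 = M` even, `F 1 M > 0`), which occurs in `gsum` with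
coefficient at least 1. -/
def RatStmt : Prop := ∀ η : ℝ, 0 < η → η < 1 / 2 → ∃ K A : ℕ, 6 ≤ K ∧
  ∀ d : List ℕ, d.Pairwise (· ≤ ·) → Good η d →
  TT K d ≤ (d.sum + 2) ^ A * ((range (TT K d)).filter (fun u => algo K d u ≠ 0)).card ∧ 0 < TT K d

/-! ## D3. Multigraphs -/

/-- OUI (easy). `out` is injective on matrices with entries at most `M`. Proof: digits in base `M + 1`; the
positions `v n + w` are different. -/
def OuiStmt : Prop := ∀ (M n : ℕ) (A B : Fin n → Fin n → ℕ), (∀ v w, A v w ≤ M) →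
  (∀ v w, B v w ≤ M) → out M A = out M B → A = B

/-- OMB (easy). Entries of the multigraphs of `Om d` are at most `M`. Proof: `A v w ≤ deg A v ∈ d`. -/
def OmbStmt : Prop := ∀ (d : List ℕ) (A : Fin d.length → Fin d.length → ℕ), A ∈ Om d →
  ∀ v w, A v w ≤ d.sum

/-- VAL (medium). Every output is in `Om d`. Proof: the edge list of `mt j L x` for `x < F j L.length` is a
matching of the half-edges of the bundles of `L` (size `j`): induction on `mt`: for every vertex `v` the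
number of the occurrences of `v` as an end of an edge is the sum over the bundles `b ∈ L` of
`#{t < j : b.1 + t % b.2.1 = v}` (self-matched bundle, `j` even: `t` and `t + j/2`, `t < j/2`, are all
`t < j`; pair: `t` and `t + r` mod `j`; the index `pI < L.length` because `x < F`, and `L.eraseIdx`; here
`b.2.1` divides `j`, so `(t + r) % b.2.1` runs through the residues as often as `t % b.2.1`). Summing over the
bundles `(v0, l, i)` of the pair `(l, p)`: every vertex `v0, …, v0 + l - 1` gets `i` for each `i ∈ p`, so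
`p.sum = k`. So the vertex `v` has degree `d_v` (`deg (gr n E) v` is the number of the ends of edges of
`E` at `v`, if all vertices in `E` are `< n`). So `deg` is `d`, and `gr` is symmetric. -/
def ValStmt : Prop := ∀ (d : List ℕ) (c : Code) (x : ℕ → ℕ), Cd d c →
  (∀ j < d.sum, x (j + 1) < F (j + 1) (cnt c (j + 1))) →
  gr d.length (edg d.sum c x) ∈ Om d

/-- BUX: the Burnside identity (from block B: BUR of helper10; bridge). -/
def BuxStmt : Prop := ∀ (d : List ℕ) (B : Fin d.length → Fin d.length → ℕ), d.Pairwise (· ≤ ·) →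
  B ∈ Om d → gsum d (fun c => Nat.card {x : Fin d.sum → ℕ //
    x ∈ Xs d.sum c ∧ Iso (gr d.length (edg d.sum c (ex x))) B}) = gam d

/-- hits of the isomorphism class of `B` -/
def Hit {n : ℕ} (M : ℕ) (S : Set (Fin n → Fin n → ℕ)) (B : Fin n → Fin n → ℕ) (y : ℕ) : Prop :=
  ∃ A ∈ S, Iso A B ∧ y = out M A

open Classical in
/-- EXB (medium, from EXS, BUX, GLN, GCD, OUI, OMB, VAL). EXACTNESS. Proof: EXS with `P y = if Hit … y then 1 else 0`
(`out ≥ 1`, so `P 0 = 0`). For a code `c` with `Cd d c` and `x ∈ Xs` let `A' = gr …`; `A' ∈ Om d` (VAL), so by OMB and OUI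
`Hit (out A') ↔ Iso A' B`. So the inner sum is the cardinality in BUX (GCD: congruence on `Cd`). -/
def ExbStmt : Prop := ∀ (K : ℕ) (d : List ℕ) (B : Fin d.length → Fin d.length → ℕ),
  d.Pairwise (· ≤ ·) → B ∈ Om d →
  ((range (TT K d)).filter (fun u => Hit d.sum (Om d) B (algo K d u))).card = SCL K d * gam d

/-- ALO (easy, from EXS, VAL, GCD, GLN). Every nonzero value of `algo` is an output of a multigraph in `Om d`. Proof: apply
EXS to `P y = if y = 0 ∨ ∃ A ∈ Om d, y = out d.sum A then 0 else 1`: by VAL (GCD, GLN) the right side is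
0. So `P (algo K d u) = 0` for all `u < TT K d`. -/
def AloStmt : Prop := ∀ (K : ℕ) (d : List ℕ) (u : ℕ), d.Pairwise (· ≤ ·) → u < TT K d →
  algo K d u = 0 ∨ ∃ A ∈ Om d, algo K d u = out d.sum A

/-! ## D4. Trials -/

open Classical in
/-- FSZ (easy/medium). The number of the `r` for which all `R` trials fail. Proof: induction on `R`;
`fst h L (R+1) r = if fst h L R r ≠ 0 then fst h L R r else h (digit R)`, `fst h L R r` depends only on
`r % 2^(L R)`; `r < 2^(L (R+1))` is `r = r' + 2^(L R) u`, `u < 2^L`. -/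
def FszStmt : Prop := ∀ (h : ℕ → ℕ) (L R : ℕ),
  ((range (2 ^ (L * R))).filter (fun r => fst h L R r = 0)).card =
    ((range (2 ^ L)).filter (fun u => h u = 0)).card ^ R

open Classical in
/-- FSP (easy/medium, similar). Proof: induction on `R`, the number `N R` of the `r < 2^(L R)` with `P (fst h L R r)`
satisfies `N (R+1) = N R * 2^L + f^R * p`, `f` = number of the `u < 2^L` with `h u = 0` (FSZ), `p` = number
of the `u` with `P (h u)` (`P 0` false). -/
def FspStmt : Prop := ∀ (h : ℕ → ℕ) (L R : ℕ) (P P' : ℕ → Prop), ¬ P 0 → ¬ P' 0 →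
  ((range (2 ^ L)).filter (fun u => P (h u))).card = ((range (2 ^ L)).filter (fun u => P' (h u))).card →
  ((range (2 ^ (L * R))).filter (fun r => P (fst h L R r))).card =
    ((range (2 ^ (L * R))).filter (fun r => P' (fst h L R r))).card

/-- FAI (easy). Proof: `f ≤ 2^L (1 - 1/(2a))`, `(1 - 1/(2a))^(2 a s) ≤ exp (-s) ≤ 2^(-s)`. -/
def FaiStmt : Prop := ∀ (L a f p s : ℕ), f + p = 2 ^ L → 2 ^ L ≤ 2 * a * p → 1 ≤ a →
  2 ^ s * f ^ (2 * a * s) ≤ 2 ^ (L * (2 * a * s))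

open Classical in
/-- FIN (medium, from RAT, EXB, ALO, FSZ, FSP, FAI). THE RESULT OF BLOCK D. Proof: `K, A` from RAT, `T = TT K d > 0`, `L = Nat.size T`,
`2^L ≤ 2 T` and `T < 2^L`. `trial K d u = algo K d u` for `u < T`, otherwise 0. First: FSP for the two
predicates `Hit … B`, `Hit … B'` (`out ≥ 1`); the numbers of the `u < 2^L` are the numbers of the `u < T`
(`Hit` of 0 is false), equal by EXB. Second: a value of `alg` is 0 or a value of `algo` (induction on the number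
of the trials), so in `out '' Om d` by ALO; so the failures are the `r` with `alg = 0`; FSZ, and FAI with
`a = (M+2)^A`, `p` = number of the `u < T` with `algo ≠ 0`, `2^L ≤ 2 T ≤ 2 a p` by RAT. -/
def FinStmt : Prop := ∀ η : ℝ, 0 < η → η < 1 / 2 → ∃ K A : ℕ, 6 ≤ K ∧
  ∀ d : List ℕ, d.Pairwise (· ≤ ·) → Good η d → ∀ s : ℕ,
  (∀ B ∈ Om d, ∀ B' ∈ Om d,
    ((range (2 ^ (Nat.size (TT K d) * RR A d s))).filter
      (fun r => Hit d.sum (Om d) B (alg K A d s r))).card =
    ((range (2 ^ (Nat.size (TT K d) * RR A d s))).filter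
      (fun r => Hit d.sum (Om d) B' (alg K A d s r))).card) ∧
  2 ^ s * ((range (2 ^ (Nat.size (TT K d) * RR A d s))).filter
      (fun r => ¬ ∃ A' ∈ Om d, alg K A d s r = out d.sum A')).card ≤
    2 ^ (Nat.size (TT K d) * RR A d s)

end Pool.Agent.UMG
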