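import Pool.Agent.UMG.AlgDefs

/-!
# Squad UMG, the final statement
-/

set_option autoImplicit false

namespace Pool.Agent.UMG

open Finset

/-- the result of block C -/
def PgmStmt : Prop := ∀ K A : ℕ, ∃ (p : Prog) (C : ℕ), ∀ (d : List ℕ) (s r : ℕ),
  eval p (env d s r) = alg K A d s r ∧
  time p (env d s r) ≤ (d.length + d.sum + s + Nat.size r + 2) ^ C

/-- the size of the total number -/
def SttStmt : Prop := ∀ K : ℕ, ∃ C : ℕ, ∀ d : List ℕ,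
  Nat.size (TT K d) ≤ (d.length + d.sum + 2) ^ C

/-- the theorem -/
def ResStmt : Prop := ∀ η : ℝ, 0 < η → η < 1 / 2 → ∃ (e : Prog) (C D : ℕ),
  ∀ d : List ℕ, d.Pairwise (· ≤ ·) → Even d.sum →
  (∀ k ∈ d, 3 ≤ k ∧ (k : ℝ) ≤ (d.sum : ℝ) ^ (1 / 2 - η)) → ∀ s : ℕ,
  (∀ r < 2 ^ (d.length + d.sum + s + 2) ^ C,
    time e (env d s r) ≤ (d.length + d.sum + s + 2) ^ D) ∧
  (∀ A ∈ Om d, ∀ B ∈ Om d, hits e d s ((d.length + d.sum + s + 2) ^ C) A =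
    hits e d s ((d.length + d.sum + s + 2) ^ C) B) ∧
  2 ^ s * fails e d s ((d.length + d.sum + s + 2) ^ C) ≤ 2 ^ (d.length + d.sum + s + 2) ^ C

end Pool.Agent.UMG
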