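import Pool.Agent.UMG.DefsA

/-!
# Squad UMG (MP_34c13a_lc, Theorem X), BLOCK A: the analysis

namespace for rows `Pool.Agent.UMG.A.HNN`; every row is `theorem xxx : XxxStmt` (with the statements of
the column `uses` as hypotheses). Note 4031 has the proof in words.

Conventions. `E w n` is the coefficient of `T^n` in `exp (∑ w_l T^l / l)`. `M` is always the sum of
the degrees. The functional `Phi J f` maps the monomial with exponents `C` to `∏_{1 ≤ j ≤ J} f j (C j)`.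
-/

set_option autoImplicit false

namespace Pool.Agent.UMG

open Finset

/-! ## A1. Calculus of `E` -/

/-- ADD (easy). Proof: let `S n` be the right-hand side. Then `n S n = ∑_{a+b=n} (a + b) E w a E w' b`,
and `a E w a = ∑_{l=1}^{a} w_l E w (a-l)`, `b E w' b = ∑_l w'_l E w' (b-l)`, so
`n S n = ∑_{l=1}^n (w_l + w'_l) S (n-l)`. Also `S 0 = 1`. Strong induction on `n` (the definition of `E`
divides by `n+1`, which is invertible in a `ℚ`-algebra). -/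
def AddStmt : Prop := ∀ (R : Type) [CommRing R] [Algebra ℚ R] (w w' : ℕ → R) (n : ℕ),
  E (fun l => w l + w' l) n = ∑ r ∈ range (n + 1), E w r * E w' (n - r)

/-- EVC (easy). `E` commutes with ring homomorphisms. Proof: strong induction; a ring homomorphism
between `ℚ`-algebras is `ℚ`-linear (`map_rat_smul`, `RingHom.toRatAlgHom`). -/
def EvcStmt : Prop := ∀ (R S : Type) [CommRing R] [Algebra ℚ R] [CommRing S] [Algebra ℚ S]
  (φ : R →+* S) (w : ℕ → R) (n : ℕ), φ (E w n) = E (fun l => φ (w l)) n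

/-- MON (easy). Monotonicity; only `w 1, …, w n` matter. Proof: strong induction. -/
def MonStmt : Prop := ∀ (w w' : ℕ → ℝ) (n : ℕ), (∀ l, 1 ≤ l → l ≤ n → 0 ≤ w l ∧ w l ≤ w' l) →
  0 ≤ E w n ∧ E w n ≤ E w' n

/-- SCL (easy). Proof: strong induction. -/
def SclStmt : Prop := ∀ (c : ℝ) (w : ℕ → ℝ) (n : ℕ), E (fun l => c ^ l * w l) n = c ^ n * E w n

/-- ONE (easy). Proof: strong induction. -/
def OneStmt : Prop := ∀ (R : Type) [CommRing R] [Algebra ℚ R] (n : ℕ), E (fun _ => (1 : R)) n = 1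

/-- SNG (easy). Only fixed points. Proof: induction. -/
def SngStmt : Prop := ∀ (u : ℝ) (n : ℕ),
  E (fun l => if l = 1 then u else 0) n = u ^ n / (n.factorial : ℝ)

/-- CST (easy). Proof: `E (n+1) = (β + n) / (n + 1) * E n` for the constant weight `β`: subtract the
recursions for `n+1` and `n`. So `E k = β (β+1) ⋯ (β+k-1) / k! ≤ (β + k)^k / k!`. -/
def CstStmt : Prop := ∀ (β : ℝ) (k : ℕ), 0 ≤ β →
  E (fun _ => β) k ≤ (β + k) ^ k / (k.factorial : ℝ)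

/-- SHI (easy). Proof: in `(n+1) E w (n+1) = ∑_l w_l E w (n+1-l)` keep the term `l = 1`:
`w_1 E w n ≤ (n+1) E w (n+1)`. Iterate `r` times; every factor is at most `n`. -/
def ShiStmt : Prop := ∀ (w : ℕ → ℝ) (n r : ℕ), (∀ l, 0 ≤ w l) → r ≤ n →
  w 1 ^ r * E w (n - r) ≤ (n : ℝ) ^ r * E w n

/-- EXP (medium). Proof: `E w r`, `r ≤ n`, does not change if `w_l` is replaced by `0` for `l > n`
(or `l = 0`). Let `w^(m)` be `w` with `w_l` replaced by `0` for `l > m`. Claim: for all `N`,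
`∑_{r ≤ N} E w^(m) r t^r ≤ exp (∑_{l ≤ m} w_l t^l / l)`. Induction on `m`. `m = 0`: `E 0 r = 0` for
`r ≥ 1`. Step: `w^(m+1) = w^(m) + v` with `v` supported at `l = m+1`; `E v r = (w_{m+1}/(m+1))^q / q!`
if `r = q (m+1)` and `0` otherwise (induction), so `∑_{r ≤ N} E v r t^r ≤ exp (w_{m+1} t^{m+1}/(m+1))`
(partial sum of the exponential series), and by ADD
`∑_{r ≤ N} E w^(m+1) r t^r ≤ (∑_{a ≤ N} E w^(m) a t^a) (∑_{b ≤ N} E v b t^b)`.
(Other proof: `f(t) = ∑_{r ≤ n} E w r t^r` satisfies `f' ≤ (∑_{l ≤ n} w_l t^(l-1)) f`, `f 0 = 1`.) -/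
def ExpStmt : Prop := ∀ (w : ℕ → ℝ) (n : ℕ) (t : ℝ), (∀ l, 0 ≤ w l) → 0 ≤ t →
  ∑ r ∈ range (n + 1), E w r * t ^ r ≤ Real.exp (∑ l ∈ Icc 1 n, w l * t ^ l / l)

/-- CMB (easy from ADD, SHI, EXP). Proof: with `t = n / w 1`:
`E (w + w') n = ∑_r E w' r E w (n - r) ≤ ∑_r E w' r t^r E w n` by SHI (divide by `w 1 ^ r`), then
EXP for `w'`. -/
def CmbStmt : Prop := ∀ (w w' : ℕ → ℝ) (n : ℕ), (∀ l, 0 ≤ w l) → (∀ l, 0 ≤ w' l) → 0 < w 1 →
  E (fun l => w l + w' l) n ≤ E w n * Real.exp (∑ l ∈ Icc 1 n, w' l * ((n : ℝ) / w 1) ^ l / l)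

/-- LOW (easy). Proof: keep the term `l = 1` in the recursion, `(n+1) E w (n+1) ≥ w_1 E w n`, induction
(or MON + SNG). -/
def LowStmt : Prop := ∀ (w : ℕ → ℝ) (n : ℕ), (∀ l, 0 ≤ w l) →
  w 1 ^ n / (n.factorial : ℝ) ≤ E w n

/-! ## A2. The integer recursions and the polynomial -/

/-- EIN (easy). Proof: strong induction on `k`; `descFactorial k i * (k-i)! = k!` and
`(k+1) hh (k+1) = ∑_i x (l (i+1)) hh (k-i)`. -/
def EinStmt : Prop := ∀ (R : Type) [CommRing R] [Algebra ℚ R] (x : ℕ → R) (l k : ℕ),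
  Eint x l k = (k.factorial : R) * hh x l k

/-- AIN (medium). Proof: strong induction on the length. `d = k :: t`, `m = t.count k`; since `d` is
sorted, `t = replicate m k ++ t'` with all entries of `t'` larger than `k`, and
`t.drop i = replicate (m-i) k ++ t'` for `i ≤ m`. For `a` in `0..m+1`:
`gam (replicate a k ++ t') = a! (k!)^a gam t'`, `PP x (replicate a k ++ t') = aa x k a * PP x t'`
(`aa x k 0 = 1`). By the induction hypothesis and EIN, `Aint x d = ∑_{i ≤ m} m!/(m-i)! (k!)^i (k!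
hh x (i+1) k) (m-i)! (k!)^(m-i) gam t' aa x k (m-i) PP x t'
= m! (k!)^(m+1) gam t' PP x t' ∑_i hh x (i+1) k aa x k (m-i)` and the sum is `(m+1) aa x k (m+1)`. -/
def AinStmt : Prop := ∀ (R : Type) [CommRing R] [Algebra ℚ R] (x : ℕ → R) (d : List ℕ),
  d.Pairwise (· ≤ ·) → Aint x d = (gam d : R) * PP x d

/-- GWT (easy). Proof: `wt x ((l, p) :: c) = (p.map (fun i => x (l * i))).prod * wt x c` (the sizes of
the bundles do not depend on the first vertex), `csum k (fun p => (p.map (fun i => x (l * i))).prod * A)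
= Eint x l k * A`, and `gsum` is linear. Strong induction on the length of `d`. -/
def GwtStmt : Prop := ∀ (R : Type) [CommRing R] (x : ℕ → R) (d : List ℕ),
  gsum d (wt x) = Aint x d

/-- PHG (medium). Proof: `Phi J f` is `ℝ`-linear (write it as `Finsupp.sum` / `MvPolynomial.sum_def` of a
linear function of the coefficients), `wt Xv c` is the monomial with the exponents `cnt c j` and
coefficient 1, so `Phi J f (wt Xv c) = ∏ f (j+1) (cnt c (j+1))`. `Phi J f (gsum d Ψ) =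
gsum d (Phi J f ∘ Ψ)` by strong induction (same for `csum`). -/
def PhgStmt : Prop := ∀ (J : ℕ) (f : ℕ → ℕ → ℝ) (d : List ℕ),
  gsum d (fun c => ∏ j ∈ range J, f (j + 1) (cnt c (j + 1))) = Phi J f (gsum d (wt Xv))

/-- EVP (easy from EVC). Proof: `MvPolynomial.eval y` is a ring homomorphism; EVC three times. -/
def EvpStmt : Prop := ∀ (K : ℕ) (y : ℕ → ℝ) (d : List ℕ),
  MvPolynomial.eval y (PP Xv d) = PP y d ∧ MvPolynomial.eval y (PS K Xv d) = PS K y d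

/-- PHO (medium). The polynomials are weighted homogeneous of degree `d.sum`, do not contain the
variable `0`, and `PS` contains only the variables up to `K`. Proof: `hh Xv l k` is weighted
homogeneous of weighted degree `l * k` for `l ≥ 1` (strong induction on `k`), `E w n` is weighted
homogeneous of weighted degree `n * k` if `w_l` has weighted degree `l * k` for `l ≥ 1`; products; and
`∑_{k ∈ toFinset} k * count k = d.sum`. Same for `ws` (`ws K Xv k l` is 0 or weighted homogeneous of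
degree `l * k`). The variables which occur are `l * i` with `l, i ≥ 1`, for `PS` only `i ≤ K`, and `2, 4,
6 ≤ K`. (A zero polynomial has empty support.) -/
def PhoStmt : Prop := ∀ (K : ℕ) (d : List ℕ), 6 ≤ K →
  (∀ C ∈ (PP Xv d).support, (C.sum fun i c => i * c) = d.sum ∧ C 0 = 0) ∧
  (∀ C ∈ (PS K Xv d).support, (C.sum fun i c => i * c) = d.sum ∧ C 0 = 0 ∧ ∀ i, K < i → C i = 0)

/-- PNN (medium). Proof: write `p ≤ q` if all coefficients satisfy it; `0 ≤ p ≤ p'`, `0 ≤ q ≤ q'` give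
`0 ≤ p q ≤ p' q'` (`MvPolynomial.coeff_mul`). Hence `0 ≤ w_l ≤ w'_l` for `1 ≤ l ≤ n` gives
`0 ≤ E w n ≤ E w' n` (strong induction). Apply it to `x_{≤ K} ≤ x`, then to `ws K Xv k ≤ hh Xv · k`,
then to the product. -/
def PnnStmt : Prop := ∀ (K : ℕ) (d : List ℕ) (C : ℕ →₀ ℕ),
  0 ≤ (PS K Xv d).coeff C ∧ (PS K Xv d).coeff C ≤ (PP Xv d).coeff C

/-- TOP (medium, from PHO, EVP, SNG). Proof: put `x_1 = 1` and `x_i = 0` for `i ≠ 1`. By PHO the only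
monomial of `PP Xv d` which contains only `x_1` is `x_1^M`, so the value is the coefficient. On the other
side `hh x 1 k = 1 / k!`, `hh x l k = 0` for `l ≥ 2` (`k ≥ 1`), so the value is
`∏_k (1/k!)^(n_k) / n_k! = 1 / gam d`. -/
def TopStmt : Prop := ∀ (d : List ℕ), (∀ k ∈ d, 1 ≤ k) →
  (PP Xv d).coeff (Finsupp.single 1 d.sum) = 1 / (gam d : ℝ)

/-! ## A3. The numbers `F`, the majorant and the tangents -/

/-- SQB (easy). Proof: `sq M j i = (Nat.sqrt (Q² j i) + 1) / Q + [2 ∣ j] / 2`, `Q = M + 1`, and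
`Nat.sqrt X ≤ √X < Nat.sqrt X + 1`, `√(Q² j i) = Q √(j i)`. -/
def SqbStmt : Prop := ∀ (M j i : ℕ),
  Real.sqrt (j * i) + (if 2 ∣ j then 1 / 2 else 0) < sq M j i ∧
  sq M j i ≤ Real.sqrt (j * i) + (if 2 ∣ j then 1 / 2 else 0) + 1 / ((M : ℝ) + 1)

/-- SQM (easy). Proof: `Bn` is monotone in `i` and at least 2. -/
def SqmStmt : Prop := ∀ (M j i i' : ℕ), i ≤ i' → 0 < sq M j i ∧ sq M j i ≤ sq M j i'

/-- FUP (easy from SQB). Proof: induction in steps of two. `F 0 = 1`, `F 1 ≤ 1`. With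
`u = √(j(c+1))`, `v = √(j(c+2))`: `j` odd: `F (c+2) = (c+1) j F c ≤ u v F c`. `j` even (`j ≥ 2`): claim
`F c ≤ p_c := ∏_{i ≤ c} (√(j i) + 1/2)`, and `p_{c+2} ≥ p_{c+1} + (c+1) j p_c` because
`(v + 1/2)(u + 1/2) - (u + 1/2) - u² = u (v - u) + (v - u)/2 - 1/4` and
`u (v - u) = j u / (u + v) ≥ j / 3 ≥ 1/4` (as `v ≤ 2 u`). -/
def FupStmt : Prop := ∀ (M j c : ℕ), 1 ≤ j → Fr j c ≤ Fh M j c

/-- FLO (medium from SQB). Proof: `Fh M j c ≤ (1 + 1/Q)^c p_c ≤ 3 p_c`, `Q = M + 1 > c`,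
`p_c = ∏_{i=1}^c (√(j i) + [2 ∣ j]/2)` (each factor of `p_c` is at least 1; `(1 + 1/Q)^c ≤ exp (c/Q) ≤ e < 3`).
Claim `p_c ≤ j (c+1) F c` (`c` even if `j` is odd). `p_0 = 1 = F 0`. Odd `j`, step of two:
`p_{c+2} = j √((c+1)(c+2)) p_c ≤ j (c+2) p_c ≤ j (c+2) · j (c+1) F c = j (c+2) F (c+2)`. Even `j`: `p_1 = √j + 1/2 ≤ 2 j`, and with
`u = √(j(c+1))`, `v = √(j(c+2))`: `p_{c+2} = (v + 1/2)(u + 1/2) p_c` and we want
`p_{c+2}/(c+3) ≤ p_{c+1}/(c+2) + (c+1) j p_c/(c+1)` (then induction in steps of two, dividing by `j`),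
which follows from `(v + 1/2)(u + 1/2) ≤ (u + 1/2) + u² (c+3)/(c+1) = (u + 1/2) + u² + 2 j`:
the difference `(v + 1/2)(u + 1/2) - (u + 1/2) - u² = u (v - u) + (v - u)/2 - 1/4 ≤ j/2 + j/2`
(`u (v-u) = j u/(u+v) ≤ j/2`, `v - u = j/(u+v) ≤ j`). -/
def FloStmt : Prop := ∀ (M j c : ℕ), 1 ≤ j → c ≤ M → (2 ∣ j ∨ 2 ∣ c) →
  Fh M j c ≤ 3 * j * ((c : ℝ) + 1) * Fr j c

/-- TAN (easy from SQM). Proof: for all `b, c` the term `ct M j b * s_{b+1}^c` is at most `Fh M j c`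
(`s_i = sq M j i` is increasing and positive): if `b ≤ c` then `Fh c = Fh b ∏_{i=b+1}^c s_i ≥
Fh b s_{b+1}^(c-b)`; if `c < b` then `Fh b = Fh c ∏_{i=c+1}^b s_i ≤ Fh c s_{b+1}^(b-c)`. There are `M+1`
terms; the term `b = c` equals `Fh M j c`. -/
def TanStmt : Prop := ∀ (M j c : ℕ), c ≤ M → Fh M j c ≤ Gr M j c ∧ Gr M j c ≤ ((M : ℝ) + 1) * Fh M j c

/-- CTB (easy from SQM). Proof: `Fh M j b = ∏_{i=1}^b s_i ≤ s_{b+1}^b`. -/
def CtbStmt : Prop := ∀ (M j b : ℕ), 0 ≤ ct M j b ∧ ct M j b ≤ 1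

/-- BET (easy from SQB). Proof: for `1 ≤ i ≤ c`: `sq M j i ≤ √M + 1/2 + 1/(M+1) ≤ √M + 1 ≤ Nat.sqrt M + 2`
(`M ≥ j c ≥ 1`). -/
def BetStmt : Prop := ∀ (M j c : ℕ), 1 ≤ j → j * c ≤ M → Fh M j c ≤ (be M : ℝ) ^ c

/-- F1L (medium, from FLO, SQB). Proof: `Fh M 1 M ≥ ∏_{i ≤ M} √i = √(M!)` and `M! ≥ (M/e)^M`
(`M^M/M! ≤ exp M`), and FLO with `j = 1`, `c = M` even. -/
def F1lStmt : Prop := ∀ (M : ℕ), Even M →
  (Real.sqrt M / Real.exp (1 / 2)) ^ M ≤ 3 * ((M : ℝ) + 1) * Fr 1 M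

/-! ## A4. The two normal forms and the estimates -/

/-- NFA (medium, from MON, SCL, CMB, LOW). Proof: for `k ∈ d` let `n = n_k`, `u = ws K x k 1 =
E (x_{≤ K}) k ≥ x_1^k / k!` (LOW), `δ = ∑_{K < i ≤ k} x_i (k/x_1)^i / i`. By CMB (with `w = x_{≤ K}`,
`w' = x_{> K}`; set `x_0 := 0`, it does not matter) `hh x 1 k ≤ e^δ u`. So for every `l ≥ 1`:
`hh x l k ≤ (e^δ)^l (ws K x k l + w'_l)`, where `w'_l = 0` if `l = 1` or `(l,k) = (2,3)`, else `hh x l k`.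
MON, SCL, CMB: `aa x k n ≤ e^(δ n) E (ws K x k) n exp (∑_{l=2}^n w'_l (n/u)^l / l)` and
`n/u ≤ n k!/x_1^k`. Multiply over `k ∈ d.toFinset`; `∑_{k ∈ toFinset} n_k δ_k = (d.map δ).sum`. -/
def NfaStmt : Prop := ∀ (K : ℕ) (x : ℕ → ℝ) (d : List ℕ), 1 ≤ K → (∀ i, 0 ≤ x i) → 0 < x 1 →
  PP x d ≤ PS K x d * Real.exp (AA K x d)

/-- NFB (medium, from MON, SCL, CMB, LOW, SNG). Proof: as NFA with `K = 1` and without the exception
`(2,3)`: `hh x 1 k ≤ e^δ x_1^k/k!`, `δ = ∑_{2 ≤ i ≤ k} x_i (k/x_1)^i / i`, so with `u = x_1^k/k!`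
`aa x k n ≤ e^(δ n) (u^n / n!) exp (∑_{l=2}^n hh x l k (n/u)^l / l)`; the product of the `u^n / n!` is
`x_1^M / gam d` (`∑_{k ∈ toFinset} k n_k = d.sum`). -/
def NfbStmt : Prop := ∀ (x : ℕ → ℝ) (d : List ℕ), (∀ i, 0 ≤ x i) → 0 < x 1 →
  PP x d ≤ x 1 ^ d.sum / (gam d : ℝ) * Real.exp (AB x d)

/-- the ratio in the estimates: `e^k k! M^(1-k/2)` -/
noncomputable def qk (M k : ℕ) : ℝ :=
  Real.exp 1 ^ k * (k.factorial : ℝ) * (M : ℝ) / Real.sqrt M ^ k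

/-- hypotheses for the fields in the estimates -/
def Fld (K M : ℕ) (x : ℕ → ℝ) : Prop :=
  (∀ i, 0 ≤ x i) ∧ (∀ i, 1 ≤ i → i ≤ M → x i ≤ (K : ℝ) * Real.sqrt M) ∧
    Real.sqrt M / Real.exp 1 ≤ x 1

/-- TRM (medium, from MON, CST). Proof: `n = n_k ≤ M/k`, and `l k ≤ n k ≤ M`. By MON and CST (the values
`x (l i)`, `1 ≤ i ≤ k`, have index at most `M`) `hh x l k ≤ (K √M + k)^k / k! ≤ ((K+1) √M)^k / k!`
(`k ≤ √M`). `n k!/x_1^k ≤ M k! (e/√M)^k / k ≤ qk M k`. So the term is at most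
`((K+1) √M)^k / k! · (qk)^l = ((K+1) √M)^k / k! · qk · (qk)^(l-1) = ((K+1) e)^k M (qk)^(l-1)`. -/
def TrmStmt : Prop := ∀ (K : ℕ) (x : ℕ → ℝ) (d : List ℕ) (k l : ℕ), Fld K d.sum x → 0 < d.sum →
  1 ≤ k → (k : ℝ) ≤ Real.sqrt d.sum → 2 ≤ l → l ≤ d.count k →
  hh x l k * ((d.count k : ℝ) * (k.factorial : ℝ) / x 1 ^ k) ^ l / l ≤
    (((K : ℝ) + 1) * Real.exp 1) ^ k * d.sum * qk d.sum k ^ (l - 1)

/-- QKS (medium/hard). The big degrees contribute little. Proof: let `a = (K+1) e`,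
`f k = a^k M qk M k = (a e)^k k! M² / √M^k`. For `5 ≤ k < 8/η`: `f k ≤ c M^(-1/2)` with
`c = (a e)^k k!` (bounded, finitely many `k`). For `k ≥ 8/η`: `k! ≤ k^k ≤ (M^(1/2-η))^k`, so
`f k ≤ M² (a e M^(-η))^k ≤ M² M^(-η k/2) ≤ M^(-2)` if `a e ≤ M^(η/2)`; there are at most `M` such `k`.
So the sum over all `k ≤ M^(1/2-η)` tends to 0, and each `qk M k ≤ f k` is small. For `k = 3, 4`:
`qk M 3 = 6 e³/√M`, `qk M 4 = 24 e⁴/M`. -/
def QksStmt : Prop := ∀ (η : ℝ) (K : ℕ), 0 < η → η < 1 / 2 → ∃ M0 : ℕ, ∀ M : ℕ, M0 ≤ M →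
  (∀ k : ℕ, 3 ≤ k → (k : ℝ) ≤ (M : ℝ) ^ (1 / 2 - η) → qk M k ≤ 1 / 2) ∧
  ∑ k ∈ (Icc 5 M).filter (fun k : ℕ => (k : ℝ) ≤ (M : ℝ) ^ (1 / 2 - η)),
    (((K : ℝ) + 1) * Real.exp 1) ^ k * M * qk M k ≤ 1

/-- SEC (medium, from TRM, QKS). The second parts of the exponents. Proof: `a = (K+1) e`; for `k ≥ 5` the sum
over `l ≥ 2` of the bound of TRM is at most `2 a^k M qk` (geometric series, `qk ≤ 1/2`), the sum over
`k ≥ 5` at most 2 by QKS (`k ∈ d` gives `3 ≤ k ≤ M^(1/2-η) ≤ √M`, `k ≤ M`). `k = 4`: at most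
`2 a⁴ M qk M 4 = 48 a⁴ e⁴`. `k = 3`: `l ≥ 3`: at most `2 a³ M (qk M 3)² = 72 a³ e⁶`; `l = 2`: at most
`a³ M qk M 3 = 6 a³ e³ √M`. So `C = 2 + 48 a⁴ e⁴ + 72 a³ e⁶ + 6 a³ e³` works. -/
def SecStmt : Prop := ∀ (η : ℝ) (K : ℕ), 0 < η → η < 1 / 2 → ∃ C : ℝ, ∃ M0 : ℕ,
  ∀ (d : List ℕ) (x : ℕ → ℝ), Good η d → M0 ≤ d.sum → Fld K d.sum x →
  (∑ k ∈ d.toFinset, ∑ l ∈ Icc 2 (d.count k), if l = 2 ∧ k = 3 then 0 else
      hh x l k * ((d.count k : ℝ) * (k.factorial : ℝ) / x 1 ^ k) ^ l / l) ≤ C ∧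
  (∑ k ∈ d.toFinset, ∑ l ∈ Icc 2 (d.count k),
      hh x l k * ((d.count k : ℝ) * (k.factorial : ℝ) / x 1 ^ k) ^ l / l) ≤ C * Real.sqrt d.sum

/-- FIR (medium). The first parts of the exponents. Proof: `k ∈ d`, `k/x_1 ≤ e k/√M ≤ e M^(-η) =: ρ ≤ 1/2`
for `M ≥ M0`. First: `∑_{i > K} x_i (k/x_1)^i / i ≤ K √M · 2 ρ^(K+1)`, at most `M` entries of `d`, so the
sum is at most `2 K e^(K+1) M^(3/2 - η(K+1)) ≤ 2 K e^(K+1)` as `η (K+1) ≥ 2`. Second: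
`∑_{i=2}^k x_i (k/x_1)^i / i ≤ K √M · 2 (e k/√M)² ≤ 2 K e² k M^(1/2-η) / √M` and `∑_{k ∈ d} k = M`: the
sum is at most `2 K e² M^(1-η)`. -/
def FirStmt : Prop := ∀ (η : ℝ) (K : ℕ), 0 < η → η < 1 / 2 → 2 ≤ η * K → ∃ C : ℝ, ∃ M0 : ℕ,
  ∀ (d : List ℕ) (x : ℕ → ℝ), Good η d → M0 ≤ d.sum → Fld K d.sum x →
  (d.map (fun k => ∑ i ∈ Ico (K + 1) (k + 1), x i * ((k : ℝ) / x 1) ^ i / i)).sum ≤ C ∧
  (d.map (fun k => ∑ i ∈ Icc 2 k, x i * ((k : ℝ) / x 1) ^ i / i)).sum ≤ C * (d.sum : ℝ) ^ (1 - η)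

/-- EST (easy from SEC, FIR). Proof: add; `√M ≤ M^(1-η)` as `η < 1/2`, `M ≥ 1`. -/
def EstStmt : Prop := ∀ (η : ℝ) (K : ℕ), 0 < η → η < 1 / 2 → 2 ≤ η * K → ∃ C : ℝ, ∃ M0 : ℕ,
  0 ≤ C ∧ ∀ (d : List ℕ) (x : ℕ → ℝ), Good η d → M0 ≤ d.sum → Fld K d.sum x →
  AA K x d ≤ C ∧ AB x d ≤ C * (d.sum : ℝ) ^ (1 - η)

/-- FLD (easy from SQB, SQM). The grid fields are at most `K √M` and positive. Proof: `M ≥ 3`, `K ≥ 6`: for `j ≤ K`:
`sq M j (b+1) ≤ √(K (M+1)) + 1/2 + 1/4 ≤ √(2 K M) + √M ≤ K √M` (`√(2K) + 1 ≤ K`);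
`be M ≤ √M + 2 ≤ 3 √M` (`j = 0` also). -/
def FldStmt : Prop := ∀ (K M : ℕ) (b : ℕ → ℕ) (j : ℕ), 6 ≤ K → 3 ≤ M → (∀ i, b i ≤ M) →
  0 < fld M K b j ∧ fld M K b j ≤ (K : ℝ) * Real.sqrt M

/-! ## A5. The grid, parity, assembly -/

/-- digit number `j` of `g` in base `M + 1` -/
def dg (M g j : ℕ) : ℕ := g / (M + 1) ^ j % (M + 1)

/-- product of the coefficients of the tangents at the grid point `g` -/
noncomputable def ctp (M K g : ℕ) : ℝ := ∏ j ∈ range K, ct M (j + 1) (dg M g j)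

/-- the field at the grid point `g` -/
noncomputable def fg (M K g : ℕ) : ℕ → ℝ := fld M K (fun j => dg M g (j - 1))

/-- DGT (easy). Sum over the grid of products. Proof: induction on `K`; `g < (M+1)^(K+1)` is
`g = g' + (M+1)^K b`, `g' < (M+1)^K`, `b ≤ M`. -/
def DgtStmt : Prop := ∀ (M K : ℕ) (φ : ℕ → ℕ → ℝ),
  ∑ g ∈ range ((M + 1) ^ K), ∏ j ∈ range K, φ j (dg M g j) = ∏ j ∈ range K, ∑ b ∈ range (M + 1), φ j b

/-- GRD (medium, from DGT). Proof: both sides are linear in `p`; for the monomial with exponents `C`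
(`C 0 = 0`, `C i = 0` for `i > K + M`) the left side is `∏_{j<K} (∑_b ct M (j+1) b · sq M (j+1) (b+1)^(C (j+1))) ·
∏_{K ≤ j < K+M} β^(C (j+1))` and DGT. -/
def GrdStmt : Prop := ∀ (M K : ℕ) (p : MvPolynomial ℕ ℝ),
  (∀ C ∈ p.support, C 0 = 0 ∧ ∀ i, K + M < i → C i = 0) →
  Phi (K + M) (G M K) p = ∑ g ∈ range ((M + 1) ^ K), ctp M K g * MvPolynomial.eval (fg M K g) p

/-- the class of polynomials for the parity argument -/
def Cls (j : ℕ) (p : MvPolynomial ℕ ℝ) : Prop :=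
  (∀ C, 0 ≤ p.coeff C) ∧ ∀ C : ℕ →₀ ℕ,
    (j : ℝ) * ((C j : ℝ) + 1) * p.coeff (C + Finsupp.single j 1) ≤
      ((C 1 + j).descFactorial j : ℝ) * p.coeff (C + Finsupp.single 1 j)

/-- PCL (medium). The class is closed under products. Proof: the condition says that the coefficients of
`∂_1^j p - j ∂_j p` are nonnegative (`MvPolynomial.coeff_pderiv` or by hand: the coefficient of
`∂_1^j p` at `C` is `(C_1+j)!/C_1! p_(C + j e_1)`). Leibniz: `∂_1^j (p q) - j ∂_j (p q) =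
(∂_1^j p - j ∂_j p) q + p (∂_1^j q - j ∂_j q) + ∑_{0<i<j} C(j,i) (∂_1^i p) (∂_1^(j-i) q)`, all with
nonnegative coefficients (`j ≥ 2`; in fact `j ≥ 1` is enough for the sum to make sense). -/
def PclStmt : Prop := ∀ (j : ℕ) (p q : MvPolynomial ℕ ℝ), 2 ≤ j → Cls j p → Cls j q → Cls j (p * q)

/-- DER (medium). Proof: `∂_j E(x) k = (1/j) E(x) (k-j)` (`0` if `k < j`): strong induction on `k`; or with
the coefficients: the coefficient of `E(x) k` at `C` is `∏_i 1/(i^(C_i) C_i!)` if `∑ i C_i = k`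
(and `C_0 = 0`), otherwise 0. Hence equality in `Cls` for the weights `x_{≤ K}`, `3 ≤ j ≤ K`. For
`hh Xv 2 3` (variables `2, 4, 6` only, `j` odd) both sides are 0. -/
def DerStmt : Prop := ∀ (K j k : ℕ), 3 ≤ j → j ≤ K → ¬ 2 ∣ j →
  Cls j (E (fun i => if i ≤ K then Xv i else 0) k) ∧ Cls j (hh Xv 2 3)

/-- PAR (easy from PCL, DER). Proof: `Cls j` contains the nonnegative constants, is closed under sums and
products, so under `E w n` if all `w_l`, `l ≥ 1`, are in it (strong induction), and under finite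
products. -/
def ParStmt : Prop := ∀ (K j : ℕ) (d : List ℕ), 3 ≤ j → j ≤ K → ¬ 2 ∣ j → Cls j (PS K Xv d)

/-- all `C_i` with `i` odd, `3 ≤ i < t`, are even -/
def Ev (t : ℕ) (C : ℕ →₀ ℕ) : Prop := ∀ i, 3 ≤ i → i < t → ¬ 2 ∣ i → 2 ∣ C i

open Classical in
/-- the part of `Phi (K + M) (Fh M) (PS K Xv d)` with the condition `Ev t` -/
noncomputable def Pht (K t : ℕ) (d : List ℕ) : ℝ :=
  ∑ C ∈ (PS K Xv d).support.filter (Ev t),
    (PS K Xv d).coeff C * ∏ j ∈ range (K + d.sum), Fh d.sum (j + 1) (C (j + 1))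

/-- PST (hard, from PAR, PNN, PHO, SQB, SQM). One parity step. Proof: `j` even: `Ev j` and `Ev (j+1)` are the
same. `j` odd: the `C` with `Ev j` and `C_j` even have `Ev (j+1)`. For `C` with `Ev j` and `C_j` odd let
`C' = C - e_j + j e_1`; then `Ev (j+1) C'`, the map is injective, and `p_C Fh(C) ≤ 2 (M+1)^j p_{C'} Fh(C')`
(so `C'` is in the support if `p_C Fh(C) > 0`): `Cls j` at `C - e_j`: `j C_j p_C ≤ (C_1+j)!/C_1! p_{C'}`, and
`Fh(C)/Fh(C') = sq M j (C_j) / ∏_{i=1}^j sq M 1 (C_1+i) ≤ sq M j (C_j) ≤ √(j C_j) + 1 ≤ 2 j C_j` (`sq M 1 i ≥ 1`),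
`(C_1+j)!/C_1! ≤ (C_1+j)^j ≤ M^j` as `C_1 + j ≤ ∑ i C_i = M`. Total factor `1 + 2 (M+1)^j ≤ 3 (M+1)^K`. -/
def PstStmt : Prop := ∀ (K j : ℕ) (d : List ℕ), 6 ≤ K → 3 ≤ j → j ≤ K →
  Pht K j d ≤ 3 * ((d.sum : ℝ) + 1) ^ K * Pht K (j + 1) d

/-- PFX (medium, from PST, FLO, PNN, PHO). Proof: `Pht K 3 d` is `Phi (K+M) (Fh M) (PS)`, as `Ev 3` is no
condition; PST for `j = 3, …, K` gives `Pht K 3 d ≤ (3 (M+1)^K)^K Pht K (K+1) d` (`Pht ≥ 0`; factor at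
least 1). If `Ev (K+1) C` and `C` in the support, then `C_1` is even too: `M = ∑ i C_i` is even, the
terms with `i` even are even, those with odd `i ≥ 3` also (`C_i = 0` for `i > K`). So FLO applies to every
`1 ≤ i ≤ K` (`C_i ≤ M`): `Fh M i (C_i) ≤ 3 K (M+1) F i (C_i)`, and for `i > K` both are 1. -/
def PfxStmt : Prop := ∀ (K : ℕ) (d : List ℕ), 6 ≤ K → Even d.sum →
  Phi (K + d.sum) (Fh d.sum) (PS K Xv d) ≤
    (3 * ((d.sum : ℝ) + 1) ^ K) ^ K * (3 * K * ((d.sum : ℝ) + 1)) ^ K *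
      Phi (K + d.sum) Fr (PS K Xv d)

/-- GPA (medium, from GRD, TAN, PHO, PNN, PFX, EVP). The good part. Proof: `fg M K g > 0`, so `PS K (fg) d ≥ 0`, all `ctp ≥ 0`
(`Fh`, `sq` positive), hence the partial sum is at most the full sum `Phi (K+M) (G M K) (PS K Xv d)`
(GRD, PHO, EVP). For `C` in the support of `PS K Xv d`: `G M K j (C_j) ≤ (M+1) Fh M j (C_j)` for
`1 ≤ j ≤ K` (TAN, `C_j ≤ M`), and both are 1 for `j > K` (`C_j = 0`). So it is at most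
`(M+1)^K Phi (K+M) (Fh M) (PS)`; PFX; and `Phi Fr (PS) ≤ Phi Fr (PP)` by PNN (`Fr ≥ 0`; extend the sums
to the union of the supports). -/
def GpaStmt : Prop := ∀ (K : ℕ) (d : List ℕ) (T : Finset ℕ), 6 ≤ K → Even d.sum →
  T ⊆ range ((d.sum + 1) ^ K) →
  ∑ g ∈ T, ctp d.sum K g * PS K (fg d.sum K g) d ≤
    ((d.sum : ℝ) + 1) ^ K * (3 * ((d.sum : ℝ) + 1) ^ K) ^ K * (3 * K * ((d.sum : ℝ) + 1)) ^ K *
      Phi (K + d.sum) Fr (PP Xv d)

/-- ASY (easy). Proof: `log` of the left side is `o(M)`. -/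
def AsyStmt : Prop := ∀ (η C : ℝ) (K : ℕ), 0 < η → 0 ≤ C → ∃ M0 : ℕ, ∀ M : ℕ, M0 ≤ M →
  3 * ((M : ℝ) + 1) * ((M : ℝ) + 1) ^ K * Real.exp (C * (M : ℝ) ^ (1 - η)) ≤ Real.exp (M / 2)

/-- BAD (medium/hard, from NFB, EST, ASY, CTB, FLD, F1L, TOP, MON, PNN). The bad part. Proof: let `x` be the field `fg M K g`
with `x_1` replaced by `√M/e` (larger). `PP` is monotone in the field (MON twice), so
`PP (fg M K g) d ≤ PP x d ≤ (√M/e)^M / gam d · exp (C M^(1-η))` by NFB and EST (`Fld K M x` by FLD,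
`√M/e ≤ K √M`; change `x_i` for `i > M`, `i = 0` is not needed: FLD holds for all `j`).
`ctp ≤ 1` (CTB), at most `(M+1)^K` points. On the other side `Phi (K+M) Fr (PP Xv d) ≥ Fr 1 M / gam d`
(TOP: the monomial `x_1^M`; all other terms are nonnegative by PNN; `F j 0 = 1`), and by F1L
`Fr 1 M ≥ (√M/√e)^M / (3 (M+1))`, where `(√M/e)^M = (√M/√e)^M e^(-M/2)`. ASY. -/
def BadStmt : Prop := ∀ (η : ℝ) (K : ℕ), 0 < η → η < 1 / 2 → 2 ≤ η * K → 6 ≤ K → ∃ M0 : ℕ,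
  ∀ (d : List ℕ), Good η d → M0 ≤ d.sum →
  ∑ g ∈ (range ((d.sum + 1) ^ K)).filter (fun g => fg d.sum K g 1 < Real.sqrt d.sum / Real.exp 1),
    ctp d.sum K g * PP (fg d.sum K g) d ≤ Phi (K + d.sum) Fr (PP Xv d)

/-- SMA (easy/medium). Small `M`. Proof: there are only finitely many lists with entries `≥ 1` and sum at most `M0`.
The right-hand side is positive if `d.sum` is even: all terms are nonnegative, and the code of the
identity `c = d.map (fun k => (1, replicate k 1))` has weight 1 in `gsum` (always `i = 0`) and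
`∏ Fr = F 1 M > 0`. Take `A` with `2^A ≥` all ratios. -/
def SmaStmt : Prop := ∀ (K M0 : ℕ), ∃ A : ℕ, ∀ d : List ℕ, (∀ k ∈ d, 1 ≤ k) → Even d.sum →
  d.sum ≤ M0 →
  gsum d (fun c => ∏ j ∈ range (K + d.sum), G d.sum K (j + 1) (cnt c (j + 1))) ≤
    ((d.sum : ℝ) + 2) ^ A * gsum d (fun c => ∏ j ∈ range (K + d.sum), Fr (j + 1) (cnt c (j + 1)))

/-- ANA (medium, from AIN, GWT, PHG, PHO, EVP, GRD, NFA, EST, FLD, GPA, BAD, SMA). THE RESULT OF BLOCK A.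
Proof: choose `K ≥ 6`, `η K ≥ 2`. For `M < M0` SMA. Otherwise both sides are `gam d` times
`Phi (K+M) (G M K) (PP Xv d)`, `Phi (K+M) Fr (PP Xv d)` (PHG, GWT, AIN; `Phi` is linear). By GRD, PHO (variables at
most `M`), EVP the first one is `∑_g ctp g PP (fg g) d`. For the `g` with `fg g 1 ≥ √M/e`:
`PP (fg g) d ≤ e^C PS K (fg g) d` (NFA, EST, FLD), then GPA; for the others BAD. The total factor
`1 + e^C (M+1)^K (3 (M+1)^K)^K (3K (M+1))^K` is at most `(M+2)^A`. -/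
def AnaStmt : Prop := ∀ η : ℝ, 0 < η → η < 1 / 2 → ∃ K A : ℕ, 6 ≤ K ∧
  ∀ d : List ℕ, d.Pairwise (· ≤ ·) → Good η d →
  gsum d (fun c => ∏ j ∈ range (K + d.sum), G d.sum K (j + 1) (cnt c (j + 1))) ≤
    ((d.sum : ℝ) + 2) ^ A * gsum d (fun c => ∏ j ∈ range (K + d.sum), Fr (j + 1) (cnt c (j + 1)))

end Pool.Agent.UMG
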