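import Pool.Agent.UMG.BasicB

/-!
# Squad UMG, block B: the Burnside identity (rows)

Every row: file `Pool/Agent/HelperNN_UMG/XXX.lean`, import `Pool.Agent.UMG.StmtsB`, namespace
`Pool.Agent.UMG.B.HNN`, theorem `xxx (hypotheses = rows in uses, in this order) : XxxStmt`
(first line after `namespace`: `open Finset Pool.Agent.UMG Pool.Agent.UMG.B`).
Definitions: `UMG/Defs.lean` (`F`, `csum`, `gsum`, `gam`, `bund`, `mt`, `edg`, `gr`), `UMG/DefsB.lean`; proved tools:
`UMG/BasicB.lean` (`SI.sum`, `SI.assoc`, `SI.empty`, `Inv.ad`, `EqD.*`, `SN.eqD`, `QQ_equiv`, `QQ_sum`, `IsMt.conj`,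
`Qc_append`, `finRotate_val`, `finRotate_pow_val`, finiteness of all types).

PLAN.  `Ψ_B` (`PhB B`) counts the matchings of the half-edges which commute with `g` and have a multigraph
isomorphic to `B`.  The sum of `Ψ_B` over the automorphisms of `ν : H → V` is the number of the
automorphisms (Burnside, ORB); it is `gsum d` of the values on the standard structures of the codes
(GSM); the value on the standard structure of a code is the number of the `x` (PTF).
-/

set_option autoImplicit false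

namespace Pool.Agent.UMG.B

open Finset Pool.Agent.UMG

/-! ## Part P: sums over permutations -/

/-- **PCS** (uses nothing).  One step of the exploration of the cycle of a point.
PROOF.  `PInv k (up Λ)`: given `e`, `τ`, .. use `PInv Λ` for `Option A`, `Option A'`, `Equiv.optionCongr e`,
`fun x => x.elim (τ none) τ`; the point `none`: `ins π none = some none`, labels `τ none * 1 = 1 * τ none`; the point
`some y`: cases `π y = none` and `π y = some a`, both conditions are the hypotheses for `y`.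
The formula.  `m = 0`: the only `π` is `Equiv.optionCongr π'`.  In general split the `π` by `π none`
(`Equiv.Perm.decomposeOption`, or any bijections).  `π none = none`: `π = optionCongr π'` for a unique `π'`
(`Equiv.removeNone`, `Equiv.removeNone_optionCongr`), `σ = x.elim ρ σ'`.  `π none = some a` (`m` values of `a`;
`m = m' + 1`): let `e : Fin m ≃ Option (Fin m')` with `e a = none`.  `π ↦ optionCongr e ∘ π ∘ (optionCongr e)⁻¹` is a
bijection to the permutations `π1` of `Option (Option (Fin m'))` with `π1 none = some none`, and these are the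
`ins π2`, `π2 : Perm (Option (Fin m'))` (`π2 y` is `π1 (some y)` with `some (some b) ↦ some b` and `none ↦ none`; it
is not `some none`).  So by `PInv` (`τ = 1`) the sum for `a` is `∑ π2, ∑ σ1 : Option (Option (Fin m')) → _,
Λ (Option (Fin m')) (ins π2) σ1`.  Now `PInv` with `e = refl` and `τ (some none) = (σ1 none)⁻¹`, `τ x = 1` otherwise:
`Λ _ (ins π2) σ1 = Λ _ (ins π2) (x.elim 1 σ2)`, `σ2 none = σ1 (some none) * σ1 none`,
`σ2 (some b) = σ1 (some (some b))` (at `none`: `τ (some none) * σ1 none = 1`; at `some y`: `ins π2 (some y) ≠ some none`).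
`σ1 ↦ (σ1 none, σ2)` is a bijection, so the sum over `σ1` is `k! ∑ σ2, up Λ (Fin m') π2 σ2` (`Fintype.card_perm`). -/
def PcsStmt : Prop :=
  ∀ (k : ℕ) (Λ : PF k), PInv k Λ → PInv k (up Λ) ∧ ∀ m : ℕ,
    TP Λ m = (∑ ρ : Equiv.Perm (Fin k), ∑ π' : Equiv.Perm (Fin m),
      ∑ σ' : Fin m → Equiv.Perm (Fin k), Λ (Fin m) (Equiv.optionCongr π') (fun x => x.elim ρ σ')) +
      m * k.factorial * TP (up Λ) (m - 1)

/-- **PCE** (uses nothing).  The insertion makes the cycle longer.
PROOF.  `up Λ (Fin i ⊕ A) (cyp i π') (cys i ρ σ') = Λ (Option (Fin i ⊕ A)) (ins (cyp i π')) (x.elim 1 (cys i ρ σ'))`;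
`PInv` with `e = oe i A`, `τ = 1`.  Points: `none ↦ some none`, and `optionCongr (oe i A) (some none) = some (inl 0)`;
`cyp (i+1) π' none = some (inl 0)` because `oe (i+1) none = inl 0`, `finRotate (i+2) 0 = 1 = succ 0`.  `some none`: `cyp i π' none`
is `none` if `i = 0` and `some (inl 0)` otherwise; `some (some (inl j))`: if `j + 1 < i` it goes to the next one,
otherwise `cyp i` gives `none`, so `ins` gives `none`; in `cyp (i+1)` the point `some (inl j.succ)` is
`inl j.succ.succ` of `Fin (i+2)`, it is the last one iff `j + 1 = i`.  Points of `A`: `π'`.  (It helps to describe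
`cyp` by: the number of `none` is `0`, the number of `some (inl j)` is `j + 1`, and the number increases by one
modulo `i + 1`.)  Labels: at `none`: `cys (i+1) ρ σ' none = lst (i+1) ρ 0 = 1`; at `some x`: `oe (i+1)` of
`some (oe i x)` is `inl j.succ` if `oe i x = inl j`, and `j.succ` is the last one iff `j` is. -/
def PceStmt : Prop :=
  ∀ (k : ℕ) (Λ : PF k), PInv k Λ → ∀ (i : ℕ) (A : Type) (π' : Equiv.Perm A)
    (ρ : Equiv.Perm (Fin k)) (σ' : A → Equiv.Perm (Fin k)),
    up Λ (Fin i ⊕ A) (cyp i π') (cys i ρ σ') =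
      Λ (Fin (i + 1) ⊕ A) (cyp (i + 1) π') (cys (i + 1) ρ σ')

/-- **PCF** (uses PCS, PCE).  Sum over the length of the cycle of a point.
PROOF.  Claim, by induction on `m`, for all `Λ` with `PInv`: `TP Λ m = ∑ i ∈ range (m+1), m.descFactorial i *
k.factorial ^ i * ∑ ρ, ∑ π' : Perm (Fin (m-i)), ∑ σ', Λ (Fin i ⊕ Fin (m-i)) (cyp i π') (cys i ρ σ')`.  PCS: the
first sum is the term `i = 0` (`PInv` with `Fin m ≃ Fin 0 ⊕ Fin m`); for `m = m' + 1` the induction hypothesis
for `up Λ` and PCE give `(m'+1) k! ∑ i ≤ m', m'.descFactorial i * k!^i * ∑ .. Λ (Fin (i+1) ⊕ ..) ..`;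
`Nat.succ_descFactorial_succ`, `Finset.sum_range_succ'`.
For `Θ` let `Λ A π σ := Θ (Option A) π σ` (`PInv` from `TInv` with `optionCongr e`).  The left side is `TP Λ m` by
`TInv` for `Fin (m+1) ≃ Option (Fin m)` (`finSuccEquiv m`; sums over the conjugated permutations:
`Equiv.sum_comp` for `Equiv.permCongr` and `Equiv.arrowCongr`).  The terms: `TInv` with `e = oe i _`, `τ = 1`. -/
def PcfStmt : Prop :=
  ∀ (k : ℕ) (Θ : TF k), TInv k Θ → ∀ m : ℕ,
    (∑ π : Equiv.Perm (Fin (m + 1)), ∑ σ : Fin (m + 1) → Equiv.Perm (Fin k), Θ (Fin (m + 1)) π σ) =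
      ∑ i ∈ range (m + 1), m.descFactorial i * k.factorial ^ i *
        ∑ ρ : Equiv.Perm (Fin k), ∑ π' : Equiv.Perm (Fin (m - i)),
          ∑ σ' : Fin (m - i) → Equiv.Perm (Fin k),
            Θ (Fin (i + 1) ⊕ Fin (m - i)) (Equiv.sumCongr (finRotate (i + 1)) π')
              (Sum.elim (lst i ρ) σ')

/-- **CSM** (uses PCF).  `csum` is the sum over the permutations.
PROOF.  Strong induction on `k` for all `Φ`.  `k = 0`: one permutation, `CInv` with `Fin 0 ≃ Empty`.  `k + 1`: PCF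
with `k := 0`, `Θ A π _ := Φ A π`; the sums over `σ`, `ρ`, `σ'` have one term, `0.factorial ^ i = 1`.  Unfold `csum`
(`csum` of `k + 1`); the terms agree by the induction hypothesis for
`Φ' A π' := Φ (Fin (i+1) ⊕ A) (Equiv.sumCongr (finRotate (i+1)) π')` and `k - i` (`PT ((i+1) :: p)` and `rp` are the
sums by definition). -/
def CsmStmt : Prop :=
  ∀ Φ : (A : Type) → Equiv.Perm A → ℕ, CInv Φ → ∀ k : ℕ,
    ∑ ρ : Equiv.Perm (Fin k), Φ (Fin k) ρ = csum k (fun p => Φ (PT p) (rp p))

/-- **CYR** (uses nothing).  A cycle of `i + 1` vertices with the holonomy `rp p` is the union of the bundles.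
PROOF.  `e = refl`.  Induction on `p`: there is `f : Fin (i+1) × PT p ≃ Hp (i+1) p` with `nup (i+1) p (f x) = x.1` and
`f (wr .. x) = gp (i+1) p (f x)`.  `p = []`: both types are empty.  `a :: p`: `(v, inl b) ↦ inl (v + (i+1) * b)`,
`b : Fin a`, a bijection to `Fin ((i+1) * a)` (division with remainder; `finProdFinEquiv`, `Nat.add_mul_mod_self_left`,
`Nat.add_mul_div_left`), `(v, inr y) ↦ inr (f (v, y))`.  `(v + (i+1) b) % (i+1) = v`.  If `v < i`: `wr` gives
`(v + 1, b)` (the label is `1`), the number increases by one.  `v = i`: `wr` gives `(0, finRotate a b)`: if `b + 1 < a`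
the number is `(i+1)(b+1) = v + (i+1) b + 1`; if `b + 1 = a` it is `0`, and `v + (i+1) b = (i+1) a - 1` is the last one
(`finRotate_val`). -/
def CyrStmt : Prop :=
  ∀ (i : ℕ) (p : List ℕ), SI (Prod.fst : Fin (i + 1) × PT p → Fin (i + 1))
    (wr (finRotate (i + 1)) (lst i (rp p))) (nup (i + 1) p) (gp (i + 1) p)

/-- **WSM** (uses PCF, CSM, CYR).  The sum over the wreath product.
PROOF.  Strong induction on `m` for all `Ψ`.  `m = 0`: one term on both sides, both structures are empty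
(`Inv`).  `m + 1`: PCF for `Θ A π σ := Ψ A (A × Fin k) Prod.fst (wr π σ)`; `TInv`: `f (a, x) = (e a, τ a x)`
(`f (wr π σ (a, x)) = (e (π a), (τ (π a) * σ a) x)`).  For fixed `i`, `ρ`: `Θ (Fin (i+1) ⊕ A) (sumCongr (finRotate (i+1)) π')
(Sum.elim (lst i ρ) σ')` is `ad Prod.fst (wr (finRotate (i+1)) (lst i ρ)) Ψ A (A × Fin k) Prod.fst (wr π' σ')`
(`Inv`, `Equiv.sumProdDistrib`), so by the induction hypothesis (`m - i`, `Inv.ad`) the sum over `π'`, `σ'` is
`wsum (m-i) k (fun c => Ψ (Fin (i+1) ⊕ Vc c) ((Fin (i+1) × Fin k) ⊕ Hc c) (Sum.map Prod.fst (nuc c)) (sumCongr (wr ..) (gc c)))`.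
The sum over `ρ` is a `csum` by CSM for `Φ A ρ := wsum (m-i) k (fun c => Ψ _ ((Fin (i+1) × A) ⊕ Hc c) _
(sumCongr (wr (finRotate (i+1)) (lst i ρ)) (gc c)))`, `CInv Φ` by `Inv` (equality of the functions under `wsum`;
`f (v, a) = (v, e a)`).  At `PT p`, `rp p` CYR and `SI.sum` replace the structure by `Vc ((i+1, p) :: c)`, .. (by
definition sums).  Unfold `wsum` of `m + 1`. -/
def WsmStmt : Prop :=
  ∀ Ψ : SF, Inv Ψ → ∀ m k : ℕ,
    (∑ π : Equiv.Perm (Fin m), ∑ σ : Fin m → Equiv.Perm (Fin k),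
      Ψ (Fin m) (Fin m × Fin k) Prod.fst (wr π σ)) =
      wsum m k (fun c => Ψ (Vc c) (Hc c) (nuc c) (gc c))

/-- **GWS** (uses nothing).  `gsum` of a list with `m` entries `k` in front.
PROOF.  Strong induction on `m` for all `Ψ`.  `m = 0`: `[] ++ c' = c'`.  `m + 1`: the list is
`k :: (replicate m k ++ t)`; `count k (replicate m k ++ t) = m`, and for `i ≤ m` `(replicate m k ++ t).drop i =
replicate (m-i) k ++ t` (`List.drop_append_of_le_length`, `List.drop_replicate`).  Unfold `gsum` and `wsum`, the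
terms agree by the induction hypothesis for `m - i` and `fun c => Ψ ((i+1, p) :: c)`
(`((i+1,p) :: c) ++ c' = (i+1,p) :: (c ++ c')`). -/
def GwsStmt : Prop :=
  ∀ (Ψ : Code → ℕ) (m k : ℕ) (t : List ℕ), k ∉ t →
    gsum (List.replicate m k ++ t) Ψ = wsum m k (fun c => gsum t (fun c' => Ψ (c ++ c')))

/-- **GSP** (uses nothing).  The automorphisms of a sum: the vertices of degree `k` and the other ones.
PROOF.  The map `(π, σ, γ) ↦ (sumCongr (wr π σ) γ.1, sumCongr π γ.2)` from
`Perm (Fin m) × (Fin m → Perm (Fin k)) × Gam ν` to `Gam (Sum.map Prod.fst ν)` is a bijection.  Injective: clear if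
`k ≠ 0`; `σ` is determined by `wr π σ` (`(wr π σ (v, a)).2 = σ v a`).  Surjective: let `(g, Π)` be an automorphism.
For every vertex `u` the fibres over `u` and over `Π u` have the same number of half-edges (`g` is a bijection
between them: `g h` is over `Π u` iff `h` is over `u`).  The fibre over `inl v` has `k` elements, over `inr v`
a number `≠ k`, so `Π` preserves the two parts (`Π` maps `inl` to `inl` and `inr` to `inr`; so does `Π⁻¹`), hence `g`
too.  `Equiv.Perm` of a sum which preserves the parts is `sumCongr` (`Equiv.Perm.sumCongrHom`,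
`Equiv.Perm.mem_sumCongrHom_range_of_perm_mapsTo_inl`).  On the first part `g (v, a) = (π v, σ v a)`, `σ v` is a
bijection because `g` is.  `finsum_eq_of_bijective` (or convert all sums to `Finset` sums with
`finsum_eq_sum_of_fintype` and classical instances); everything is finite. -/
def GspStmt : Prop :=
  ∀ Ψ : SF, ∀ (m k : ℕ) (V H : Type) [Finite V] [Finite H] (ν : H → V),
    (∀ v, Nat.card {h // ν h = v} ≠ k) →
      GS Ψ (Sum.map (Prod.fst : Fin m × Fin k → Fin m) ν) =
        ∑ π : Equiv.Perm (Fin m), ∑ σ : Fin m → Equiv.Perm (Fin k),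
          GS (ad (Prod.fst : Fin m × Fin k → Fin m) (wr π σ) Ψ) ν

/-- **GSI** (uses nothing).  `GS` is invariant.
PROOF.  `(g, π) ↦ (f g f⁻¹, e π e⁻¹)` (`Equiv.permCongr`) is a bijection `Gam ν ≃ Gam ν'`; `finsum_comp_equiv` (or
`finsum_eq_of_bijective`), the values agree by `Inv` with `e`, `f`. -/
def GsiStmt : Prop :=
  ∀ Ψ : SF, Inv Ψ → ∀ (V H V' H' : Type) (ν : H → V) (ν' : H' → V'), MI ν ν' → GS Ψ ν = GS Ψ ν'

/-- **STA** (uses nothing).  The structure of a concatenation.
PROOF.  Induction on `c`: `SI.empty`; `SI.assoc`, `SI.sum`, `SI.refl`. -/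
def StaStmt : Prop :=
  ∀ c c' : Code, SI (Sum.map (nuc c) (nuc c')) (Equiv.sumCongr (gc c) (gc c')) (nuc (c ++ c'))
    (gc (c ++ c'))

/-- **BLK** (uses nothing).  The standard map of a list with `m` entries `k` in front; degrees of the
standard map.
PROOF.  First part: induction on `m`.  `m = 0`: `Fin 0`, `Fin 0 × Fin k` are empty.  `m + 1`: `Unit ⊕ Vs (..) ≃
Unit ⊕ (Fin m ⊕ Vs t) ≃ Fin (m+1) ⊕ Vs t` (`inl () ↦ 0`, `v ↦ v.succ`) and `Fin k ⊕ Hs (..) ≃
Fin k ⊕ ((Fin m × Fin k) ⊕ Hs t) ≃ (Fin (m+1) × Fin k) ⊕ Hs t`.  Second part: induction on `d`; the fibre over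
`inl ()` is `Fin k`, the fibre over `inr v` is the fibre of `nus t` over `v`. -/
def BlkStmt : Prop :=
  (∀ (m k : ℕ) (t : List ℕ), MI (nus (List.replicate m k ++ t))
    (Sum.map (Prod.fst : Fin m × Fin k → Fin m) (nus t))) ∧
    ∀ (d : List ℕ) (v : Vs d), Nat.card {h // nus d h = v} ∈ d

/-- **GSM** (uses WSM, GWS, GSP, GSI, STA, BLK).  The sum over the automorphisms is `gsum`.
PROOF.  Strong induction on the length of `d` for all `Ψ`.  `d = []`: `Gam` has one element (all types are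
empty), both sides are `Ψ` of the empty structure.  Otherwise `d = k :: _`, `m = count k d ≥ 1`, `t = d.drop m`:
`d = replicate m k ++ t` with `k ∉ t` because `d` is nondecreasing (e.g. `d = d.filter (· = k) ++ d.filter (· ≠ k)`, or
`List.span`/`takeWhile`), `t` is nondecreasing and shorter.  BLK, GSI: `GS Ψ (nus d) = GS Ψ (Sum.map Prod.fst (nus t))`;
GSP (the degrees of `nus t` are in `t`): `= ∑ π, ∑ σ, GS (ad Prod.fst (wr π σ) Ψ) (nus t)`; induction hypothesis
(`Inv.ad`): `= ∑ π, ∑ σ, gsum t (fun c' => Ψ (Fin m ⊕ Vc c') .. (sumCongr (wr π σ) (gc c')))`; WSM for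
`Ψ' V H ν g := gsum t (fun c' => Ψ (V ⊕ Vc c') (H ⊕ Hc c') (Sum.map ν (nuc c')) (sumCongr g (gc c')))` (`Inv Ψ'` by
`SI.sum`, `SI.refl`): `= wsum m k (fun c => gsum t (fun c' => Ψ (Vc c ⊕ Vc c') ..))`; STA replaces the structure by
the one of `c ++ c'`; GWS. -/
def GsmStmt : Prop :=
  ∀ Ψ : SF, Inv Ψ → ∀ d : List ℕ, d.Pairwise (· ≤ ·) →
    GS Ψ (nus d) = gsum d (fun c => Ψ (Vc c) (Hc c) (nuc c) (gc c))

/-- **STM** (uses nothing).  Every map with the degrees `d` is isomorphic to the standard map.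
PROOF.  By induction on `d` `Multiset.map (fun v => Nat.card {h // nus d h = v}) univ.val = d` for `Vs d` (with a
classical `Fintype`), or directly: induction on `d` for a general finite type `V` instead of `Fin n` (if
`d = k :: t` there is a `v` with `k` half-edges, `V ≃ Unit ⊕ {w // w ≠ v}`, `H ≃ {h // ν h = v} ⊕ {h // ν h ≠ v}`,
`{h // ν h = v} ≃ Fin k`, and the map `{h // ν h ≠ v} → {w // w ≠ v}` has the degrees `t`:
`Multiset.map_cons`, `Multiset.cons_inj_right`; `d = []`: `V` and `H` are empty). -/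
def StmStmt : Prop :=
  ∀ (n : ℕ) (H : Type) [Finite H] (ν : H → Fin n) (d : List ℕ),
    Multiset.map (fun v => Nat.card {h // ν h = v}) (Finset.univ : Finset (Fin n)).val =
      (d : Multiset ℕ) → MI ν (nus d)

/-- **GAM** (uses nothing).  PROOF.  `csum k (fun _ => C) = k! * C` (strong induction:
`k.descFactorial i * (k-i)! = k!` for `i ≤ k`, so the sum for `k + 1` has `k + 1` equal terms).  `gsum d (fun _ => 1) = gam d`
by strong induction on the length; `d = k :: t` nondecreasing, `m = count k t`: the first `m` entries of `t` are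
`k` (the entries of `t` are `≥ k` and `t` is nondecreasing), so for `i ≤ m` `gam (t.drop i) = (m-i)! k!^(m-i) R` with
`R = ∏ a ∈ t.toFinset.erase k, (count a t)! a!^(count a t)`, and `gam (k :: t) = (m+1)! k!^(m+1) R`.  (For `i = m` the
factor is `1` although `k` is not in the list any more.)  Each term is
`m.descFactorial i * k!^i * (k! * ((m-i)! k!^(m-i) R)) = m! k!^(m+1) R`, and there are `m + 1` terms.
It may be easier to prove first `gam (replicate m k ++ t) = m! k!^m * gam t` if `k ∉ t`. -/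
def GamStmt : Prop := ∀ d : List ℕ, d.Pairwise (· ≤ ·) → gsum d (fun _ => (1 : ℕ)) = gam d

/-- **GCG** (uses nothing).  Only the codes of the right size matter.
PROOF.  `csum`: if `Ψ p = Ψ' p` for all `p` with sum `k` and all entries `≥ 1`, then `csum k Ψ = csum k Ψ'`
(strong induction on `k`).  `gsum`: strong induction on the length; `d = k :: t`, `i ≤ count k t`, the first
`count k t` entries of `t` are `k`, so `(t.drop i).length = t.length - i` and `(t.drop i).sum + i * k = t.sum`; if `c` is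
admissible for `t.drop i` and `p` has sum `k` then `(i+1, p) :: c` is admissible for `d`:
`(i + 1) + (t.length - i) = d.length`, `(i+1) * k + (t.drop i).sum = d.sum`. -/
def GcgStmt : Prop :=
  ∀ (R : Type) [CommSemiring R] (d : List ℕ), d.Pairwise (· ≤ ·) → ∀ Ψ Ψ' : Code → R,
    (∀ c, OkC d.length d.sum c → Ψ c = Ψ' c) → gsum d Ψ = gsum d Ψ'

/-! ## Part O: the orbit of a multigraph -/

/-- **TRA** (uses nothing).  Two sets with fixed point free involutions and labels.
PROOF.  Strong induction on `Nat.card H`.  If `H` is empty then `H'` is empty (all fibres of `f'` are empty).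
Otherwise let `a : H`, `x = f a`; the fibre over `x` in `H` is not empty, so there is `a'` with `f' a' = x`.  Let
`H1 = {h // h ≠ a ∧ h ≠ m a}`, `H1' = {h // h ≠ a' ∧ h ≠ m' a'}`; `m`, `m'` act on them.  The fibres over any `y` in `H1`,
`H1'` have the same number of elements: removed are `a` (if `f a = y`) and `m a ≠ a` (if `sw x = y`), the same for
`a'`.  Induction hypothesis: `e1 : H1 ≃ H1'`; extend it by `a ↦ a'`, `m a ↦ m' a'`. -/
def TraStmt : Prop :=
  ∀ (L H H' : Type) [Finite H] [Finite H'] (sw : L → L) (m : H → H) (m' : H' → H') (f : H → L)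
    (f' : H' → L), (∀ h, m (m h) = h) → (∀ h, m h ≠ h) → (∀ h, m' (m' h) = h) →
      (∀ h, m' h ≠ h) → (∀ h, f (m h) = sw (f h)) → (∀ h, f' (m' h) = sw (f' h)) →
        (∀ x, Nat.card {h // f h = x} = Nat.card {h // f' h = x}) →
          ∃ e : H ≃ H', (∀ h, f' (e h) = f h) ∧ ∀ h, e (m h) = m' (e h)

/-- **REA** (uses nothing).  Every multigraph comes from a matching.
PROOF.  `H = (Σ x : {x : Fin n × Fin n // x.1 ≤ x.2}, Fin (B x.1.1 x.1.2)) × Bool`, `ν (z, false) = z.1.1.1`,
`ν (z, true) = z.1.1.2`, `m (z, b) = (z, !b)`.  `QQ ν m v w` for `v < w`: only `b = false`, `x = (v, w)`; for `v > w`: only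
`b = true`, `x = (w, v)`, `B w v = B v w`; for `v = w`: both. -/
def ReaStmt : Prop :=
  ∀ (n : ℕ) (B : Fin n → Fin n → ℕ), (∀ v w, B v w = B w v) →
    ∃ (H : Type) (_ : Finite H) (ν : H → Fin n) (m : H → H),
      (∀ h, m (m h) = h) ∧ (∀ h, m h ≠ h) ∧ ∀ v w, QQ ν m v w = tw B v w

/-- **DGF** (uses nothing).  PROOF.  `{h // ν h = v} ≃ Σ w, {h // ν h = v ∧ ν (m h) = w}`, so the number is
`∑ w, tw B v w = (∑ w, B v w) + B v v` (`Nat.card_sigma`, `Finset.sum_ite_eq`).  (`deg` is `Pool.Agent.UMG.deg`.) -/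
def DgfStmt : Prop :=
  ∀ (n : ℕ) (B : Fin n → Fin n → ℕ) (H : Type) [Finite H] (ν : H → Fin n) (m : H → H),
    (∀ v w, QQ ν m v w = tw B v w) → ∀ v, Nat.card {h // ν h = v} = deg B v

/-- **BRN** (uses nothing).  Burnside for one orbit.
PROOF.  `MulAction.sum_card_fixedBy_eq_card_orbits_mul_card_group` for the action of `G` on
`MulAction.orbit G x` (transitive: one orbit); `{y // y ∈ orbit ∧ g • y = y} ≃ fixedBy (orbit G x) g`.  Or directly:
`∑ g, #{y ∈ O | g y = y} = ∑ y ∈ O, |Stab y| = |O| |Stab x| = |G|`. -/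
def BrnStmt : Prop :=
  ∀ (G X : Type) [Group G] [Finite G] [MulAction G X] (x : X),
    (∑ᶠ g : G, Nat.card {y : X // y ∈ MulAction.orbit G x ∧ g • y = y}) = Nat.card G

/-- **ORB** (uses TRA, BRN).  The Burnside identity for the multigraph `B`.
PROOF.  `Gam ν` acts on `X := {m : H → H // IsMt 1 m}` by `γ • m = γ.1 ∘ m ∘ γ.1⁻¹`.  Let `m0` be the given matching.
(1) The orbit of `m0` is the set of the `m'` for which there is `σ : Fin n ≃ Fin n` with
`QQ ν m' v w = tw B (σ v) (σ w)` for all `v`, `w`: if `m' = γ • m0` then `QQ ν m' (π v) (π w) = QQ ν m0 v w`,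
`π = γ.2`, so `σ = π⁻¹`.  Conversely let `σ` be given; TRA for `m0`, `m'`, `L = Fin n × Fin n`, `sw = Prod.swap`,
`f h = (ν h, ν (m0 h))`, `f' h = (σ (ν h), σ (ν (m' h)))`: the fibres over `(v, w)` have `QQ ν m0 v w = tw B v w` and
`QQ ν m' (σ⁻¹ v) (σ⁻¹ w) = tw B v w` elements.  So there is `g : H ≃ H` with `σ (ν (g h)) = ν h`, `g (m0 h) = m' (g h)`; thus
`(g, σ⁻¹) ∈ Gam ν` and `m' = g m0 g⁻¹`.  (2) For `γ ∈ Gam ν` a matching `m'` satisfies `γ • m' = m'` iff it commutes
with `γ.1`, so `PhB B (Fin n) H ν γ.1 = Nat.card {m' : X // m' ∈ orbit ∧ γ • m' = m'}` (`IsMt γ.1 m' ↔ IsMt 1 m'` and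
`m' (γ.1 h) = γ.1 (m' h)`).  BRN. -/
def OrbStmt : Prop :=
  ∀ (n : ℕ) (B : Fin n → Fin n → ℕ) (H : Type) [Finite H] (ν : H → Fin n) (m : H → H),
    (∀ h, m (m h) = h) → (∀ h, m h ≠ h) → (∀ v w, QQ ν m v w = tw B v w) →
      GS (PhB B) ν = Nat.card (Gam ν)

/-- **IVB** (uses nothing).  PROOF.  `e`, `f` given: `m ↦ f ∘ m ∘ f⁻¹` (`IsMt.conj`, also for `f⁻¹`) is a bijection;
`QQ ν' (f m f⁻¹) (e v) (e w) = QQ ν m v w` (`Nat.card_congr`), `σ' = e⁻¹ σ`. -/
def IvbStmt : Prop := ∀ (n : ℕ) (B : Fin n → Fin n → ℕ), Inv (PhB B)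

/-! ## Part M: matchings of bundles -/

/-- **SLM** (uses nothing).  Matchings in which the first cycle is matched with itself.
PROOF.  Let `m (inl 0) = inl s`, `g' = sumCongr (finRotate j) g`.  `m (g'^t h) = g'^t (m h)` (induction), and
`inl t = g'^t (inl 0)` (`finRotate_pow_val`), so `m (inl t) = inl ((finRotate j)^t s)`, number `(s + t) % j`.  From
`m (m (inl 0)) = inl 0`: `(s + s) % j = 0`, and `s ≠ 0` as `m` has no fixed point, so `2 s = j`: `2 ∣ j`, `s = j / 2`.
`m` maps `inl` to `inl`, so (involution) it maps `inr` to `inr`: `m = Sum.map ((finRotate j)^(j/2)) m'`, and `m'` is a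
matching commuting with `g`.  Conversely for `2 ∣ j`, `0 < j` every such map is a matching (`0 < j/2 < j`). -/
def SlmStmt : Prop :=
  ∀ (j : ℕ) (hj : 0 < j) (H : Type) (g : Equiv.Perm H),
    ∃ e : {m : Mt (Equiv.sumCongr (finRotate j) g) // ∃ s, m.1 (Sum.inl ⟨0, hj⟩) = Sum.inl s} ≃
      {_m : Mt g // 2 ∣ j}, ∀ m, m.1.1 = Sum.map ((finRotate j) ^ (j / 2)) (e m).1.1

/-- **PAM** (uses nothing).  Matchings in which the first cycle is matched with the second one.
PROOF.  As SLM: `m (inl t) = inr (inl ((finRotate j)^t r)) = inr (inl ((finRotate j)^r t))`; `m` is an involution, so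
`m (inr (inl u)) = inl t` with `(t + r) % j = u`, i.e. `t = (u + (j - r)) % j`; `m` maps the two cycles into each other,
so it maps `inr (inr _)` to itself: `m'`.  Conversely for every `m'` these formulas define a matching commuting
with the permutation. -/
def PamStmt : Prop :=
  ∀ (j r : ℕ) (hj : 0 < j) (hr : r < j) (H : Type) (g : Equiv.Perm H),
    ∃ e : {m : Mt (Equiv.sumCongr (finRotate j) (Equiv.sumCongr (finRotate j) g)) //
        m.1 (Sum.inl ⟨0, hj⟩) = Sum.inr (Sum.inl ⟨r, hr⟩)} ≃ Mt g,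
      ∀ m, (∀ t, m.1.1 (Sum.inl t) = Sum.inr (Sum.inl (((finRotate j) ^ r) t))) ∧
        (∀ t, m.1.1 (Sum.inr (Sum.inl t)) = Sum.inl (((finRotate j) ^ (j - r)) t)) ∧
        ∀ h, m.1.1 (Sum.inr (Sum.inr h)) = Sum.inr (Sum.inr ((e m).1 h))

/-- **SLC** (uses nothing).  PROOF.  `j = bsz b = 2 i`.  The half-edges `t < i` with `(nu1 b t, nu1 b (t + i)) = (v, w)`
are counted by `(selfE j b).count (v, w)` (`List.count_map`-like: `List.countP_map`, `List.countP_range`..; or
`Nat.card` of `{t : Fin i // ..}`); the half-edges `t = t' + i`, `t' < i`, are matched with `t'`: they are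
counted by `(selfE j b).count (w, v)`.  (`finRotate_pow_val`: `(t + i) % (2 i)` is `t + i` for `t < i`, `t - i` else.) -/
def SlcStmt : Prop :=
  ∀ b : ℕ × ℕ × ℕ, 0 < bsz b → 2 ∣ bsz b → ∀ v w,
    QQ (nu1 b) (⇑((finRotate (bsz b)) ^ (bsz b / 2) : Equiv.Perm (Fin (bsz b)))) v w =
      Qc (selfE (bsz b) b) v w

/-- **PAC** (uses nothing).  PROOF.  First: the `t < j` with `b.1 + t % b.2.1 = v` and
`b'.1 + ((t + r) % j) % b'.2.1 = w`; `j = b'.2.1 * b'.2.2`, so `((t + r) % j) % b'.2.1 = (t + r) % b'.2.1`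
(`Nat.mod_mul_right_mod`); this is the number of entries `(v, w)` of `pairE j r b b'`.  Second: substitute
`u = (t + r) % j`, `t = (u + (j - r)) % j` (a bijection of `Fin j`). -/
def PacStmt : Prop :=
  ∀ (b b' : ℕ × ℕ × ℕ) (r : ℕ), bsz b' = bsz b → r < bsz b → ∀ v w,
    Nat.card {t : Fin (bsz b) // nu1 b t = v ∧
      b'.1 + (((finRotate (bsz b)) ^ r) t : ℕ) % b'.2.1 = w} = (pairE (bsz b) r b b').count (v, w) ∧
    Nat.card {t : Fin (bsz b) // b'.1 + (t : ℕ) % b'.2.1 = v ∧
      nu1 b (((finRotate (bsz b)) ^ (bsz b - r)) t) = w} = (pairE (bsz b) r b b').count (w, v)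

/-- **SLF** (uses SLM, SLC).  PROOF.  SLM with `j = bsz b`; `QQ_sum` and SLC. -/
def SlfStmt : Prop :=
  ∀ (b : ℕ × ℕ × ℕ) (hb : 0 < bsz b) (H : Type) [Finite H] (g : Equiv.Perm H) (ν : H → ℕ),
    EqD (fun m : {m : Mt (Equiv.sumCongr (finRotate (bsz b)) g) //
        ∃ s, m.1 (Sum.inl ⟨0, hb⟩) = Sum.inl s} => QQ (Sum.elim (nu1 b) ν) m.1.1)
      (fun m : {_m : Mt g // 2 ∣ bsz b} => Qc (selfE (bsz b) b) + QQ ν m.1.1)

/-- **PAI** (uses PAM, PAC).  PROOF.  Transport with `finCongr : Fin (bsz b') ≃ Fin (bsz b)` (`IsMt.conj`; the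
rotations agree, `finRotate_val`), PAM with `j = bsz b`.  `QQ` is the sum of the numbers for the three parts
(as in `QQ_sum`): the first cycle gives `(pairE ..).count (v, w)`, the second one `(pairE ..).count (w, v)` (PAC). -/
def PaiStmt : Prop :=
  ∀ (b b' : ℕ × ℕ × ℕ) (hb : 0 < bsz b) (r : ℕ) (hr : r < bsz b'), bsz b' = bsz b →
    ∀ (H : Type) [Finite H] (g : Equiv.Perm H) (ν : H → ℕ),
    EqD (fun m : {m : Mt (Equiv.sumCongr (finRotate (bsz b))
          (Equiv.sumCongr (finRotate (bsz b')) g)) //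
        m.1 (Sum.inl ⟨0, hb⟩) = Sum.inr (Sum.inl ⟨r, hr⟩)} =>
          QQ (Sum.elim (nu1 b) (Sum.elim (nu1 b') ν)) m.1.1)
      (fun m : Mt g => Qc (pairE (bsz b) r b b') + QQ ν m.1)

/-- **PIK** (uses nothing).  Positions in a list of bundles.
PROOF.  Everything by induction on `L`.  First part: cases `inl`, `inr`.  Second part: `p = 0`: `refl`
(`eraseIdx 0` of `b :: L` is `L`); `p + 1`: `Fin (bsz b) ⊕ HB L ≃ Fin (bsz b) ⊕ (Fin (bsz (L.get p)) ⊕ HB (L.eraseIdx p)) ≃
Fin (bsz (L.get p)) ⊕ (Fin (bsz b) ⊕ HB (L.eraseIdx p))`, and `(b :: L).eraseIdx (p+1) = b :: L.eraseIdx p`. -/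
def PikStmt : Prop :=
  (∀ L : List (ℕ × ℕ × ℕ), Function.Injective (loc L) ∧
    ∀ p r, (∃ h, loc L h = (p, r)) ↔ ∃ hp : p < L.length, r < bsz (L.get ⟨p, hp⟩)) ∧
  ∀ (L : List (ℕ × ℕ × ℕ)) (p : Fin L.length),
    ∃ f : HB L ≃ Fin (bsz (L.get p)) ⊕ HB (L.eraseIdx p),
      (∀ h, Sum.elim (nu1 (L.get p)) (nuB (L.eraseIdx p)) (f h) = nuB L h) ∧
      (∀ h, f (gB L h) =
        Equiv.sumCongr (finRotate (bsz (L.get p))) (gB (L.eraseIdx p)) (f h)) ∧
      ∀ t, loc L (f.symm (Sum.inl t)) = ((p : ℕ), (t : ℕ))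

/-- **MTR** (uses SLF, PAI, PIK).  The recursion for the matchings of bundles of the same size.
PROOF.  Split the matchings of `HB (b :: L) = Fin (bsz b) ⊕ HB L` by the image of `inl 0`.  Image `inl s`: SLF.
Image `inr h`: `loc L h = (p, r)` with `p < L.length`, `r < bsz (L.get p) = bsz b` (PIK, first part; `h` is determined
by `(p, r)`); for given `p`, `r` transport with `sumCongr refl f`, `f` from PIK (second part): `h = f⁻¹ (inl r)`, so the
matchings with `m (inl 0) = inr h` correspond to the matchings of PAI for `H = HB (L.eraseIdx p)`.  (Use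
`Equiv.sumCompl`-like splittings, or build the bijection of the union over `Σ p, Fin (bsz b)` with
`Equiv.sigmaFiberEquiv`.) -/
def MtrStmt : Prop :=
  ∀ (b : ℕ × ℕ × ℕ) (L : List (ℕ × ℕ × ℕ)), 0 < bsz b → (∀ b' ∈ L, bsz b' = bsz b) →
    EqD (fun m : Mt (gB (b :: L)) => QQ (nuB (b :: L)) m.1)
      (Sum.elim (fun m : {_m : Mt (gB L) // 2 ∣ bsz b} =>
          Qc (selfE (bsz b) b) + QQ (nuB L) m.1.1)
        (fun z : (Σ p : Fin L.length, Fin (bsz b) × Mt (gB (L.eraseIdx p))) =>
          Qc (pairE (bsz b) z.2.1 b (L.get z.1)) + QQ (nuB (L.eraseIdx z.1)) z.2.2.1))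

/-- **MTX** (uses nothing).  The recursion for the numbers of the matchings.
PROOF.  `c = L.length`, `F j (c+1) = sb j c + c * j * F j (c-1)` (cases `c = 0`, `c = c' + 1`).  `x < sb j c`:
`2 ∣ j` and `sb j c = F j c`, `mt j (b :: L) x = selfE j b ++ mt j L x`.  Otherwise `y = x - sb j c < c * j * N`,
`N = F j (c-1)`, `y = (p * j + r) * N + x'` with `p = pI < c`, `r = rI < j`, `x' = xI < N`: `y / (j * N) = p`,
`y / N % j = r`, `y % N = x'` (`Nat.div_div_eq_div_mul`).  A bijection; `L.getD p _ = L.get p` for `p < L.length`;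
`Qc_append`. -/
def MtxStmt : Prop :=
  ∀ (j : ℕ) (b : ℕ × ℕ × ℕ) (L : List (ℕ × ℕ × ℕ)),
    EqD (fun x : Fin (F j (L.length + 1)) => Qc (mt j (b :: L) x))
      (Sum.elim (fun x : {_x : Fin (F j L.length) // 2 ∣ j} => Qc (selfE j b) + Qc (mt j L x.1))
        (fun z : (Σ _p : Fin L.length, Fin j × Fin (F j (L.length - 1))) =>
          Qc (pairE j z.2.1 b (L.get z.1)) + Qc (mt j (L.eraseIdx z.1) z.2.2)))

/-- **MTS** (uses MTR, MTX).  The matchings of bundles of the same size have the numbers `x < F j c`.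
PROOF.  Strong induction on `L.length`.  `L = []`: `HB [] = Empty`, one matching, `QQ = 0`; `F j 0 = 1`,
`mt j [] x = []`.  `b :: L`: MTR, MTX (`j = bsz b`), the induction hypothesis for `L` and `L.eraseIdx p`
(length `L.length - 1`: `List.length_eraseIdx`), `EqD.sumElim`, `EqD.sub`, `EqD.const`, `EqD.sigma`, and
`EqD` for a product with `Fin j` (write it as `fun z : Fin j × _ => c z.1 + q z.2`; `Equiv.prodCongr`). -/
def MtsStmt : Prop :=
  ∀ (j : ℕ) (L : List (ℕ × ℕ × ℕ)), 0 < j → (∀ b ∈ L, bsz b = j) →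
    EqD (fun m : Mt (gB L) => QQ (nuB L) m.1) (fun x : Fin (F j L.length) => Qc (mt j L x))

/-- **SPM** (uses nothing).  Cycles of different lengths are not matched.
PROOF.  Let `m` be a matching which commutes with `g = sumCongr g1 g2`.  `m` is bijective and commutes with
`g`, so `minimalPeriod g (m h) = minimalPeriod g h` (`Function.minimalPeriod` is determined by
`g^[n] h = h ↔ g^[n] (m h) = m h`: `Function.Commute.iterate_left`, `Function.minimalPeriod_eq_minimalPeriod_iff`).  The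
minimal period of `inl h` is the one of `h` under `g1`, the same for `inr`.  So `m` preserves the two parts:
`m = Sum.map m1 m2`.  `QQ_sum`.  Conversely `Sum.map m1 m2` is a matching. -/
def SpmStmt : Prop :=
  ∀ (H1 H2 : Type) [Finite H1] [Finite H2] (g1 : Equiv.Perm H1) (g2 : Equiv.Perm H2)
    (ν1 : H1 → ℕ) (ν2 : H2 → ℕ),
    (∀ h1 h2, Function.minimalPeriod g1 h1 ≠ Function.minimalPeriod g2 h2) →
      EqD (fun m : Mt (Equiv.sumCongr g1 g2) => QQ (Sum.elim ν1 ν2) m.1)
        (fun z : Mt g1 × Mt g2 => QQ ν1 z.1.1 + QQ ν2 z.2.1)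

/-- **PER** (uses nothing).  PROOF.  Induction on `L`.  `inl t`: the minimal period of `t` under `finRotate j` is
`j`: `(t + s) % j = t` iff `j ∣ s` (`finRotate_pow_val`; `Function.IsPeriodicPt`,
`Function.minimalPeriod_eq_minimalPeriod_iff` or `Nat.dvd_antisymm`).  `inr h`: the induction hypothesis. -/
def PerStmt : Prop :=
  ∀ (L : List (ℕ × ℕ × ℕ)) (h : HB L), ∃ b ∈ L, Function.minimalPeriod (gB L) h = bsz b

/-- **PRM** (uses nothing).  PROOF.  Second part by induction on `L1` (`Equiv.emptySum`, `Equiv.sumAssoc`).  First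
part by induction on `List.Perm`: `nil`, `cons`, `swap` (`Fin a ⊕ (Fin b ⊕ X) ≃ Fin b ⊕ (Fin a ⊕ X)`), `trans`. -/
def PrmStmt : Prop :=
  (∀ L L' : List (ℕ × ℕ × ℕ), L.Perm L' → SN (nuB L) (gB L) (nuB L') (gB L')) ∧
  ∀ L1 L2 : List (ℕ × ℕ × ℕ), SN (nuB (L1 ++ L2)) (gB (L1 ++ L2)) (Sum.elim (nuB L1) (nuB L2))
    (Equiv.sumCongr (gB L1) (gB L2))

/-- **EDG** (uses MTS, SPM, PER, PRM).  All sizes.
PROOF.  Induction on `M`.  `M = 0`: `L = []`, one matching, one `x`, `edL 0 [] _ = []`.  `M + 1`: let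
`L1 = L.filter (bsz · ≤ M)`, `L2 = L.filter (bsz · = M + 1)`; `L` is a permutation of `L1 ++ L2`
(`List.filter_append_perm`, the negation of the first condition is the second one on `L`).  PRM (`SN.eqD`):
the matchings of `L` and of the sum `L1`, `L2`; SPM (by PER the periods are `≤ M` in `L1` and `= M + 1` in `L2`);
the induction hypothesis for `L1` and MTS for `L2`, `EqD.add`.  So the distribution is the one of
`(x, y) : ((j : Fin M) → Fin (F (j+1) (L1.countP ..))) × Fin (F (M+1) L2.length)` with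
`Qc (edL M L1 (ext x)) + Qc (mt (M+1) L2 y)`; `L1.countP (bsz · = j + 1) = L.countP (..)` and
`L1.filter (bsz · = j+1) = L.filter (..)` for `j < M` (`List.filter_filter`), `L.countP (bsz · = M+1) = L2.length`
(`List.countP_eq_length_filter`); tuples: `Fin.snocEquiv` or `Fin.snoc` / `Fin.init`;
`List.range_succ`, `List.flatMap_append`; `ext` of the tuple agrees with `ext x` at `j + 1`, `j < M`, and with `y` at
`M + 1` (`List.flatMap_congr`-like). -/
def EdgStmt : Prop :=
  ∀ (M : ℕ) (L : List (ℕ × ℕ × ℕ)), (∀ b ∈ L, 1 ≤ bsz b ∧ bsz b ≤ M) →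
    EqD (fun m : Mt (gB L) => QQ (nuB L) m.1)
      (fun x : ((j : Fin M) → Fin (F (j + 1) (L.countP (fun b => bsz b = (j : ℕ) + 1)))) =>
        Qc (edL M L (ext x)))

/-- **TRB** (uses nothing).  The structure of a code as a list of bundles.
PROOF.  Induction on `c` for all `v`.  `(l, p) :: c`: `bund v ((l, p) :: c) = p.map (fun i => (v, l, i)) ++ bund (v + l) c`.
`Hp l p ≃ HB (p.map (fun i => (v, l, i)))` by induction on `p` (`bsz (v, l, i) = l * i`; the vertex is
`v + t % l = v + nup l p t`), and `HB (L1 ++ L2) ≃ HB L1 ⊕ HB L2` (induction on `L1`, compatible with `nuB`, `gB`: this is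
the second part of PRM, prove it again or do both inductions at once).  `e : Fin l ⊕ Vc c ≃ Fin l ⊕ Fin s ≃ Fin (l + s)`
(`finSumFinEquiv`): `inl a ↦ a`, `inr u ↦ l + e u`. -/
def TrbStmt : Prop :=
  ∀ (c : Code) (v : ℕ), ∃ (e : Vc c ≃ Fin ((c.map (fun x => x.1)).sum)) (f : Hc c ≃ HB (bund v c)),
    (∀ h, nuB (bund v c) (f h) = v + (e (nuc c h) : ℕ)) ∧ ∀ h, f (gc c h) = gB (bund v c) (f h)

/-- **PTF** (uses EDG, TRB).  The value of `Ψ_B` on the standard structure of a code.
PROOF.  TRB for `v = 0`; `(c.map fst).sum = n` (`subst`).  The matchings `m` of `Hc c` and `m' = f m f⁻¹` of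
`HB (bund 0 c)` (`IsMt.conj`): `QQ (nuB _) m' (e v) (e w) = QQ (nuc c) m v w` for `v w : Vc c` (`e` is injective as a
map to `ℕ`), so `PhB B .. = Nat.card {m' : Mt (gB _) // ∃ σ : Fin n ≃ Fin n, ∀ v w : Fin n,
QQ (nuB _) m' v w = tw B (σ v) (σ w)}`.  The sizes of `bund 0 c` are between `1` and `M` (`OkC`: a bundle of `(l, p)` has
the size `l * i ≤ l * p.sum ≤ M`).  EDG and `EqD.card` with `P q := ∃ σ : Fin n ≃ Fin n, ∀ v w : Fin n,
q v w = tw B (σ v) (σ w)`: the number of the `x` with `P (Qc (edL M (bund 0 c) (ext x)))` (`edg_eq`; the type of `x` is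
the same: `cnt c (j+1)` is `(bund 0 c).countP (..)` by definition).  `P (Qc E) ↔ Iso (gr n E) B`: `Qc E v w = tw B (σ v) (σ w)` iff
`B (σ v) (σ w) = gr n E v w` (for `v = w`: `2 count = 2 B`). -/
def PtfStmt : Prop :=
  ∀ (n M : ℕ) (B : Fin n → Fin n → ℕ) (c : Code), OkC n M c →
    PhB B (Vc c) (Hc c) (nuc c) (gc c) =
      Nat.card {x : (j : Fin M) → Fin (F (j + 1) (cnt c (j + 1))) //
        Iso (gr n (edg M c (ext x))) B}

/-! ## The result of block B -/

/-- **BUR** (uses GSI, GSM, STM, GAM, GCG, REA, DGF, ORB, IVB, PTF).  The identity.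
PROOF.  REA: `H`, `ν`, `m` for `B` (`B` is symmetric).  DGF: the fibre over `v` has `deg B v` elements, so the multiset
of the numbers is `d` (`B ∈ Om d`), STM: `MI ν (nus d)`.  GCG, PTF: the left side is
`gsum d (fun c => PhB B (Vc c) (Hc c) (nuc c) (gc c))`, by GSM (`IVB`) it is `GS (PhB B) (nus d) = GS (PhB B) ν` (GSI)
`= Nat.card (Gam ν)` (ORB).  For `Ψ = 1` (constant) `GS Ψ ν = Nat.card (Gam ν)` (`finsum_eq_sum_of_fintype`,
`Nat.card_eq_fintype_card`; `Gam ν` is finite), and by GSI, GSM, GAM this is `gsum d (fun _ => 1) = gam d`. -/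
def BurStmt : Prop :=
  ∀ d : List ℕ, d.Pairwise (· ≤ ·) → ∀ B ∈ Om d,
    gsum d (fun c => Nat.card {x : (j : Fin d.sum) → Fin (F (j + 1) (cnt c (j + 1))) //
      Iso (gr d.length (edg d.sum c (ext x))) B}) = gam d

end Pool.Agent.UMG.B
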