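import Pool.Agent.UMG.StmtsA

/-!
# Squad UMG: the algorithm (integers only)

`M = d.sum`, `K` is a constant. The grid point is `g < (M+1)^K`, its digits are `dg M g j`, `j < K`.
-/

set_option autoImplicit false

namespace Pool.Agent.UMG

open Finset

/-- the index `i` with `∑_{t<i} w t ≤ u < ∑_{t≤i} w t` -/
def pick (m : ℕ) (w : ℕ → ℕ) (u : ℕ) : ℕ :=
  ∑ i ∈ range m, if ∑ t ∈ range (i + 1), w t ≤ u then 1 else 0

/-- partial sum -/
def cum (w : ℕ → ℕ) (i : ℕ) : ℕ := ∑ t ∈ range i, w t

/-- the integer field at the grid point `g` for the size `j ≥ 1`: `(2(M+1))^j * fg M K g j` -/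
def fX (M K g j : ℕ) : ℕ :=
  if j ≤ K then (2 * (M + 1)) ^ (j - 1) * Bn M j (dg M g (j - 1) + 1) else (2 * (M + 1)) ^ j * be M

/-- `W M j` -/
def WW (M j : ℕ) : ℕ := ∏ b ∈ range (M + 1), Bn M j (b + 1) ^ b

/-- `W M j * ct M j b` -/
def coef (M j b : ℕ) : ℕ :=
  (∏ i ∈ range b, Bn M j (i + 1)) * ∏ b' ∈ range (M + 1), if b' = b then 1 else Bn M j (b' + 1) ^ b'

/-- the coefficient of the grid point -/
def cfg (M K g : ℕ) : ℕ := ∏ j ∈ range K, coef M (j + 1) (dg M g j)

/-- total number -/
def TT (K : ℕ) (d : List ℕ) : ℕ :=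
  ∑ g ∈ range ((d.sum + 1) ^ K), cfg d.sum K g * Aint (fX d.sum K g) d

/-- value of a child in `unE` (without multiplicity) -/
def vE (x : ℕ → ℕ) (l A k W i : ℕ) : ℕ := W * x (l * (i + 1)) * (Eint x l (k - i) * A)

/-- Unranking of the cycles of the holonomy; the number `u < W * (Eint x l k * A)`; the result is the
composition of `k`, the new `W` and the new `u < W * A`. -/
def unE (x : ℕ → ℕ) (l A : ℕ) (k W u : ℕ) : List ℕ × ℕ × ℕ :=
  match k with
  | 0 => ([], W, u)
  | k + 1 =>
    let w := fun i => k.descFactorial i * vE x l A k W i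
    let i := pick (k + 1) w u
    let q := unE x l A (k - i) (W * x (l * (i + 1))) ((u - cum w i) % vE x l A k W i)
    ((i + 1) :: q.1, q.2)
termination_by k
decreasing_by omega

/-- value of a child in `unA` (without multiplicity) -/
def vA (x : ℕ → ℕ) (k : ℕ) (t : List ℕ) (W i : ℕ) : ℕ := W * (Eint x (i + 1) k * Aint x (t.drop i))

/-- Unranking of the code; the number `u < W * Aint x d`; the result is the code, the new `W` and the
new `u < W`. -/
def unA (x : ℕ → ℕ) (d : List ℕ) (W u : ℕ) : Code × ℕ × ℕ :=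
  match d with
  | [] => ([], W, u)
  | k :: t =>
    let w := fun i => (t.count k).descFactorial i * k.factorial ^ i * vA x k t W i
    let i := pick (t.count k + 1) w u
    let q := unE x (i + 1) (Aint x (t.drop i)) k W ((u - cum w i) % vA x k t W i)
    let q' := unA x (t.drop i) q.2.1 q.2.2
    ((i + 1, q.1) :: q'.1, q'.2)
termination_by d.length
decreasing_by simp only [List.length_drop, List.length_cons]; omega

/-- radix number `j` of the leaf (size `j + 1`) -/
def YB (M K g : ℕ) (c : Code) (j : ℕ) : ℕ :=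
  (if j < K then coef M (j + 1) (dg M g j) else 1) * fX M K g (j + 1) ^ cnt c (j + 1)

/-- digit number `j` of the leaf number `z` -/
def rr (M K g : ℕ) (c : Code) (z j : ℕ) : ℕ := z / (∏ i ∈ range j, YB M K g c i) % YB M K g c j

/-- the integer field for the digit `b` and the size `j` -/
def Xb (M j b : ℕ) : ℕ := (2 * (M + 1)) ^ (j - 1) * Bn M j (b + 1)

/-- the number for the size `j + 1` -/
def yy (M K g : ℕ) (c : Code) (z j : ℕ) : ℕ :=
  (if j < K then ∑ b ∈ range (dg M g j), coef M (j + 1) b * Xb M (j + 1) b ^ cnt c (j + 1) else 0) +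
    rr M K g c z j

/-- the scale for the size `j + 1` -/
def scl (M K : ℕ) (c : Code) (j : ℕ) : ℕ :=
  (if j < K then WW M (j + 1) else 1) * (2 * (M + 1)) ^ ((j + 1) * cnt c (j + 1))

/-- the number of the matching of the bundles of size `j` -/
def ix (M K g : ℕ) (c : Code) (z j : ℕ) : ℕ := yy M K g c z (j - 1) % F j (cnt c j)

/-- acceptance -/
def acc (M K g : ℕ) (c : Code) (z : ℕ) : Prop :=
  ∀ j < K + M, yy M K g c z j < scl M K c j * F (j + 1) (cnt c (j + 1))

instance (M K g : ℕ) (c : Code) (z : ℕ) : Decidable (acc M K g c z) := by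
  unfold acc; infer_instance

/-- the output for a leaf -/
def leaf (K : ℕ) (d : List ℕ) (g : ℕ) (c : Code) (z : ℕ) : ℕ :=
  if acc d.sum K g c z then out d.sum (gr d.length (edg d.sum c (ix d.sum K g c z))) else 0

/-- weights of the grid points -/
def wg (K : ℕ) (d : List ℕ) (g : ℕ) : ℕ := cfg d.sum K g * Aint (fX d.sum K g) d

/-- the output for the number `u < TT K d` -/
def algo (K : ℕ) (d : List ℕ) (u : ℕ) : ℕ :=
  let g := pick ((d.sum + 1) ^ K) (wg K d) u
  let q := unA (fX d.sum K g) d (cfg d.sum K g) (u - cum (wg K d) g)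
  leaf K d g q.1 q.2.2

/-- one trial with the random number `u` -/
def trial (K : ℕ) (d : List ℕ) (u : ℕ) : ℕ := if u < TT K d then algo K d u else 0

/-- the first nonzero value among `h (digit t of r)`, `t < R`, digits in base `2^L` -/
def fst (h : ℕ → ℕ) (L R r : ℕ) : ℕ :=
  Nat.rec 0 (fun t x => if x ≠ 0 then x else h (r / 2 ^ (L * t) % 2 ^ L)) R

/-- number of the trials -/
def RR (A : ℕ) (d : List ℕ) (s : ℕ) : ℕ := 2 * (d.sum + 2) ^ A * s

/-- the result of the algorithm -/
def alg (K A : ℕ) (d : List ℕ) (s r : ℕ) : ℕ := fst (trial K d) (Nat.size (TT K d)) (RR A d s) r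

end Pool.Agent.UMG
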