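import Mathlib

/-!
# Sampling unlabelled multigraphs (MP_34c13a_lc): multigraphs and programs
-/

set_option autoImplicit false

namespace Pool.Agent.UMG

open Finset

/-! ## Multigraphs -/

/-- A multigraph on `Fin n` is a symmetric matrix `A`; `A v w` is the number of edges between `v` and
`w`, and `A v v` is the number of loops at `v`. The degree counts loops twice. -/
def deg {n : ℕ} (A : Fin n → Fin n → ℕ) (v : Fin n) : ℕ := (∑ w, A v w) + A v v

/-- The multigraphs on `n` labelled vertices whose multiset of degrees is `d` (`n` = length of `d`). -/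
def Om (d : List ℕ) : Set (Fin d.length → Fin d.length → ℕ) :=
  {A | (∀ v w, A v w = A w v) ∧ Multiset.map (deg A) Finset.univ.val = (d : Multiset ℕ)}

/-- Isomorphism of multigraphs. -/
def Iso {n : ℕ} (A B : Fin n → Fin n → ℕ) : Prop :=
  ∃ σ : Equiv.Perm (Fin n), ∀ v w, B (σ v) (σ w) = A v w

/-! ## Programs

Programs of a small programming language over natural numbers. A program has a list of numbers as
environment (`var i` is the number with index `i`). -/

/-- Programs. -/
inductive Prog : Type
  | var (i : ℕ)
  | num (c : ℕ)
  | add (a b : Prog)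
  | sub (a b : Prog)
  | mul (a b : Prog)
  | div (a b : Prog)
  | mod (a b : Prog)
  | ite (a b c : Prog)
  | lett (a b : Prog)
  | loop (c i b : Prog)

/-- Value of a program. `ite a b c`: the value of `b` if the value of `a` is not zero, otherwise the
value of `c`. `lett a b`: the value of `b` in the environment where the value of `a` is put in front.
`loop c i b`: start with the value `x` of `i` and repeat as often as the value of `c` says
`x := value of b in the environment x :: t :: environment`, `t = 0, 1, 2, …` the number of the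
round. -/
def eval : Prog → List ℕ → ℕ
  | .var i, ρ => ρ.getD i 0
  | .num c, _ => c
  | .add a b, ρ => eval a ρ + eval b ρ
  | .sub a b, ρ => eval a ρ - eval b ρ
  | .mul a b, ρ => eval a ρ * eval b ρ
  | .div a b, ρ => eval a ρ / eval b ρ
  | .mod a b, ρ => eval a ρ % eval b ρ
  | .ite a b c, ρ => if eval a ρ ≠ 0 then eval b ρ else eval c ρ
  | .lett a b, ρ => eval b (eval a ρ :: ρ)
  | .loop c i b, ρ => Nat.rec (eval i ρ) (fun t x => eval b (x :: t :: ρ)) (eval c ρ)

/-- Running time of a program: an arithmetical operation costs the square of (number of binary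
digits of the operands, plus one); `Nat.size` is the number of binary digits. -/
def time : Prog → List ℕ → ℕ
  | .var i, ρ => Nat.size (ρ.getD i 0) + 1
  | .num c, _ => Nat.size c + 1
  | .add a b, ρ => time a ρ + time b ρ + (Nat.size (eval a ρ) + Nat.size (eval b ρ) + 1) ^ 2
  | .sub a b, ρ => time a ρ + time b ρ + (Nat.size (eval a ρ) + Nat.size (eval b ρ) + 1) ^ 2
  | .mul a b, ρ => time a ρ + time b ρ + (Nat.size (eval a ρ) + Nat.size (eval b ρ) + 1) ^ 2
  | .div a b, ρ => time a ρ + time b ρ + (Nat.size (eval a ρ) + Nat.size (eval b ρ) + 1) ^ 2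
  | .mod a b, ρ => time a ρ + time b ρ + (Nat.size (eval a ρ) + Nat.size (eval b ρ) + 1) ^ 2
  | .ite a b c, ρ => time a ρ + (if eval a ρ ≠ 0 then time b ρ else time c ρ) + 1
  | .lett a b, ρ => time a ρ + time b (eval a ρ :: ρ)
  | .loop c i b, ρ => time c ρ + time i ρ + ∑ t ∈ range (eval c ρ),
      (time b (Nat.rec (eval i ρ) (fun t x => eval b (x :: t :: ρ)) t :: t :: ρ) + 1)

/-- The input registers: the number `n` of vertices, the sum `M` of the degrees, the number with the
digits `d_1, …, d_n` in base `M + 1`, the accuracy `s` and the random number `r`. -/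
def env (d : List ℕ) (s r : ℕ) : List ℕ := [d.length, d.sum, Nat.ofDigits (d.sum + 1) d, s, r]

/-- The output for the multigraph `A`: one plus the number whose digits in base `M + 1` are the
entries of the matrix, row by row (the output `0` means failure). -/
def out (M : ℕ) {n : ℕ} (A : Fin n → Fin n → ℕ) : ℕ :=
  1 + ∑ v : Fin n, ∑ w : Fin n, A v w * (M + 1) ^ ((v : ℕ) * n + (w : ℕ))

/-- the number of the `r < 2^L` for which the output of the program `e` is a multigraph isomorphic to
`A` -/
noncomputable def hits (e : Prog) (d : List ℕ) (s L : ℕ) (A : Fin d.length → Fin d.length → ℕ) : ℕ :=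
  Nat.card {r : ℕ // r < 2 ^ L ∧ ∃ A' ∈ Om d, Iso A' A ∧ eval e (env d s r) = out d.sum A'}

/-- the number of the `r < 2^L` for which the output of the program `e` is not a multigraph of `Om d` -/
noncomputable def fails (e : Prog) (d : List ℕ) (s L : ℕ) : ℕ :=
  Nat.card {r : ℕ // r < 2 ^ L ∧ ¬ ∃ A ∈ Om d, eval e (env d s r) = out d.sum A}

end Pool.Agent.UMG
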