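import Pool.Agent.UMG.DefsB

/-!
# Squad UMG, block B: basic lemmas (proved)
-/

set_option autoImplicit false

namespace Pool.Agent.UMG.B

open Finset Pool.Agent.UMG

/-! ## Finite types -/

instance finPT : (p : List ℕ) → Finite (PT p)
  | [] => inferInstanceAs (Finite Empty)
  | i :: p => by
    have := finPT p
    exact inferInstanceAs (Finite (Fin i ⊕ PT p))

instance finHp (l : ℕ) : (p : List ℕ) → Finite (Hp l p)
  | [] => inferInstanceAs (Finite Empty)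
  | i :: p => by
    have := finHp l p
    exact inferInstanceAs (Finite (Fin (l * i) ⊕ Hp l p))

instance finVc : (c : Code) → Finite (Vc c)
  | [] => inferInstanceAs (Finite Empty)
  | (l, p) :: c => by
    have := finVc c
    exact inferInstanceAs (Finite (Fin l ⊕ Vc c))

instance finHc : (c : Code) → Finite (Hc c)
  | [] => inferInstanceAs (Finite Empty)
  | (l, p) :: c => by
    have := finHc c
    exact inferInstanceAs (Finite (Hp l p ⊕ Hc c))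

instance finVs : (d : List ℕ) → Finite (Vs d)
  | [] => inferInstanceAs (Finite Empty)
  | k :: t => by
    have := finVs t
    exact inferInstanceAs (Finite (Unit ⊕ Vs t))

instance finHs : (d : List ℕ) → Finite (Hs d)
  | [] => inferInstanceAs (Finite Empty)
  | k :: t => by
    have := finHs t
    exact inferInstanceAs (Finite (Fin k ⊕ Hs t))

instance finHB : (L : List (ℕ × ℕ × ℕ)) → Finite (HB L)
  | [] => inferInstanceAs (Finite Empty)
  | b :: L => by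
    have := finHB L
    exact inferInstanceAs (Finite (Fin (bsz b) ⊕ HB L))

instance finMt {H : Type} [Finite H] (g : Equiv.Perm H) : Finite (Mt g) := by
  classical
  have : Finite (H → H) := Pi.finite
  exact Subtype.finite

instance finGam {V H : Type} [Finite V] [Finite H] (ν : H → V) : Finite (Gam ν) := by
  have : Finite (Equiv.Perm H × Equiv.Perm V) := inferInstance
  exact Subtype.finite

/-- powers of the rotation -/
theorem finRotate_pow_val (j s : ℕ) (t : Fin j) : (((finRotate j) ^ s) t : ℕ) = (t + s) % j := by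
  rcases j with _ | n
  · exact t.elim0
  induction s with
  | zero => simp [Nat.mod_eq_of_lt t.2]
  | succ s ih =>
    rw [pow_succ', Equiv.Perm.mul_apply, finRotate_apply, Fin.val_add, ih, Fin.val_one']
    rw [← Nat.add_mod, Nat.add_assoc]

theorem finRotate_val (j : ℕ) (t : Fin j) : (finRotate j t : ℕ) = (t + 1) % j := by
  have h := finRotate_pow_val j 1 t
  rwa [pow_one] at h

/-! ## Structures -/

theorem SI.refl {V H : Type} (ν : H → V) (g : Equiv.Perm H) : SI ν g ν g :=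
  ⟨Equiv.refl _, Equiv.refl _, fun _ => rfl, fun _ => rfl⟩

theorem SI.symm {V H V' H' : Type} {ν : H → V} {g : Equiv.Perm H} {ν' : H' → V'}
    {g' : Equiv.Perm H'} (h : SI ν g ν' g') : SI ν' g' ν g := by
  obtain ⟨e, f, h1, h2⟩ := h
  refine ⟨e.symm, f.symm, fun x => ?_, fun x => ?_⟩
  · rw [Equiv.eq_symm_apply, ← h1, Equiv.apply_symm_apply]
  · rw [Equiv.symm_apply_eq, h2, Equiv.apply_symm_apply]

theorem SI.trans {V H V' H' V'' H'' : Type} {ν : H → V} {g : Equiv.Perm H} {ν' : H' → V'}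
    {g' : Equiv.Perm H'} {ν'' : H'' → V''} {g'' : Equiv.Perm H''} (h : SI ν g ν' g')
    (h' : SI ν' g' ν'' g'') : SI ν g ν'' g'' := by
  obtain ⟨e, f, h1, h2⟩ := h
  obtain ⟨e', f', h1', h2'⟩ := h'
  refine ⟨e.trans e', f.trans f', fun x => ?_, fun x => ?_⟩
  · simp only [Equiv.trans_apply, h1', h1]
  · simp only [Equiv.trans_apply, h2', h2]

/-- sums of isomorphic structures are isomorphic -/
theorem SI.sum {V1 H1 V1' H1' V2 H2 V2' H2' : Type} {ν1 : H1 → V1} {g1 : Equiv.Perm H1}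
    {ν1' : H1' → V1'} {g1' : Equiv.Perm H1'} {ν2 : H2 → V2} {g2 : Equiv.Perm H2}
    {ν2' : H2' → V2'} {g2' : Equiv.Perm H2'} (h1 : SI ν1 g1 ν1' g1') (h2 : SI ν2 g2 ν2' g2') :
    SI (Sum.map ν1 ν2) (Equiv.sumCongr g1 g2) (Sum.map ν1' ν2') (Equiv.sumCongr g1' g2') := by
  obtain ⟨e1, f1, a1, b1⟩ := h1
  obtain ⟨e2, f2, a2, b2⟩ := h2
  refine ⟨Equiv.sumCongr e1 e2, Equiv.sumCongr f1 f2, ?_, ?_⟩
  · rintro (x | x)
    · exact congrArg Sum.inl (a1 x)
    · exact congrArg Sum.inr (a2 x)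
  · rintro (x | x)
    · exact congrArg Sum.inl (b1 x)
    · exact congrArg Sum.inr (b2 x)

theorem SI.assoc {V1 H1 V2 H2 V3 H3 : Type} (ν1 : H1 → V1) (g1 : Equiv.Perm H1) (ν2 : H2 → V2)
    (g2 : Equiv.Perm H2) (ν3 : H3 → V3) (g3 : Equiv.Perm H3) :
    SI (Sum.map (Sum.map ν1 ν2) ν3) (Equiv.sumCongr (Equiv.sumCongr g1 g2) g3)
      (Sum.map ν1 (Sum.map ν2 ν3)) (Equiv.sumCongr g1 (Equiv.sumCongr g2 g3)) := by
  refine ⟨Equiv.sumAssoc _ _ _, Equiv.sumAssoc _ _ _, ?_, ?_⟩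
  · rintro ((x | x) | x) <;> rfl
  · rintro ((x | x) | x) <;> rfl

theorem SI.comm {V1 H1 V2 H2 : Type} (ν1 : H1 → V1) (g1 : Equiv.Perm H1) (ν2 : H2 → V2)
    (g2 : Equiv.Perm H2) :
    SI (Sum.map ν1 ν2) (Equiv.sumCongr g1 g2) (Sum.map ν2 ν1) (Equiv.sumCongr g2 g1) := by
  refine ⟨Equiv.sumComm _ _, Equiv.sumComm _ _, ?_, ?_⟩
  · rintro (x | x) <;> rfl
  · rintro (x | x) <;> rfl

/-- an empty summand on the left -/
theorem SI.empty {V0 H0 V H : Type} [IsEmpty V0] [IsEmpty H0] (ν0 : H0 → V0)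
    (g0 : Equiv.Perm H0) (ν : H → V) (g : Equiv.Perm H) :
    SI (Sum.map ν0 ν) (Equiv.sumCongr g0 g) ν g := by
  refine ⟨Equiv.emptySum _ _, Equiv.emptySum _ _, ?_, ?_⟩
  · rintro (x | x)
    · exact isEmptyElim x
    · rfl
  · rintro (x | x)
    · exact isEmptyElim x
    · rfl

theorem MI.symm {V H V' H' : Type} {ν : H → V} {ν' : H' → V'} (h : MI ν ν') : MI ν' ν := by
  obtain ⟨e, f, h1⟩ := h
  refine ⟨e.symm, f.symm, fun x => ?_⟩
  rw [Equiv.eq_symm_apply, ← h1, Equiv.apply_symm_apply]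

theorem MI.trans {V H V' H' V'' H'' : Type} {ν : H → V} {ν' : H' → V'} {ν'' : H'' → V''}
    (h : MI ν ν') (h' : MI ν' ν'') : MI ν ν'' := by
  obtain ⟨e, f, h1⟩ := h
  obtain ⟨e', f', h1'⟩ := h'
  exact ⟨e.trans e', f.trans f', fun x => by simp only [Equiv.trans_apply, h1', h1]⟩

theorem Inv.ad {Ψ : SF} (h : Inv Ψ) {V0 H0 : Type} (ν0 : H0 → V0) (g0 : Equiv.Perm H0) :
    Inv (B.ad ν0 g0 Ψ) := fun _ _ _ _ _ _ _ _ h' => h _ _ _ _ _ _ _ _ ((SI.refl ν0 g0).sum h')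

/-! ## Distributions -/

theorem EqD.refl {α : Type} (q : α → ℕ → ℕ → ℕ) : EqD q q := ⟨Equiv.refl _, fun _ => rfl⟩

theorem EqD.symm {α β : Type} {q : α → ℕ → ℕ → ℕ} {q' : β → ℕ → ℕ → ℕ} (h : EqD q q') :
    EqD q' q := by
  obtain ⟨e, h⟩ := h
  exact ⟨e.symm, fun b => by rw [← h, Equiv.apply_symm_apply]⟩

theorem EqD.trans {α β γ : Type} {q : α → ℕ → ℕ → ℕ} {q' : β → ℕ → ℕ → ℕ} {q'' : γ → ℕ → ℕ → ℕ}
    (h : EqD q q') (h' : EqD q' q'') : EqD q q'' := by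
  obtain ⟨e, h⟩ := h
  obtain ⟨e', h'⟩ := h'
  exact ⟨e.trans e', fun a => by rw [Equiv.trans_apply, h', h]⟩

theorem EqD.add {α α' β β' : Type} {q1 : α → ℕ → ℕ → ℕ} {q1' : α' → ℕ → ℕ → ℕ}
    {q2 : β → ℕ → ℕ → ℕ} {q2' : β' → ℕ → ℕ → ℕ} (h1 : EqD q1 q1') (h2 : EqD q2 q2') :
    EqD (fun z : α × β => q1 z.1 + q2 z.2) (fun z : α' × β' => q1' z.1 + q2' z.2) := by
  obtain ⟨e1, h1⟩ := h1
  obtain ⟨e2, h2⟩ := h2
  exact ⟨Equiv.prodCongr e1 e2, fun z => by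
    simp only [Equiv.prodCongr_apply, Prod.map_fst, Prod.map_snd, h1, h2]⟩

theorem EqD.const {α β : Type} {q : α → ℕ → ℕ → ℕ} {q' : β → ℕ → ℕ → ℕ} (h : EqD q q')
    (c : ℕ → ℕ → ℕ) : EqD (fun a => c + q a) (fun b => c + q' b) := by
  obtain ⟨e, h⟩ := h
  exact ⟨e, fun a => by simp only [h]⟩

theorem EqD.sumElim {α α' β β' : Type} {q1 : α → ℕ → ℕ → ℕ} {q1' : α' → ℕ → ℕ → ℕ}
    {q2 : β → ℕ → ℕ → ℕ} {q2' : β' → ℕ → ℕ → ℕ} (h1 : EqD q1 q1') (h2 : EqD q2 q2') :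
    EqD (Sum.elim q1 q2) (Sum.elim q1' q2') := by
  obtain ⟨e1, h1⟩ := h1
  obtain ⟨e2, h2⟩ := h2
  refine ⟨Equiv.sumCongr e1 e2, ?_⟩
  rintro (a | a)
  · exact h1 a
  · exact h2 a

theorem EqD.sigma {ι : Type} {α β : ι → Type} {q : (i : ι) → α i → ℕ → ℕ → ℕ}
    {q' : (i : ι) → β i → ℕ → ℕ → ℕ} (h : ∀ i, EqD (q i) (q' i)) :
    EqD (fun z : (Σ i, α i) => q z.1 z.2) (fun z : (Σ i, β i) => q' z.1 z.2) := by
  choose e h using h
  exact ⟨Equiv.sigmaCongrRight e, fun z => h z.1 z.2⟩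

/-- restriction to a condition -/
theorem EqD.sub {α β : Type} {q : α → ℕ → ℕ → ℕ} {q' : β → ℕ → ℕ → ℕ} (h : EqD q q') (P : Prop) :
    EqD (fun a : {_a : α // P} => q a.1) (fun b : {_b : β // P} => q' b.1) := by
  obtain ⟨e, h⟩ := h
  exact ⟨e.subtypeEquiv fun _ => Iff.rfl, fun a => h a.1⟩

theorem EqD.card {α β : Type} {q : α → ℕ → ℕ → ℕ} {q' : β → ℕ → ℕ → ℕ} (h : EqD q q')
    (P : (ℕ → ℕ → ℕ) → Prop) : Nat.card {a // P (q a)} = Nat.card {b // P (q' b)} := by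
  obtain ⟨e, h⟩ := h
  exact Nat.card_congr (e.subtypeEquiv fun a => by rw [h])

/-! ## Numbers of pairs -/

theorem QQ_equiv {H H' V : Type} (f : H ≃ H') (ν : H → V) (ν' : H' → V) (m : H → H)
    (h : ∀ x, ν' (f x) = ν x) (v w : V) :
    QQ ν' (fun y => f (m (f.symm y))) v w = QQ ν m v w := by
  unfold QQ
  refine (Nat.card_congr (f.subtypeEquiv fun x => ?_)).symm
  simp only [h, Equiv.symm_apply_apply]

theorem QQ_sum {H1 H2 V : Type} [Finite H1] [Finite H2] (ν1 : H1 → V) (ν2 : H2 → V)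
    (m1 : H1 → H1) (m2 : H2 → H2) (v w : V) :
    QQ (Sum.elim ν1 ν2) (Sum.map m1 m2) v w = QQ ν1 m1 v w + QQ ν2 m2 v w := by
  unfold QQ
  rw [← Nat.card_sum]
  refine Nat.card_congr ⟨fun x => match x with
    | ⟨Sum.inl h, hh⟩ => Sum.inl ⟨h, hh⟩
    | ⟨Sum.inr h, hh⟩ => Sum.inr ⟨h, hh⟩, fun y => match y with
    | Sum.inl h => ⟨Sum.inl h.1, h.2⟩
    | Sum.inr h => ⟨Sum.inr h.1, h.2⟩, ?_, ?_⟩
  · rintro ⟨h | h, hh⟩ <;> rfl
  · rintro (h | h) <;> rfl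

/-- matchings are transported by isomorphisms -/
theorem IsMt.conj {H H' : Type} {g : Equiv.Perm H} {g' : Equiv.Perm H'} (f : H ≃ H')
    (hf : ∀ h, f (g h) = g' (f h)) {m : H → H} (hm : IsMt g m) :
    IsMt g' (fun y => f (m (f.symm y))) := by
  refine ⟨fun y => ?_, fun y h => ?_, fun y => ?_⟩
  · simp only [Equiv.symm_apply_apply, hm.inv, Equiv.apply_symm_apply]
  · exact hm.nfx (f.symm y) ((Equiv.eq_symm_apply f).2 h)
  · have h1 : f.symm (g' y) = g (f.symm y) := by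
      rw [Equiv.symm_apply_eq, hf, Equiv.apply_symm_apply]
    rw [h1, hm.com, hf]

theorem SN.symm {H H' : Type} {ν : H → ℕ} {g : Equiv.Perm H} {ν' : H' → ℕ} {g' : Equiv.Perm H'}
    (h : SN ν g ν' g') : SN ν' g' ν g := by
  obtain ⟨f, h1, h2⟩ := h
  refine ⟨f.symm, fun x => ?_, fun x => ?_⟩
  · rw [← h1, Equiv.apply_symm_apply]
  · rw [Equiv.symm_apply_eq, h2, Equiv.apply_symm_apply]

theorem SN.trans {H H' H'' : Type} {ν : H → ℕ} {g : Equiv.Perm H} {ν' : H' → ℕ}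
    {g' : Equiv.Perm H'} {ν'' : H'' → ℕ} {g'' : Equiv.Perm H''} (h : SN ν g ν' g')
    (h' : SN ν' g' ν'' g'') : SN ν g ν'' g'' := by
  obtain ⟨f, h1, h2⟩ := h
  obtain ⟨f', h1', h2'⟩ := h'
  exact ⟨f.trans f', fun x => by simp only [Equiv.trans_apply, h1', h1],
    fun x => by simp only [Equiv.trans_apply, h2', h2]⟩

/-- isomorphic structures have the same matchings -/
theorem SN.eqD {H H' : Type} {ν : H → ℕ} {g : Equiv.Perm H} {ν' : H' → ℕ} {g' : Equiv.Perm H'}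
    (h : SN ν g ν' g') : EqD (fun m : Mt g => QQ ν m.1) (fun m : Mt g' => QQ ν' m.1) := by
  obtain ⟨f, h1, h2⟩ := h
  have h2' : ∀ h, f.symm (g' h) = g (f.symm h) := by
    intro x
    rw [Equiv.symm_apply_eq, h2, Equiv.apply_symm_apply]
  refine ⟨⟨fun m => ⟨_, m.2.conj f h2⟩, fun m => ⟨_, m.2.conj f.symm h2'⟩, ?_, ?_⟩, ?_⟩
  · intro m
    refine Subtype.ext (funext fun x => ?_)
    simp
  · intro m
    refine Subtype.ext (funext fun x => ?_)
    simp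
  · intro m
    funext v w
    exact QQ_equiv f ν ν' m.1 h1 v w

theorem Qc_nil : Qc [] = 0 := rfl

theorem Qc_append (E E' : List (ℕ × ℕ)) : Qc (E ++ E') = Qc E + Qc E' := by
  funext a b
  simp only [Qc, List.count_append, Pi.add_apply]
  omega

end Pool.Agent.UMG.B
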