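import Pool.Agent.UMG.Kit5

/-!
# Squad UMG, block C: more on lists
-/

set_option autoImplicit false

namespace Pool.Agent.UMG

open Finset

/-- the function `w x j`, `j < N x`, is computed in polynomial time -/
abbrev Fn {X : Type} (sz : X → ℕ) (E : X → List ℕ) (N : X → ℕ) (w : X → ℕ → ℕ) : Prop :=
  PT (fun q : Dm N => sz q.1.1) (fun q => q.1.2 :: E q.1.1) (fun q => w q.1.1 q.1.2)

theorem flatMap_getD {n : ℕ} {L : ℕ → List ℕ} {m : ℕ}
    (h : m < ∑ i ∈ range n, (L i).length) :
    ((List.range n).flatMap L).getD m 0 =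
      (L (uidx (fun i => (L i).length) n m)).getD (urem (fun i => (L i).length) n m) 0 := by
  obtain ⟨i, hi, h1, h2⟩ := exists_uidx h
  have h3 := uidx_eq hi h1 h2
  unfold urem
  rw [h3]
  have h4 : ∀ k, ((List.range k).flatMap L).length = ∑ j ∈ range k, (L j).length := by
    intro k
    induction k with
    | zero => rfl
    | succ k ih =>
      rw [List.range_succ, List.flatMap_append, List.length_append, ih, Finset.sum_range_succ]
      simp
  have h5 : List.range n = List.range i ++ (i :: (List.range' (i + 1) (n - i - 1))) := by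
    have h6 : n = i + (n - i) := by omega
    have h7 : n - i = (n - i - 1) + 1 := by omega
    rw [List.range_eq_range', List.range_eq_range']
    conv_lhs => rw [h6, ← List.range'_append_1 (s := 0) (m := i) (n := n - i), h7,
      List.range'_succ]
    simp
  rw [h5, List.flatMap_append, List.flatMap_cons]
  rw [Finset.sum_range_succ] at h2
  simp only [List.getD_eq_getElem?_getD]
  rw [List.getElem?_append_right (by rw [h4]; exact h1), h4,
    List.getElem?_append_left (by omega)]

section

variable {X Y : Type} {sz : X → ℕ} {E : X → List ℕ}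

theorem PL.map {L : X → List ℕ} {g : X → ℕ → ℕ} (h : PL sz E L)
    (hg : PT (fun q : Dm (fun x => (L x).length) => sz q.1.1) (fun q => q.1.2 :: E q.1.1)
      (fun q => g q.1.1 ((L q.1.1).getD q.1.2 0))) :
    PL sz E (fun x => (L x).map (g x)) := by
  refine (PL.ofFn (g := fun x i => g x ((L x).getD i 0)) h.len h.lenb hg).congr fun x => ?_
  conv_lhs => rw [list_eq_map (L x)]
  rw [List.map_map]
  rfl

/-- concatenation of lists -/
theorem PL.flatMap {n : X → ℕ} {L : X → ℕ → List ℕ} (hn : PT sz E n) (hnb : PB sz n)
    (hL : PL (fun q : Dm n => sz q.1.1) (fun q => q.1.2 :: E q.1.1) (fun q => L q.1.1 q.1.2)) :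
    PL sz E (fun x => (List.range (n x)).flatMap (L x)) := by
  have hlen : ∀ x, ((List.range (n x)).flatMap (L x)).length =
      ∑ i ∈ range (n x), (L x i).length := by
    intro x
    generalize n x = k
    induction k with
    | zero => rfl
    | succ k ih =>
      rw [List.range_succ, List.flatMap_append, List.length_append, ih, Finset.sum_range_succ]
      simp
  have h1 : PT sz E (fun x => ∑ i ∈ range (n x), (L x i).length) :=
    PT.sum (f := fun x i => (L x i).length) hn hnb hL.len
  have h2 : PB sz (fun x => ∑ i ∈ range (n x), (L x i).length) := by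
    obtain ⟨C, hC⟩ := hL.lenb
    refine PB.sum (g := fun x => (sz x + 2) ^ C) hnb ((PB.self.add (PB.const 2)).pow C)
      fun x i hi => ?_
    exact hC ⟨(x, i), hi⟩
  -- the index of the block and the rest
  let D : Type := Dm (fun x => ∑ i ∈ range (n x), (L x i).length)
  have hm : PT (fun q : D => sz q.1.1) (fun q => q.1.2 :: E q.1.1) (fun q => q.1.2) :=
    PT.dmi h2
  have hw : PT (fun p : Dm (fun q : D => n q.1.1) => sz p.1.1.1.1)
      (fun p => p.1.2 :: (p.1.1.1.2 :: E p.1.1.1.1)) (fun p => (L p.1.1.1.1 p.1.2).length) :=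
    PT.use1 (c := n) (g := fun x i => (L x i).length) (Y := D) hL.len (fun q : D => q.1.1)
      (A := fun q => [q.1.2]) (a := 1) (fun _ => rfl) (c' := fun q => n q.1.1) fun _ => le_rfl
  have hid : PT (fun q : D => sz q.1.1) (fun q => q.1.2 :: E q.1.1)
      (fun q => UMG.uidx (fun i => (L q.1.1 i).length) (n q.1.1) q.1.2) :=
    PT.uidx (X := D) (w := fun q i => (L q.1.1 i).length) hn.dm (PB.dm hnb) hm hw
  have hre : PT (fun q : D => sz q.1.1) (fun q => q.1.2 :: E q.1.1)
      (fun q => UMG.urem (fun i => (L q.1.1 i).length) (n q.1.1) q.1.2) :=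
    PT.urem (X := D) (w := fun q i => (L q.1.1 i).length) hn.dm (PB.dm hnb) hm hw
  have hent : PT (fun q : D => sz q.1.1) (fun q => q.1.2 :: E q.1.1)
      (fun q => ((List.range (n q.1.1)).flatMap (L q.1.1)).getD q.1.2 0) := by
    -- local definitions: the index of the block, then the entry
    let id' : D → ℕ := fun q => UMG.uidx (fun i => (L q.1.1 i).length) (n q.1.1) q.1.2
    let re' : D → ℕ := fun q => UMG.urem (fun i => (L q.1.1 i).length) (n q.1.1) q.1.2
    have hspec : ∀ q : D, id' q < n q.1.1 ∧ re' q < (L q.1.1 (id' q)).length := fun q => by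
      have h3 := uidx_spec (w := fun i => (L q.1.1 i).length) q.2
      exact ⟨h3.1, h3.2.1⟩
    have hb : PL (fun q : D => sz q.1.1) (fun q => id' q :: (q.1.2 :: E q.1.1))
        (fun q => L q.1.1 (id' q)) := by
      have h3 := hL.comp (fun q : D => (⟨(q.1.1, id' q), (hspec q).1⟩ : Dm n))
      -- insert the number `q.1.2` behind the index
      refine ⟨h3.len.wk (A := fun q : D => [q.1.2]) (a := 1) fun _ => rfl, h3.lenb, ?_⟩
      obtain ⟨p, T, hT, h⟩ := h3.ent
      refine ⟨lift 1 2 p, T, hT, fun q τ => ?_⟩
      have h4 := eval_lift [q.1.1.1.2] (E q.1.1.1.1 ++ τ) p [q.1.2, id' q.1.1]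
      have h5 := time_lift [q.1.1.1.2] (E q.1.1.1.1 ++ τ) p [q.1.2, id' q.1.1]
      have h6 := h q τ
      simp only [List.length_cons, List.length_nil, zero_add, List.cons_append,
        List.nil_append] at h4 h5 h6
      simp only [List.cons_append]
      rw [h4, h5]
      exact h6
    refine PT.lett hid (g := fun q => ((List.range (n q.1.1)).flatMap (L q.1.1)).getD q.1.2 0) ?_
    refine (hb.getD (hre.tail id')).congr fun q => ?_
    exact flatMap_getD (L := L q.1.1) q.2
  refine ⟨h1.congr hlen, h2.mono fun x => (hlen x).le, ?_⟩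
  exact PT.dmle (c := fun x => ((List.range (n x)).flatMap (L x)).length)
    (c' := fun x => ∑ i ∈ range (n x), (L x i).length)
    (g := fun x i => ((List.range (n x)).flatMap (L x)).getD i 0) (fun x => (hlen x).le) hent

/-- filtered list -/
theorem PL.filter {L : X → List ℕ} {P : X → ℕ → Prop} [∀ x, DecidablePred (P x)]
    (h : PL sz E L)
    (hP : PD (fun q : Dm (fun x => (L x).length) => sz q.1.1) (fun q => q.1.2 :: E q.1.1)
      (fun q => P q.1.1 ((L q.1.1).getD q.1.2 0))) :
    PL sz E (fun x => (L x).filter (fun a => decide (P x a))) := by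
  have h1 : PL (fun q : Dm (fun x => (L x).length) => sz q.1.1) (fun q => q.1.2 :: E q.1.1)
      (fun q => if P q.1.1 ((L q.1.1).getD q.1.2 0) then [(L q.1.1).getD q.1.2 0] else []) := by
    have hd : PT (fun q : Dm (fun x => (L x).length) => sz q.1.1) (fun q => q.1.2 :: E q.1.1)
        (fun q => if P q.1.1 ((L q.1.1).getD q.1.2 0) then 1 else 0) := by
      refine PT.congr hP fun q => ?_
      by_cases hp : P q.1.1 ((L q.1.1).getD q.1.2 0) <;> simp
    refine (PL.ofFn (n := fun q : Dm (fun x => (L x).length) =>
      if P q.1.1 ((L q.1.1).getD q.1.2 0) then 1 else 0)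
      (g := fun q _ => (L q.1.1).getD q.1.2 0) hd
      ((PB.const 1).mono fun q => by split_ifs <;> simp) h.ent.dm).congr fun q => ?_
    split_ifs <;> simp
  refine (PL.flatMap (L := fun x i => if P x ((L x).getD i 0) then [(L x).getD i 0] else [])
    h.len h.lenb h1).congr fun x => ?_
  conv_lhs => rw [list_eq_map (L x)]
  generalize (L x).length = k
  induction k with
  | zero => rfl
  | succ k ih =>
    rw [List.range_succ, List.map_append, List.filter_append, ih, List.flatMap_append]
    congr 1
    by_cases hp : P x ((L x).getD k 0)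
    · simp only [List.map_cons, List.map_nil, List.flatMap_cons, List.flatMap_nil,
        List.append_nil, List.filter_cons, List.filter_nil, decide_eq_true_eq, if_pos hp]
    · simp only [List.map_cons, List.map_nil, List.flatMap_cons, List.flatMap_nil,
        List.append_nil, List.filter_cons, List.filter_nil, decide_eq_true_eq, if_neg hp]

theorem PL.countP {L : X → List ℕ} {P : X → ℕ → Prop} [∀ x, DecidablePred (P x)]
    (h : PL sz E L)
    (hP : PD (fun q : Dm (fun x => (L x).length) => sz q.1.1) (fun q => q.1.2 :: E q.1.1)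
      (fun q => P q.1.1 ((L q.1.1).getD q.1.2 0))) :
    PT sz E (fun x => (L x).countP (fun a => decide (P x a))) := by
  refine (h.filter hP).len.congr fun x => ?_
  rw [List.countP_eq_length_filter]

/-- number of binary digits of a number of polynomial length -/
theorem PT.size' {a c : X → ℕ} (ha : PT sz E a) (hc : PT sz E c) (hcb : PB sz c)
    (hac : ∀ x, Nat.size (a x) ≤ c x) : PT sz E (fun x => Nat.size (a x)) := by
  classical
  refine (PT.card (P := fun x i => 2 ^ i ≤ a x) hc hcb
    (PD.le ((PT.const 2).pow (PT.dmi hcb) (PB.dmi hcb)) ha.dm)).congr fun x => ?_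
  have h1 : (range (c x)).filter (fun i => 2 ^ i ≤ a x) = range (Nat.size (a x)) := by
    ext i
    simp only [Finset.mem_filter, Finset.mem_range]
    rw [← Nat.lt_size]
    constructor
    · exact fun h => h.2
    · exact fun h => ⟨h.trans_le (hac x), h⟩
  rw [h1, Finset.card_range]

end

end Pool.Agent.UMG
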