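import Pool.Agent.UMG.AlgDefs
import Pool.Agent.UMG.Kit6

/-!
# Squad UMG, BLOCK C (programs): step functions of the recursions in the algorithm
-/

set_option autoImplicit false

namespace Pool.Agent.UMG.C

open Finset Pool.Agent.UMG

/-! ## The recursion `unE` as a loop -/

/-- one step of `unE`; the state is `(k, W, u)` -/
def stE (x : ℕ → ℕ) (l A : ℕ) (s : ℕ × ℕ × ℕ) : ℕ × ℕ × ℕ :=
  if s.1 = 0 then s
  else
    let w := fun i => (s.1 - 1).descFactorial i * vE x l A (s.1 - 1) s.2.1 i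
    let i := pick s.1 w s.2.2
    (s.1 - 1 - i, s.2.1 * x (l * (i + 1)), (s.2.2 - cum w i) % vE x l A (s.1 - 1) s.2.1 i)

/-- the state after `t` steps -/
def sE (x : ℕ → ℕ) (l A : ℕ) (s : ℕ × ℕ × ℕ) : ℕ → ℕ × ℕ × ℕ
  | 0 => s
  | t + 1 => stE x l A (sE x l A s t)

/-! ## The recursion `unA` as a loop -/

/-- the numbers of the children in `unA`; the state is `s = (v, W, u)`, the rest of the list of the
degrees is `d.drop v` -/
def wA (x : ℕ → ℕ) (d : List ℕ) (s : ℕ × ℕ × ℕ) (i : ℕ) : ℕ :=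
  ((d.drop (s.1 + 1)).count (d.getD s.1 0)).descFactorial i * (d.getD s.1 0).factorial ^ i *
    vA x (d.getD s.1 0) (d.drop (s.1 + 1)) s.2.1 i

/-- the number of the child -/
def iA (x : ℕ → ℕ) (d : List ℕ) (s : ℕ × ℕ × ℕ) : ℕ :=
  pick ((d.drop (s.1 + 1)).count (d.getD s.1 0) + 1) (wA x d s) s.2.2

/-- the number for the child -/
def uA (x : ℕ → ℕ) (d : List ℕ) (s : ℕ × ℕ × ℕ) : ℕ :=
  (s.2.2 - cum (wA x d s) (iA x d s)) % vA x (d.getD s.1 0) (d.drop (s.1 + 1)) s.2.1 (iA x d s)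

/-- the result for the holonomy -/
def qA (x : ℕ → ℕ) (d : List ℕ) (s : ℕ × ℕ × ℕ) : List ℕ × ℕ × ℕ :=
  unE x (iA x d s + 1) (Aint x (d.drop (s.1 + 1 + iA x d s))) (d.getD s.1 0) s.2.1 (uA x d s)

/-- one step of `unA` -/
def stA (x : ℕ → ℕ) (d : List ℕ) (s : ℕ × ℕ × ℕ) : ℕ × ℕ × ℕ :=
  if s.1 < d.length then (s.1 + 1 + iA x d s, (qA x d s).2.1, (qA x d s).2.2) else s

/-- the state after `t` steps -/
def sA (x : ℕ → ℕ) (d : List ℕ) (s : ℕ × ℕ × ℕ) : ℕ → ℕ × ℕ × ℕ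
  | 0 => s
  | t + 1 => stA x d (sA x d s t)

/-! ## The recursion `mt` as a loop -/

/-- the edges of one step of `mt`; the bundles are `B r`, the state is `(R, x)`, `R` is the list of the
indices `r` of the remaining bundles -/
def eM (B : ℕ → ℕ × ℕ × ℕ) (j : ℕ) (s : List ℕ × ℕ) : List (ℕ × ℕ) :=
  if s.1.length = 0 then []
  else if s.2 < sb j (s.1.length - 1) then selfE j (B (s.1.getD 0 0))
  else pairE j (rI j (s.1.length - 1) s.2) (B (s.1.getD 0 0))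
    (B ((s.1.drop 1).getD (pI j (s.1.length - 1) s.2) 0))

/-- one step of `mt` -/
def stM (j : ℕ) (s : List ℕ × ℕ) : List ℕ × ℕ :=
  if s.1.length = 0 then s
  else if s.2 < sb j (s.1.length - 1) then (s.1.drop 1, s.2)
  else ((s.1.drop 1).eraseIdx (pI j (s.1.length - 1) s.2), xI j (s.1.length - 1) s.2)

/-- the state after `t` steps -/
def sM (j : ℕ) (s : List ℕ × ℕ) : ℕ → List ℕ × ℕ
  | 0 => s
  | t + 1 => stM j (sM j s t)

/-- the contribution of an edge to the output -/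
def ctr (n M : ℕ) (e : ℕ × ℕ) : ℕ :=
  if e.1 < n ∧ e.2 < n then
    (if e.1 = e.2 then (M + 1) ^ (e.1 * n + e.2)
    else (M + 1) ^ (e.1 * n + e.2) + (M + 1) ^ (e.2 * n + e.1))
  else 0

end Pool.Agent.UMG.C
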