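import Pool.Agent.UMG.CDefs

/-!
# Squad UMG (MP_34c13a_lc, Theorem X), BLOCK C: facts on the step functions

namespace for rows `Pool.Agent.UMG.C.HNN`; every row is `theorem xxx : XxxStmt` (with the statements
of the column `uses` as hypotheses).
-/

set_option autoImplicit false

namespace Pool.Agent.UMG.C

open Finset Pool.Agent.UMG

/-- UES (easy-medium): `unE` is the loop with the step function `stE`. Proof: strong induction on `k`
for all `W u T`. First show `sE x l A s (t + 1) = sE x l A (stE x l A s) t` (induction on `t`).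
`k = 0`: all states are `(0, W, u)`. `k + 1`, then `T = T' + 1`: unfold `unE` once; `pick m w u =
uidx w m u` (`Finset.card_filter`), so `uidx_spec` gives `i ≤ k` and `u - cum w i < w i`, so
`0 < vE .. i` and the new number is less than `vE .. i = (W * x (l*(i+1))) * (Eint x l (k-i) * A)`.
The first entry of the list is `(k + 1) - (k - i) = i + 1`; use `List.range_succ_eq_map` and
`List.flatMap_map` for the others. -/
def UesStmt : Prop := ∀ (x : ℕ → ℕ) (l A k W u T : ℕ), u < W * (Eint x l k * A) → k ≤ T →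
  (unE x l A k W u).1 = (List.range T).flatMap (fun t =>
    if (sE x l A (k, W, u) t).1 = 0 then []
    else [(sE x l A (k, W, u) t).1 - (sE x l A (k, W, u) (t + 1)).1]) ∧
  (unE x l A k W u).2 = (sE x l A (k, W, u) T).2

/-- UEB (easy-medium): the bounds. Proof: induction on `t` (all together); the step as in UES;
`x (l*(i+1)) ≤ wb x N` by `le_wb` since `l*(i+1) ≤ l*k < N`; `0 < wb x N` (`wb_pos`). -/
def UebStmt : Prop := ∀ (x : ℕ → ℕ) (l A k W u N t : ℕ), u < W * (Eint x l k * A) → l * k < N →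
  (sE x l A (k, W, u) t).1 ≤ k - t ∧
  (sE x l A (k, W, u) t).2.1 * wb x N ^ (sE x l A (k, W, u) t).1 ≤ W * wb x N ^ k ∧
  (sE x l A (k, W, u) t).2.2 <
    (sE x l A (k, W, u) t).2.1 * (Eint x l (sE x l A (k, W, u) t).1 * A)

/-- UAS (easy-medium): `unA` is the loop with the step function `stA`. Proof: strong induction on
`d.length - v` for all `v W u T`; `d.drop v = d.getD v 0 :: d.drop (v + 1)` for `v < d.length`
(`drop_eq_cons`), `(d.drop (v+1)).drop i = d.drop (v+1+i)` (`List.drop_drop`). For `v ≥ d.length` all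
states are equal. (No condition on `u`.) -/
def UasStmt : Prop := ∀ (x : ℕ → ℕ) (d : List ℕ) (v W u T : ℕ), d.length - v ≤ T →
  bund v (unA x (d.drop v) W u).1 = (List.range T).flatMap (fun t =>
    if (sA x d (v, W, u) t).1 < d.length then
      (qA x d (sA x d (v, W, u) t)).1.map
        (fun i => ((sA x d (v, W, u) t).1, iA x d (sA x d (v, W, u) t) + 1, i))
    else []) ∧
  (unA x (d.drop v) W u).2 = (sA x d (v, W, u) T).2

/-- the state is good -/
def okA (x : ℕ → ℕ) (d : List ℕ) (s : ℕ × ℕ × ℕ) : Prop :=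
  s.1 ≤ d.length ∧ s.2.2 < s.2.1 * Aint x (d.drop s.1)

/-- UAC (medium): one step. Proof: as in UES: `∑_{i<c+1} wA .. i = W * Aint x (d.drop v)` by
`drop_eq_cons` and `Aint_cons`, so `uidx_spec` gives `i ≤ c` and `u - cum < wA .. i`, hence
`0 < vA ..` and the bound for `uA`. -/
def UacStmt : Prop := ∀ (x : ℕ → ℕ) (d : List ℕ) (s : ℕ × ℕ × ℕ), okA x d s → s.1 < d.length →
  iA x d s ≤ (d.drop (s.1 + 1)).count (d.getD s.1 0) ∧
  uA x d s < s.2.1 * (Eint x (iA x d s + 1) (d.getD s.1 0) * Aint x (d.drop (s.1 + 1 + iA x d s)))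

/-- UAB (medium, from UES, UEB, UAC): the bounds. Proof: induction on `t`. Step: `UacStmt`, then `UesStmt`
and `UebStmt` at `t = T = k` for `unE` (its state has first component `0` there), which give
`(qA ..).2.1 ≤ W * wb x N ^ k` and `(qA ..).2.2 < (qA ..).2.1 * Aint ..`; the condition `l * k < N`
(`l = iA + 1`) is `mul_le_sum` and `hd`; `(d.drop (v+1+i)).sum + k ≤ (d.drop v).sum`. -/
def UabStmt : Prop := ∀ (x : ℕ → ℕ) (d : List ℕ) (W u N t : ℕ), u < W * Aint x d → d.sum < N →
  okA x d (sA x d (0, W, u) t) ∧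
  (sA x d (0, W, u) t).2.1 * wb x N ^ (d.drop (sA x d (0, W, u) t).1).sum ≤ W * wb x N ^ d.sum

/-- MTL (easy-medium): `mt` is the loop with the step function `stM`. Proof: strong induction on
`R.length` for all `R x T`. `F j (m + 1) = sb j m + m * j * F j (m - 1)` for `m ≥ 1` and
`F j 1 = sb j 0`; so for `x < F j (m + 1)`, `sb j m ≤ x`: `1 ≤ m`, `0 < j * F j (m - 1)`,
`pI j m x < m` and `xI j m x < F j (m - 1)`; `(R.map B).eraseIdx p = (R.eraseIdx p).map B`;
`(R.map B).getD p (0, 1, 1) = B (R.getD p 0)` for `p < R.length`. -/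
def MtlStmt : Prop := ∀ (B : ℕ → ℕ × ℕ × ℕ) (j : ℕ) (R : List ℕ) (x T : ℕ),
  x < F j R.length → R.length ≤ T →
  mt j (R.map B) x = (List.range T).flatMap (fun t => eM B j (sM j (R, x) t))

/-- MTK (easy-medium): the bounds. Proof: induction on `t`; the step as in MTL. -/
def MtkStmt : Prop := ∀ (j : ℕ) (R : List ℕ) (x t : ℕ), x < F j R.length →
  (sM j (R, x) t).1.length ≤ R.length ∧ (∀ a ∈ (sM j (R, x) t).1, a ∈ R) ∧
  (sM j (R, x) t).2 < F j (sM j (R, x) t).1.length ∧
  ((sM j (R, x) t).1.length ≠ 0 → ¬ (sM j (R, x) t).2 < sb j ((sM j (R, x) t).1.length - 1) →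
    pI j ((sM j (R, x) t).1.length - 1) (sM j (R, x) t).2 < (sM j (R, x) t).1.length - 1)

/-- OUC (easy-medium): the output as a sum over the edges. Proof: `Finset.mul_sum`-type exchange:
`E.count (v, w) = (E.map (fun e => if e = (v, w) then 1 else 0)).sum`; exchange the sums over `v`, `w`
with the sum over the list (induction on `E`: both sides are additive under `cons`), for one edge
`(a, b)` the sum over `v w : Fin n` is `ctr n M (a, b)`. -/
def OucStmt : Prop := ∀ (n M : ℕ) (E : List (ℕ × ℕ)),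
  out M (gr n E) = 1 + (E.map (ctr n M)).sum

end Pool.Agent.UMG.C
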