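import Pool.Agent.UMG.Base

/-!
# Squad UMG: codes of permutations of the half-edges, the multigraph of a code (used in the proof only)
-/

set_option autoImplicit false

namespace Pool.Agent.UMG

open Finset

/-! ## Numbers of fixed matchings -/

/-- The number of perfect matchings of `c` cycles of length `j` which commute with the rotation. -/
def F (j : ℕ) : ℕ → ℕ
  | 0 => 1
  | 1 => if 2 ∣ j then 1 else 0
  | (c + 2) => (if 2 ∣ j then F j (c + 1) else 0) + (c + 1) * j * F j c

/-! ## Codes

A code is a list of pairs `(l, p)`: a cycle of `l` vertices of degree `k` whose `l`-th power acts on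
the half-edges of a vertex with cycles of lengths `p` (a composition of `k`). The vertices are
`0, 1, …, n-1`, the list `d` of the degrees is nondecreasing, and the cycles of vertices are made of
consecutive vertices. -/

abbrev Code : Type := List (ℕ × List ℕ)

/-- `csum k Ψ` is the sum over the permutations of `k` points of `Ψ` of the composition of the cycle
lengths (the cycle of the first point first, then the cycle of the first remaining point, …). -/
def csum {R : Type} [CommSemiring R] (k : ℕ) (Ψ : List ℕ → R) : R :=
  match k with
  | 0 => Ψ []
  | k + 1 => ∑ i ∈ range (k + 1), (k.descFactorial i : R) * csum (k - i) (fun p => Ψ ((i + 1) :: p))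
termination_by k
decreasing_by omega

/-- `gsum d Ψ` is the sum over all permutations of the half-edges which induce a permutation of the
vertices (degrees preserved) of `Ψ` of the code. -/
def gsum {R : Type} [CommSemiring R] (d : List ℕ) (Ψ : Code → R) : R :=
  match d with
  | [] => Ψ []
  | k :: t => ∑ i ∈ range (t.count k + 1), ((t.count k).descFactorial i : R) *
      (k.factorial : R) ^ i * csum k (fun p => gsum (t.drop i) (fun c => Ψ ((i + 1, p) :: c)))
termination_by d.length
decreasing_by simp only [List.length_drop, List.length_cons]; omega

/-- The order of the group: the product of `n_k! (k!)^(n_k)`. -/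
def gam (d : List ℕ) : ℕ :=
  ∏ k ∈ d.toFinset, (d.count k).factorial * k.factorial ^ d.count k

/-- The weighted number of permutations of `k` half-edges, a cycle of length `i` has weight
`x (l * i)`. -/
def Eint {R : Type} [CommSemiring R] (x : ℕ → R) (l : ℕ) (k : ℕ) : R :=
  match k with
  | 0 => 1
  | k + 1 => ∑ i ∈ range (k + 1), (k.descFactorial i : R) * x (l * (i + 1)) * Eint x l (k - i)
termination_by k
decreasing_by omega

/-- The total weight for the list `d` of degrees. -/
def Aint {R : Type} [CommSemiring R] (x : ℕ → R) (d : List ℕ) : R :=
  match d with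
  | [] => 1
  | k :: t => ∑ i ∈ range (t.count k + 1), ((t.count k).descFactorial i : R) *
      (k.factorial : R) ^ i * Eint x (i + 1) k * Aint x (t.drop i)
termination_by d.length
decreasing_by simp only [List.length_drop, List.length_cons]; omega

/-- The bundles of a code which starts at the vertex `v`: triples (first vertex, `l`, `i`); the bundle
has `l * i` half-edges, the half-edge number `t` is at the vertex `v + t % l`. -/
def bund : ℕ → Code → List (ℕ × ℕ × ℕ)
  | _, [] => []
  | v, (l, p) :: c => p.map (fun i => (v, l, i)) ++ bund (v + l) c

/-- the size of a bundle -/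
def bsz (b : ℕ × ℕ × ℕ) : ℕ := b.2.1 * b.2.2

/-- number of bundles of size `j` -/
def cnt (c : Code) (j : ℕ) : ℕ := (bund 0 c).countP (fun b => bsz b = j)

/-- the product of the weights of the bundles -/
def wt {R : Type} [CommSemiring R] (x : ℕ → R) (c : Code) : R :=
  ((bund 0 c).map (fun b => x (bsz b))).prod

/-! ## Matchings of the bundles and the multigraph -/

/-- edges of a bundle of size `j` (even) which is matched with itself -/
def selfE (j : ℕ) (b : ℕ × ℕ × ℕ) : List (ℕ × ℕ) :=
  (List.range (j / 2)).map (fun t => (b.1 + t % b.2.1, b.1 + (t + j / 2) % b.2.1))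

/-- edges of two bundles of size `j`, the half-edge `t` of the first is matched with the half-edge
`t + r` of the second -/
def pairE (j r : ℕ) (b b' : ℕ × ℕ × ℕ) : List (ℕ × ℕ) :=
  (List.range j).map (fun t => (b.1 + t % b.2.1, b'.1 + (t + r) % b'.2.1))

/-- number of the matchings of `m + 1` bundles of size `j` in which the first one is matched with
itself -/
def sb (j m : ℕ) : ℕ := if 2 ∣ j then F j m else 0

/-- the number of the partner of the first bundle among the `m` others -/
def pI (j m x : ℕ) : ℕ := (x - sb j m) / (j * F j (m - 1))

/-- the rotation -/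
def rI (j m x : ℕ) : ℕ := (x - sb j m) / F j (m - 1) % j

/-- the number of the matching of the other bundles -/
def xI (j m x : ℕ) : ℕ := (x - sb j m) % F j (m - 1)

/-- The matching number `x < F j L.length` of the list `L` of bundles of size `j`. -/
def mt (j : ℕ) (L : List (ℕ × ℕ × ℕ)) (x : ℕ) : List (ℕ × ℕ) :=
  match L with
  | [] => []
  | b :: L =>
    if x < sb j L.length then selfE j b ++ mt j L x
    else pairE j (rI j L.length x) b (L.getD (pI j L.length x) (0, 1, 1)) ++
      mt j (L.eraseIdx (pI j L.length x)) (xI j L.length x)
termination_by L.length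
decreasing_by
  · simp
  · have := List.length_eraseIdx_le L (pI j L.length x)
    simp only [List.length_cons]; omega

/-- all edges for the code `c` and the numbers `x j` of the matchings of the bundles of size `j`,
`1 ≤ j ≤ M` -/
def edg (M : ℕ) (c : Code) (x : ℕ → ℕ) : List (ℕ × ℕ) :=
  (List.range M).flatMap (fun j => mt (j + 1) ((bund 0 c).filter (fun b => bsz b = j + 1)) (x (j + 1)))

/-- the multigraph with the list `E` of edges -/
def gr (n : ℕ) (E : List (ℕ × ℕ)) : Fin n → Fin n → ℕ := fun v w =>
  if v = w then E.count ((v : ℕ), (w : ℕ)) else E.count ((v : ℕ), (w : ℕ)) + E.count ((w : ℕ), (v : ℕ))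

end Pool.Agent.UMG
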