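import Pool.Agent.UMG.Defs

/-!
# Squad UMG, definitions for the analysis (block A)
-/

set_option autoImplicit false

namespace Pool.Agent.UMG

open Finset

/-- Coefficients of `exp (∑ w_l T^l / l)`: `E w 0 = 1`, `(n+1) E w (n+1) = ∑_{l=1}^{n+1} w_l E w (n+1-l)`. -/
def E {R : Type} [CommRing R] [Algebra ℚ R] (w : ℕ → R) (n : ℕ) : R :=
  match n with
  | 0 => 1
  | n + 1 => ((1 : ℚ) / ((n : ℚ) + 1)) • ∑ i ∈ range (n + 1), w (i + 1) * E w (n - i)
termination_by n
decreasing_by omega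

/-- `k` half-edges, a cycle of length `i` has weight `x (l * i)` -/
def hh {R : Type} [CommRing R] [Algebra ℚ R] (x : ℕ → R) (l k : ℕ) : R := E (fun i => x (l * i)) k

/-- `n` vertices of degree `k` -/
def aa {R : Type} [CommRing R] [Algebra ℚ R] (x : ℕ → R) (k n : ℕ) : R := E (fun l => hh x l k) n

/-- the normalised total weight -/
def PP {R : Type} [CommRing R] [Algebra ℚ R] (x : ℕ → R) (d : List ℕ) : R :=
  ∏ k ∈ d.toFinset, aa x k (d.count k)

/-- weights of the small cycles of vertices of degree `k`: fixed vertices with bundles of size at most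
`K`, and transpositions of vertices of degree 3 -/
def ws {R : Type} [CommRing R] [Algebra ℚ R] (K : ℕ) (x : ℕ → R) (k l : ℕ) : R :=
  if l = 1 then E (fun i => if i ≤ K then x i else 0) k
  else if l = 2 ∧ k = 3 then hh x 2 3 else 0

/-- the total weight of the small configurations -/
def PS {R : Type} [CommRing R] [Algebra ℚ R] (K : ℕ) (x : ℕ → R) (d : List ℕ) : R :=
  ∏ k ∈ d.toFinset, E (ws K x k) (d.count k)

/-- the exponent for the big configurations -/
noncomputable def AA (K : ℕ) (x : ℕ → ℝ) (d : List ℕ) : ℝ :=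
  (d.map (fun k => ∑ i ∈ Ico (K + 1) (k + 1), x i * ((k : ℝ) / x 1) ^ i / i)).sum +
  ∑ k ∈ d.toFinset, ∑ l ∈ Icc 2 (d.count k),
    if l = 2 ∧ k = 3 then 0 else hh x l k * ((d.count k : ℝ) * (k.factorial : ℝ) / x 1 ^ k) ^ l / l

/-- the exponent for everything except fixed half-edges -/
noncomputable def AB (x : ℕ → ℝ) (d : List ℕ) : ℝ :=
  (d.map (fun k => ∑ i ∈ Icc 2 k, x i * ((k : ℝ) / x 1) ^ i / i)).sum +
  ∑ k ∈ d.toFinset, ∑ l ∈ Icc 2 (d.count k),
    hh x l k * ((d.count k : ℝ) * (k.factorial : ℝ) / x 1 ^ k) ^ l / l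

/-- numerators of the fields -/
def Bn (M j i : ℕ) : ℕ :=
  2 * Nat.sqrt ((M + 1) ^ 2 * j * i) + 2 + (if 2 ∣ j then M + 1 else 0)

/-- the fields, `√(j i) + [2 ∣ j] / 2 < sq M j i ≤ √(j i) + [2 ∣ j] / 2 + 1 / (M + 1)` -/
noncomputable def sq (M j i : ℕ) : ℝ := (Bn M j i : ℝ) / (2 * ((M : ℝ) + 1))

/-- the log-convex majorant of `F j` -/
noncomputable def Fh (M j c : ℕ) : ℝ := ∏ i ∈ range c, sq M j (i + 1)

/-- coefficient of the tangent at `b` -/
noncomputable def ct (M j b : ℕ) : ℝ := Fh M j b / sq M j (b + 1) ^ b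

/-- sum of the tangents -/
noncomputable def Gr (M j c : ℕ) : ℝ := ∑ b ∈ range (M + 1), ct M j b * sq M j (b + 1) ^ c

/-- the field for the bundles of size larger than `K` -/
def be (M : ℕ) : ℕ := Nat.sqrt M + 2

/-- the dominating weights -/
noncomputable def G (M K j c : ℕ) : ℝ := if j ≤ K then Gr M j c else (be M : ℝ) ^ c

/-- `F` as a real function -/
def Fr (j c : ℕ) : ℝ := (F j c : ℝ)

/-- the field for the grid vector `b` (`b j` for the size `j`) -/
noncomputable def fld (M K : ℕ) (b : ℕ → ℕ) (j : ℕ) : ℝ :=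
  if j ≤ K then sq M j (b j + 1) else (be M : ℝ)

/-- The functional on polynomials which maps the monomial with exponents `C` to the product of
`f j (C j)`, `1 ≤ j ≤ J`. -/
noncomputable def Phi (J : ℕ) (f : ℕ → ℕ → ℝ) (p : MvPolynomial ℕ ℝ) : ℝ :=
  ∑ C ∈ p.support, p.coeff C * ∏ j ∈ range J, f (j + 1) (C (j + 1))

/-- the variables -/
noncomputable def Xv : ℕ → MvPolynomial ℕ ℝ := MvPolynomial.X

/-- the degree sequences of the theorem -/
def Good (η : ℝ) (d : List ℕ) : Prop :=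
  (∀ k ∈ d, 3 ≤ k ∧ (k : ℝ) ≤ (d.sum : ℝ) ^ (1 / 2 - η)) ∧ Even d.sum

end Pool.Agent.UMG
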