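import Pool.Agent.UMG.Defs

/-!
# Squad UMG, block B (Burnside identity): definitions and basic lemmas
-/

set_option autoImplicit false

namespace Pool.Agent.UMG.B

open Finset Pool.Agent.UMG

/-! ## Structures

A structure is a map `ν : H → V` (half-edges to vertices) with a permutation `g` of `H`. -/

/-- functions of structures -/
abbrev SF : Type 1 := (V H : Type) → (H → V) → Equiv.Perm H → ℕ

/-- isomorphism of structures -/
def SI {V H V' H' : Type} (ν : H → V) (g : Equiv.Perm H) (ν' : H' → V') (g' : Equiv.Perm H') :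
    Prop :=
  ∃ (e : V ≃ V') (f : H ≃ H'), (∀ h, ν' (f h) = e (ν h)) ∧ ∀ h, f (g h) = g' (f h)

/-- isomorphism of maps -/
def MI {V H V' H' : Type} (ν : H → V) (ν' : H' → V') : Prop :=
  ∃ (e : V ≃ V') (f : H ≃ H'), ∀ h, ν' (f h) = e (ν h)

/-- invariance under isomorphisms -/
def Inv (Ψ : SF) : Prop :=
  ∀ (V H V' H' : Type) (ν : H → V) (g : Equiv.Perm H) (ν' : H' → V') (g' : Equiv.Perm H'),
    SI ν g ν' g' → Ψ V H ν g = Ψ V' H' ν' g'

/-- the fixed structure `ν0`, `g0` is added -/
def ad {V0 H0 : Type} (ν0 : H0 → V0) (g0 : Equiv.Perm H0) (Ψ : SF) : SF :=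
  fun V H ν g => Ψ (V0 ⊕ V) (H0 ⊕ H) (Sum.map ν0 ν) (Equiv.sumCongr g0 g)

/-- the automorphisms of a map `ν : H → V`: pairs of permutations which commute with `ν` -/
def Gam {V H : Type} (ν : H → V) : Subgroup (Equiv.Perm H × Equiv.Perm V) where
  carrier := {γ | ∀ h, ν (γ.1 h) = γ.2 (ν h)}
  mul_mem' := by
    intro a b ha hb h
    have ha : ∀ h, ν (a.1 h) = a.2 (ν h) := ha
    have hb : ∀ h, ν (b.1 h) = b.2 (ν h) := hb
    show ν (a.1 (b.1 h)) = a.2 (b.2 (ν h))
    rw [ha, hb]
  one_mem' := fun _ => rfl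
  inv_mem' := by
    intro a ha h
    have ha : ∀ h, ν (a.1 h) = a.2 (ν h) := ha
    show ν (a.1⁻¹ h) = a.2⁻¹ (ν h)
    rw [Equiv.Perm.eq_inv_iff_eq, ← ha]
    exact congrArg ν (a.1.apply_symm_apply h)

/-- the sum of `Ψ` over the automorphisms -/
noncomputable def GS (Ψ : SF) {V H : Type} (ν : H → V) : ℕ := ∑ᶠ γ : Gam ν, Ψ V H ν γ.1.1

/-! ## The standard structure of a code -/

/-- the permutation `(v, a) ↦ (π v, σ v a)` -/
def wr {A K : Type} (π : Equiv.Perm A) (σ : A → Equiv.Perm K) : Equiv.Perm (A × K) where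
  toFun x := (π x.1, σ x.1 x.2)
  invFun x := (π.symm x.1, (σ (π.symm x.1)).symm x.2)
  left_inv x := by simp
  right_inv x := by simp

/-- the last of `i + 1` points gets `ρ`, the other ones the identity -/
def lst {K : Type} (i : ℕ) (ρ : Equiv.Perm K) : Fin (i + 1) → Equiv.Perm K :=
  fun a => if a = Fin.last i then ρ else 1

/-- the disjoint union of the sets `Fin i`, `i ∈ p` -/
def PT : List ℕ → Type
  | [] => Empty
  | i :: p => Fin i ⊕ PT p

/-- the permutation with the cycles `p` -/
def rp : (p : List ℕ) → Equiv.Perm (PT p)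
  | [] => Equiv.refl _
  | i :: p => Equiv.sumCongr (finRotate i) (rp p)

/-- the disjoint union of the sets `Fin (l * i)`, `i ∈ p` -/
def Hp (l : ℕ) : List ℕ → Type
  | [] => Empty
  | i :: p => Fin (l * i) ⊕ Hp l p

theorem lpos {l i : ℕ} (t : Fin (l * i)) : 0 < l := by
  rcases Nat.eq_zero_or_pos l with h | h
  · subst h
    exact absurd t.2 (by simp)
  · exact h

/-- the half-edge `t` is at the vertex `t % l` -/
def vl (l i : ℕ) (t : Fin (l * i)) : Fin l := ⟨t % l, Nat.mod_lt _ (lpos t)⟩

/-- the vertices of the half-edges of a cycle of `l` vertices -/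
def nup (l : ℕ) : (p : List ℕ) → Hp l p → Fin l
  | [], h => h.elim
  | i :: _, Sum.inl t => vl l i t
  | _ :: p, Sum.inr h => nup l p h

/-- the rotation of the bundles of a cycle of `l` vertices -/
def gp (l : ℕ) : (p : List ℕ) → Equiv.Perm (Hp l p)
  | [] => Equiv.refl _
  | i :: p => Equiv.sumCongr (finRotate (l * i)) (gp l p)

/-- the vertices of a code -/
def Vc : Code → Type
  | [] => Empty
  | (l, _) :: c => Fin l ⊕ Vc c

/-- the half-edges of a code -/
def Hc : Code → Type
  | [] => Empty
  | (l, p) :: c => Hp l p ⊕ Hc c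

/-- the vertices of the half-edges of a code -/
def nuc : (c : Code) → Hc c → Vc c
  | [] => fun h => h.elim
  | (l, p) :: c => Sum.map (nup l p) (nuc c)

/-- the permutation of the half-edges of a code -/
def gc : (c : Code) → Equiv.Perm (Hc c)
  | [] => Equiv.refl _
  | (l, p) :: c => Equiv.sumCongr (gp l p) (gc c)

/-- the vertices of the standard map with the degrees `d` -/
def Vs : List ℕ → Type
  | [] => Empty
  | _ :: t => Unit ⊕ Vs t

/-- the half-edges of the standard map with the degrees `d` -/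
def Hs : List ℕ → Type
  | [] => Empty
  | k :: t => Fin k ⊕ Hs t

/-- the standard map with the degrees `d` -/
def nus : (d : List ℕ) → Hs d → Vs d
  | [] => fun h => h.elim
  | _ :: t => Sum.map (fun _ => ()) (nus t)

/-! ## Sums over permutations -/

/-- conjugation invariant functions of permutations -/
def CInv (Φ : (A : Type) → Equiv.Perm A → ℕ) : Prop :=
  ∀ (A A' : Type) (e : A ≃ A') (ρ : Equiv.Perm A) (ρ' : Equiv.Perm A'),
    (∀ a, e (ρ a) = ρ' (e a)) → Φ A ρ = Φ A' ρ'

/-- functions of permutations with labels in `S_k` -/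
abbrev TF (k : ℕ) : Type 1 := (A : Type) → Equiv.Perm A → (A → Equiv.Perm (Fin k)) → ℕ

/-- invariance under relabeling and change of the labels -/
def TInv (k : ℕ) (Θ : TF k) : Prop :=
  ∀ (A A' : Type) (e : A ≃ A') (τ : A → Equiv.Perm (Fin k)) (π : Equiv.Perm A)
    (σ : A → Equiv.Perm (Fin k)) (π' : Equiv.Perm A') (σ' : A' → Equiv.Perm (Fin k)),
    (∀ a, e (π a) = π' (e a)) → (∀ a, τ (π a) * σ a = σ' (e a) * τ a) → Θ A π σ = Θ A' π' σ'

/-- functions of pointed permutations with labels in `S_k` -/
abbrev PF (k : ℕ) : Type 1 :=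
  (A : Type) → Equiv.Perm (Option A) → (Option A → Equiv.Perm (Fin k)) → ℕ

/-- invariance of functions of pointed permutations with labels -/
def PInv (k : ℕ) (Λ : PF k) : Prop :=
  ∀ (A A' : Type) (e : A ≃ A') (τ : Option A → Equiv.Perm (Fin k)) (π : Equiv.Perm (Option A))
    (σ : Option A → Equiv.Perm (Fin k)) (π' : Equiv.Perm (Option A'))
    (σ' : Option A' → Equiv.Perm (Fin k)),
    (∀ x, Equiv.optionCongr e (π x) = π' (Equiv.optionCongr e x)) →
      (∀ x, τ (π x) * σ x = σ' (Equiv.optionCongr e x) * τ x) → Λ A π σ = Λ A' π' σ'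

/-- a new point is inserted in front of the point `none`; the new point is `none`, the image of the
new point is the old point, and what was mapped to the old point is mapped to the new one -/
def ins {A : Type} (π : Equiv.Perm (Option A)) : Equiv.Perm (Option (Option A)) where
  toFun x := match x with
    | none => some none
    | some y => (π y).elim none (fun a => some (some a))
  invFun x := match x with
    | none => some (π.symm none)
    | some none => none
    | some (some a) => some (π.symm (some a))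
  left_inv x := by
    rcases x with _ | y
    · rfl
    · rcases h : π y with _ | a
      · have h' : π.symm none = y := by rw [← h, Equiv.symm_apply_apply]
        simp only [h, h', Option.elim_none]
      · have h' : π.symm (some a) = y := by rw [← h, Equiv.symm_apply_apply]
        simp only [h, h', Option.elim_some]
  right_inv x := by
    rcases x with _ | _ | a
    · simp
    · rfl
    · simp

/-- the new point gets the label `1` -/
def up {k : ℕ} (Λ : PF k) : PF k := fun A π σ => Λ (Option A) (ins π) (fun x => x.elim 1 σ)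

/-- the sum over all permutations of `Option (Fin m)` and all labels -/
def TP {k : ℕ} (Λ : PF k) (m : ℕ) : ℕ :=
  ∑ π : Equiv.Perm (Option (Fin m)), ∑ σ : Option (Fin m) → Equiv.Perm (Fin k), Λ (Fin m) π σ

/-- the point `none` becomes the first point of `Fin (i + 1)` -/
def oe (i : ℕ) (A : Type) : Option (Fin i ⊕ A) ≃ Fin (i + 1) ⊕ A where
  toFun x := match x with
    | none => Sum.inl 0
    | some (Sum.inl j) => Sum.inl j.succ
    | some (Sum.inr a) => Sum.inr a
  invFun y := match y with
    | Sum.inl j => Fin.cases none (fun j => some (Sum.inl j)) j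
    | Sum.inr a => some (Sum.inr a)
  left_inv x := by
    rcases x with _ | j | a
    · rfl
    · rfl
    · rfl
  right_inv y := by
    rcases y with j | a
    · refine Fin.cases ?_ (fun j => ?_) j
      · rfl
      · rfl
    · rfl

/-- the cycle of length `i + 1` through the point `none`, together with `π'` -/
def cyp (i : ℕ) {A : Type} (π' : Equiv.Perm A) : Equiv.Perm (Option (Fin i ⊕ A)) :=
  (oe i A).symm.permCongr (Equiv.sumCongr (finRotate (i + 1)) π')

/-- the labels for `cyp` -/
def cys (i : ℕ) {A K : Type} (ρ : Equiv.Perm K) (σ' : A → Equiv.Perm K) :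
    Option (Fin i ⊕ A) → Equiv.Perm K :=
  fun x => Sum.elim (lst i ρ) σ' (oe i A x)

/-- `gsum` for `m` vertices of degree `k` -/
def wsum {R : Type} [CommSemiring R] (m k : ℕ) (Ψ : Code → R) : R :=
  match m with
  | 0 => Ψ []
  | m + 1 => ∑ i ∈ range (m + 1), (m.descFactorial i : R) * (k.factorial : R) ^ i *
      csum k (fun p => wsum (m - i) k (fun c => Ψ ((i + 1, p) :: c)))
termination_by m
decreasing_by omega

/-- codes for `n` vertices and `M` half-edges -/
def OkC (n M : ℕ) (c : Code) : Prop :=
  (c.map (fun x => x.1)).sum = n ∧ (c.map (fun x => x.1 * x.2.sum)).sum = M ∧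
    ∀ x ∈ c, 1 ≤ x.1 ∧ ∀ i ∈ x.2, 1 ≤ i

/-! ## Matchings -/

/-- fixed point free involutions which commute with `g` -/
structure IsMt {H : Type} (g : Equiv.Perm H) (m : H → H) : Prop where
  inv : ∀ h, m (m h) = h
  nfx : ∀ h, m h ≠ h
  com : ∀ h, m (g h) = g (m h)

/-- the type of the matchings which commute with `g` -/
abbrev Mt {H : Type} (g : Equiv.Perm H) : Type := {m : H → H // IsMt g m}

/-- the number of half-edges at `v` which are matched with a half-edge at `w` -/
noncomputable def QQ {H V : Type} (ν : H → V) (m : H → H) (v w : V) : ℕ :=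
  Nat.card {h // ν h = v ∧ ν (m h) = w}

/-- the same number for a multigraph -/
def tw {n : ℕ} (B : Fin n → Fin n → ℕ) (v w : Fin n) : ℕ := if v = w then 2 * B v w else B v w

/-- the number of matchings which commute with `g` and have a multigraph isomorphic to `B` -/
noncomputable def PhB {n : ℕ} (B : Fin n → Fin n → ℕ) : SF := fun V H ν g =>
  Nat.card {m : H → H // IsMt g m ∧ ∃ σ : V ≃ Fin n, ∀ v w, QQ ν m v w = tw B (σ v) (σ w)}

/-- the same number for a list of edges -/
def Qc (E : List (ℕ × ℕ)) (a b : ℕ) : ℕ := E.count (a, b) + E.count (b, a)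

/-- the same distribution of two families of matrices -/
def EqD {α β : Type} (q : α → ℕ → ℕ → ℕ) (q' : β → ℕ → ℕ → ℕ) : Prop :=
  ∃ e : α ≃ β, ∀ a, q' (e a) = q a

/-- isomorphism of structures with vertices in `ℕ` (the vertices are kept) -/
def SN {H H' : Type} (ν : H → ℕ) (g : Equiv.Perm H) (ν' : H' → ℕ) (g' : Equiv.Perm H') : Prop :=
  ∃ f : H ≃ H', (∀ h, ν' (f h) = ν h) ∧ ∀ h, f (g h) = g' (f h)

/-- the half-edges of a list of bundles -/
def HB : List (ℕ × ℕ × ℕ) → Type
  | [] => Empty
  | b :: L => Fin (bsz b) ⊕ HB L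

/-- the vertex of the half-edge `t` of the bundle `b` -/
def nu1 (b : ℕ × ℕ × ℕ) (t : Fin (bsz b)) : ℕ := b.1 + t % b.2.1

/-- the vertices of the half-edges of a list of bundles -/
def nuB : (L : List (ℕ × ℕ × ℕ)) → HB L → ℕ
  | [] => fun h => h.elim
  | b :: L => Sum.elim (nu1 b) (nuB L)

/-- the rotation of all bundles -/
def gB : (L : List (ℕ × ℕ × ℕ)) → Equiv.Perm (HB L)
  | [] => Equiv.refl _
  | b :: L => Equiv.sumCongr (finRotate (bsz b)) (gB L)

/-- the number of the bundle and the number in the bundle of a half-edge -/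
def loc : (L : List (ℕ × ℕ × ℕ)) → HB L → ℕ × ℕ
  | [] => fun h => h.elim
  | _ :: L => Sum.elim (fun t => (0, (t : ℕ))) (fun h => ((loc L h).1 + 1, (loc L h).2))

/-- the numbers `x 0, …, x (M - 1)` of the matchings of the bundles of the sizes `1, …, M` as a function
of the size -/
def ext {M : ℕ} {f : Fin M → ℕ} (x : (j : Fin M) → Fin (f j)) : ℕ → ℕ :=
  fun j => if h : j - 1 < M then (x ⟨j - 1, h⟩ : ℕ) else 0

/-- all edges of a list `L` of bundles of the sizes `1, …, M` -/
def edL (M : ℕ) (L : List (ℕ × ℕ × ℕ)) (x : ℕ → ℕ) : List (ℕ × ℕ) :=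
  (List.range M).flatMap (fun j => mt (j + 1) (L.filter (fun b => bsz b = j + 1)) (x (j + 1)))

theorem edg_eq (M : ℕ) (c : Code) (x : ℕ → ℕ) : edg M c x = edL M (bund 0 c) x := rfl

end Pool.Agent.UMG.B
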