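import Pool.Agent.Helper21_UMG.ADD
import Pool.Agent.Helper77_UMG.EVC
import Pool.Agent.Helper77_UMG.MON
import Pool.Agent.Helper21_UMG.SCL
import Pool.Agent.Helper27_UMG.ONE
import Pool.Agent.Helper74_UMG.SNG
import Pool.Agent.Helper34_UMG.CST
import Pool.Agent.Helper21_UMG.SHI
import Pool.Agent.Helper59_UMG.EXP
import Pool.Agent.Helper16_UMG.CMB
import Pool.Agent.Helper47_UMG.LOW
import Pool.Agent.Helper77_UMG.EIN
import Pool.Agent.Helper95_UMG.AIN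
import Pool.Agent.Helper21_UMG.GWT
import Pool.Agent.Helper23_UMG.PHG
import Pool.Agent.Helper62_UMG.EVP
import Pool.Agent.Helper23_UMG.PHO
import Pool.Agent.Helper23_UMG.PNN
import Pool.Agent.Helper23_UMG.TOP
import Pool.Agent.Helper89_UMG.SQB
import Pool.Agent.Helper75_UMG.SQM
import Pool.Agent.Helper50_UMG.FUP
import Pool.Agent.Helper4_UMG.FLO
import Pool.Agent.Helper3_UMG.TAN
import Pool.Agent.Helper77_UMG.CTB
import Pool.Agent.Helper89_UMG.BET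
import Pool.Agent.Helper98_UMG.F1L
import Pool.Agent.Helper88_UMG.NFA
import Pool.Agent.Helper67_UMG.NFB
import Pool.Agent.Helper1_UMG.TRM
import Pool.Agent.Helper50_UMG.QKS
import Pool.Agent.Helper59_UMG.SEC
import Pool.Agent.Helper25_UMG.FIR
import Pool.Agent.Helper67_UMG.EST
import Pool.Agent.Helper81_UMG.FLD
import Pool.Agent.Helper45_UMG.DGT
import Pool.Agent.Helper69_UMG.GRD
import Pool.Agent.Helper43_UMG.Cone
import Pool.Agent.Helper45_UMG.PAR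
import Pool.Agent.Helper33_UMG.PST
import Pool.Agent.Helper33_UMG.PFX
import Pool.Agent.Helper67_UMG.GPA
import Pool.Agent.Helper16_UMG.ASY
import Pool.Agent.Helper58_UMG.BAD
import Pool.Agent.Helper25_UMG.SMA
import Pool.Agent.Helper58_UMG.ANA
import Pool.Agent.Helper27_UMG.PCS
import Pool.Agent.Helper8_UMG.PCE
import Pool.Agent.Helper77_UMG.PCF
import Pool.Agent.Helper17_UMG.CSM
import Pool.Agent.Helper97_UMG.CYR
import Pool.Agent.Helper33_UMG.WSM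
import Pool.Agent.Helper19_UMG.GWS
import Pool.Agent.Helper37_UMG.GSP
import Pool.Agent.Helper37_UMG.GSI
import Pool.Agent.Helper81_UMG.STA
import Pool.Agent.Helper21_UMG.BLK
import Pool.Agent.Helper95_UMG.GSM
import Pool.Agent.Helper34_UMG.STM
import Pool.Agent.Helper80_UMG.GAM
import Pool.Agent.Helper45_UMG.GCG
import Pool.Agent.Helper19_UMG.TRA
import Pool.Agent.Helper3_UMG.REA
import Pool.Agent.Helper77_UMG.DGF
import Pool.Agent.Helper66_UMG.BRN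
import Pool.Agent.Helper26_UMG.ORB
import Pool.Agent.Helper69_UMG.IVB
import Pool.Agent.Helper4_UMG.SLM
import Pool.Agent.Helper16_UMG.PAM
import Pool.Agent.Helper88_UMG.SLC
import Pool.Agent.Helper13_UMG.PAC
import Pool.Agent.Helper47_UMG.SLF
import Pool.Agent.Helper98_UMG.PAI
import Pool.Agent.Helper89_UMG.PIK
import Pool.Agent.Helper10_UMG.MTR
import Pool.Agent.Helper67_UMG.MTX
import Pool.Agent.Helper2_UMG.MTS
import Pool.Agent.Helper15_UMG.SPM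
import Pool.Agent.Helper24_UMG.PER
import Pool.Agent.Helper7_UMG.PRM
import Pool.Agent.Helper50_UMG.EDG
import Pool.Agent.Helper25_UMG.TRB
import Pool.Agent.Helper64_UMG.PTF
import Pool.Agent.Helper10_UMG.BUR
import Pool.Agent.Helper17_UMG.PCK
import Pool.Agent.Helper21_UMG.MOD
import Pool.Agent.Helper21_UMG.UNE
import Pool.Agent.Helper7_UMG.UNA
import Pool.Agent.Helper81_UMG.MXR
import Pool.Agent.Helper23_UMG.YPR
import Pool.Agent.Helper66_UMG.COE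
import Pool.Agent.Helper15_UMG.YGR
import Pool.Agent.Helper50_UMG.CDV
import Pool.Agent.Helper98_UMG.GCD
import Pool.Agent.Helper15_UMG.GLN
import Pool.Agent.Helper64_UMG.WYB
import Pool.Agent.Helper3_UMG.SCP
import Pool.Agent.Helper53_UMG.ZLE
import Pool.Agent.Helper69_UMG.HIT
import Pool.Agent.Helper43_UMG.EXS
import Pool.Agent.Helper3_UMG.TTG
import Pool.Agent.Helper95_UMG.ACN
import Pool.Agent.Helper47_UMG.RAT
import Pool.Agent.Helper13_UMG.OUI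
import Pool.Agent.Helper2_UMG.OMB
import Pool.Agent.Helper88_UMG.VAL
import Pool.Agent.Helper33_UMG.EXB
import Pool.Agent.Helper34_UMG.ALO
import Pool.Agent.Helper89_UMG.FSZ
import Pool.Agent.Helper64_UMG.FSP
import Pool.Agent.Helper58_UMG.FAI
import Pool.Agent.Helper25_UMG.FIN
import Pool.Agent.Helper84_UMG.BUX

/-!
# Squad UMG, blocks A, B and D together: exactness of the algorithm
-/

set_option autoImplicit false

namespace Pool.Agent.UMG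

theorem t_ein : Pool.Agent.UMG.EinStmt :=
  Pool.Agent.UMG.A.H77.ein

theorem t_ain : Pool.Agent.UMG.AinStmt :=
  Pool.Agent.UMG.A.H95.ain t_ein

theorem t_gwt : Pool.Agent.UMG.GwtStmt :=
  Pool.Agent.UMG.H21.gwt

theorem t_phg : Pool.Agent.UMG.PhgStmt :=
  Pool.Agent.UMG.A.H23.phg

theorem t_pho : Pool.Agent.UMG.PhoStmt :=
  Pool.Agent.UMG.A.H23.pho

theorem t_evc : Pool.Agent.UMG.EvcStmt :=
  Pool.Agent.UMG.A.H77.evc

theorem t_evp : Pool.Agent.UMG.EvpStmt :=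
  Pool.Agent.UMG.H62.evp t_evc

theorem t_dgt : Pool.Agent.UMG.DgtStmt :=
  Pool.Agent.UMG.H45.dgt

theorem t_grd : Pool.Agent.UMG.GrdStmt :=
  Pool.Agent.UMG.H69.grd t_dgt

theorem t_mon : Pool.Agent.UMG.MonStmt :=
  Pool.Agent.UMG.A.H77.mon

theorem t_scl : Pool.Agent.UMG.SclStmt :=
  Pool.Agent.UMG.H21.scl

theorem t_add : Pool.Agent.UMG.AddStmt :=
  Pool.Agent.UMG.H21.add

theorem t_shi : Pool.Agent.UMG.ShiStmt :=
  Pool.Agent.UMG.H21.shi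

theorem t_exp : Pool.Agent.UMG.ExpStmt :=
  Pool.Agent.UMG.A.H59.exp

theorem t_cmb : Pool.Agent.UMG.CmbStmt :=
  Pool.Agent.UMG.A.H16.cmb t_add t_shi t_exp

theorem t_low : Pool.Agent.UMG.LowStmt :=
  Pool.Agent.UMG.H47.low

theorem t_nfa : Pool.Agent.UMG.NfaStmt :=
  Pool.Agent.UMG.A.H88.nfa t_mon t_scl t_cmb t_low

theorem t_cst : Pool.Agent.UMG.CstStmt :=
  Pool.Agent.UMG.H34.cst

theorem t_trm : Pool.Agent.UMG.TrmStmt :=
  Pool.Agent.UMG.A.H1.trm t_mon t_cst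

theorem t_qks : Pool.Agent.UMG.QksStmt :=
  Pool.Agent.UMG.A.H50.qks

theorem t_sec : Pool.Agent.UMG.SecStmt :=
  Pool.Agent.UMG.A.H59.sec t_trm t_qks

theorem t_fir : Pool.Agent.UMG.FirStmt :=
  Pool.Agent.UMG.A.H25.fir

theorem t_est : Pool.Agent.UMG.EstStmt :=
  Pool.Agent.UMG.A.H67.est t_sec t_fir

theorem t_sqb : Pool.Agent.UMG.SqbStmt :=
  Pool.Agent.UMG.A.H89.sqb

theorem t_fld : Pool.Agent.UMG.FldStmt :=
  Pool.Agent.UMG.H81.fld_bound t_sqb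

theorem t_sqm : Pool.Agent.UMG.SqmStmt :=
  Pool.Agent.UMG.H75.sqm

theorem t_tan : Pool.Agent.UMG.TanStmt :=
  Pool.Agent.UMG.H3.tan t_sqm

theorem t_pnn : Pool.Agent.UMG.PnnStmt :=
  Pool.Agent.UMG.A.H23.pnn

theorem t_pcl : Pool.Agent.UMG.PclStmt :=
  Pool.Agent.UMG.A.H43.pcl

theorem t_der : Pool.Agent.UMG.DerStmt :=
  Pool.Agent.UMG.A.H43.der

theorem t_par : Pool.Agent.UMG.ParStmt :=
  Pool.Agent.UMG.H45.par t_pcl t_der

theorem t_pst : Pool.Agent.UMG.PstStmt :=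
  Pool.Agent.UMG.A.H33.pst t_par t_pnn t_pho t_sqb t_sqm

theorem t_flo : Pool.Agent.UMG.FloStmt :=
  Pool.Agent.UMG.A.H4.flo t_sqb

theorem t_pfx : Pool.Agent.UMG.PfxStmt :=
  Pool.Agent.UMG.A.H33.pfx t_pst t_flo t_pnn t_pho t_sqm

theorem t_ctb : Pool.Agent.UMG.CtbStmt :=
  Pool.Agent.UMG.A.H77.ctb t_sqm

theorem t_gpa : Pool.Agent.UMG.GpaStmt :=
  Pool.Agent.UMG.A.H67.gpa t_grd t_tan t_sqm t_pho t_pnn t_pfx t_evp t_ctb

theorem t_sng : Pool.Agent.UMG.SngStmt :=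
  Pool.Agent.UMG.A.H74.sng

theorem t_nfb : Pool.Agent.UMG.NfbStmt :=
  Pool.Agent.UMG.A.H67.nfb t_mon t_scl t_cmb t_sng

theorem t_asy : Pool.Agent.UMG.AsyStmt :=
  Pool.Agent.UMG.A.H16.asy

theorem t_f1l : Pool.Agent.UMG.F1lStmt :=
  Pool.Agent.UMG.H98.f1l t_sqb t_flo

theorem t_top : Pool.Agent.UMG.TopStmt :=
  Pool.Agent.UMG.A.H23.top t_pho t_evp t_sng

theorem t_bad : Pool.Agent.UMG.BadStmt :=
  Pool.Agent.UMG.H58.bad t_nfb t_est t_asy t_ctb t_fld t_f1l t_top t_mon t_pnn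

theorem t_sma : Pool.Agent.UMG.SmaStmt :=
  Pool.Agent.UMG.A.H25.sma

theorem t_ana : Pool.Agent.UMG.AnaStmt :=
  Pool.Agent.UMG.H58A.ana t_ain t_gwt t_phg t_pho t_evp t_grd t_nfa t_est t_fld t_gpa t_bad t_sma t_ctb

theorem t_pck : Pool.Agent.UMG.PckStmt :=
  Pool.Agent.UMG.D.H17.pck

theorem t_mod : Pool.Agent.UMG.ModStmt :=
  Pool.Agent.UMG.D.H21.mod

theorem t_une : Pool.Agent.UMG.UneStmt :=
  Pool.Agent.UMG.D.H21.une t_pck t_mod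

theorem t_una : Pool.Agent.UMG.UnaStmt :=
  Pool.Agent.UMG.D.H7.una t_pck t_mod t_une

theorem t_gln : Pool.Agent.UMG.GlnStmt :=
  Pool.Agent.UMG.H15.gln

theorem t_gcd : Pool.Agent.UMG.GcdStmt :=
  Pool.Agent.UMG.D.H98.gcd

theorem t_wyb : Pool.Agent.UMG.WybStmt :=
  Pool.Agent.UMG.D.H64.wyb

theorem t_cdv : Pool.Agent.UMG.CdvStmt :=
  Pool.Agent.UMG.D.H50.cdv

theorem t_mxr : Pool.Agent.UMG.MxrStmt :=
  Pool.Agent.UMG.D.H81.mxr

theorem t_ypr : Pool.Agent.UMG.YprStmt :=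
  Pool.Agent.UMG.H23.ypr t_mxr t_dgt

theorem t_coe : Pool.Agent.UMG.CoeStmt :=
  Pool.Agent.UMG.D.H66.coe

theorem t_ygr : Pool.Agent.UMG.YgrStmt :=
  Pool.Agent.UMG.H15.ygr t_coe

theorem t_scp : Pool.Agent.UMG.ScpStmt :=
  Pool.Agent.UMG.D.H3.scp t_cdv

theorem t_ttg : Pool.Agent.UMG.TtgStmt :=
  Pool.Agent.UMG.D.H3.ttg t_una t_gln t_gcd t_wyb t_cdv t_ypr t_ygr t_scp

theorem t_fup : Pool.Agent.UMG.FupStmt :=
  Pool.Agent.UMG.A.H50.fup t_sqb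

theorem t_bet : Pool.Agent.UMG.BetStmt :=
  Pool.Agent.UMG.A.H89.bet t_sqb

theorem t_zle : Pool.Agent.UMG.ZleStmt :=
  Pool.Agent.UMG.D.H53.zle t_ygr t_fup t_tan t_bet t_cdv

theorem t_hit : Pool.Agent.UMG.HitStmt :=
  Pool.Agent.UMG.H69D.hit t_ypr t_zle t_cdv t_scp

theorem t_exs : Pool.Agent.UMG.ExsStmt :=
  Pool.Agent.UMG.D.H43.exs t_pck t_una t_gcd t_gln t_wyb t_cdv t_hit

theorem t_acn : Pool.Agent.UMG.AcnStmt :=
  Pool.Agent.UMG.D.H95.acn t_exs t_gln t_gcd t_cdv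

theorem t_rat : Pool.Agent.UMG.RatStmt :=
  Pool.Agent.UMG.H47.rat t_ana t_ttg t_acn

theorem t_gsiB : Pool.Agent.UMG.B.GsiStmt :=
  Pool.Agent.UMG.B.H37.gsi

theorem t_pcsB : Pool.Agent.UMG.B.PcsStmt :=
  Pool.Agent.UMG.B.H27.pcs

theorem t_pceB : Pool.Agent.UMG.B.PceStmt :=
  Pool.Agent.UMG.B.H8.pce

theorem t_pcfB : Pool.Agent.UMG.B.PcfStmt :=
  Pool.Agent.UMG.B.H77.pcf t_pcsB t_pceB

theorem t_csmB : Pool.Agent.UMG.B.CsmStmt :=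
  Pool.Agent.UMG.B.H17.csm t_pcfB

theorem t_cyrB : Pool.Agent.UMG.B.CyrStmt :=
  Pool.Agent.UMG.B.H97.cyr

theorem t_wsmB : Pool.Agent.UMG.B.WsmStmt :=
  Pool.Agent.UMG.B.H33.wsm t_pcfB t_csmB t_cyrB

theorem t_gwsB : Pool.Agent.UMG.B.GwsStmt :=
  Pool.Agent.UMG.B.H19.gws

theorem t_gspB : Pool.Agent.UMG.B.GspStmt :=
  Pool.Agent.UMG.B.H37.gsp

theorem t_staB : Pool.Agent.UMG.B.StaStmt :=
  Pool.Agent.UMG.B.H81.sta

theorem t_blkB : Pool.Agent.UMG.B.BlkStmt :=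
  Pool.Agent.UMG.B.H21.blk

theorem t_gsmB : Pool.Agent.UMG.B.GsmStmt :=
  Pool.Agent.UMG.B.H95.gsm t_wsmB t_gwsB t_gspB t_gsiB t_staB t_blkB

theorem t_stmB : Pool.Agent.UMG.B.StmStmt :=
  Pool.Agent.UMG.B.H34.stm

theorem t_gamB : Pool.Agent.UMG.B.GamStmt :=
  Pool.Agent.UMG.B.H80.gam

theorem t_gcgB : Pool.Agent.UMG.B.GcgStmt :=
  Pool.Agent.UMG.B.H45.gcg

theorem t_reaB : Pool.Agent.UMG.B.ReaStmt :=
  Pool.Agent.UMG.B.H3.rea

theorem t_dgfB : Pool.Agent.UMG.B.DgfStmt :=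
  Pool.Agent.UMG.B.H77.dgf

theorem t_traB : Pool.Agent.UMG.B.TraStmt :=
  Pool.Agent.UMG.B.H19.tra

theorem t_brnB : Pool.Agent.UMG.B.BrnStmt :=
  Pool.Agent.UMG.B.H66.brn

theorem t_orbB : Pool.Agent.UMG.B.OrbStmt :=
  Pool.Agent.UMG.B.H26.orb t_traB t_brnB

theorem t_ivbB : Pool.Agent.UMG.B.IvbStmt :=
  Pool.Agent.UMG.B.H69.ivb

theorem t_slmB : Pool.Agent.UMG.B.SlmStmt :=
  Pool.Agent.UMG.B.H4.slm

theorem t_slcB : Pool.Agent.UMG.B.SlcStmt :=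
  Pool.Agent.UMG.B.H88.slc

theorem t_slfB : Pool.Agent.UMG.B.SlfStmt :=
  Pool.Agent.UMG.B.H47.slf t_slmB t_slcB

theorem t_pamB : Pool.Agent.UMG.B.PamStmt :=
  Pool.Agent.UMG.B.H16.pam

theorem t_pacB : Pool.Agent.UMG.B.PacStmt :=
  Pool.Agent.UMG.B.H13.pac

theorem t_paiB : Pool.Agent.UMG.B.PaiStmt :=
  Pool.Agent.UMG.B.H98.pai t_pamB t_pacB

theorem t_pikB : Pool.Agent.UMG.B.PikStmt :=
  Pool.Agent.UMG.B.H89.pik

theorem t_mtrB : Pool.Agent.UMG.B.MtrStmt :=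
  Pool.Agent.UMG.B.H10.mtr t_slfB t_paiB t_pikB

theorem t_mtxB : Pool.Agent.UMG.B.MtxStmt :=
  Pool.Agent.UMG.B.H67.mtx

theorem t_mtsB : Pool.Agent.UMG.B.MtsStmt :=
  Pool.Agent.UMG.B.H2.mts t_mtrB t_mtxB

theorem t_spmB : Pool.Agent.UMG.B.SpmStmt :=
  Pool.Agent.UMG.B.H15.spm

theorem t_perB : Pool.Agent.UMG.B.PerStmt :=
  Pool.Agent.UMG.B.H24.per

theorem t_prmB : Pool.Agent.UMG.B.PrmStmt :=
  Pool.Agent.UMG.B.H7.prm

theorem t_edgB : Pool.Agent.UMG.B.EdgStmt :=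
  Pool.Agent.UMG.B.H50.edg t_mtsB t_spmB t_perB t_prmB

theorem t_trbB : Pool.Agent.UMG.B.TrbStmt :=
  Pool.Agent.UMG.B.H25.trb

theorem t_ptfB : Pool.Agent.UMG.B.PtfStmt :=
  Pool.Agent.UMG.B.H64.ptf t_edgB t_trbB

theorem t_burB : Pool.Agent.UMG.B.BurStmt :=
  Pool.Agent.UMG.B.H10.bur t_gsiB t_gsmB t_stmB t_gamB t_gcgB t_reaB t_dgfB t_orbB t_ivbB t_ptfB

theorem t_bux : Pool.Agent.UMG.BuxStmt :=
  Pool.Agent.UMG.H84.bux t_burB

theorem t_oui : Pool.Agent.UMG.OuiStmt :=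
  Pool.Agent.UMG.D.H13.oui

theorem t_omb : Pool.Agent.UMG.OmbStmt :=
  Pool.Agent.UMG.D.H2.omb

theorem t_val : Pool.Agent.UMG.ValStmt :=
  Pool.Agent.UMG.D.H88.val

theorem t_exb : Pool.Agent.UMG.ExbStmt :=
  Pool.Agent.UMG.D.H33.exb t_exs t_bux t_gcd t_oui t_omb t_val

theorem t_alo : Pool.Agent.UMG.AloStmt :=
  Pool.Agent.UMG.H34.alo t_exs t_val t_gcd t_gln

theorem t_fsz : Pool.Agent.UMG.FszStmt :=
  Pool.Agent.UMG.H89.fsz

theorem t_fsp : Pool.Agent.UMG.FspStmt :=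
  Pool.Agent.UMG.D.H64.fsp

theorem t_fai : Pool.Agent.UMG.FaiStmt :=
  Pool.Agent.UMG.H58.fai

theorem t_fin : Pool.Agent.UMG.FinStmt :=
  Pool.Agent.UMG.D.H25.fin t_rat t_exb t_alo t_fsz t_fsp t_fai

end Pool.Agent.UMG
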