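import Pool.Agent.UMG.Fin
import Pool.Agent.Helper84_UMG.RES
import Pool.Agent.Helper14_UMG.PGM

/-!
# Squad UMG, the theorem without hypotheses
-/

set_option autoImplicit false

namespace Pool.Agent.UMG

theorem resStmt : ResStmt :=
  Pool.Agent.UMG.H84.res t_mod t_fin Pool.Agent.UMG.H14.pgm Pool.Agent.UMG.H14.stt

end Pool.Agent.UMG
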