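import Pool.Agent.UMG.Defs

/-!
# Squad UMG, block C: kit for programs

`PB sz f`: the function `f : X → ℕ` is bounded by a polynomial in `sz : X → ℕ`.  `PT sz E f`: one
program computes `f x` from the environment `E x` (with an arbitrary tail) in time polynomial in
`sz x`.  The type `X` is the type of the situations in which the program is used; inside of a loop
it is the type `Dm c` of the pairs (situation, number of the round).
-/

set_option autoImplicit false

namespace Pool.Agent.UMG

open Finset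

/-! ## Polynomial bounds -/

section PB

variable {X Y : Type} {sz : X → ℕ}

/-- polynomially bounded in `sz` -/
def PB (sz : X → ℕ) (f : X → ℕ) : Prop := ∃ C : ℕ, ∀ x, f x ≤ (sz x + 2) ^ C

theorem PB.mono {f g : X → ℕ} (h : PB sz g) (hfg : ∀ x, f x ≤ g x) : PB sz f := by
  obtain ⟨C, hC⟩ := h
  exact ⟨C, fun x => (hfg x).trans (hC x)⟩

theorem PB.const (c : ℕ) : PB sz (fun _ => c) := by
  refine ⟨c, fun x => ?_⟩
  calc c ≤ 2 ^ c := Nat.lt_two_pow_self.le
    _ ≤ (sz x + 2) ^ c := Nat.pow_le_pow_left (by omega) c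

theorem PB.self : PB sz sz := ⟨1, fun x => by rw [pow_one]; omega⟩

theorem PB.add {f g : X → ℕ} (hf : PB sz f) (hg : PB sz g) : PB sz (fun x => f x + g x) := by
  obtain ⟨C, hC⟩ := hf
  obtain ⟨D, hD⟩ := hg
  refine ⟨C + D + 1, fun x => ?_⟩
  have h1 : (sz x + 2) ^ C ≤ (sz x + 2) ^ (C + D) := Nat.pow_le_pow_right (by omega) (by omega)
  have h2 : (sz x + 2) ^ D ≤ (sz x + 2) ^ (C + D) := Nat.pow_le_pow_right (by omega) (by omega)
  have h3 := hC x
  have h4 := hD x
  rw [pow_succ]
  nlinarith

theorem PB.mul {f g : X → ℕ} (hf : PB sz f) (hg : PB sz g) : PB sz (fun x => f x * g x) := by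
  obtain ⟨C, hC⟩ := hf
  obtain ⟨D, hD⟩ := hg
  refine ⟨C + D, fun x => ?_⟩
  rw [pow_add]
  exact Nat.mul_le_mul (hC x) (hD x)

theorem PB.pow {f : X → ℕ} (hf : PB sz f) (n : ℕ) : PB sz (fun x => f x ^ n) := by
  obtain ⟨C, hC⟩ := hf
  refine ⟨C * n, fun x => ?_⟩
  rw [pow_mul]
  exact Nat.pow_le_pow_left (hC x) n

theorem PB.trans {sz' f : X → ℕ} (h : PB sz f) (h' : PB sz' sz) : PB sz' f := by
  obtain ⟨C, hC⟩ := h
  obtain ⟨D, hD⟩ := (h'.add (PB.const 2)).pow C
  exact ⟨D, fun x => (hC x).trans (hD x)⟩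

theorem PB.comp {f : X → ℕ} (h : PB sz f) (φ : Y → X) :
    PB (fun y => sz (φ y)) (fun y => f (φ y)) := by
  obtain ⟨C, hC⟩ := h
  exact ⟨C, fun y => hC (φ y)⟩

theorem PB.sum {f : X → ℕ → ℕ} {n g : X → ℕ} (hn : PB sz n) (hg : PB sz g)
    (h : ∀ x, ∀ i < n x, f x i ≤ g x) : PB sz (fun x => ∑ i ∈ range (n x), f x i) := by
  refine (hn.mul hg).mono fun x => ?_
  calc ∑ i ∈ range (n x), f x i ≤ ∑ _i ∈ range (n x), g x :=
        Finset.sum_le_sum fun i hi => h x i (Finset.mem_range.1 hi)
    _ = n x * g x := by rw [Finset.sum_const, Finset.card_range, smul_eq_mul]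

end PB

/-! ## Programs -/

theorem size_add_le (a b : ℕ) : Nat.size (a + b) ≤ Nat.size a + Nat.size b + 1 := by
  rw [Nat.size_le]
  have h1 := Nat.lt_size_self a
  have h2 := Nat.lt_size_self b
  have h3 : 2 ^ Nat.size a ≤ 2 ^ (Nat.size a + Nat.size b) :=
    Nat.pow_le_pow_right (by norm_num) (by omega)
  have h4 : 2 ^ Nat.size b ≤ 2 ^ (Nat.size a + Nat.size b) :=
    Nat.pow_le_pow_right (by norm_num) (by omega)
  rw [pow_succ]
  omega

theorem size_mul_le (a b : ℕ) : Nat.size (a * b) ≤ Nat.size a + Nat.size b := by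
  rw [Nat.size_le, pow_add]
  have h1 := Nat.lt_size_self a
  have h2 := Nat.lt_size_self b
  rcases Nat.eq_zero_or_pos b with rfl | hb
  · simp
  · calc a * b < 2 ^ Nat.size a * b := Nat.mul_lt_mul_of_pos_right h1 hb
      _ ≤ 2 ^ Nat.size a * 2 ^ Nat.size b := Nat.mul_le_mul_left _ h2.le

theorem size_mono {a b : ℕ} (h : a ≤ b) : Nat.size a ≤ Nat.size b := Nat.size_le_size h

theorem size_le_self (a : ℕ) : Nat.size a ≤ a := by
  rw [Nat.size_le]
  exact Nat.lt_two_pow_self

/-- the value is not longer than the running time -/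
theorem size_le_time : ∀ (p : Prog) (ρ : List ℕ), Nat.size (eval p ρ) ≤ time p ρ
  | .var i, ρ => by simp only [eval, time]; omega
  | .num c, ρ => by simp only [eval, time]; omega
  | .add a b, ρ => by
    have h1 := size_le_time a ρ
    have h2 := size_le_time b ρ
    have h3 := size_add_le (eval a ρ) (eval b ρ)
    simp only [eval, time]
    nlinarith
  | .sub a b, ρ => by
    have h1 := size_le_time a ρ
    have h3 : Nat.size (eval a ρ - eval b ρ) ≤ Nat.size (eval a ρ) := size_mono (Nat.sub_le _ _)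
    simp only [eval, time]
    nlinarith
  | .mul a b, ρ => by
    have h1 := size_le_time a ρ
    have h2 := size_le_time b ρ
    have h3 := size_mul_le (eval a ρ) (eval b ρ)
    simp only [eval, time]
    nlinarith
  | .div a b, ρ => by
    have h1 := size_le_time a ρ
    have h3 : Nat.size (eval a ρ / eval b ρ) ≤ Nat.size (eval a ρ) :=
      size_mono (Nat.div_le_self _ _)
    simp only [eval, time]
    nlinarith
  | .mod a b, ρ => by
    have h1 := size_le_time a ρ
    have h3 : Nat.size (eval a ρ % eval b ρ) ≤ Nat.size (eval a ρ) :=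
      size_mono (Nat.mod_le _ _)
    simp only [eval, time]
    nlinarith
  | .ite a b c, ρ => by
    have h1 := size_le_time b ρ
    have h2 := size_le_time c ρ
    simp only [eval, time]
    split_ifs <;> omega
  | .lett a b, ρ => by
    have h1 := size_le_time b (eval a ρ :: ρ)
    simp only [eval, time]
    omega
  | .loop c i b, ρ => by
    simp only [eval, time]
    have hi := size_le_time i ρ
    generalize eval c ρ = n
    cases n with
    | zero =>
      simp only [Nat.rec_zero]
      omega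
    | succ n =>
      have hb := size_le_time b
        (Nat.rec (eval i ρ) (fun t x => eval b (x :: t :: ρ)) n :: n :: ρ)
      rw [Finset.sum_range_succ]
      show Nat.size (eval b (Nat.rec (eval i ρ) (fun t x => eval b (x :: t :: ρ)) n :: n :: ρ)) ≤ _
      omega

/-! ### Renaming of variables -/

/-- insert `k` variables behind the first `m` -/
def lift (k : ℕ) : ℕ → Prog → Prog
  | m, .var i => .var (if i < m then i else i + k)
  | _, .num c => .num c
  | m, .add a b => .add (lift k m a) (lift k m b)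
  | m, .sub a b => .sub (lift k m a) (lift k m b)
  | m, .mul a b => .mul (lift k m a) (lift k m b)
  | m, .div a b => .div (lift k m a) (lift k m b)
  | m, .mod a b => .mod (lift k m a) (lift k m b)
  | m, .ite a b c => .ite (lift k m a) (lift k m b) (lift k m c)
  | m, .lett a b => .lett (lift k m a) (lift k (m + 1) b)
  | m, .loop c i b => .loop (lift k m c) (lift k m i) (lift k (m + 2) b)

theorem getD_lift (A B C : List ℕ) (i : ℕ) :
    (A ++ (B ++ C)).getD (if i < A.length then i else i + B.length) 0 = (A ++ C).getD i 0 := by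
  simp only [List.getD_eq_getElem?_getD]
  congr 1
  split_ifs with h
  · rw [List.getElem?_append_left h, List.getElem?_append_left h]
  · rw [List.getElem?_append_right (by omega), List.getElem?_append_right (by omega),
      List.getElem?_append_right (by omega)]
    congr 1
    omega

theorem eval_lift (B C : List ℕ) : ∀ (p : Prog) (A : List ℕ),
    eval (lift B.length A.length p) (A ++ (B ++ C)) = eval p (A ++ C)
  | .var i, A => by
    simp only [lift, eval]
    exact getD_lift A B C i
  | .num c, A => rfl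
  | .add a b, A => by simp only [lift, eval, eval_lift B C a A, eval_lift B C b A]
  | .sub a b, A => by simp only [lift, eval, eval_lift B C a A, eval_lift B C b A]
  | .mul a b, A => by simp only [lift, eval, eval_lift B C a A, eval_lift B C b A]
  | .div a b, A => by simp only [lift, eval, eval_lift B C a A, eval_lift B C b A]
  | .mod a b, A => by simp only [lift, eval, eval_lift B C a A, eval_lift B C b A]
  | .ite a b c, A => by
    simp only [lift, eval, eval_lift B C a A, eval_lift B C b A, eval_lift B C c A]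
  | .lett a b, A => by
    simp only [lift, eval, eval_lift B C a A]
    exact eval_lift B C b (eval a (A ++ C) :: A)
  | .loop c i b, A => by
    simp only [lift, eval, eval_lift B C c A, eval_lift B C i A]
    have h : ∀ x t : ℕ, eval (lift B.length (A.length + 2) b) (x :: t :: (A ++ (B ++ C))) =
        eval b (x :: t :: (A ++ C)) := fun x t => eval_lift B C b (x :: t :: A)
    simp only [h]

theorem time_lift (B C : List ℕ) : ∀ (p : Prog) (A : List ℕ),
    time (lift B.length A.length p) (A ++ (B ++ C)) = time p (A ++ C)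
  | .var i, A => by
    simp only [lift, time]
    rw [getD_lift A B C i]
  | .num c, A => rfl
  | .add a b, A => by
    simp only [lift, time, eval_lift B C a A, eval_lift B C b A, time_lift B C a A,
      time_lift B C b A]
  | .sub a b, A => by
    simp only [lift, time, eval_lift B C a A, eval_lift B C b A, time_lift B C a A,
      time_lift B C b A]
  | .mul a b, A => by
    simp only [lift, time, eval_lift B C a A, eval_lift B C b A, time_lift B C a A,
      time_lift B C b A]
  | .div a b, A => by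
    simp only [lift, time, eval_lift B C a A, eval_lift B C b A, time_lift B C a A,
      time_lift B C b A]
  | .mod a b, A => by
    simp only [lift, time, eval_lift B C a A, eval_lift B C b A, time_lift B C a A,
      time_lift B C b A]
  | .ite a b c, A => by
    simp only [lift, time, eval_lift B C a A, time_lift B C a A, time_lift B C b A,
      time_lift B C c A]
  | .lett a b, A => by
    simp only [lift, time, eval_lift B C a A, time_lift B C a A]
    congr 1
    exact time_lift B C b (eval a (A ++ C) :: A)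
  | .loop c i b, A => by
    simp only [lift, time, eval_lift B C c A, eval_lift B C i A, time_lift B C c A,
      time_lift B C i A]
    have h : ∀ x t : ℕ, eval (lift B.length (A.length + 2) b) (x :: t :: (A ++ (B ++ C))) =
        eval b (x :: t :: (A ++ C)) := fun x t => eval_lift B C b (x :: t :: A)
    have h' : ∀ x t : ℕ, time (lift B.length (A.length + 2) b) (x :: t :: (A ++ (B ++ C))) =
        time b (x :: t :: (A ++ C)) := fun x t => time_lift B C b (x :: t :: A)
    simp only [h, h']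

/-! ## The class of the functions computable in polynomial time -/

section PT

variable {X Y : Type} {sz : X → ℕ} {E : X → List ℕ}

/-- one program computes `f x` from the environment `E x` (with an arbitrary tail) in time
polynomial in `sz x` -/
def PT (sz : X → ℕ) (E : X → List ℕ) (f : X → ℕ) : Prop :=
  ∃ (p : Prog) (T : X → ℕ), PB sz T ∧ ∀ x τ, eval p (E x ++ τ) = f x ∧ time p (E x ++ τ) ≤ T x

theorem PT.size {f : X → ℕ} (h : PT sz E f) : PB sz (fun x => Nat.size (f x)) := by
  obtain ⟨p, T, hT, h⟩ := h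
  refine hT.mono fun x => ?_
  have h1 := size_le_time p (E x ++ [])
  rw [(h x []).1] at h1
  exact h1.trans (h x []).2

theorem PT.congr {f g : X → ℕ} (h : PT sz E f) (hfg : ∀ x, g x = f x) : PT sz E g := by
  have : g = f := funext hfg
  rwa [this]

/-- other parameters -/
theorem PT.comp {f : X → ℕ} (h : PT sz E f) (φ : Y → X) :
    PT (fun y => sz (φ y)) (fun y => E (φ y)) (fun y => f (φ y)) := by
  obtain ⟨p, T, hT, h⟩ := h
  exact ⟨p, fun y => T (φ y), hT.comp φ, fun y τ => h (φ y) τ⟩

/-- other measure of the size -/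
theorem PT.trans {sz' f : X → ℕ} (h : PT sz E f) (h' : PB sz' sz) : PT sz' E f := by
  obtain ⟨p, T, hT, h⟩ := h
  exact ⟨p, T, hT.trans h', h⟩

theorem PT.const (c : ℕ) : PT sz E (fun _ => c) :=
  ⟨.num c, fun _ => Nat.size c + 1, PB.const _, fun _ _ => ⟨rfl, le_rfl⟩⟩

/-- the first variable -/
theorem PT.head {f : X → ℕ} (hf : PB sz (fun x => Nat.size (f x))) :
    PT sz (fun x => f x :: E x) f :=
  ⟨.var 0, fun x => Nat.size (f x) + 1, hf.add (PB.const 1), fun _ _ => ⟨rfl, le_rfl⟩⟩

/-- more variables in front -/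
theorem PT.tail {f : X → ℕ} (h : PT sz E f) (g : X → ℕ) : PT sz (fun x => g x :: E x) f := by
  obtain ⟨p, T, hT, h⟩ := h
  refine ⟨lift 1 0 p, T, hT, fun x τ => ?_⟩
  have h1 := eval_lift [g x] (E x ++ τ) p []
  have h2 := time_lift [g x] (E x ++ τ) p []
  simp only [List.length_singleton, List.length_nil, List.nil_append, List.singleton_append]
    at h1 h2
  rw [List.cons_append, h1, h2]
  exact h x τ

/-- one more variable behind the first one -/
theorem PT.tail1 {f g₀ : X → ℕ} (h : PT sz (fun x => g₀ x :: E x) f) (g : X → ℕ) :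
    PT sz (fun x => g₀ x :: g x :: E x) f := by
  obtain ⟨p, T, hT, h⟩ := h
  refine ⟨lift 1 1 p, T, hT, fun x τ => ?_⟩
  have h1 := eval_lift [g x] (E x ++ τ) p [g₀ x]
  have h2 := time_lift [g x] (E x ++ τ) p [g₀ x]
  simp only [List.length_singleton, List.singleton_append] at h1 h2
  rw [List.cons_append, List.cons_append, h1, h2]
  exact h x τ

section arith

variable {f g : X → ℕ}

theorem PT.add (hf : PT sz E f) (hg : PT sz E g) : PT sz E (fun x => f x + g x) := by
  obtain ⟨p, T, hT, h⟩ := hf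
  obtain ⟨q, T', hT', h'⟩ := hg
  refine ⟨.add p q, fun x => T x + T' x + (T x + T' x + 1) ^ 2,
    (hT.add hT').add (((hT.add hT').add (PB.const 1)).pow 2), fun x τ => ?_⟩
  have h1 := size_le_time p (E x ++ τ)
  have h2 := size_le_time q (E x ++ τ)
  obtain ⟨h3, h4⟩ := h x τ
  obtain ⟨h5, h6⟩ := h' x τ
  refine ⟨by simp only [eval, h3, h5], ?_⟩
  simp only [time]
  exact Nat.add_le_add (Nat.add_le_add h4 h6) (Nat.pow_le_pow_left (by omega) 2)

theorem PT.sub (hf : PT sz E f) (hg : PT sz E g) : PT sz E (fun x => f x - g x) := by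
  obtain ⟨p, T, hT, h⟩ := hf
  obtain ⟨q, T', hT', h'⟩ := hg
  refine ⟨.sub p q, fun x => T x + T' x + (T x + T' x + 1) ^ 2,
    (hT.add hT').add (((hT.add hT').add (PB.const 1)).pow 2), fun x τ => ?_⟩
  have h1 := size_le_time p (E x ++ τ)
  have h2 := size_le_time q (E x ++ τ)
  obtain ⟨h3, h4⟩ := h x τ
  obtain ⟨h5, h6⟩ := h' x τ
  refine ⟨by simp only [eval, h3, h5], ?_⟩
  simp only [time]
  exact Nat.add_le_add (Nat.add_le_add h4 h6) (Nat.pow_le_pow_left (by omega) 2)

theorem PT.mul (hf : PT sz E f) (hg : PT sz E g) : PT sz E (fun x => f x * g x) := by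
  obtain ⟨p, T, hT, h⟩ := hf
  obtain ⟨q, T', hT', h'⟩ := hg
  refine ⟨.mul p q, fun x => T x + T' x + (T x + T' x + 1) ^ 2,
    (hT.add hT').add (((hT.add hT').add (PB.const 1)).pow 2), fun x τ => ?_⟩
  have h1 := size_le_time p (E x ++ τ)
  have h2 := size_le_time q (E x ++ τ)
  obtain ⟨h3, h4⟩ := h x τ
  obtain ⟨h5, h6⟩ := h' x τ
  refine ⟨by simp only [eval, h3, h5], ?_⟩
  simp only [time]
  exact Nat.add_le_add (Nat.add_le_add h4 h6) (Nat.pow_le_pow_left (by omega) 2)

theorem PT.div (hf : PT sz E f) (hg : PT sz E g) : PT sz E (fun x => f x / g x) := by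
  obtain ⟨p, T, hT, h⟩ := hf
  obtain ⟨q, T', hT', h'⟩ := hg
  refine ⟨.div p q, fun x => T x + T' x + (T x + T' x + 1) ^ 2,
    (hT.add hT').add (((hT.add hT').add (PB.const 1)).pow 2), fun x τ => ?_⟩
  have h1 := size_le_time p (E x ++ τ)
  have h2 := size_le_time q (E x ++ τ)
  obtain ⟨h3, h4⟩ := h x τ
  obtain ⟨h5, h6⟩ := h' x τ
  refine ⟨by simp only [eval, h3, h5], ?_⟩
  simp only [time]
  exact Nat.add_le_add (Nat.add_le_add h4 h6) (Nat.pow_le_pow_left (by omega) 2)

theorem PT.mod (hf : PT sz E f) (hg : PT sz E g) : PT sz E (fun x => f x % g x) := by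
  obtain ⟨p, T, hT, h⟩ := hf
  obtain ⟨q, T', hT', h'⟩ := hg
  refine ⟨.mod p q, fun x => T x + T' x + (T x + T' x + 1) ^ 2,
    (hT.add hT').add (((hT.add hT').add (PB.const 1)).pow 2), fun x τ => ?_⟩
  have h1 := size_le_time p (E x ++ τ)
  have h2 := size_le_time q (E x ++ τ)
  obtain ⟨h3, h4⟩ := h x τ
  obtain ⟨h5, h6⟩ := h' x τ
  refine ⟨by simp only [eval, h3, h5], ?_⟩
  simp only [time]
  exact Nat.add_le_add (Nat.add_le_add h4 h6) (Nat.pow_le_pow_left (by omega) 2)

/-- local definition -/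
theorem PT.lett (hf : PT sz E f) (hg : PT sz (fun x => f x :: E x) g) : PT sz E g := by
  obtain ⟨p, T, hT, h⟩ := hf
  obtain ⟨q, T', hT', h'⟩ := hg
  refine ⟨.lett p q, fun x => T x + T' x, hT.add hT', fun x τ => ?_⟩
  obtain ⟨h3, h4⟩ := h x τ
  obtain ⟨h5, h6⟩ := h' x τ
  simp only [List.cons_append] at h5 h6
  refine ⟨by simp only [eval, h3, h5], ?_⟩
  simp only [time, h3]
  exact Nat.add_le_add h4 h6

end arith

/-! ### Conditions -/

open Classical in
/-- a condition which can be decided in polynomial time -/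
def PD (sz : X → ℕ) (E : X → List ℕ) (P : X → Prop) : Prop :=
  PT sz E (fun x => if P x then 1 else 0)

theorem PD.congr {P P' : X → Prop} (h : PD sz E P) (hP : ∀ x, P' x ↔ P x) : PD sz E P' := by
  have : P' = P := funext fun x => propext (hP x)
  rwa [this]

open Classical in
/-- case distinction, every case in its own situations -/
theorem PT.ite' {P : X → Prop} {f : X → ℕ} (hP : PD sz E P)
    (hf : PT (fun x : {x // P x} => sz x.1) (fun x => E x.1) (fun x => f x.1))
    (hg : PT (fun x : {x // ¬ P x} => sz x.1) (fun x => E x.1) (fun x => f x.1)) :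
    PT sz E f := by
  obtain ⟨p, T, hT, h⟩ := hP
  obtain ⟨q, T₁, ⟨C₁, hC₁⟩, h₁⟩ := hf
  obtain ⟨r, T₂, ⟨C₂, hC₂⟩, h₂⟩ := hg
  refine ⟨.ite p q r, fun x => T x + ((sz x + 2) ^ C₁ + (sz x + 2) ^ C₂) + 1,
    (hT.add (((PB.self.add (PB.const 2)).pow C₁).add
      ((PB.self.add (PB.const 2)).pow C₂))).add (PB.const 1), fun x τ => ?_⟩
  obtain ⟨h3, h4⟩ := h x τ
  by_cases hx : P x
  · obtain ⟨h5, h6⟩ := h₁ ⟨x, hx⟩ τ
    have h7 := h6.trans (hC₁ ⟨x, hx⟩)
    have h9 : eval p (E x ++ τ) = if P x then 1 else 0 := h3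
    have h8 : eval p (E x ++ τ) ≠ 0 := by rw [h9, if_pos hx]; norm_num
    simp only [eval, time, if_pos h8]
    refine ⟨h5, ?_⟩
    simp only at h7
    omega
  · obtain ⟨h5, h6⟩ := h₂ ⟨x, hx⟩ τ
    have h7 := h6.trans (hC₂ ⟨x, hx⟩)
    have h9 : eval p (E x ++ τ) = if P x then 1 else 0 := h3
    have h8 : ¬ eval p (E x ++ τ) ≠ 0 := by rw [h9, if_neg hx]; norm_num
    simp only [eval, time, if_neg h8]
    refine ⟨h5, ?_⟩
    simp only at h7
    omega

theorem PT.ite {P : X → Prop} [DecidablePred P] {f g : X → ℕ} (hP : PD sz E P)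
    (hf : PT sz E f) (hg : PT sz E g) : PT sz E (fun x => if P x then f x else g x) := by
  refine PT.ite' hP ?_ ?_
  · refine (hf.comp (fun x : {x // P x} => x.1)).congr fun x => ?_
    rw [if_pos x.2]
  · refine (hg.comp (fun x : {x // ¬ P x} => x.1)).congr fun x => ?_
    rw [if_neg x.2]

section cond

variable {f g : X → ℕ}

theorem PD.le (hf : PT sz E f) (hg : PT sz E g) : PD sz E (fun x => f x ≤ g x) := by
  refine ((PT.const 1).sub (hf.sub hg)).congr fun x => ?_
  split_ifs with h <;> omega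

theorem PD.lt (hf : PT sz E f) (hg : PT sz E g) : PD sz E (fun x => f x < g x) :=
  (PD.le (hf.add (PT.const 1)) hg).congr fun x => by omega

theorem PD.and {P P' : X → Prop} (h : PD sz E P) (h' : PD sz E P') :
    PD sz E (fun x => P x ∧ P' x) := by
  refine (PT.mul h h').congr fun x => ?_
  by_cases h1 : P x <;> by_cases h2 : P' x <;> simp [h1, h2]

theorem PD.not {P : X → Prop} (h : PD sz E P) : PD sz E (fun x => ¬ P x) := by
  refine ((PT.const 1).sub h).congr fun x => ?_
  by_cases h1 : P x <;> simp [h1]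

theorem PD.or {P P' : X → Prop} (h : PD sz E P) (h' : PD sz E P') :
    PD sz E (fun x => P x ∨ P' x) :=
  (PD.not (h.not.and h'.not)).congr fun x => by tauto

theorem PD.eq (hf : PT sz E f) (hg : PT sz E g) : PD sz E (fun x => f x = g x) :=
  ((PD.le hf hg).and (PD.le hg hf)).congr fun x => by omega

theorem PD.dvd (c : ℕ) (hf : PT sz E f) : PD sz E (fun x => c ∣ f x) :=
  (PD.eq (hf.mod (PT.const c)) (PT.const 0)).congr fun _ => Nat.dvd_iff_mod_eq_zero

theorem PT.min (hf : PT sz E f) (hg : PT sz E g) : PT sz E (fun x => Min.min (f x) (g x)) := by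
  refine (hf.sub (hf.sub hg)).congr fun x => ?_
  omega

theorem PT.max (hf : PT sz E f) (hg : PT sz E g) : PT sz E (fun x => Max.max (f x) (g x)) := by
  refine (hf.add (hg.sub hf)).congr fun x => ?_
  omega

end cond

/-! ### Loops -/

/-- the situations in a loop with `c x` rounds -/
abbrev Dm (c : X → ℕ) : Type := {q : X × ℕ // q.2 < c q.1}

/-- loop: `st x t` is the state after `t` rounds -/
theorem PT.loop {c : X → ℕ} {st : X → ℕ → ℕ} (hc : PT sz E c) (hcb : PB sz c)
    (hi : PT sz E (fun x => st x 0))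
    (hb : PT (fun q : Dm c => sz q.1.1) (fun q => st q.1.1 q.1.2 :: q.1.2 :: E q.1.1)
      (fun q => st q.1.1 (q.1.2 + 1))) :
    PT sz E (fun x => st x (c x)) := by
  obtain ⟨p, T, hT, h⟩ := hc
  obtain ⟨q, T₁, hT₁, h₁⟩ := hi
  obtain ⟨r, T₂, ⟨C, hC⟩, h₂⟩ := hb
  refine ⟨.loop p q r, fun x => T x + T₁ x + c x * ((sz x + 2) ^ C + 1),
    (hT.add hT₁).add (hcb.mul (((PB.self.add (PB.const 2)).pow C).add (PB.const 1))),
    fun x τ => ?_⟩
  obtain ⟨h3, h4⟩ := h x τ
  obtain ⟨h5, h6⟩ := h₁ x τ
  have key : ∀ t, t ≤ c x → (Nat.rec (eval q (E x ++ τ))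
      (fun t y => eval r (y :: t :: (E x ++ τ))) t : ℕ) = st x t := by
    intro t
    induction t with
    | zero => intro _; exact h5
    | succ t ih =>
      intro ht
      have h7 := (h₂ ⟨(x, t), (show t < c x by omega)⟩ τ).1
      simp only [List.cons_append] at h7
      show eval r (_ :: t :: (E x ++ τ)) = _
      rw [ih (by omega)]
      exact h7
  refine ⟨?_, ?_⟩
  · simp only [eval, h3]
    exact key (c x) le_rfl
  · simp only [time, h3]
    refine Nat.add_le_add (Nat.add_le_add h4 h6) ?_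
    have h8 : ∀ t ∈ range (c x), time r (Nat.rec (eval q (E x ++ τ))
        (fun t y => eval r (y :: t :: (E x ++ τ))) t :: t :: (E x ++ τ)) + 1 ≤
          (sz x + 2) ^ C + 1 := by
      intro t ht
      rw [Finset.mem_range] at ht
      rw [key t ht.le]
      have h9 := (h₂ ⟨(x, t), ht⟩ τ).2
      simp only [List.cons_append] at h9
      exact Nat.add_le_add_right (h9.trans (hC ⟨(x, t), ht⟩)) 1
    refine (Finset.sum_le_sum h8).trans ?_
    rw [Finset.sum_const, Finset.card_range, smul_eq_mul]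

/-- an old function in the situations of a loop, with the number of the round in front -/
theorem PT.dm {f c : X → ℕ} (h : PT sz E f) :
    PT (fun q : Dm c => sz q.1.1) (fun q => q.1.2 :: E q.1.1) (fun q => f q.1.1) :=
  (h.comp (fun q : Dm c => q.1.1)).tail (fun q => q.1.2)

/-- the number of the round -/
theorem PT.dmi {c : X → ℕ} (hcb : PB sz c) :
    PT (fun q : Dm c => sz q.1.1) (fun q => q.1.2 :: E q.1.1) (fun q => q.1.2) := by
  refine PT.head ?_
  exact (hcb.comp (fun q : Dm c => q.1.1)).mono fun q => (size_le_self _).trans q.2.le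

theorem PT.sum {c : X → ℕ} {f : X → ℕ → ℕ} (hc : PT sz E c) (hcb : PB sz c)
    (hf : PT (fun q : Dm c => sz q.1.1) (fun q => q.1.2 :: E q.1.1) (fun q => f q.1.1 q.1.2)) :
    PT sz E (fun x => ∑ i ∈ range (c x), f x i) := by
  have hs : PB (fun q : Dm c => sz q.1.1)
      (fun q => Nat.size (∑ i ∈ range q.1.2, f q.1.1 i)) := by
    obtain ⟨C, hC⟩ := hf.size
    refine (((hcb.comp (fun q : Dm c => q.1.1)).add ((PB.self.add (PB.const 2)).pow C))).mono
      fun q => ?_
    rw [Nat.size_le]
    have h1 : ∀ i ∈ range q.1.2, f q.1.1 i ≤ 2 ^ (sz q.1.1 + 2) ^ C := by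
      intro i hi
      rw [Finset.mem_range] at hi
      have h2 := hC ⟨(q.1.1, i), hi.trans q.2⟩
      rw [Nat.size_le] at h2
      exact h2.le
    have h3 : q.1.2 < 2 ^ q.1.2 := Nat.lt_two_pow_self
    have h4 : 2 ^ q.1.2 ≤ 2 ^ c q.1.1 := Nat.pow_le_pow_right (by norm_num) q.2.le
    calc ∑ i ∈ range q.1.2, f q.1.1 i ≤ ∑ _i ∈ range q.1.2, 2 ^ (sz q.1.1 + 2) ^ C :=
          Finset.sum_le_sum h1
      _ = q.1.2 * 2 ^ (sz q.1.1 + 2) ^ C := by
          rw [Finset.sum_const, Finset.card_range, smul_eq_mul]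
      _ < 2 ^ c q.1.1 * 2 ^ (sz q.1.1 + 2) ^ C :=
          Nat.mul_lt_mul_of_pos_right (h3.trans_le h4) (by positivity)
      _ = 2 ^ (c q.1.1 + (sz q.1.1 + 2) ^ C) := by rw [pow_add]
  refine PT.loop (st := fun x t => ∑ i ∈ range t, f x i) hc hcb
    ((PT.const 0).congr fun x => by simp) ?_
  have h1 : PT (fun q : Dm c => sz q.1.1)
      (fun q => (∑ i ∈ range q.1.2, f q.1.1 i) :: q.1.2 :: E q.1.1)
      (fun q => ∑ i ∈ range q.1.2, f q.1.1 i) := PT.head hs
  have h2 := hf.tail (fun q : Dm c => ∑ i ∈ range q.1.2, f q.1.1 i)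
  refine (h1.add h2).congr fun q => ?_
  rw [Finset.sum_range_succ]

theorem PT.prod {c : X → ℕ} {f : X → ℕ → ℕ} (hc : PT sz E c) (hcb : PB sz c)
    (hf : PT (fun q : Dm c => sz q.1.1) (fun q => q.1.2 :: E q.1.1) (fun q => f q.1.1 q.1.2)) :
    PT sz E (fun x => ∏ i ∈ range (c x), f x i) := by
  have hs : PB (fun q : Dm c => sz q.1.1)
      (fun q => Nat.size (∏ i ∈ range q.1.2, f q.1.1 i)) := by
    obtain ⟨C, hC⟩ := hf.size
    refine ((((hcb.comp (fun q : Dm c => q.1.1)).mul ((PB.self.add (PB.const 2)).pow C))).add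
      (PB.const 1)).mono fun q => ?_
    rw [Nat.size_le]
    have h1 : ∀ i ∈ range q.1.2, f q.1.1 i ≤ 2 ^ (sz q.1.1 + 2) ^ C := by
      intro i hi
      rw [Finset.mem_range] at hi
      have h2 := hC ⟨(q.1.1, i), hi.trans q.2⟩
      rw [Nat.size_le] at h2
      exact h2.le
    calc ∏ i ∈ range q.1.2, f q.1.1 i ≤ ∏ _i ∈ range q.1.2, 2 ^ (sz q.1.1 + 2) ^ C :=
          Finset.prod_le_prod (fun i _ => Nat.zero_le _) h1
      _ = 2 ^ ((sz q.1.1 + 2) ^ C * q.1.2) := by
          rw [Finset.prod_const, Finset.card_range, pow_mul]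
      _ ≤ 2 ^ (c q.1.1 * (sz q.1.1 + 2) ^ C) := by
          refine Nat.pow_le_pow_right (by norm_num) ?_
          rw [mul_comm]
          exact Nat.mul_le_mul_right _ q.2.le
      _ < 2 ^ (c q.1.1 * (sz q.1.1 + 2) ^ C + 1) := Nat.pow_lt_pow_right (by norm_num) (by omega)
  refine PT.loop (st := fun x t => ∏ i ∈ range t, f x i) hc hcb
    ((PT.const 1).congr fun x => by simp) ?_
  have h1 : PT (fun q : Dm c => sz q.1.1)
      (fun q => (∏ i ∈ range q.1.2, f q.1.1 i) :: q.1.2 :: E q.1.1)
      (fun q => ∏ i ∈ range q.1.2, f q.1.1 i) := PT.head hs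
  have h2 := hf.tail (fun q : Dm c => ∏ i ∈ range q.1.2, f q.1.1 i)
  refine (h1.mul h2).congr fun q => ?_
  rw [Finset.prod_range_succ]

theorem PT.pow {f n : X → ℕ} (hf : PT sz E f) (hn : PT sz E n) (hnb : PB sz n) :
    PT sz E (fun x => f x ^ n x) := by
  refine (PT.prod (f := fun x _ => f x) hn hnb hf.dm).congr fun x => ?_
  rw [Finset.prod_const, Finset.card_range]

theorem PT.factorial {n : X → ℕ} (hn : PT sz E n) (hnb : PB sz n) :
    PT sz E (fun x => (n x).factorial) := by
  refine (PT.prod (f := fun _ i => i + 1) hn hnb ((PT.dmi hnb).add (PT.const 1))).congr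
    fun x => ?_
  exact (Finset.prod_range_add_one_eq_factorial (n x)).symm

theorem PT.descFactorial {n k : X → ℕ} (hn : PT sz E n) (hk : PT sz E k) (hkb : PB sz k) :
    PT sz E (fun x => (n x).descFactorial (k x)) := by
  refine (PT.prod (f := fun x i => n x - i) hk hkb (hn.dm.sub (PT.dmi hkb))).congr
    fun x => ?_
  rw [Nat.descFactorial_eq_prod_range]

/-- the number of `i < c x` with `P x i` -/
theorem PT.card {c : X → ℕ} {P : X → ℕ → Prop} [∀ x, DecidablePred (P x)] (hc : PT sz E c)
    (hcb : PB sz c)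
    (hP : PD (fun q : Dm c => sz q.1.1) (fun q => q.1.2 :: E q.1.1) (fun q => P q.1.1 q.1.2)) :
    PT sz E (fun x => ((range (c x)).filter (P x)).card) := by
  classical
  have h1 : PT (fun q : Dm c => sz q.1.1) (fun q => q.1.2 :: E q.1.1)
      (fun q => if P q.1.1 q.1.2 then 1 else 0) := by
    refine PT.congr hP fun q => ?_
    by_cases h : P q.1.1 q.1.2 <;> simp [h]
  refine (PT.sum (f := fun x i => if P x i then 1 else 0) hc hcb h1).congr fun x => ?_
  rw [Finset.card_filter]

theorem PD.ex {c : X → ℕ} {P : X → ℕ → Prop} (hc : PT sz E c) (hcb : PB sz c)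
    (hP : PD (fun q : Dm c => sz q.1.1) (fun q => q.1.2 :: E q.1.1) (fun q => P q.1.1 q.1.2)) :
    PD sz E (fun x => ∃ i < c x, P x i) := by
  classical
  refine (PD.lt (PT.const 0) (PT.card hc hcb hP)).congr fun x => ?_
  rw [Finset.card_pos, Finset.filter_nonempty_iff]
  simp only [Finset.mem_range]

theorem PD.all {c : X → ℕ} {P : X → ℕ → Prop} (hc : PT sz E c) (hcb : PB sz c)
    (hP : PD (fun q : Dm c => sz q.1.1) (fun q => q.1.2 :: E q.1.1) (fun q => P q.1.1 q.1.2)) :
    PD sz E (fun x => ∀ i < c x, P x i) := by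
  refine (PD.ex (P := fun x i => ¬ P x i) hc hcb hP.not).not.congr fun x => ?_
  push Not
  rfl

/-- integral square root of a small number -/
theorem PT.sqrt {n : X → ℕ} (hn : PT sz E n) (hnb : PB sz n) :
    PT sz E (fun x => Nat.sqrt (n x)) := by
  classical
  refine (PT.card (P := fun x i => (i + 1) * (i + 1) ≤ n x) hn hnb
    (PD.le (((PT.dmi hnb).add (PT.const 1)).mul ((PT.dmi hnb).add (PT.const 1))) hn.dm)).congr
    fun x => ?_
  have h1 : (range (n x)).filter (fun i => (i + 1) * (i + 1) ≤ n x) = range (Nat.sqrt (n x)) := by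
    ext i
    simp only [Finset.mem_filter, Finset.mem_range]
    rw [← Nat.le_sqrt]
    constructor
    · rintro ⟨_, h⟩
      omega
    · intro h
      have h2 := Nat.sqrt_le_self (n x)
      omega
  rw [h1, Finset.card_range]

end PT

end Pool.Agent.UMG
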