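import Pool.Agent.UMG.Kit9

/-!
# Squad UMG, block C: the numbers of the leaf
-/

set_option autoImplicit false

namespace Pool.Agent.UMG

open Finset

/-- entry of a list of triples -/
def tr (L : List (ℕ × ℕ × ℕ)) (t : ℕ) : ℕ × ℕ × ℕ :=
  ((L.map (fun b => b.1)).getD t 0, (L.map (fun b => b.2.1)).getD t 0,
    (L.map (fun b => b.2.2)).getD t 0)

theorem list3_eq (L : List (ℕ × ℕ × ℕ)) : L = (List.range L.length).map (tr L) := by
  refine List.ext_getElem (by simp) fun i h1 h2 => ?_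
  simp [tr, List.getD_eq_getElem?_getD, h1]

/-- indices of the bundles of size `j` -/
def R0 (L : List (ℕ × ℕ × ℕ)) (j : ℕ) : List ℕ :=
  (List.range L.length).filter (fun t => decide (bsz (tr L t) = j))

theorem filter_bsz (L : List (ℕ × ℕ × ℕ)) (j : ℕ) :
    L.filter (fun b => bsz b = j) = (R0 L j).map (tr L) := by
  conv_lhs => rw [list3_eq L]
  rw [List.filter_map]
  rfl

theorem cnt_eq (c : Code) (j : ℕ) : cnt c j = (R0 (bund 0 c) j).length := by
  unfold cnt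
  rw [List.countP_eq_length_filter, filter_bsz, List.length_map]

theorem R0_length_le (L : List (ℕ × ℕ × ℕ)) (j : ℕ) : (R0 L j).length ≤ L.length := by
  unfold R0
  refine (List.length_filter_le _ _).trans ?_
  rw [List.length_range]

theorem R0_lt {L : List (ℕ × ℕ × ℕ)} {j a : ℕ} (h : a ∈ R0 L j) : a < L.length := by
  unfold R0 at h
  exact List.mem_range.1 (List.mem_filter.1 h).1

section

variable {X Y : Type} {sz : X → ℕ} {E : X → List ℕ}

theorem PL3.dm {c : X → ℕ} {L : X → List (ℕ × ℕ × ℕ)} (h : PL3 sz E L) :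
    PL3 (fun q : Dm c => sz q.1.1) (fun q => q.1.2 :: E q.1.1) (fun q => L q.1.1) :=
  ⟨PL.dm h.a, PL.dm h.b, PL.dm h.c⟩

theorem PL3.comp {L : X → List (ℕ × ℕ × ℕ)} (h : PL3 sz E L) (φ : Y → X) :
    PL3 (fun y => sz (φ y)) (fun y => E (φ y)) (fun y => L (φ y)) :=
  ⟨h.a.comp φ, h.b.comp φ, h.c.comp φ⟩

theorem PL3.old {L : X → List (ℕ × ℕ × ℕ)} (h : PL3 sz E L) (φ : Y → X) {A : Y → List ℕ}
    {a : ℕ} (hA : ∀ y, (A y).length = a) :
    PL3 (fun y => sz (φ y)) (fun y => A y ++ E (φ y)) (fun y => L (φ y)) :=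
  ⟨h.a.old φ hA, h.b.old φ hA, h.c.old φ hA⟩

theorem PL3.len {L : X → List (ℕ × ℕ × ℕ)} (h : PL3 sz E L) :
    PT sz E (fun x => (L x).length) := h.a.len.congr fun x => by rw [List.length_map]

theorem PL3.lenb {L : X → List (ℕ × ℕ × ℕ)} (h : PL3 sz E L) :
    PB sz (fun x => (L x).length) := h.a.lenb.mono fun x => by rw [List.length_map]

theorem PL3.tr1 {L : X → List (ℕ × ℕ × ℕ)} {i : X → ℕ} (h : PL3 sz E L) (hi : PT sz E i) :
    PT sz E (fun x => (tr (L x) (i x)).1) := h.a.getD hi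

theorem PL3.tr2 {L : X → List (ℕ × ℕ × ℕ)} {i : X → ℕ} (h : PL3 sz E L) (hi : PT sz E i) :
    PT sz E (fun x => (tr (L x) (i x)).2.1) := h.b.getD hi

theorem PL3.tr3 {L : X → List (ℕ × ℕ × ℕ)} {i : X → ℕ} (h : PL3 sz E L) (hi : PT sz E i) :
    PT sz E (fun x => (tr (L x) (i x)).2.2) := h.c.getD hi

theorem PL.range {n : X → ℕ} (hn : PT sz E n) (hnb : PB sz n) :
    PL sz E (fun x => List.range (n x)) :=
  (PL.ofFn (g := fun _ i => i) hn hnb (PT.dmi hnb)).congr fun x => by rw [List.map_id']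

theorem PL3.R0 {L : X → List (ℕ × ℕ × ℕ)} {j : X → ℕ} (h : PL3 sz E L) (hj : PT sz E j) :
    PL sz E (fun x => UMG.R0 (L x) (j x)) := by
  refine PL.filter (L := fun x => List.range (L x).length)
    (P := fun x t => bsz (tr (L x) t) = j x) (PL.range h.len h.lenb) ?_
  have hb : PB sz (fun x => (List.range (L x).length).length) :=
    h.lenb.mono fun x => by rw [List.length_range]
  refine PD.congr (P := fun q : Dm (fun x => (List.range (L x).length).length) =>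
    (tr (L q.1.1) q.1.2).2.1 * (tr (L q.1.1) q.1.2).2.2 = j q.1.1) ?_ fun q => ?_
  · exact PD.eq ((h.dm.tr2 (PT.dmi hb)).mul (h.dm.tr3 (PT.dmi hb))) hj.dm
  · have h1 : (List.range (L q.1.1).length).getD q.1.2 0 = q.1.2 := by
      rw [List.getD_eq_getElem _ _ q.2, List.getElem_range]
    show bsz (tr (L q.1.1) ((List.range (L q.1.1).length).getD q.1.2 0)) = j q.1.1 ↔ _
    rw [h1]
    rfl

theorem PT.cnt {c : X → Code} {j : X → ℕ} (h : PL3 sz E (fun x => bund 0 (c x)))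
    (hj : PT sz E j) : PT sz E (fun x => UMG.cnt (c x) (j x)) :=
  (h.R0 hj).len.congr fun _ => cnt_eq _ _

theorem PB.cnt {c : X → Code} {j : X → ℕ} (h : PL3 sz E (fun x => bund 0 (c x))) :
    PB sz (fun x => UMG.cnt (c x) (j x)) := h.lenb.mono fun x => by
  rw [cnt_eq]
  exact R0_length_le _ _

section leaf

variable {M g z j : X → ℕ} {c : X → Code}

theorem PT.YB (K : ℕ) (hM : PT sz E M) (hMb : PB sz M) (hg : PT sz E g)
    (hc : PL3 sz E (fun x => bund 0 (c x))) (hj : PT sz E j) (hjb : PB sz j) :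
    PT sz E (fun x => UMG.YB (M x) K (g x) (c x) (j x)) := by
  have hj1 : PT sz E (fun x => j x + 1) := hj.add (PT.const 1)
  have hj1b : PB sz (fun x => j x + 1) := hjb.add (PB.const 1)
  exact (PT.ite (P := fun x => j x < K) (PD.lt hj (PT.const K))
    (PT.coef hM hMb hj1 hj1b (PT.dg hM hg hj hjb) (PB.dg hMb)) (PT.const 1)).mul
    ((PT.fX K hM hMb hg hj1 hj1b).pow (PT.cnt hc hj1) (PB.cnt hc))

theorem PT.rr (K : ℕ) (hM : PT sz E M) (hMb : PB sz M) (hg : PT sz E g) (hz : PT sz E z)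
    (hc : PL3 sz E (fun x => bund 0 (c x))) (hj : PT sz E j) (hjb : PB sz j) :
    PT sz E (fun x => UMG.rr (M x) K (g x) (c x) (z x) (j x)) := by
  have h1 : PT sz E (fun x => ∏ i ∈ range (j x), UMG.YB (M x) K (g x) (c x) i) :=
    PT.prod (f := fun x i => UMG.YB (M x) K (g x) (c x) i) hj hjb
      (PT.YB (X := Dm j) (c := fun q => c q.1.1) K hM.dm (PB.dm hMb) hg.dm hc.dm (PT.dmi hjb)
        (PB.dmi hjb))
  exact (hz.div h1).mod (PT.YB K hM hMb hg hc hj hjb)

theorem PT.yy (K : ℕ) (hM : PT sz E M) (hMb : PB sz M) (hg : PT sz E g) (hz : PT sz E z)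
    (hc : PL3 sz E (fun x => bund 0 (c x))) (hj : PT sz E j) (hjb : PB sz j) :
    PT sz E (fun x => UMG.yy (M x) K (g x) (c x) (z x) (j x)) := by
  have hj1 : PT sz E (fun x => j x + 1) := hj.add (PT.const 1)
  have hj1b : PB sz (fun x => j x + 1) := hjb.add (PB.const 1)
  have hd : PT sz E (fun x => UMG.dg (M x) (g x) (j x)) := PT.dg hM hg hj hjb
  have hdb : PB sz (fun x => UMG.dg (M x) (g x) (j x)) := PB.dg hMb
  have h1 : PT sz E (fun x => ∑ b ∈ range (UMG.dg (M x) (g x) (j x)),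
      UMG.coef (M x) (j x + 1) b * UMG.Xb (M x) (j x + 1) b ^ UMG.cnt (c x) (j x + 1)) := by
    refine PT.sum (f := fun x b => UMG.coef (M x) (j x + 1) b *
      UMG.Xb (M x) (j x + 1) b ^ UMG.cnt (c x) (j x + 1)) hd hdb ?_
    exact (PT.coef hM.dm (PB.dm hMb) hj1.dm (PB.dm hj1b) (PT.dmi hdb) (PB.dmi hdb)).mul
      ((PT.Xb hM.dm (PB.dm hMb) hj1.dm (PB.dm hj1b) (PT.dmi hdb) (PB.dmi hdb)).pow
        (PT.dm (PT.cnt hc hj1)) (PB.dm (PB.cnt (j := fun x => j x + 1) hc)))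
  exact (PT.ite (P := fun x => j x < K) (PD.lt hj (PT.const K)) h1 (PT.const 0)).add
    (PT.rr K hM hMb hg hz hc hj hjb)

theorem PT.scl (K : ℕ) (hM : PT sz E M) (hMb : PB sz M)
    (hc : PL3 sz E (fun x => bund 0 (c x))) (hj : PT sz E j) (hjb : PB sz j) :
    PT sz E (fun x => UMG.scl (M x) K (c x) (j x)) := by
  have hj1 : PT sz E (fun x => j x + 1) := hj.add (PT.const 1)
  have hj1b : PB sz (fun x => j x + 1) := hjb.add (PB.const 1)
  exact (PT.ite (P := fun x => j x < K) (PD.lt hj (PT.const K)) (PT.WW hM hMb hj1 hj1b)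
    (PT.const 1)).mul (((PT.const 2).mul (hM.add (PT.const 1))).pow
      (hj1.mul (PT.cnt hc hj1)) (hj1b.mul (PB.cnt hc)))

theorem PT.ix (K : ℕ) (hM : PT sz E M) (hMb : PB sz M) (hg : PT sz E g) (hz : PT sz E z)
    (hc : PL3 sz E (fun x => bund 0 (c x))) (hj : PT sz E j) (hjb : PB sz j) :
    PT sz E (fun x => UMG.ix (M x) K (g x) (c x) (z x) (j x)) :=
  (PT.yy K hM hMb hg hz hc (hj.sub (PT.const 1)) (hjb.mono fun _ => Nat.sub_le _ _)).mod
    (PT.F hj (PT.cnt hc hj) (PB.cnt hc))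

theorem PD.acc (K : ℕ) (hM : PT sz E M) (hMb : PB sz M) (hg : PT sz E g) (hz : PT sz E z)
    (hc : PL3 sz E (fun x => bund 0 (c x))) :
    PD sz E (fun x => UMG.acc (M x) K (g x) (c x) (z x)) := by
  have hn : PT sz E (fun x => K + M x) := (PT.const K).add hM
  have hnb : PB sz (fun x => K + M x) := (PB.const K).add hMb
  refine PD.all (c := fun x => K + M x) (P := fun x j => UMG.yy (M x) K (g x) (c x) (z x) j <
    UMG.scl (M x) K (c x) j * UMG.F (j + 1) (UMG.cnt (c x) (j + 1))) hn hnb ?_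
  have hi : PT (fun q : Dm (fun x => K + M x) => sz q.1.1) (fun q => q.1.2 :: E q.1.1)
      (fun q => q.1.2 + 1) := (PT.dmi hnb).add (PT.const 1)
  refine PD.lt (PT.yy (X := Dm (fun x => K + M x)) (c := fun q => c q.1.1) K hM.dm
    (PB.dm hMb) hg.dm hz.dm hc.dm (PT.dmi hnb) (PB.dmi hnb)) (PT.mul ?_ ?_)
  · exact PT.scl (X := Dm (fun x => K + M x)) (c := fun q => c q.1.1) K hM.dm (PB.dm hMb)
      hc.dm (PT.dmi hnb) (PB.dmi hnb)
  · exact PT.F hi (PT.cnt (X := Dm (fun x => K + M x)) (c := fun q => c q.1.1) hc.dm hi)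
      (PB.cnt (X := Dm (fun x => K + M x)) (c := fun q => c q.1.1) hc.dm)

end leaf

end

end Pool.Agent.UMG
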