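import Pool.Agent.UMG.Kit10

/-!
# Squad UMG, block C: the program for `mt` and the output
-/

set_option autoImplicit false

namespace Pool.Agent.UMG

open Finset

section

variable {X Y : Type} {sz : X → ℕ} {E : X → List ℕ}

theorem PT.sb {j m : X → ℕ} (hj : PT sz E j) (hm : PT sz E m) (hmb : PB sz m) :
    PT sz E (fun x => UMG.sb (j x) (m x)) :=
  PT.ite (P := fun x => 2 ∣ j x) (PD.dvd 2 hj) (PT.F hj hm hmb) (PT.const 0)

theorem PT.pI {j m y : X → ℕ} (hj : PT sz E j) (hm : PT sz E m) (hmb : PB sz m)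
    (hy : PT sz E y) : PT sz E (fun x => UMG.pI (j x) (m x) (y x)) :=
  (hy.sub (PT.sb hj hm hmb)).div (hj.mul (PT.F hj (hm.sub (PT.const 1))
    (hmb.mono fun _ => Nat.sub_le _ _)))

theorem PT.rI {j m y : X → ℕ} (hj : PT sz E j) (hm : PT sz E m) (hmb : PB sz m)
    (hy : PT sz E y) : PT sz E (fun x => UMG.rI (j x) (m x) (y x)) :=
  ((hy.sub (PT.sb hj hm hmb)).div (PT.F hj (hm.sub (PT.const 1))
    (hmb.mono fun _ => Nat.sub_le _ _))).mod hj

theorem PT.xI {j m y : X → ℕ} (hj : PT sz E j) (hm : PT sz E m) (hmb : PB sz m)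
    (hy : PT sz E y) : PT sz E (fun x => UMG.xI (j x) (m x) (y x)) :=
  (hy.sub (PT.sb hj hm hmb)).mod (PT.F hj (hm.sub (PT.const 1))
    (hmb.mono fun _ => Nat.sub_le _ _))

theorem PT.ctr {n M a b : X → ℕ} (hn : PT sz E n) (hnb : PB sz n) (hM : PT sz E M)
    (ha : PT sz E a) (hb : PT sz E b) : PT sz E (fun x => C.ctr (n x) (M x) (a x, b x)) := by
  refine PT.ite' (P := fun x => a x < n x ∧ b x < n x) ((PD.lt ha hn).and (PD.lt hb hn)) ?_ ?_
  · let Z : Type := {x : X // a x < n x ∧ b x < n x}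
    let φ : Z → X := fun z => z.1
    have hab : PB (fun z : Z => sz z.1) (fun z => a z.1 * n z.1 + b z.1) :=
      (((hnb.comp φ).mul (hnb.comp φ)).add (hnb.comp φ)).mono fun z => by
        have h1 := z.2.1
        have h2 := z.2.2
        exact Nat.add_le_add (Nat.mul_le_mul_right _ h1.le) h2.le
    have hba : PB (fun z : Z => sz z.1) (fun z => b z.1 * n z.1 + a z.1) :=
      (((hnb.comp φ).mul (hnb.comp φ)).add (hnb.comp φ)).mono fun z => by
        have h1 := z.2.1
        have h2 := z.2.2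
        exact Nat.add_le_add (Nat.mul_le_mul_right _ h2.le) h1.le
    have hM1 : PT (fun z : Z => sz z.1) (fun z => E z.1) (fun z => M z.1 + 1) :=
      (hM.comp φ).add (PT.const 1)
    have p1 := hM1.pow (((ha.comp φ).mul (hn.comp φ)).add (hb.comp φ)) hab
    have p2 := hM1.pow (((hb.comp φ).mul (hn.comp φ)).add (ha.comp φ)) hba
    refine (PT.ite (P := fun z : Z => a z.1 = b z.1) (PD.eq (ha.comp φ) (hb.comp φ)) p1
      (p1.add p2)).congr fun z => ?_
    unfold C.ctr
    rw [if_pos z.2]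
  · refine (PT.const 0).congr fun z => ?_
    unfold C.ctr
    rw [if_neg z.2]

/-- the sum of the contributions of the edges of a bundle which is matched with itself -/
theorem PT.selfS {n M j : X → ℕ} {b : X → ℕ × ℕ × ℕ} (hn : PT sz E n) (hnb : PB sz n)
    (hM : PT sz E M) (hj : PT sz E j) (hjb : PB sz j) (h1 : PT sz E (fun x => (b x).1))
    (h2 : PT sz E (fun x => (b x).2.1)) :
    PT sz E (fun x => ((selfE (j x) (b x)).map (C.ctr (n x) (M x))).sum) := by
  have hj2 : PT sz E (fun x => j x / 2) := hj.div (PT.const 2)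
  have hj2b : PB sz (fun x => j x / 2) := hjb.mono fun _ => Nat.div_le_self _ _
  refine (PT.sum (f := fun x t => C.ctr (n x) (M x)
    ((b x).1 + t % (b x).2.1, (b x).1 + (t + j x / 2) % (b x).2.1)) hj2 hj2b ?_).congr
      fun x => ?_
  · exact PT.ctr hn.dm (PB.dm hnb) hM.dm (h1.dm.add ((PT.dmi hj2b).mod h2.dm))
      (h1.dm.add (((PT.dmi hj2b).add hj2.dm).mod h2.dm))
  · unfold selfE
    rw [List.map_map, sum_map_range]
    rfl

/-- the sum of the contributions of the edges of two bundles -/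
theorem PT.pairS {n M j r : X → ℕ} {b b' : X → ℕ × ℕ × ℕ} (hn : PT sz E n) (hnb : PB sz n)
    (hM : PT sz E M) (hj : PT sz E j) (hjb : PB sz j) (hr : PT sz E r)
    (h1 : PT sz E (fun x => (b x).1)) (h2 : PT sz E (fun x => (b x).2.1))
    (h1' : PT sz E (fun x => (b' x).1)) (h2' : PT sz E (fun x => (b' x).2.1)) :
    PT sz E (fun x => ((pairE (j x) (r x) (b x) (b' x)).map (C.ctr (n x) (M x))).sum) := by
  refine (PT.sum (f := fun x t => C.ctr (n x) (M x)
    ((b x).1 + t % (b x).2.1, (b' x).1 + (t + r x) % (b' x).2.1)) hj hjb ?_).congr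
      fun x => ?_
  · exact PT.ctr hn.dm (PB.dm hnb) hM.dm (h1.dm.add ((PT.dmi hjb).mod h2.dm))
      (h1'.dm.add (((PT.dmi hjb).add hr.dm).mod h2'.dm))
  · unfold pairE
    rw [List.map_map, sum_map_range]
    rfl

/-- the registers of the loop for `mt` -/
def rM (j Bd : ℕ) (s : List ℕ × ℕ) (t i : ℕ) : ℕ :=
  if i = 0 then Nat.ofDigits Bd (C.sM j s t).1
  else if i = 1 then (C.sM j s t).1.length else (C.sM j s t).2

theorem ofDigits_lt {B : ℕ} {L : List ℕ} (h : ∀ a ∈ L, a < B) :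
    Nat.ofDigits B L < B ^ L.length := by
  rw [ofDigits_eq_pk]
  refine pk_lt fun i hi => ?_
  rw [List.getD_eq_getElem _ _ hi]
  exact h _ (List.getElem_mem hi)

theorem PT.rM (hmtk : C.MtkStmt) {j y Bd n : X → ℕ} {R : X → List ℕ} (hR : PL sz E R)
    (hj : PT sz E j) (hy : PT sz E y) (hBd : PT sz E Bd) (hn : PT sz E n) (hnb : PB sz n)
    (hRn : ∀ x, (R x).length ≤ n x) (hRB : ∀ x, ∀ a ∈ R x, a < Bd x)
    (hB0 : ∀ x, 0 < Bd x) (hy' : ∀ x, y x < UMG.F (j x) (R x).length) {i : ℕ} (hi : i < 3) :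
    Fn sz E (fun x => n x + 1) (fun x t => UMG.rM (j x) (Bd x) (R x, y x) t i) := by
  let s : X → ℕ → List ℕ × ℕ := fun x t => C.sM (j x) (R x, y x) t
  have hs : ∀ x t, (s x t).1.length ≤ (R x).length ∧ (∀ a ∈ (s x t).1, a ∈ R x) ∧
      (s x t).2 < UMG.F (j x) (s x t).1.length := fun x t => by
    have h := hmtk (j x) (R x) (y x) t (hy' x)
    exact ⟨h.1, h.2.1, h.2.2.1⟩
  let B : X → ℕ := fun x => Bd x ^ n x + (n x + 1) + ((j x + 1) * (n x + 2)) ^ n x
  have hB : PT sz E B := ((hBd.pow hn hnb).add (hn.add (PT.const 1))).add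
    (((hj.add (PT.const 1)).mul (hn.add (PT.const 2))).pow hn hnb)
  have hsB : ∀ x t, ∀ a ∈ (s x t).1, a < Bd x := fun x t a ha => hRB x a ((hs x t).2.1 a ha)
  have hab : ∀ x, ∀ t ≤ n x + 1, ∀ i < 3,
      UMG.rM (j x) (Bd x) (R x, y x) t i < B x := by
    intro x t _ i _
    have h1 : (s x t).1.length ≤ n x := (hs x t).1.trans (hRn x)
    unfold UMG.rM
    split_ifs
    · have h2 := ofDigits_lt (hsB x t)
      have h3 : Bd x ^ (s x t).1.length ≤ Bd x ^ n x := Nat.pow_le_pow_right (hB0 x) h1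
      show Nat.ofDigits (Bd x) (s x t).1 < Bd x ^ n x + (n x + 1) + _
      omega
    · show (s x t).1.length < Bd x ^ n x + (n x + 1) + _
      omega
    · have h2 := (hs x t).2.2
      have h3 := F_le (j x) (n x) (s x t).1.length h1
      have h4 : ((j x + 1) * (n x + 2)) ^ (s x t).1.length ≤
          ((j x + 1) * (n x + 2)) ^ n x := Nat.pow_le_pow_right (by positivity) h1
      show (s x t).2 < Bd x ^ n x + (n x + 1) + _
      omega
  refine PT.loopk' (k := 3) (c := fun x => n x + 1) (B := B)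
    (a := fun x t i => UMG.rM (j x) (Bd x) (R x, y x) t i) (hnb.add (PB.const 1)) hB
    hab ?_ ?_ hi
  · intro i hi
    interval_cases i
    · exact hR.pk hBd
    · exact hR.len
    · exact hy
  · intro i hi
    -- the environment in a round
    let D : Type := Dm (fun x => n x + 1)
    let AD : D → List ℕ := fun q => [UMG.pk (B q.1.1) 3
      (UMG.rM (j q.1.1) (Bd q.1.1) (R q.1.1, y q.1.1) q.1.2), q.1.2]
    have hr : ∀ i < 3, PT (fun q : D => sz q.1.1) (fun q => AD q ++ E q.1.1)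
        (fun q => UMG.rM (j q.1.1) (Bd q.1.1) (R q.1.1, y q.1.1) q.1.2 i) :=
      fun i hi => PT.reg (k := 3) (c := fun x => n x + 1) (B := B)
        (a := fun x t i => UMG.rM (j x) (Bd x) (R x, y x) t i) hB hab hi
    have hBdD : PT (fun q : D => sz q.1.1) (fun q => AD q ++ E q.1.1) (fun q => Bd q.1.1) :=
      hBd.old (fun q : D => q.1.1) (A := AD) (a := 2) fun _ => rfl
    have hjD : PT (fun q : D => sz q.1.1) (fun q => AD q ++ E q.1.1) (fun q => j q.1.1) :=
      hj.old (fun q : D => q.1.1) (A := AD) (a := 2) fun _ => rfl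
    have r0 : PT (fun q : D => sz q.1.1) (fun q => AD q ++ E q.1.1)
        (fun q => Nat.ofDigits (Bd q.1.1) (s q.1.1 q.1.2).1) := hr 0 (by norm_num)
    have r1 : PT (fun q : D => sz q.1.1) (fun q => AD q ++ E q.1.1)
        (fun q => (s q.1.1 q.1.2).1.length) := hr 1 (by norm_num)
    have r2 : PT (fun q : D => sz q.1.1) (fun q => AD q ++ E q.1.1)
        (fun q => (s q.1.1 q.1.2).2) := hr 2 (by norm_num)
    have r1b : PB (fun q : D => sz q.1.1) (fun q => (s q.1.1 q.1.2).1.length) :=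
      (PB.dm hnb).mono fun q => (hs q.1.1 q.1.2).1.trans (hRn q.1.1)
    have hRR : PL (fun q : D => sz q.1.1) (fun q => AD q ++ E q.1.1)
        (fun q => (s q.1.1 q.1.2).1) :=
      PL.ofPk hBdD (fun q a ha => hsB q.1.1 q.1.2 a ha) r1 r1b r0
    have hm : PT (fun q : D => sz q.1.1) (fun q => AD q ++ E q.1.1)
        (fun q => (s q.1.1 q.1.2).1.length - 1) := r1.sub (PT.const 1)
    have hmb : PB (fun q : D => sz q.1.1) (fun q => (s q.1.1 q.1.2).1.length - 1) :=
      r1b.mono fun _ => Nat.sub_le _ _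
    have c1 : PD (fun q : D => sz q.1.1) (fun q => AD q ++ E q.1.1)
        (fun q => (s q.1.1 q.1.2).1.length = 0) := PD.eq r1 (PT.const 0)
    have c2 : PD (fun q : D => sz q.1.1) (fun q => AD q ++ E q.1.1)
        (fun q => (s q.1.1 q.1.2).2 < UMG.sb (j q.1.1) ((s q.1.1 q.1.2).1.length - 1)) :=
      PD.lt r2 (PT.sb hjD hm hmb)
    have hR1 := hRR.drop (PT.const 1)
    have hR2 := hR1.eraseIdx (PT.pI hjD hm hmb r2)
    have hst : ∀ q : D, C.sM (j q.1.1) (R q.1.1, y q.1.1) (q.1.2 + 1) =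
        C.stM (j q.1.1) (s q.1.1 q.1.2) := fun q => rfl
    interval_cases i
    · refine (PT.ite c1 r0 (PT.ite c2 (hR1.pk hBdD) (hR2.pk hBdD))).congr fun q => ?_
      unfold UMG.rM
      rw [if_pos rfl, hst]
      unfold C.stM
      split_ifs <;> rfl
    · refine (PT.ite c1 r1 (PT.ite c2 hR1.len hR2.len)).congr fun q => ?_
      unfold UMG.rM
      rw [if_neg (by norm_num), if_pos rfl, hst]
      unfold C.stM
      split_ifs <;> rfl
    · refine (PT.ite c1 r2 (PT.ite c2 r2 (PT.xI hjD hm hmb r2))).congr fun q => ?_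
      unfold UMG.rM
      rw [if_neg (by norm_num), if_neg (by norm_num), hst]
      unfold C.stM
      split_ifs <;> rfl

theorem sum_flatMap_map (n : ℕ) (L : ℕ → List (ℕ × ℕ)) (g : ℕ × ℕ → ℕ) :
    (((List.range n).flatMap L).map g).sum = ∑ t ∈ range n, ((L t).map g).sum := by
  induction n with
  | zero => rfl
  | succ n ih =>
    rw [List.range_succ, List.flatMap_append, List.map_append, List.sum_append, ih,
      Finset.sum_range_succ]
    simp

/-- the sum over the edges of the bundles of size `j` -/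
theorem PT.mtS (hmtl : C.MtlStmt) (hmtk : C.MtkStmt) {n M j y : X → ℕ}
    {L : X → List (ℕ × ℕ × ℕ)} (hn : PT sz E n) (hnb : PB sz n) (hM : PT sz E M)
    (hL : PL3 sz E L) (hj : PT sz E j) (hjb : PB sz j) (hy : PT sz E y)
    (hy' : ∀ x, y x < UMG.F (j x) (UMG.R0 (L x) (j x)).length) :
    PT sz E (fun x => ((mt (j x) ((L x).filter (fun b => bsz b = j x)) (y x)).map
      (C.ctr (n x) (M x))).sum) := by
  let R : X → List ℕ := fun x => UMG.R0 (L x) (j x)
  let Bd : X → ℕ := fun x => (L x).length + 1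
  have hR : PL sz E R := hL.R0 hj
  have hBd : PT sz E Bd := hL.len.add (PT.const 1)
  have hr : ∀ i < 3, Fn sz E (fun x => (L x).length + 1)
      (fun x t => UMG.rM (j x) (Bd x) (R x, y x) t i) := fun i hi =>
    PT.rM hmtk (n := fun x => (L x).length) hR hj hy hBd hL.len hL.lenb
      (fun x => R0_length_le _ _) (fun x a ha => (R0_lt ha).trans (Nat.lt_succ_self _))
      (fun x => Nat.succ_pos _) hy' hi
  let s : X → ℕ → List ℕ × ℕ := fun x t => C.sM (j x) (R x, y x) t
  have hs : ∀ x t, (s x t).1.length ≤ (R x).length ∧ (∀ a ∈ (s x t).1, a ∈ R x) := fun x t => by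
    have h := hmtk (j x) (R x) (y x) t (hy' x)
    exact ⟨h.1, h.2.1⟩
  let D : Type := Dm (fun x => (L x).length)
  have hr' : ∀ i < 3, PT (fun q : D => sz q.1.1) (fun q => q.1.2 :: E q.1.1)
      (fun q => UMG.rM (j q.1.1) (Bd q.1.1) (R q.1.1, y q.1.1) q.1.2 i) := fun i hi =>
    PT.dmle (c := fun x => (L x).length) (c' := fun x => (L x).length + 1)
      (g := fun x t => UMG.rM (j x) (Bd x) (R x, y x) t i) (fun x => Nat.le_succ _) (hr i hi)
  have r0 : PT (fun q : D => sz q.1.1) (fun q => q.1.2 :: E q.1.1)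
      (fun q => Nat.ofDigits (Bd q.1.1) (s q.1.1 q.1.2).1) := hr' 0 (by norm_num)
  have r1 : PT (fun q : D => sz q.1.1) (fun q => q.1.2 :: E q.1.1)
      (fun q => (s q.1.1 q.1.2).1.length) := hr' 1 (by norm_num)
  have r2 : PT (fun q : D => sz q.1.1) (fun q => q.1.2 :: E q.1.1)
      (fun q => (s q.1.1 q.1.2).2) := hr' 2 (by norm_num)
  have r1b : PB (fun q : D => sz q.1.1) (fun q => (s q.1.1 q.1.2).1.length) :=
    (PB.dm hL.lenb).mono fun q => (hs q.1.1 q.1.2).1.trans (R0_length_le _ _)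
  have hRR : PL (fun q : D => sz q.1.1) (fun q => q.1.2 :: E q.1.1)
      (fun q => (s q.1.1 q.1.2).1) :=
    PL.ofPk hBd.dm (fun q a ha => (R0_lt ((hs q.1.1 q.1.2).2 a ha)).trans
      (Nat.lt_succ_self _)) r1 r1b r0
  have hjD : PT (fun q : D => sz q.1.1) (fun q => q.1.2 :: E q.1.1) (fun q => j q.1.1) := hj.dm
  have hm : PT (fun q : D => sz q.1.1) (fun q => q.1.2 :: E q.1.1)
      (fun q => (s q.1.1 q.1.2).1.length - 1) := r1.sub (PT.const 1)
  have hmb : PB (fun q : D => sz q.1.1) (fun q => (s q.1.1 q.1.2).1.length - 1) :=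
    r1b.mono fun _ => Nat.sub_le _ _
  have hLD : PL3 (fun q : D => sz q.1.1) (fun q => q.1.2 :: E q.1.1) (fun q => L q.1.1) :=
    hL.dm
  have hf : PT (fun q : D => sz q.1.1) (fun q => q.1.2 :: E q.1.1)
      (fun q => ((C.eM (tr (L q.1.1)) (j q.1.1) (s q.1.1 q.1.2)).map
        (C.ctr (n q.1.1) (M q.1.1))).sum) := by
    have i1 := hRR.getD (PT.const 0)
    have i2 := (hRR.drop (PT.const 1)).getD (PT.pI hjD hm hmb r2)
    refine (PT.ite (PD.eq r1 (PT.const 0)) (PT.const 0)
      (PT.ite (PD.lt r2 (PT.sb hjD hm hmb))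
        (PT.selfS (X := D) (j := fun q => j q.1.1)
          (b := fun q => tr (L q.1.1) ((s q.1.1 q.1.2).1.getD 0 0)) hn.dm (PB.dm hnb) hM.dm
          hjD (PB.dm hjb) (hLD.tr1 i1) (hLD.tr2 i1))
        (PT.pairS (X := D) (j := fun q => j q.1.1)
          (b := fun q => tr (L q.1.1) ((s q.1.1 q.1.2).1.getD 0 0))
          (b' := fun q => tr (L q.1.1) (((s q.1.1 q.1.2).1.drop 1).getD
            (UMG.pI (j q.1.1) ((s q.1.1 q.1.2).1.length - 1) (s q.1.1 q.1.2).2) 0))
          hn.dm (PB.dm hnb) hM.dm hjD (PB.dm hjb) (PT.rI hjD hm hmb r2)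
          (hLD.tr1 i1) (hLD.tr2 i1) (hLD.tr1 i2) (hLD.tr2 i2)))).congr fun q => ?_
    unfold C.eM
    split_ifs <;> rfl
  refine (PT.sum (f := fun x t => ((C.eM (tr (L x)) (j x) (s x t)).map
    (C.ctr (n x) (M x))).sum) hL.len hL.lenb hf).congr fun x => ?_
  rw [filter_bsz, hmtl (tr (L x)) (j x) (UMG.R0 (L x) (j x)) (y x) (L x).length (hy' x)
    (R0_length_le _ _), sum_flatMap_map]

/-- the output for a leaf -/
theorem PT.leaf (hmtl : C.MtlStmt) (hmtk : C.MtkStmt) (houc : C.OucStmt) (K : ℕ)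
    {g z : X → ℕ} {d : X → List ℕ} {c : X → Code} (hn : PT sz E (fun x => (d x).length))
    (hnb : PB sz (fun x => (d x).length)) (hM : PT sz E (fun x => (d x).sum))
    (hMb : PB sz (fun x => (d x).sum)) (hg : PT sz E g) (hz : PT sz E z)
    (hc : PL3 sz E (fun x => bund 0 (c x))) :
    PT sz E (fun x => UMG.leaf K (d x) (g x) (c x) (z x)) := by
  refine PT.ite' (P := fun x => UMG.acc (d x).sum K (g x) (c x) (z x))
    (PD.acc K hM hMb hg hz hc) ?_ ?_
  · let Z : Type := {x : X // UMG.acc (d x).sum K (g x) (c x) (z x)}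
    let φ : Z → X := fun x => x.1
    have hMZ : PT (fun x : Z => sz x.1) (fun x => E x.1) (fun x => (d x.1).sum) := hM.comp φ
    have hMbZ : PB (fun x : Z => sz x.1) (fun x => (d x.1).sum) := hMb.comp φ
    have h1 : PT (fun x : Z => sz x.1) (fun x => E x.1) (fun x => ∑ j ∈ range (d x.1).sum,
        ((mt (j + 1) ((bund 0 (c x.1)).filter (fun b => bsz b = j + 1))
          (UMG.ix (d x.1).sum K (g x.1) (c x.1) (z x.1) (j + 1))).map
            (C.ctr (d x.1).length (d x.1).sum)).sum) := by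
      refine PT.sum (c := fun x : Z => (d x.1).sum) (f := fun (x : Z) j =>
        ((mt (j + 1) ((bund 0 (c x.1)).filter (fun b => bsz b = j + 1))
          (UMG.ix (d x.1).sum K (g x.1) (c x.1) (z x.1) (j + 1))).map
            (C.ctr (d x.1).length (d x.1).sum)).sum) hMZ hMbZ ?_
      let D : Type := Dm (fun x : Z => (d x.1).sum)
      have hj : PT (fun q : D => sz q.1.1.1) (fun q => q.1.2 :: E q.1.1.1)
          (fun q => q.1.2 + 1) :=
        (PT.dmi (E := fun x : Z => E x.1) hMbZ).add (PT.const 1)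
      have hjb : PB (fun q : D => sz q.1.1.1) (fun q => q.1.2 + 1) :=
        (PB.dmi hMbZ).add (PB.const 1)
      have hcD : PL3 (fun q : D => sz q.1.1.1) (fun q => q.1.2 :: E q.1.1.1)
          (fun q => bund 0 (c q.1.1.1)) := (hc.comp φ).dm
      refine PT.mtS (X := D) hmtl hmtk (n := fun q => (d q.1.1.1).length)
        (M := fun q => (d q.1.1.1).sum) (j := fun q => q.1.2 + 1)
        (L := fun q => bund 0 (c q.1.1.1))
        (y := fun q => UMG.ix (d q.1.1.1).sum K (g q.1.1.1) (c q.1.1.1) (z q.1.1.1)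
          (q.1.2 + 1)) (hn.comp φ).dm (PB.dm (hnb.comp φ)) hMZ.dm hcD hj hjb ?_ fun q => ?_
      · exact PT.ix (X := D) (c := fun q => c q.1.1.1) K hMZ.dm (PB.dm hMbZ) (hg.comp φ).dm
          (hz.comp φ).dm hcD hj hjb
      · have h2 := q.1.1.2 q.1.2 (lt_of_lt_of_le q.2 (Nat.le_add_left _ _))
        rw [← cnt_eq]
        unfold UMG.ix
        refine Nat.mod_lt _ ?_
        exact Nat.pos_of_ne_zero fun h3 => by
          rw [h3, Nat.mul_zero] at h2
          exact absurd h2 (Nat.not_lt_zero _)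
    refine ((PT.const 1).add h1).congr fun x => ?_
    unfold UMG.leaf
    rw [if_pos x.2, houc]
    unfold edg
    rw [sum_flatMap_map]
  · refine (PT.const 0).congr fun x => ?_
    unfold UMG.leaf
    rw [if_neg x.2]

end

end Pool.Agent.UMG
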