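import Pool.Agent.UMG.Kit11
import Pool.Agent.UMG.StmtsE

/-!
# Squad UMG, block C: the program for the whole algorithm
-/

set_option autoImplicit false

namespace Pool.Agent.UMG

open Finset

section

variable {X Y : Type} {sz : X → ℕ} {E : X → List ℕ}

/-- more variables behind -/
theorem PT.behind {f : X → ℕ} (h : PT sz E f) (A : X → List ℕ) :
    PT sz (fun x => E x ++ A x) f := by
  obtain ⟨p, T, hT, h⟩ := h
  refine ⟨p, T, hT, fun x τ => ?_⟩
  rw [List.append_assoc]
  exact h x (A x ++ τ)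

/-- measure for the degree sequences -/
def s0 (d : List ℕ) : ℕ := d.length + d.sum

/-- environment for the degree sequences -/
def E0 (d : List ℕ) : List ℕ := [d.length, d.sum, Nat.ofDigits (d.sum + 1) d]

theorem s0_len : PB s0 (fun d => d.length) := PB.self.mono fun d => by unfold s0; omega

theorem s0_sum : PB s0 (fun d => d.sum) := PB.self.mono fun d => by unfold s0; omega

theorem mem_lt {d : List ℕ} {a : ℕ} (h : a ∈ d) : a < d.sum + 1 :=
  Nat.lt_succ_of_le (List.single_le_sum (fun _ _ => Nat.zero_le _) a h)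

theorem E0_len : PT s0 E0 (fun d => d.length) :=
  PT.head (E := fun d : List ℕ => [d.sum, Nat.ofDigits (d.sum + 1) d])
    (s0_len.mono fun _ => size_le_self _)

theorem E0_sum : PT s0 E0 (fun d => d.sum) :=
  PT.tail (PT.head (E := fun d : List ℕ => [Nat.ofDigits (d.sum + 1) d])
    (s0_sum.mono fun _ => size_le_self _)) (fun d => d.length)

theorem E0_dig : PT s0 E0 (fun d => Nat.ofDigits (d.sum + 1) d) := by
  refine PT.tail (E := fun d : List ℕ => [d.sum, Nat.ofDigits (d.sum + 1) d])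
    (PT.tail (E := fun d : List ℕ => [Nat.ofDigits (d.sum + 1) d])
    (PT.head (E := fun _ => []) ?_) (fun d => d.sum)) (fun d => d.length)
  refine (s0_len.mul (s0_sum.add (PB.const 1))).mono fun d => ?_
  rw [ofDigits_eq_pk]
  refine (size_pk_le fun i hi => ?_).trans (Nat.mul_le_mul_left _ (size_le_self _))
  rw [List.getD_eq_getElem _ _ hi]
  exact mem_lt (List.getElem_mem hi)

theorem E0_d : PL s0 E0 (fun d => d) :=
  PL.ofPk (E0_sum.add (PT.const 1)) (fun _ _ h => mem_lt h) E0_len s0_len E0_dig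

/-! ### The total number -/

/-- the weights of the grid points -/
theorem Fn.wg (K : ℕ) : Fn s0 E0 (fun d => (d.sum + 1) ^ K) (fun d => UMG.wg K d) := by
  have hc : PT s0 E0 (fun d => (d.sum + 1) ^ K) :=
    (E0_sum.add (PT.const 1)).pow (PT.const K) (PB.const K)
  have hcb : PB s0 (fun d => (d.sum + 1) ^ K) := (s0_sum.add (PB.const 1)).pow K
  let D : Type := Dm (fun d : List ℕ => (d.sum + 1) ^ K)
  have hM : PT (fun q : D => s0 q.1.1) (fun q => q.1.2 :: E0 q.1.1) (fun q => q.1.1.sum) :=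
    E0_sum.dm
  have hMb : PB (fun q : D => s0 q.1.1) (fun q => q.1.1.sum) := PB.dm s0_sum
  have hg : PT (fun q : D => s0 q.1.1) (fun q => q.1.2 :: E0 q.1.1) (fun q => q.1.2) :=
    PT.dmi hcb
  have hN : PT (fun q : D => s0 q.1.1) (fun q => q.1.2 :: E0 q.1.1)
      (fun q => q.1.1.sum + 1) := hM.add (PT.const 1)
  have hNb : PB (fun q : D => s0 q.1.1) (fun q => q.1.1.sum + 1) := hMb.add (PB.const 1)
  refine (PT.cfg K hM hMb hg).mul ?_
  refine (PT.Aint (X := D) (w := fun q => UMG.fX q.1.1.sum K q.1.2)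
    (N := fun q => q.1.1.sum + 1) (v := fun _ => 0) (d := fun q => q.1.1) hN hNb ?_
    (PL.dm E0_d) (fun q => Nat.lt_succ_self _) (PT.const 0))
  exact PT.fX (X := Dm (fun q : D => q.1.1.sum + 1)) K hM.dm (PB.dm hMb) hg.dm
    (PT.dmi (E := fun q : D => q.1.2 :: E0 q.1.1) hNb) (PB.dmi hNb)

theorem PT.TT (K : ℕ) : PT s0 E0 (fun d => UMG.TT K d) :=
  PT.sum (c := fun d : List ℕ => (d.sum + 1) ^ K) (f := fun d g => UMG.wg K d g)
    ((E0_sum.add (PT.const 1)).pow (PT.const K) (PB.const K))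
    ((s0_sum.add (PB.const 1)).pow K) (Fn.wg K)

theorem stt : SttStmt := fun K => (PT.TT K).size

/-! ### One trial -/

/-- measure and environment for one trial -/
def s1 (x : List ℕ × ℕ) : ℕ := s0 x.1 + Nat.size x.2

def E1 (x : List ℕ × ℕ) : List ℕ := x.2 :: E0 x.1

theorem s1_s0 : PB s1 (fun x => s0 x.1) := PB.self.mono fun x => by unfold s1; omega

theorem E1_old {f : List ℕ → ℕ} (h : PT s0 E0 f) : PT s1 E1 (fun x => f x.1) :=
  PT.trans (PT.old h (fun x : List ℕ × ℕ => x.1) (A := fun x => [x.2]) (a := 1) fun _ => rfl)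
    s1_s0

theorem Fn.trans {sz' N : X → ℕ} {w : X → ℕ → ℕ} (h : Fn sz E N w) (h' : PB sz' sz) :
    Fn sz' E N w := PT.trans h (PB.dm h')

theorem PL.trans {sz' : X → ℕ} {L : X → List ℕ} (h : PL sz E L) (h' : PB sz' sz) :
    PL sz' E L := ⟨h.len.trans h', h.lenb.trans h', PT.trans h.ent (PB.dm h')⟩

theorem E1_u : PT s1 E1 (fun x => x.2) :=
  PT.head (PB.self.mono fun x => by unfold s1; omega)

theorem PT.trial (hues : C.UesStmt) (hueb : C.UebStmt) (huas : C.UasStmt) (huac : C.UacStmt)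
    (huab : C.UabStmt) (hmtl : C.MtlStmt) (hmtk : C.MtkStmt) (houc : C.OucStmt) (K : ℕ) :
    PT s1 E1 (fun x => UMG.trial K x.1 x.2) := by
  refine PT.ite' (P := fun x : List ℕ × ℕ => x.2 < UMG.TT K x.1)
    (PD.lt E1_u (E1_old (PT.TT K))) ?_ ?_
  · let Z : Type := {x : List ℕ × ℕ // x.2 < UMG.TT K x.1}
    let sZ : Z → ℕ := fun x => s1 x.1
    let EZ : Z → List ℕ := fun x => E1 x.1
    let d : Z → List ℕ := fun x => x.1.1
    let u : Z → ℕ := fun x => x.1.2
    have old : ∀ {f : List ℕ → ℕ}, PT s0 E0 f → PT sZ EZ (fun x => f (d x)) := fun h =>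
      (E1_old h).comp (fun x : Z => x.1)
    have hsb : PB sZ (fun x => s0 (d x)) := s1_s0.comp (fun x : Z => x.1)
    have oldb : ∀ {f : List ℕ → ℕ}, PB s0 f → PB sZ (fun x => f (d x)) := fun h =>
      PB.trans (h.comp d) hsb
    have hu : PT sZ EZ u := E1_u.comp (fun x : Z => x.1)
    have hM : PT sZ EZ (fun x => (d x).sum) := old E0_sum
    have hMb : PB sZ (fun x => (d x).sum) := oldb s0_sum
    have hd : PL sZ EZ d := PL.trans (PL.old E0_d (fun x : Z => x.1.1)
      (A := fun x => [x.1.2]) (a := 1) fun _ => rfl) hsb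
    have hc : PT sZ EZ (fun x => ((d x).sum + 1) ^ K) :=
      (hM.add (PT.const 1)).pow (PT.const K) (PB.const K)
    have hcb : PB sZ (fun x => ((d x).sum + 1) ^ K) := (hMb.add (PB.const 1)).pow K
    have hwg : Fn sZ EZ (fun x => ((d x).sum + 1) ^ K) (fun x => UMG.wg K (d x)) :=
      Fn.trans (Fn.old (Fn.wg K) (fun x : Z => x.1.1) (A := fun x => [x.1.2]) (a := 1)
        fun _ => rfl) hsb
    let g : Z → ℕ := fun x => UMG.pick (((d x).sum + 1) ^ K) (UMG.wg K (d x)) (u x)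
    have hspec : ∀ x : Z, g x < ((d x).sum + 1) ^ K ∧
        u x - UMG.cum (UMG.wg K (d x)) (g x) < UMG.wg K (d x) (g x) := fun x =>
      pick_spec x.2
    have hg : PT sZ EZ g := PT.pick (w := fun x => UMG.wg K (d x)) hc hcb hu hwg
    have hgb : PB sZ g := hcb.mono fun x => (hspec x).1.le
    have hu1 : PT sZ EZ (fun x => u x - UMG.cum (UMG.wg K (d x)) (g x)) :=
      hu.sub (PT.cum (w := fun x => UMG.wg K (d x)) hg hgb (fun x => (hspec x).1.le) hwg)
    have hN : PT sZ EZ (fun x => (d x).sum + 1) := hM.add (PT.const 1)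
    have hNb : PB sZ (fun x => (d x).sum + 1) := hMb.add (PB.const 1)
    have hf : Fn sZ EZ (fun x => (d x).sum + 1) (fun x => UMG.fX (d x).sum K (g x)) :=
      PT.fX (X := Dm (fun x : Z => (d x).sum + 1)) K hM.dm (PB.dm hMb) hg.dm (PT.dmi hNb)
        (PB.dmi hNb)
    have hW : PT sZ EZ (fun x => UMG.cfg (d x).sum K (g x)) := PT.cfg K hM hMb hg
    have hq := PT.unA hues hueb huas huac huab (w := fun x => UMG.fX (d x).sum K (g x))
      (d := d) (W := fun x => UMG.cfg (d x).sum K (g x))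
      (u := fun x => u x - UMG.cum (UMG.wg K (d x)) (g x)) hN hNb hf hd
      (fun x => Nat.lt_succ_self _) hW hu1 (fun x => (hspec x).2)
    refine (PT.leaf hmtl hmtk houc K (d := d) (old E0_len) (oldb s0_len) hM hMb hg hq.2.2
      hq.1).congr fun x => ?_
    show UMG.trial K x.1.1 x.1.2 = _
    unfold UMG.trial
    rw [if_pos x.2]
    rfl
  · refine (PT.const 0).congr fun x => ?_
    show UMG.trial K x.1.1 x.1.2 = 0
    unfold UMG.trial
    rw [if_neg x.2]

/-! ### The algorithm -/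

/-- measure and environment for the algorithm -/
def s2 (x : List ℕ × ℕ × ℕ) : ℕ := s0 x.1 + x.2.1 + Nat.size x.2.2

def E2 (x : List ℕ × ℕ × ℕ) : List ℕ := E0 x.1 ++ [x.2.1, x.2.2]

theorem s2_s0 : PB s2 (fun x => s0 x.1) := PB.self.mono fun x => by unfold s2; omega

theorem s2_s : PB s2 (fun x => x.2.1) := PB.self.mono fun x => by unfold s2; omega

theorem E2_old {f : List ℕ → ℕ} (h : PT s0 E0 f) : PT s2 E2 (fun x => f x.1) :=
  PT.trans (PT.behind (h.comp (fun x : List ℕ × ℕ × ℕ => x.1))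
    (fun x => [x.2.1, x.2.2])) s2_s0

theorem s2_old {f : List ℕ → ℕ} (h : PB s0 f) : PB s2 (fun x => f x.1) :=
  PB.trans (h.comp (fun x : List ℕ × ℕ × ℕ => x.1)) s2_s0

theorem E2_s : PT s2 E2 (fun x => x.2.1) := by
  have h : PT s2 (fun x : List ℕ × ℕ × ℕ => [x.2.1, x.2.2]) (fun x => x.2.1) :=
    PT.head (s2_s.mono fun _ => size_le_self _)
  exact h.wk0 (A := fun x => E0 x.1) (a := 3) fun _ => rfl

theorem E2_r : PT s2 E2 (fun x => x.2.2) := by
  have h : PT s2 (fun x : List ℕ × ℕ × ℕ => [x.2.2]) (fun x => x.2.2) :=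
    PT.head (PB.self.mono fun x => by unfold s2; omega)
  exact h.wk0 (A := fun x => E0 x.1 ++ [x.2.1]) (a := 4) fun _ => rfl

theorem pgm (hues : C.UesStmt) (hueb : C.UebStmt) (huas : C.UasStmt) (huac : C.UacStmt)
    (huab : C.UabStmt) (hmtl : C.MtlStmt) (hmtk : C.MtkStmt) (houc : C.OucStmt) :
    PgmStmt := by
  intro K A
  have htr := PT.trial hues hueb huas huac huab hmtl hmtk houc K
  -- number of binary digits
  obtain ⟨C₀, hC₀⟩ := stt K
  let L : List ℕ × ℕ × ℕ → ℕ := fun x => Nat.size (TT K x.1)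
  have hcap : PT s2 E2 (fun x => (x.1.length + x.1.sum + 2) ^ C₀) :=
    ((E2_old (E0_len.add E0_sum)).add (PT.const 2)).pow (PT.const C₀) (PB.const C₀)
  have hcapb : PB s2 (fun x => (x.1.length + x.1.sum + 2) ^ C₀) :=
    ((s2_old (s0_len.add s0_sum)).add (PB.const 2)).pow C₀
  have hL : PT s2 E2 L := PT.size' (E2_old (PT.TT K)) hcap hcapb fun x => hC₀ x.1
  have hLb : PB s2 L := hcapb.mono fun x => hC₀ x.1
  -- number of the trials
  let R : List ℕ × ℕ × ℕ → ℕ := fun x => RR A x.1 x.2.1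
  have hR : PT s2 E2 R := ((PT.const 2).mul (((E2_old E0_sum).add (PT.const 2)).pow
    (PT.const A) (PB.const A))).mul E2_s
  have hRb : PB s2 R := ((PB.const 2).mul (((s2_old s0_sum).add (PB.const 2)).pow A)).mul s2_s
  -- the digits
  let dgt : List ℕ × ℕ × ℕ → ℕ → ℕ := fun x t => x.2.2 / 2 ^ (L x * t) % 2 ^ L x
  have hdgt : Fn s2 E2 R dgt := by
    have h1 : PT (fun q : Dm R => s2 q.1.1) (fun q => q.1.2 :: E2 q.1.1)
        (fun q => L q.1.1 * q.1.2) := hL.dm.mul (PT.dmi hRb)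
    have h1b : PB (fun q : Dm R => s2 q.1.1) (fun q => L q.1.1 * q.1.2) :=
      (PB.dm hLb).mul (PB.dmi hRb)
    exact ((E2_r.dm).div ((PT.const 2).pow h1 h1b)).mod
      ((PT.const 2).pow hL.dm (PB.dm hLb))
  have hdl : ∀ x t, Nat.size (dgt x t) ≤ L x := fun x t => by
    rw [Nat.size_le]
    exact Nat.mod_lt _ (by positivity)
  -- the states
  let st : List ℕ × ℕ × ℕ → ℕ → ℕ := fun x t => fst (trial K x.1) (L x) t x.2.2
  have hst : ∀ x t, st x (t + 1) = if st x t ≠ 0 then st x t else trial K x.1 (dgt x t) :=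
    fun x t => rfl
  obtain ⟨C₁, hC₁⟩ := htr.size
  have hszt : ∀ x t, Nat.size (st x t) ≤ (s0 x.1 + L x + 2) ^ C₁ := by
    intro x t
    induction t with
    | zero =>
      show Nat.size 0 ≤ _
      simp
    | succ t ih =>
      rw [hst]
      split_ifs
      · exact ih
      · refine (hC₁ (x.1, dgt x t)).trans (Nat.pow_le_pow_left ?_ _)
        have h1 := hdl x t
        unfold s1
        simp only
        omega
  have hszb : PB s2 (fun x => (s0 x.1 + L x + 2) ^ C₁) :=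
    (((s2_s0).add hLb).add (PB.const 2)).pow C₁
  have hmain : PT s2 E2 (fun x => st x (R x)) := by
    refine PT.loop (st := st) hR hRb (PT.const 0) ?_
    have hhead : PT (fun q : Dm R => s2 q.1.1) (fun q => st q.1.1 q.1.2 :: q.1.2 :: E2 q.1.1)
        (fun q => st q.1.1 q.1.2) :=
      PT.head ((PB.dm hszb).mono fun q => hszt q.1.1 q.1.2)
    have hd1 : PT (fun q : Dm R => s2 q.1.1) (fun q => st q.1.1 q.1.2 :: q.1.2 :: E2 q.1.1)
        (fun q => dgt q.1.1 q.1.2) := PT.tail (E := fun q : Dm R => q.1.2 :: E2 q.1.1) hdgt _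
    have ht1 : PT (fun q : Dm R => s2 q.1.1) (fun q => st q.1.1 q.1.2 :: q.1.2 :: E2 q.1.1)
        (fun q => trial K q.1.1.1 (dgt q.1.1 q.1.2)) := by
      refine PT.lett hd1 ?_
      have h1 := htr.comp (fun q : Dm R => (q.1.1.1, dgt q.1.1 q.1.2))
      have h2 : PB (fun q : Dm R => s2 q.1.1) (fun q => s1 (q.1.1.1, dgt q.1.1 q.1.2)) :=
        ((PB.dm s2_s0).add (PB.dm hLb)).mono fun q =>
          Nat.add_le_add_left (hdl q.1.1 q.1.2) _
      have h3 : PT (fun q : Dm R => s2 q.1.1) (fun q => dgt q.1.1 q.1.2 ::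
          (E0 q.1.1.1 ++ [q.1.1.2.1, q.1.1.2.2])) (fun q => trial K q.1.1.1
            (dgt q.1.1 q.1.2)) :=
        PT.behind (E := fun q : Dm R => dgt q.1.1 q.1.2 :: E0 q.1.1.1) (PT.trans h1 h2)
          (fun q => [q.1.1.2.1, q.1.1.2.2])
      exact PT.wk (E := fun q : Dm R => E2 q.1.1) h3
        (A := fun q : Dm R => [st q.1.1 q.1.2, q.1.2]) (a := 2) fun _ => rfl
    refine (PT.ite (PD.not (PD.eq hhead (PT.const 0))) hhead ht1).congr fun q => ?_
    rw [hst]
  obtain ⟨p, T, ⟨C, hC⟩, h⟩ := hmain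
  refine ⟨p, C, fun d s r => ?_⟩
  have h1 := h (d, s, r) []
  rw [List.append_nil] at h1
  exact ⟨h1.1, h1.2.trans (hC (d, s, r))⟩

end

end Pool.Agent.UMG
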