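import Pool.Agent.UMG.Kit

/-!
# Squad UMG, block C: packed arrays, course-of-values recursion, unranking
-/

set_option autoImplicit false

namespace Pool.Agent.UMG

open Finset

/-- packed array with the entries `g 0, …, g (n - 1)` -/
def pk (B n : ℕ) (g : ℕ → ℕ) : ℕ := ∑ i ∈ range n, g i * B ^ i

/-- reading an entry -/
def rd (B a i : ℕ) : ℕ := a / B ^ i % B

theorem pk_succ (B n : ℕ) (g : ℕ → ℕ) : pk B (n + 1) g = pk B n g + g n * B ^ n := by
  unfold pk
  rw [Finset.sum_range_succ]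

theorem pk_congr {B n : ℕ} {g g' : ℕ → ℕ} (h : ∀ i < n, g i = g' i) : pk B n g = pk B n g' :=
  Finset.sum_congr rfl fun i hi => by rw [h i (Finset.mem_range.1 hi)]

theorem pk_lt {B n : ℕ} {g : ℕ → ℕ} (h : ∀ i < n, g i < B) : pk B n g < B ^ n := by
  induction n with
  | zero => simp [pk]
  | succ n ih =>
    rw [pk_succ, pow_succ]
    have h1 := ih fun i hi => h i (by omega)
    have h2 := h n (by omega)
    have h3 : (g n + 1) * B ^ n ≤ B * B ^ n := Nat.mul_le_mul_right _ h2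
    calc pk B n g + g n * B ^ n < B ^ n + g n * B ^ n := by omega
      _ = (g n + 1) * B ^ n := by ring
      _ ≤ B * B ^ n := h3
      _ = B ^ n * B := by ring

theorem rd_pk {B n j : ℕ} {g : ℕ → ℕ} (h : ∀ i < n, g i < B) (hj : j < n) :
    rd B (pk B n g) j = g j := by
  induction n with
  | zero => omega
  | succ n ih =>
    have hB : 0 < B := by
      have := h n (by omega)
      omega
    rw [pk_succ]
    unfold rd
    rcases Nat.lt_or_ge j n with hjn | hjn
    · have h1 : B ^ n = B ^ j * (B ^ (n - j - 1) * B) := by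
        rw [← pow_succ, ← pow_add]
        congr 1
        omega
      have h2 : pk B n g + g n * B ^ n =
          pk B n g + B ^ j * (g n * B ^ (n - j - 1) * B) := by
        rw [h1]
        ring
      rw [h2, Nat.add_mul_div_left _ _ (by positivity), Nat.add_mul_mod_self_right]
      exact ih (fun i hi => h i (by omega)) hjn
    · have h1 : j = n := by omega
      subst h1
      have h2 := pk_lt (B := B) (n := j) (g := g) fun i hi => h i (by omega)
      have h3 : (pk B j g + g j * B ^ j) / B ^ j = g j := by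
        rw [Nat.add_mul_div_right _ _ (by positivity), Nat.div_eq_of_lt h2, zero_add]
      rw [h3, Nat.mod_eq_of_lt (h j (by omega))]

theorem ofDigits_eq_pk (B : ℕ) (L : List ℕ) :
    Nat.ofDigits B L = pk B L.length (fun i => L.getD i 0) := by
  induction L with
  | nil => simp [pk]
  | cons a L ih =>
    rw [Nat.ofDigits_cons, ih]
    unfold pk
    rw [List.length_cons, Finset.sum_range_succ', Finset.mul_sum]
    simp only [List.getD_cons_succ, List.getD_cons_zero, pow_zero, mul_one]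
    rw [add_comm]
    congr 1
    refine Finset.sum_congr rfl fun i _ => ?_
    rw [pow_succ]
    ring

theorem rd_ofDigits {B : ℕ} {L : List ℕ} (h : ∀ a ∈ L, a < B) {j : ℕ} (hj : j < L.length) :
    rd B (Nat.ofDigits B L) j = L.getD j 0 := by
  rw [ofDigits_eq_pk]
  refine rd_pk (fun i hi => ?_) hj
  rw [List.getD_eq_getElem _ _ hi]
  exact h _ (List.getElem_mem hi)

section

variable {X : Type} {sz : X → ℕ} {E : X → List ℕ}

theorem PT.rd {B a i : X → ℕ} (hB : PT sz E B) (ha : PT sz E a) (hi : PT sz E i)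
    (hib : PB sz i) : PT sz E (fun x => rd (B x) (a x) (i x)) :=
  (ha.div (hB.pow hi hib)).mod hB

theorem PT.pk {B n : X → ℕ} {g : X → ℕ → ℕ} (hB : PT sz E B) (hn : PT sz E n) (hnb : PB sz n)
    (hg : PT (fun q : Dm n => sz q.1.1) (fun q => q.1.2 :: E q.1.1) (fun q => g q.1.1 q.1.2)) :
    PT sz E (fun x => pk (B x) (n x) (g x)) :=
  PT.sum hn hnb (hg.mul (hB.dm.pow (PT.dmi hnb)
    ((hnb.comp (fun q : Dm n => q.1.1)).mono fun q => q.2.le)))

/-- the number of the round is small -/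
theorem PB.dmi {c : X → ℕ} (hcb : PB sz c) :
    PB (fun q : Dm c => sz q.1.1) (fun q => q.1.2) :=
  (hcb.comp (fun q : Dm c => q.1.1)).mono fun q => q.2.le

/-- an old small function -/
theorem PB.dm {c f : X → ℕ} (h : PB sz f) : PB (fun q : Dm c => sz q.1.1) (fun q => f q.1.1) :=
  h.comp (fun q : Dm c => q.1.1)

/-- change of the number of rounds -/
theorem PT.dmle {c c' : X → ℕ} {g : X → ℕ → ℕ} (hcc : ∀ x, c x ≤ c' x)
    (hg : PT (fun q : Dm c' => sz q.1.1) (fun q => q.1.2 :: E q.1.1) (fun q => g q.1.1 q.1.2)) :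
    PT (fun q : Dm c => sz q.1.1) (fun q => q.1.2 :: E q.1.1) (fun q => g q.1.1 q.1.2) :=
  hg.comp (fun q : Dm c => (⟨q.1, q.2.trans_le (hcc q.1.1)⟩ : Dm c'))

/-- substitution for the number of the round -/
theorem PT.app {c i : X → ℕ} {g : X → ℕ → ℕ}
    (hg : PT (fun q : Dm c => sz q.1.1) (fun q => q.1.2 :: E q.1.1) (fun q => g q.1.1 q.1.2))
    (hi : PT sz E i) (hic : ∀ x, i x < c x) : PT sz E (fun x => g x (i x)) :=
  PT.lett hi (hg.comp (fun x : X => (⟨(x, i x), hic x⟩ : Dm c)))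

/-- a function of one number in the situations of a second loop -/
theorem PT.dm2 {c c' : X → ℕ} {n : Dm c' → ℕ} {g : X → ℕ → ℕ}
    (hg : PT (fun q : Dm c => sz q.1.1) (fun q => q.1.2 :: E q.1.1) (fun q => g q.1.1 q.1.2))
    (hn : ∀ q : Dm c', n q ≤ c q.1.1) :
    PT (fun q : Dm n => sz q.1.1.1.1) (fun q => q.1.2 :: q.1.1.1.2 :: E q.1.1.1.1)
      (fun q => g q.1.1.1.1 q.1.2) :=
  PT.tail1 (E := fun q : Dm n => E q.1.1.1.1) (g₀ := fun q => q.1.2)
    (hg.comp (fun q : Dm n => (⟨(q.1.1.1.1, q.1.2), q.2.trans_le (hn q.1.1)⟩ : Dm c)))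
    (fun q => q.1.1.1.2)

/-- course-of-values recursion: the table -/
theorem PT.covrec {n B : X → ℕ} {g : X → ℕ → ℕ} (hn : PT sz E n) (hnb : PB sz n)
    (hB : PT sz E B) (hg : ∀ x, ∀ i < n x, g x i < B x)
    (h : PT (fun q : Dm n => sz q.1.1)
      (fun q => UMG.pk (B q.1.1) q.1.2 (g q.1.1) :: q.1.2 :: E q.1.1)
      (fun q => g q.1.1 q.1.2)) :
    PT sz E (fun x => UMG.pk (B x) (n x) (g x)) := by
  have hs : PB (fun q : Dm n => sz q.1.1)
      (fun q => Nat.size (UMG.pk (B q.1.1) q.1.2 (g q.1.1))) := by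
    have hBs := hB.size
    refine ((PB.dmi hnb).mul (PB.dm hBs) |>.add (PB.const 1)).mono fun q => ?_
    rw [Nat.size_le]
    have h1 := pk_lt (B := B q.1.1) (n := q.1.2) (g := g q.1.1)
      fun i hi => hg q.1.1 i (hi.trans q.2)
    have h2 : B q.1.1 ^ q.1.2 ≤ (2 ^ Nat.size (B q.1.1)) ^ q.1.2 :=
      Nat.pow_le_pow_left (Nat.lt_size_self _).le _
    rw [← pow_mul] at h2
    calc UMG.pk (B q.1.1) q.1.2 (g q.1.1) < 2 ^ (Nat.size (B q.1.1) * q.1.2) := h1.trans_le h2
      _ = 2 ^ (q.1.2 * Nat.size (B q.1.1)) := by rw [mul_comm]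
      _ ≤ 2 ^ (q.1.2 * Nat.size (B q.1.1) + 1) := Nat.pow_le_pow_right (by norm_num) (by omega)
  refine PT.loop (st := fun x t => UMG.pk (B x) t (g x)) hn hnb
    ((PT.const 0).congr fun x => by simp [UMG.pk]) ?_
  have h1 : PT (fun q : Dm n => sz q.1.1)
      (fun q => UMG.pk (B q.1.1) q.1.2 (g q.1.1) :: q.1.2 :: E q.1.1)
      (fun q => UMG.pk (B q.1.1) q.1.2 (g q.1.1)) := PT.head hs
  have h2 : PT (fun q : Dm n => sz q.1.1)
      (fun q => UMG.pk (B q.1.1) q.1.2 (g q.1.1) :: q.1.2 :: E q.1.1)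
      (fun q => B q.1.1 ^ q.1.2) :=
    (hB.dm.pow (PT.dmi hnb) (PB.dmi hnb)).tail _
  refine (h1.add (h.mul h2)).congr fun q => ?_
  exact pk_succ _ _ _

/-- course-of-values recursion: the values -/
theorem PT.covrec' {n B : X → ℕ} {g : X → ℕ → ℕ} (hn : PT sz E n) (hnb : PB sz n)
    (hB : PT sz E B) (hg : ∀ x, ∀ i < n x, g x i < B x)
    (h : PT (fun q : Dm n => sz q.1.1)
      (fun q => UMG.pk (B q.1.1) q.1.2 (g q.1.1) :: q.1.2 :: E q.1.1)
      (fun q => g q.1.1 q.1.2)) :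
    PT (fun q : Dm n => sz q.1.1) (fun q => q.1.2 :: E q.1.1) (fun q => g q.1.1 q.1.2) := by
  have h1 := PT.covrec hn hnb hB hg h
  refine (PT.rd hB.dm h1.dm (PT.dmi hnb) (PB.dmi hnb)).congr fun q => ?_
  rw [rd_pk (hg q.1.1) q.2]

/-- reading an earlier value in a course-of-values recursion -/
theorem PT.prev {n B : X → ℕ} {g : X → ℕ → ℕ} {j : Dm n → ℕ} (hnb : PB sz n)
    (hB : PT sz E B) (hg : ∀ x, ∀ i < n x, g x i < B x)
    (hj : PT (fun q : Dm n => sz q.1.1) (fun q => q.1.2 :: E q.1.1) j)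
    (hjq : ∀ q : Dm n, j q < q.1.2) :
    PT (fun q : Dm n => sz q.1.1)
      (fun q => UMG.pk (B q.1.1) q.1.2 (g q.1.1) :: q.1.2 :: E q.1.1)
      (fun q => g q.1.1 (j q)) := by
  have hs : PB (fun q : Dm n => sz q.1.1)
      (fun q => Nat.size (UMG.pk (B q.1.1) q.1.2 (g q.1.1))) := by
    have hBs := hB.size
    refine ((PB.dmi hnb).mul (PB.dm hBs) |>.add (PB.const 1)).mono fun q => ?_
    rw [Nat.size_le]
    have h1 := pk_lt (B := B q.1.1) (n := q.1.2) (g := g q.1.1)
      fun i hi => hg q.1.1 i (hi.trans q.2)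
    have h2 : B q.1.1 ^ q.1.2 ≤ (2 ^ Nat.size (B q.1.1)) ^ q.1.2 :=
      Nat.pow_le_pow_left (Nat.lt_size_self _).le _
    rw [← pow_mul] at h2
    calc UMG.pk (B q.1.1) q.1.2 (g q.1.1) < 2 ^ (Nat.size (B q.1.1) * q.1.2) := h1.trans_le h2
      _ = 2 ^ (q.1.2 * Nat.size (B q.1.1)) := by rw [mul_comm]
      _ ≤ 2 ^ (q.1.2 * Nat.size (B q.1.1) + 1) := Nat.pow_le_pow_right (by norm_num) (by omega)
  refine (PT.rd (hB.dm.tail _) (PT.head hs) (hj.tail _)
    ((PB.dmi hnb).mono fun q => (hjq q).le)).congr fun q => ?_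
  rw [rd_pk (fun i hi => hg q.1.1 i (hi.trans q.2)) (hjq q)]

end

/-! ## Unranking -/

/-- the least `i` with `u < w 0 + … + w i` (if there is one with `i < n`) -/
def uidx (w : ℕ → ℕ) (n u : ℕ) : ℕ :=
  ((range n).filter (fun i => ∑ j ∈ range (i + 1), w j ≤ u)).card

/-- the rest -/
def urem (w : ℕ → ℕ) (n u : ℕ) : ℕ := u - ∑ j ∈ range (uidx w n u), w j

theorem uidx_eq {w : ℕ → ℕ} {n u i : ℕ} (hi : i < n) (h1 : ∑ j ∈ range i, w j ≤ u)
    (h2 : u < ∑ j ∈ range (i + 1), w j) : uidx w n u = i := by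
  have hmono : ∀ a b, a ≤ b → ∑ j ∈ range a, w j ≤ ∑ j ∈ range b, w j := fun a b hab =>
    Finset.sum_le_sum_of_subset (Finset.range_mono hab)
  unfold uidx
  have h3 : (range n).filter (fun i => ∑ j ∈ range (i + 1), w j ≤ u) = range i := by
    ext k
    simp only [Finset.mem_filter, Finset.mem_range]
    constructor
    · rintro ⟨_, hk⟩
      by_contra hlt
      push Not at hlt
      have := hmono (i + 1) (k + 1) (by omega)
      omega
    · intro hk
      exact ⟨by omega, (hmono (k + 1) i (by omega)).trans h1⟩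
  rw [h3, Finset.card_range]

theorem exists_uidx {w : ℕ → ℕ} {n u : ℕ} (hu : u < ∑ j ∈ range n, w j) :
    ∃ i < n, ∑ j ∈ range i, w j ≤ u ∧ u < ∑ j ∈ range (i + 1), w j := by
  induction n with
  | zero => simp at hu
  | succ n ih =>
    rcases Nat.lt_or_ge u (∑ j ∈ range n, w j) with h | h
    · obtain ⟨i, hi, h1⟩ := ih h
      exact ⟨i, by omega, h1⟩
    · exact ⟨n, by omega, h, hu⟩

theorem uidx_spec {w : ℕ → ℕ} {n u : ℕ} (hu : u < ∑ j ∈ range n, w j) :
    uidx w n u < n ∧ urem w n u < w (uidx w n u) ∧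
      u = ∑ j ∈ range (uidx w n u), w j + urem w n u := by
  obtain ⟨i, hi, h1, h2⟩ := exists_uidx hu
  have h3 := uidx_eq hi h1 h2
  unfold urem
  rw [h3]
  rw [Finset.sum_range_succ] at h2
  exact ⟨hi, by omega, by omega⟩

theorem uidx_le (w : ℕ → ℕ) (n u : ℕ) : uidx w n u ≤ n := by
  unfold uidx
  exact (Finset.card_filter_le _ _).trans (by rw [Finset.card_range])

/-- unranking is a bijection -/
theorem sum_unrank {R : Type} [AddCommMonoid R] (w : ℕ → ℕ) (n : ℕ) (f : ℕ → ℕ → R) :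
    ∑ u ∈ range (∑ j ∈ range n, w j), f (uidx w n u) (urem w n u) =
      ∑ i ∈ range n, ∑ r ∈ range (w i), f i r := by
  have key : ∀ m, m ≤ n → ∑ u ∈ range (∑ j ∈ range m, w j), f (uidx w n u) (urem w n u) =
      ∑ i ∈ range m, ∑ r ∈ range (w i), f i r := by
    intro m
    induction m with
    | zero => intro _; simp
    | succ m ih =>
      intro hm
      rw [Finset.sum_range_succ, Finset.sum_range_add, ih (by omega),
        Finset.sum_range_succ _ m]
      congr 1
      refine Finset.sum_congr rfl fun r hr => ?_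
      rw [Finset.mem_range] at hr
      have h1 : uidx w n (∑ j ∈ range m, w j + r) = m :=
        uidx_eq (by omega) (by omega) (by rw [Finset.sum_range_succ]; omega)
      unfold urem
      rw [h1, Nat.add_sub_cancel_left]
  exact key n le_rfl

section

variable {X : Type} {sz : X → ℕ} {E : X → List ℕ}

theorem PT.psum {n i : X → ℕ} {w : X → ℕ → ℕ} (hi : PT sz E i) (hib : PB sz i)
    (hin : ∀ x, i x ≤ n x)
    (hw : PT (fun q : Dm n => sz q.1.1) (fun q => q.1.2 :: E q.1.1) (fun q => w q.1.1 q.1.2)) :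
    PT sz E (fun x => ∑ j ∈ range (i x), w x j) :=
  PT.sum hi hib (PT.dmle hin hw)

theorem PT.uidx {n u : X → ℕ} {w : X → ℕ → ℕ} (hn : PT sz E n) (hnb : PB sz n)
    (hu : PT sz E u)
    (hw : PT (fun q : Dm n => sz q.1.1) (fun q => q.1.2 :: E q.1.1) (fun q => w q.1.1 q.1.2)) :
    PT sz E (fun x => uidx (w x) (n x) (u x)) := by
  refine PT.card (P := fun x i => ∑ j ∈ range (i + 1), w x j ≤ u x) hn hnb ?_
  refine PD.le ?_ hu.dm
  refine PT.sum (c := fun q : Dm n => q.1.2 + 1) (f := fun q j => w q.1.1 j)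
    ((PT.dmi hnb).add (PT.const 1)) ((PB.dmi hnb).add (PB.const 1)) ?_
  exact PT.dm2 hw fun q => q.2

theorem PT.urem {n u : X → ℕ} {w : X → ℕ → ℕ} (hn : PT sz E n) (hnb : PB sz n)
    (hu : PT sz E u)
    (hw : PT (fun q : Dm n => sz q.1.1) (fun q => q.1.2 :: E q.1.1) (fun q => w q.1.1 q.1.2)) :
    PT sz E (fun x => urem (w x) (n x) (u x)) :=
  hu.sub (PT.psum (PT.uidx hn hnb hu hw) (hnb.mono fun _ => uidx_le _ _ _)
    (fun _ => uidx_le _ _ _) hw)

end

end Pool.Agent.UMG
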