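import Pool.Agent.UMG.Kit2

/-!
# Squad UMG, block C: more environments, loops with several registers, lists
-/

set_option autoImplicit false

namespace Pool.Agent.UMG

open Finset

section

variable {X Y : Type} {sz : X → ℕ} {E : X → List ℕ}

/-! ## Environments -/

/-- more variables in front -/
theorem PT.wk0 {f : X → ℕ} (h : PT sz E f) {A : X → List ℕ} {a : ℕ} (hA : ∀ x, (A x).length = a) :
    PT sz (fun x => A x ++ E x) f := by
  obtain ⟨p, T, hT, h⟩ := h
  refine ⟨lift a 0 p, T, hT, fun x τ => ?_⟩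
  have h1 := eval_lift (A x) (E x ++ τ) p []
  have h2 := time_lift (A x) (E x ++ τ) p []
  rw [hA] at h1 h2
  simp only [List.length_nil, List.nil_append] at h1 h2
  rw [List.append_assoc, h1, h2]
  exact h x τ

/-- more variables behind the first one -/
theorem PT.wk {f g₀ : X → ℕ} (h : PT sz (fun x => g₀ x :: E x) f) {A : X → List ℕ} {a : ℕ}
    (hA : ∀ x, (A x).length = a) : PT sz (fun x => g₀ x :: (A x ++ E x)) f := by
  obtain ⟨p, T, hT, h⟩ := h
  refine ⟨lift a 1 p, T, hT, fun x τ => ?_⟩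
  have h1 := eval_lift (A x) (E x ++ τ) p [g₀ x]
  have h2 := time_lift (A x) (E x ++ τ) p [g₀ x]
  rw [hA] at h1 h2
  simp only [List.length_singleton, List.singleton_append] at h1 h2
  rw [List.cons_append, List.append_assoc, h1, h2]
  exact h x τ

/-- an old function in new situations, with more variables in front -/
theorem PT.old {f : X → ℕ} (h : PT sz E f) (φ : Y → X) {A : Y → List ℕ} {a : ℕ}
    (hA : ∀ y, (A y).length = a) :
    PT (fun y => sz (φ y)) (fun y => A y ++ E (φ y)) (fun y => f (φ y)) :=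
  (h.comp φ).wk0 hA

/-- an old function of one number in new situations: substitution for the number -/
theorem PT.use {c : X → ℕ} {g : X → ℕ → ℕ}
    (hg : PT (fun q : Dm c => sz q.1.1) (fun q => q.1.2 :: E q.1.1) (fun q => g q.1.1 q.1.2))
    (φ : Y → X) {A : Y → List ℕ} {a : ℕ} (hA : ∀ y, (A y).length = a) {i : Y → ℕ}
    (hi : PT (fun y => sz (φ y)) (fun y => A y ++ E (φ y)) i) (hic : ∀ y, i y < c (φ y)) :
    PT (fun y => sz (φ y)) (fun y => A y ++ E (φ y)) (fun y => g (φ y) (i y)) := by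
  refine PT.lett hi ?_
  have h1 := hg.comp (fun y : Y => (⟨(φ y, i y), hic y⟩ : Dm c))
  exact h1.wk hA

/-- an old function of one number in the situations of a new loop in new situations -/
theorem PT.use1 {c : X → ℕ} {g : X → ℕ → ℕ}
    (hg : PT (fun q : Dm c => sz q.1.1) (fun q => q.1.2 :: E q.1.1) (fun q => g q.1.1 q.1.2))
    (φ : Y → X) {A : Y → List ℕ} {a : ℕ} (hA : ∀ y, (A y).length = a) {c' : Y → ℕ}
    (hc : ∀ y, c' y ≤ c (φ y)) :
    PT (fun q : Dm c' => sz (φ q.1.1)) (fun q => q.1.2 :: (A q.1.1 ++ E (φ q.1.1)))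
      (fun q => g (φ q.1.1) q.1.2) := by
  have h1 := hg.comp (fun q : Dm c' => (⟨(φ q.1.1, q.1.2), q.2.trans_le (hc q.1.1)⟩ : Dm c))
  exact h1.wk (A := fun q : Dm c' => A q.1.1) fun q => hA q.1.1

/-! ## Reading packed arrays -/

theorem PT.rdpk {B i m : X → ℕ} {g : X → ℕ → ℕ} (hB : PT sz E B)
    (ha : PT sz E (fun x => UMG.pk (B x) (m x) (g x))) (hi : PT sz E i) (hib : PB sz i)
    (him : ∀ x, i x < m x) (hg : ∀ x, ∀ k < m x, g x k < B x) :
    PT sz E (fun x => g x (i x)) := by
  refine (PT.rd hB ha hi hib).congr fun x => ?_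
  rw [rd_pk (hg x) (him x)]

theorem size_pk_le {B n : ℕ} {g : ℕ → ℕ} (h : ∀ i < n, g i < B) :
    Nat.size (UMG.pk B n g) ≤ n * Nat.size B := by
  rw [Nat.size_le]
  have h1 := pk_lt h
  have h2 : B ^ n ≤ (2 ^ Nat.size B) ^ n := Nat.pow_le_pow_left (Nat.lt_size_self _).le _
  rw [← pow_mul, mul_comm] at h2
  exact h1.trans_le h2

/-- the table in a course-of-values recursion -/
theorem PT.tab {n B : X → ℕ} {g : X → ℕ → ℕ} (hnb : PB sz n) (hB : PT sz E B)
    (hg : ∀ x, ∀ i < n x, g x i < B x) :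
    PT (fun q : Dm n => sz q.1.1)
      (fun q => UMG.pk (B q.1.1) q.1.2 (g q.1.1) :: q.1.2 :: E q.1.1)
      (fun q => UMG.pk (B q.1.1) q.1.2 (g q.1.1)) :=
  PT.head (((PB.dmi hnb).mul (PB.dm hB.size)).mono fun q =>
    size_pk_le fun i hi => hg q.1.1 i (hi.trans q.2))

/-! ## Loops with several registers -/

/-- the registers in a loop -/
theorem PT.reg {k : ℕ} {c B : X → ℕ} {a : X → ℕ → ℕ → ℕ} (hB : PT sz E B)
    (hab : ∀ x, ∀ t ≤ c x, ∀ i < k, a x t i < B x) {i : ℕ} (hi : i < k) :
    PT (fun q : Dm c => sz q.1.1)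
      (fun q => UMG.pk (B q.1.1) k (a q.1.1 q.1.2) :: q.1.2 :: E q.1.1)
      (fun q => a q.1.1 q.1.2 i) := by
  have h1 : PT (fun q : Dm c => sz q.1.1)
      (fun q => UMG.pk (B q.1.1) k (a q.1.1 q.1.2) :: q.1.2 :: E q.1.1)
      (fun q => UMG.pk (B q.1.1) k (a q.1.1 q.1.2)) :=
    PT.head (((PB.const k).mul (PB.dm hB.size)).mono fun q =>
      size_pk_le fun i hi => hab q.1.1 q.1.2 q.2.le i hi)
  exact PT.rdpk (m := fun _ => k) (g := fun q : Dm c => a q.1.1 q.1.2) (hB.dm.tail _) h1
    (PT.const i) (PB.const i) (fun _ => hi) (fun q j hj => hab q.1.1 q.1.2 q.2.le j hj)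

theorem PT.pkc {k : ℕ} {B : X → ℕ} {a : X → ℕ → ℕ} (hB : PT sz E B)
    (ha : ∀ i < k, PT sz E (fun x => a x i)) : PT sz E (fun x => UMG.pk (B x) k (a x)) := by
  induction k with
  | zero => exact (PT.const 0).congr fun x => by simp [UMG.pk]
  | succ k ih =>
    refine ((ih fun i hi => ha i (by omega)).add ((ha k (by omega)).mul
      (hB.pow (PT.const k) (PB.const k)))).congr fun x => ?_
    exact pk_succ _ _ _

/-- loop with `k` registers `a x t i`, `i < k` -/
theorem PT.loopk {k : ℕ} {c B : X → ℕ} {a : X → ℕ → ℕ → ℕ} (hc : PT sz E c) (hcb : PB sz c)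
    (hB : PT sz E B) (hab : ∀ x, ∀ t ≤ c x, ∀ i < k, a x t i < B x)
    (h0 : ∀ i < k, PT sz E (fun x => a x 0 i))
    (hstep : ∀ i < k, PT (fun q : Dm c => sz q.1.1)
      (fun q => UMG.pk (B q.1.1) k (a q.1.1 q.1.2) :: q.1.2 :: E q.1.1)
      (fun q => a q.1.1 (q.1.2 + 1) i)) {i : ℕ} (hi : i < k) :
    PT sz E (fun x => a x (c x) i) := by
  have h1 : PT sz E (fun x => UMG.pk (B x) k (a x (c x))) := by
    refine PT.loop (st := fun x t => UMG.pk (B x) k (a x t)) hc hcb (PT.pkc hB h0) ?_
    exact PT.pkc (hB.dm.tail _) hstep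
  exact PT.rdpk (m := fun _ => k) (g := fun x => a x (c x)) hB h1 (PT.const i) (PB.const i)
    (fun _ => hi) (fun x j hj => hab x (c x) le_rfl j hj)

/-- the registers after `t` rounds, in the situations of a loop -/
theorem PT.loopk' {k : ℕ} {c B : X → ℕ} {a : X → ℕ → ℕ → ℕ} (hcb : PB sz c)
    (hB : PT sz E B) (hab : ∀ x, ∀ t ≤ c x, ∀ i < k, a x t i < B x)
    (h0 : ∀ i < k, PT sz E (fun x => a x 0 i))
    (hstep : ∀ i < k, PT (fun q : Dm c => sz q.1.1)
      (fun q => UMG.pk (B q.1.1) k (a q.1.1 q.1.2) :: q.1.2 :: E q.1.1)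
      (fun q => a q.1.1 (q.1.2 + 1) i)) {i : ℕ} (hi : i < k) :
    PT (fun q : Dm c => sz q.1.1) (fun q => q.1.2 :: E q.1.1) (fun q => a q.1.1 q.1.2 i) := by
  refine PT.loopk (X := Dm c) (k := k) (c := fun q => q.1.2) (B := fun q => B q.1.1)
    (a := fun q t i => a q.1.1 t i) (PT.dmi hcb) (PB.dmi hcb) hB.dm
    (fun q t ht i hi => hab q.1.1 t (ht.trans q.2.le) i hi)
    (fun i hi => (h0 i hi).dm) ?_ hi
  intro i hi
  have h1 := (hstep i hi).comp
    (fun q : Dm (fun q : Dm c => q.1.2) => (⟨(q.1.1.1.1, q.1.2), q.2.trans q.1.1.2⟩ : Dm c))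
  -- insert the number of the outer round behind the first two variables
  obtain ⟨p, T, hT, h⟩ := h1
  refine ⟨lift 1 2 p, T, hT, fun q τ => ?_⟩
  have h2 := eval_lift [q.1.1.1.2] (E q.1.1.1.1 ++ τ) p
    [UMG.pk (B q.1.1.1.1) k (a q.1.1.1.1 q.1.2), q.1.2]
  have h3 := time_lift [q.1.1.1.2] (E q.1.1.1.1 ++ τ) p
    [UMG.pk (B q.1.1.1.1) k (a q.1.1.1.1 q.1.2), q.1.2]
  have h4 := h q τ
  simp only [List.length_cons, List.length_nil, zero_add, List.cons_append,
    List.nil_append] at h2 h3 h4
  simp only [List.cons_append]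
  rw [h2, h3]
  exact h4

/-! ## Lists -/

/-- a list of polynomial length which is computed in polynomial time -/
structure PL (sz : X → ℕ) (E : X → List ℕ) (L : X → List ℕ) : Prop where
  len : PT sz E (fun x => (L x).length)
  lenb : PB sz (fun x => (L x).length)
  ent : PT (fun q : Dm (fun x => (L x).length) => sz q.1.1) (fun q => q.1.2 :: E q.1.1)
    (fun q => (L q.1.1).getD q.1.2 0)

theorem PL.ofFn {n : X → ℕ} {g : X → ℕ → ℕ} (hn : PT sz E n) (hnb : PB sz n)
    (hg : PT (fun q : Dm n => sz q.1.1) (fun q => q.1.2 :: E q.1.1) (fun q => g q.1.1 q.1.2)) :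
    PL sz E (fun x => (List.range (n x)).map (g x)) := by
  have hl : ∀ x, ((List.range (n x)).map (g x)).length = n x := by simp
  refine ⟨hn.congr hl, hnb.mono fun x => (hl x).le, ?_⟩
  refine (PT.dmle (c := fun x => ((List.range (n x)).map (g x)).length)
    (fun x => (hl x).le) hg).congr fun q => ?_
  have h1 : q.1.2 < n q.1.1 := by
    have h2 := q.2
    simp only [hl] at h2
    exact h2
  simp [List.getD_eq_getElem?_getD, h1]

theorem PL.congr {L L' : X → List ℕ} (h : PL sz E L) (hL : ∀ x, L' x = L x) : PL sz E L' := by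
  have : L' = L := funext hL
  rwa [this]

/-- every list is the list of its entries -/
theorem list_eq_map (L : List ℕ) : L = (List.range L.length).map (fun i => L.getD i 0) := by
  refine List.ext_getElem (by simp) fun i h1 h2 => ?_
  simp [List.getD_eq_getElem?_getD, h1]

theorem PL.comp {L : X → List ℕ} (h : PL sz E L) (φ : Y → X) :
    PL (fun y => sz (φ y)) (fun y => E (φ y)) (fun y => L (φ y)) :=
  ⟨h.len.comp φ, h.lenb.comp φ,
    h.ent.comp (fun q : Dm (fun y => (L (φ y)).length) =>
      (⟨(φ q.1.1, q.1.2), q.2⟩ : Dm (fun x => (L x).length)))⟩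

theorem PL.old {L : X → List ℕ} (h : PL sz E L) (φ : Y → X) {A : Y → List ℕ} {a : ℕ}
    (hA : ∀ y, (A y).length = a) :
    PL (fun y => sz (φ y)) (fun y => A y ++ E (φ y)) (fun y => L (φ y)) :=
  ⟨h.len.old φ hA, h.lenb.comp φ,
    PT.use1 (c := fun x => (L x).length) (g := fun x i => (L x).getD i 0)
      (c' := fun y => (L (φ y)).length) h.ent φ hA fun _ => le_rfl⟩

/-- an entry -/
theorem PL.getD {L : X → List ℕ} {i : X → ℕ} (h : PL sz E L) (hi : PT sz E i) :
    PT sz E (fun x => (L x).getD (i x) 0) := by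
  refine PT.ite' (PD.lt hi h.len) ?_ ?_
  · have h1 := PT.use (c := fun x => (L x).length) (g := fun x i => (L x).getD i 0) h.ent
      (Y := {x // i x < (L x).length}) (fun x => x.1)
      (A := fun _ => []) (a := 0) (fun _ => rfl) (i := fun x => i x.1)
      (hi.comp (fun x : {x // i x < (L x).length} => x.1)) (fun x => x.2)
    exact h1
  · refine (PT.const 0).congr fun x => ?_
    rw [List.getD_eq_default]
    have := x.2
    omega

/-- the packed list -/
theorem PL.pk {L : X → List ℕ} {B : X → ℕ} (h : PL sz E L) (hB : PT sz E B) :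
    PT sz E (fun x => Nat.ofDigits (B x) (L x)) :=
  (PT.pk (g := fun x j => (L x).getD j 0) hB h.len h.lenb h.ent).congr
    fun _ => ofDigits_eq_pk _ _

/-- the list of a packed list -/
theorem PL.ofPk {L : X → List ℕ} {B : X → ℕ} (hB : PT sz E B)
    (hL : ∀ x, ∀ a ∈ L x, a < B x) (hl : PT sz E (fun x => (L x).length))
    (hlb : PB sz (fun x => (L x).length))
    (h : PT sz E (fun x => Nat.ofDigits (B x) (L x))) : PL sz E L := by
  refine ⟨hl, hlb, ?_⟩
  refine (PT.rd hB.dm h.dm (PT.dmi hlb) (PB.dmi hlb)).congr fun q => ?_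
  exact (rd_ofDigits (hL q.1.1) q.2).symm

theorem sum_map_range (n : ℕ) (f : ℕ → ℕ) :
    ((List.range n).map f).sum = ∑ i ∈ range n, f i := by
  induction n with
  | zero => rfl
  | succ n ih => rw [List.range_succ, List.map_append, List.sum_append, ih,
      Finset.sum_range_succ]; simp

/-- the sum over the entries of a list -/
theorem PL.sum {L : X → List ℕ} {g : X → ℕ → ℕ} (h : PL sz E L)
    (hg : PT (fun q : Dm (fun x => (L x).length) => sz q.1.1) (fun q => q.1.2 :: E q.1.1)
      (fun q => g q.1.1 ((L q.1.1).getD q.1.2 0))) :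
    PT sz E (fun x => ((L x).map (g x)).sum) := by
  refine (PT.sum (f := fun x i => g x ((L x).getD i 0)) h.len h.lenb hg).congr fun x => ?_
  conv_lhs => rw [list_eq_map (L x)]
  rw [List.map_map, sum_map_range]
  rfl

theorem PL.count {L : X → List ℕ} {a : X → ℕ} (h : PL sz E L) (ha : PT sz E a) :
    PT sz E (fun x => (L x).count (a x)) := by
  have h1 : PT (fun q : Dm (fun x => (L x).length) => sz q.1.1) (fun q => q.1.2 :: E q.1.1)
      (fun q => if (L q.1.1).getD q.1.2 0 = a q.1.1 then 1 else 0) :=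
    PT.ite (PD.eq h.ent ha.dm) (PT.const 1) (PT.const 0)
  refine (PL.sum (g := fun x b => if b = a x then 1 else 0) h h1).congr fun x => ?_
  induction L x with
  | nil => rfl
  | cons b L ih =>
    rw [List.count_cons, List.map_cons, List.sum_cons, ih, add_comm]
    congr 1
    by_cases hb : b = a x <;> simp [hb]

theorem PL.drop {L : X → List ℕ} {i : X → ℕ} (h : PL sz E L) (hi : PT sz E i) :
    PL sz E (fun x => (L x).drop (i x)) := by
  have hn : PT sz E (fun x => (L x).length - i x) := h.len.sub hi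
  have hnb : PB sz (fun x => (L x).length - i x) := h.lenb.mono fun x => Nat.sub_le _ _
  have hg : PT (fun q : Dm (fun x => (L x).length - i x) => sz q.1.1)
      (fun q => q.1.2 :: E q.1.1) (fun q => (L q.1.1).getD (i q.1.1 + q.1.2) 0) := by
    have h1 : PL (fun q : Dm (fun x => (L x).length - i x) => sz q.1.1)
        (fun q => q.1.2 :: E q.1.1) (fun q => L q.1.1) :=
      PL.old h (fun q : Dm (fun x => (L x).length - i x) => q.1.1)
        (A := fun q => [q.1.2]) (a := 1) fun _ => rfl
    exact h1.getD (hi.dm.add (PT.dmi hnb))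
  refine (PL.ofFn (g := fun x j => (L x).getD (i x + j) 0) hn hnb hg).congr fun x => ?_
  refine List.ext_getElem (by simp) fun j h1 h2 => ?_
  rw [List.length_drop] at h1
  simp only [List.getElem_drop, List.getElem_map, List.getElem_range]
  rw [List.getD_eq_getElem _ _ (by omega)]

theorem PL.take {L : X → List ℕ} {i : X → ℕ} (h : PL sz E L) (hi : PT sz E i) :
    PL sz E (fun x => (L x).take (i x)) := by
  have hn : PT sz E (fun x => Min.min (i x) (L x).length) := PT.min hi h.len
  have hnb : PB sz (fun x => Min.min (i x) (L x).length) := h.lenb.mono fun x => min_le_right _ _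
  have hg := PT.dmle (c := fun x => Min.min (i x) (L x).length)
    (c' := fun x => (L x).length) (g := fun x j => (L x).getD j 0)
    (fun x => min_le_right _ _) h.ent
  refine (PL.ofFn (g := fun x j => (L x).getD j 0) hn hnb hg).congr fun x => ?_
  refine List.ext_getElem (by simp) fun j h1 h2 => ?_
  rw [List.length_take] at h1
  simp only [List.getElem_take, List.getElem_map, List.getElem_range]
  rw [List.getD_eq_getElem _ _ (by omega)]

theorem PL.append {L L' : X → List ℕ} (h : PL sz E L) (h' : PL sz E L') :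
    PL sz E (fun x => L x ++ L' x) := by
  have hn : PT sz E (fun x => (L x).length + (L' x).length) := h.len.add h'.len
  have hnb : PB sz (fun x => (L x).length + (L' x).length) := h.lenb.add h'.lenb
  have hg : PT (fun q : Dm (fun x => (L x).length + (L' x).length) => sz q.1.1)
      (fun q => q.1.2 :: E q.1.1)
      (fun q => if q.1.2 < (L q.1.1).length then (L q.1.1).getD q.1.2 0 else
        (L' q.1.1).getD (q.1.2 - (L q.1.1).length) 0) := by
    have h1 : PL (fun q : Dm (fun x => (L x).length + (L' x).length) => sz q.1.1)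
        (fun q => q.1.2 :: E q.1.1) (fun q => L q.1.1) :=
      PL.old h (fun q : Dm (fun x => (L x).length + (L' x).length) => q.1.1)
        (A := fun q => [q.1.2]) (a := 1) fun _ => rfl
    have h2 : PL (fun q : Dm (fun x => (L x).length + (L' x).length) => sz q.1.1)
        (fun q => q.1.2 :: E q.1.1) (fun q => L' q.1.1) :=
      PL.old h' (fun q : Dm (fun x => (L x).length + (L' x).length) => q.1.1)
        (A := fun q => [q.1.2]) (a := 1) fun _ => rfl
    exact PT.ite (PD.lt (PT.dmi hnb) h1.len) (h1.getD (PT.dmi hnb))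
      (h2.getD ((PT.dmi hnb).sub h1.len))
  refine (PL.ofFn (g := fun x j => if j < (L x).length then (L x).getD j 0 else
    (L' x).getD (j - (L x).length) 0) hn hnb hg).congr fun x => ?_
  refine List.ext_getElem (by simp) fun j h1 h2 => ?_
  rw [List.length_append] at h1
  simp only [List.getElem_map, List.getElem_range]
  split_ifs with hj
  · rw [List.getElem_append_left hj, List.getD_eq_getElem _ _ hj]
  · rw [List.getElem_append_right (by omega), List.getD_eq_getElem _ _ (by omega)]

theorem PL.single {a : X → ℕ} (h : PT sz E a) : PL sz E (fun x => [a x]) := by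
  refine (PL.ofFn (n := fun _ => 1) (g := fun x _ => a x) (PT.const 1) (PB.const 1)
    h.dm).congr fun x => ?_
  rfl

theorem PL.eraseIdx {L : X → List ℕ} {i : X → ℕ} (h : PL sz E L) (hi : PT sz E i) :
    PL sz E (fun x => (L x).eraseIdx (i x)) :=
  ((h.take hi).append (h.drop (hi.add (PT.const 1)))).congr fun x => by
    rw [List.eraseIdx_eq_take_drop_succ]

end

end Pool.Agent.UMG
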