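import Pool.Agent.UMG.Kit3

/-!
# Squad UMG, block C: the functions `F`, `Eint`, `Aint`
-/

set_option autoImplicit false

namespace Pool.Agent.UMG

open Finset

/-! ## The numbers `F j c` -/

theorem F_le (j N : ℕ) : ∀ c ≤ N, F j c ≤ ((j + 1) * (N + 2)) ^ c
  | 0, _ => by simp [F]
  | 1, _ => by
    simp only [F, pow_one]
    split_ifs <;> nlinarith
  | c + 2, h => by
    have h1 := F_le j N (c + 1) (by omega)
    have h2 := F_le j N c (by omega)
    simp only [F]
    set a := (j + 1) * (N + 2) with ha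
    have h3 : (if 2 ∣ j then F j (c + 1) else 0) ≤ a ^ (c + 1) := by
      split_ifs
      · exact h1
      · exact Nat.zero_le _
    have h4 : (c + 1) * j ≤ a := by
      rw [ha]
      nlinarith
    have h5 : (c + 1) * j * F j c ≤ a * a ^ c := Nat.mul_le_mul h4 h2
    have h6 : 2 ≤ a := by
      rw [ha]
      nlinarith
    calc (if 2 ∣ j then F j (c + 1) else 0) + (c + 1) * j * F j c ≤ a ^ (c + 1) + a * a ^ c :=
          Nat.add_le_add h3 h5
      _ = 2 * a ^ (c + 1) := by rw [pow_succ]; ring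
      _ ≤ a * a ^ (c + 1) := Nat.mul_le_mul_right _ h6
      _ = a ^ (c + 2) := by rw [pow_succ a (c + 1)]; ring

section

variable {X Y : Type} {sz : X → ℕ} {E : X → List ℕ}

theorem PT.F {j c : X → ℕ} (hj : PT sz E j) (hc : PT sz E c) (hcb : PB sz c) :
    PT sz E (fun x => UMG.F (j x) (c x)) := by
  have hn : PT sz E (fun x => c x + 1) := hc.add (PT.const 1)
  have hnb : PB sz (fun x => c x + 1) := hcb.add (PB.const 1)
  have hB : PT sz E (fun x => ((j x + 1) * (c x + 2)) ^ (c x + 1)) :=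
    ((hj.add (PT.const 1)).mul (hc.add (PT.const 2))).pow hn hnb
  have hg : ∀ x, ∀ i < c x + 1, UMG.F (j x) i < ((j x + 1) * (c x + 2)) ^ (c x + 1) := by
    intro x i hi
    have h1 : 1 < (j x + 1) * (c x + 2) := by nlinarith
    exact (F_le (j x) (c x) i (by omega)).trans_lt (Nat.pow_lt_pow_right h1 hi)
  have key : PT (fun q : Dm (fun x => c x + 1) => sz q.1.1) (fun q => q.1.2 :: E q.1.1)
      (fun q => UMG.F (j q.1.1) q.1.2) := by
    refine PT.covrec' (g := fun x i => UMG.F (j x) i) hn hnb hB hg ?_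
    have htab := PT.tab (g := fun x i => UMG.F (j x) i) hnb hB hg
    have hi := (PT.dmi (E := E) hnb).tail (fun q : Dm (fun x => c x + 1) =>
      UMG.pk (((j q.1.1 + 1) * (c q.1.1 + 2)) ^ (c q.1.1 + 1)) q.1.2 (UMG.F (j q.1.1)))
    have hBB := hB.dm (c := fun x => c x + 1) |>.tail (fun q : Dm (fun x => c x + 1) =>
      UMG.pk (((j q.1.1 + 1) * (c q.1.1 + 2)) ^ (c q.1.1 + 1)) q.1.2 (UMG.F (j q.1.1)))
    have hjj := hj.dm (c := fun x => c x + 1) |>.tail (fun q : Dm (fun x => c x + 1) =>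
      UMG.pk (((j q.1.1 + 1) * (c q.1.1 + 2)) ^ (c q.1.1 + 1)) q.1.2 (UMG.F (j q.1.1)))
    refine PT.ite' (PD.eq hi (PT.const 0)) ?_ ?_
    · refine (PT.const 1).congr fun q => ?_
      have h1 : q.1.1.2 = 0 := q.2
      simp only [h1, UMG.F]
    · refine PT.ite' (PD.eq (hi.comp (fun q : {q : Dm (fun x => c x + 1) // ¬ q.1.2 = 0} => q.1))
        (PT.const 1)) ?_ ?_
      · refine (PT.ite (P := fun q : {q : {q : Dm (fun x => c x + 1) // ¬ q.1.2 = 0} //
            q.1.1.2 = 1} => 2 ∣ j q.1.1.1.1) (PD.dvd 2 (hjj.comp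
          (fun q : {q : {q : Dm (fun x => c x + 1) // ¬ q.1.2 = 0} // q.1.1.2 = 1} => q.1.1)))
          (PT.const 1) (PT.const 0)).congr fun q => ?_
        have h1 := q.2
        simp only at h1
        simp only [h1, UMG.F]
      · let φ : {q : {q : Dm (fun x => c x + 1) // ¬ q.1.2 = 0} // ¬ q.1.1.2 = 1} →
          Dm (fun x => c x + 1) := fun q => q.1.1
        have hφ : ∀ q, 2 ≤ (φ q).1.2 := by
          intro q
          have h1 := q.2
          have h2 := q.1.2
          simp only at h1 h2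
          show 2 ≤ q.1.1.1.2
          omega
        have hib : PB (fun q : {q : {q : Dm (fun x => c x + 1) // ¬ q.1.2 = 0} //
            ¬ q.1.1.2 = 1} => sz (φ q).1.1) (fun q => (φ q).1.2) := (PB.dmi hnb).comp φ
        have r1 : PT (fun q => sz (φ q).1.1) (fun q =>
            UMG.pk (((j (φ q).1.1 + 1) * (c (φ q).1.1 + 2)) ^ (c (φ q).1.1 + 1)) (φ q).1.2
              (UMG.F (j (φ q).1.1)) :: (φ q).1.2 :: E (φ q).1.1)
            (fun q => UMG.F (j (φ q).1.1) ((φ q).1.2 - 1)) :=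
          PT.rdpk (m := fun q => (φ q).1.2) (g := fun q i => UMG.F (j (φ q).1.1) i)
            (hBB.comp φ) (htab.comp φ) ((hi.comp φ).sub (PT.const 1))
            (hib.mono fun q => Nat.sub_le _ _)
            (fun q => by have := hφ q; omega)
            (fun q i hi => hg (φ q).1.1 i (hi.trans (φ q).2))
        have r2 : PT (fun q => sz (φ q).1.1) (fun q =>
            UMG.pk (((j (φ q).1.1 + 1) * (c (φ q).1.1 + 2)) ^ (c (φ q).1.1 + 1)) (φ q).1.2
              (UMG.F (j (φ q).1.1)) :: (φ q).1.2 :: E (φ q).1.1)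
            (fun q => UMG.F (j (φ q).1.1) ((φ q).1.2 - 2)) :=
          PT.rdpk (m := fun q => (φ q).1.2) (g := fun q i => UMG.F (j (φ q).1.1) i)
            (hBB.comp φ) (htab.comp φ) ((hi.comp φ).sub (PT.const 2))
            (hib.mono fun q => Nat.sub_le _ _)
            (fun q => by have := hφ q; omega)
            (fun q i hi => hg (φ q).1.1 i (hi.trans (φ q).2))
        refine ((PT.ite (P := fun q => 2 ∣ j (φ q).1.1) (PD.dvd 2 (hjj.comp φ)) r1
          (PT.const 0)).add ((((hi.comp φ).sub (PT.const 1)).mul (hjj.comp φ)).mul r2)).congr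
            fun q => ?_
        obtain ⟨i, hi'⟩ : ∃ i, (φ q).1.2 = i + 2 := ⟨(φ q).1.2 - 2, by have := hφ q; omega⟩
        show UMG.F (j (φ q).1.1) (φ q).1.2 = _
        rw [hi']
        simp only [UMG.F]
        congr 1
  exact key.app (g := fun x i => UMG.F (j x) i) hc fun x => Nat.lt_succ_self _

end

/-! ## The numbers `Eint` -/

theorem Eint_succ (w : ℕ → ℕ) (l k : ℕ) : Eint w l (k + 1) =
    ∑ i ∈ range (k + 1), k.descFactorial i * w (l * (i + 1)) * Eint w l (k - i) := by
  rw [Eint]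
  simp only [Nat.cast_id]

/-- a bound for the weights -/
def wb (w : ℕ → ℕ) (N : ℕ) : ℕ := 1 + ∑ j ∈ range N, w j

theorem le_wb {w : ℕ → ℕ} {N j : ℕ} (h : j < N) : w j ≤ wb w N := by
  unfold wb
  have := Finset.single_le_sum (f := w) (fun i _ => Nat.zero_le _) (Finset.mem_range.2 h)
  omega

theorem Eint_le {w : ℕ → ℕ} {N l K : ℕ} (hN : l * K < N) : ∀ k ≤ K,
    Eint w l k ≤ k.factorial * wb w N ^ k := by
  intro k
  induction k using Nat.strong_induction_on with
  | _ k ih =>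
    intro hk
    cases k with
    | zero => simp [Eint]
    | succ k =>
      rw [Eint_succ]
      have h1 : ∀ i ∈ range (k + 1), k.descFactorial i * w (l * (i + 1)) * Eint w l (k - i) ≤
          k.factorial * wb w N ^ (k + 1) := by
        intro i hi
        rw [Finset.mem_range] at hi
        have h2 := ih (k - i) (by omega) (by omega)
        have h3 : w (l * (i + 1)) ≤ wb w N :=
          le_wb (lt_of_le_of_lt (Nat.mul_le_mul_left l (by omega)) hN)
        have h4 : wb w N ^ (k - i) ≤ wb w N ^ k :=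
          Nat.pow_le_pow_right (by unfold wb; omega) (by omega)
        have h5 : k.descFactorial i * (k - i).factorial = k.factorial := by
          rw [mul_comm]
          exact Nat.factorial_mul_descFactorial (by omega)
        calc k.descFactorial i * w (l * (i + 1)) * Eint w l (k - i)
            ≤ k.descFactorial i * wb w N * ((k - i).factorial * wb w N ^ (k - i)) :=
              Nat.mul_le_mul (Nat.mul_le_mul_left _ h3) h2
          _ = (k.descFactorial i * (k - i).factorial) * (wb w N * wb w N ^ (k - i)) := by ring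
          _ = k.factorial * (wb w N * wb w N ^ (k - i)) := by rw [h5]
          _ ≤ k.factorial * (wb w N * wb w N ^ k) := by gcongr
          _ = k.factorial * wb w N ^ (k + 1) := by rw [pow_succ]; ring
      refine (Finset.sum_le_sum h1).trans ?_
      rw [Finset.sum_const, Finset.card_range, smul_eq_mul, Nat.factorial_succ]
      exact le_of_eq (by ring)

section

variable {X Y : Type} {sz : X → ℕ} {E : X → List ℕ}

theorem PT.wb {w : X → ℕ → ℕ} {N : X → ℕ} (hN : PT sz E N) (hNb : PB sz N)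
    (hw : PT (fun q : Dm N => sz q.1.1) (fun q => q.1.2 :: E q.1.1) (fun q => w q.1.1 q.1.2)) :
    PT sz E (fun x => UMG.wb (w x) (N x)) := (PT.const 1).add (PT.sum hN hNb hw)

theorem PT.Eint {w : X → ℕ → ℕ} {N l k : X → ℕ} (hN : PT sz E N) (hNb : PB sz N)
    (hw : PT (fun q : Dm N => sz q.1.1) (fun q => q.1.2 :: E q.1.1) (fun q => w q.1.1 q.1.2))
    (hl : PT sz E l) (hk : PT sz E k) (hkb : PB sz k) (hlk : ∀ x, l x * k x < N x) :
    PT sz E (fun x => UMG.Eint (w x) (l x) (k x)) := by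
  have hn : PT sz E (fun x => k x + 1) := hk.add (PT.const 1)
  have hnb : PB sz (fun x => k x + 1) := hkb.add (PB.const 1)
  let B : X → ℕ := fun x => (k x).factorial * UMG.wb (w x) (N x) ^ k x + 1
  have hB : PT sz E B :=
    ((hk.factorial hkb).mul ((PT.wb hN hNb hw).pow hk hkb)).add (PT.const 1)
  have hg : ∀ x, ∀ i < k x + 1, UMG.Eint (w x) (l x) i < B x := by
    intro x i hi
    have h1 := Eint_le (w := w x) (hlk x) i (by omega : i ≤ k x)
    have h2 : i.factorial ≤ (k x).factorial := Nat.factorial_le (by omega)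
    have h3 : UMG.wb (w x) (N x) ^ i ≤ UMG.wb (w x) (N x) ^ k x :=
      Nat.pow_le_pow_right (by unfold UMG.wb; omega) (by omega)
    exact Nat.lt_succ_of_le (h1.trans (Nat.mul_le_mul h2 h3))
  have key : PT (fun q : Dm (fun x => k x + 1) => sz q.1.1) (fun q => q.1.2 :: E q.1.1)
      (fun q => UMG.Eint (w q.1.1) (l q.1.1) q.1.2) := by
    refine PT.covrec' (g := fun x i => UMG.Eint (w x) (l x) i) hn hnb hB hg ?_
    have htab := PT.tab (g := fun x i => UMG.Eint (w x) (l x) i) hnb hB hg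
    have hi := (PT.dmi (E := E) hnb).tail (fun q : Dm (fun x => k x + 1) =>
      UMG.pk (B q.1.1) q.1.2 (UMG.Eint (w q.1.1) (l q.1.1)))
    refine PT.ite' (PD.eq hi (PT.const 0)) ?_ ?_
    · refine (PT.const 1).congr fun q => ?_
      have h1 : q.1.1.2 = 0 := q.2
      simp only [h1, UMG.Eint]
    · -- `Z`: situations with `i ≠ 0`
      let Z : Type := {q : Dm (fun x => k x + 1) // ¬ q.1.2 = 0}
      have hZ : ∀ z : Z, ∃ i, z.1.1.2 = i + 1 ∧ i + 1 ≤ k z.1.1.1 := by
        intro z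
        have h1 := z.2
        have h2 := z.1.2
        simp only at h1 h2
        exact ⟨z.1.1.2 - 1, by omega, by omega⟩
      have hiZ : PT (fun z : Z => sz z.1.1.1)
          (fun z => UMG.pk (B z.1.1.1) z.1.1.2 (UMG.Eint (w z.1.1.1) (l z.1.1.1)) ::
            z.1.1.2 :: E z.1.1.1) (fun z => z.1.1.2) := hi.comp (fun z : Z => z.1)
      have hizb : PB (fun z : Z => sz z.1.1.1) (fun z => z.1.1.2) :=
        (PB.dmi hnb).comp (fun z : Z => z.1)
      -- the inner loop
      let D : Type := Dm (fun z : Z => z.1.1.2)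
      have ht : PT (fun q : D => sz q.1.1.1.1.1) (fun q => q.1.2 ::
          UMG.pk (B q.1.1.1.1.1) q.1.1.1.1.2 (UMG.Eint (w q.1.1.1.1.1) (l q.1.1.1.1.1)) ::
            q.1.1.1.1.2 :: E q.1.1.1.1.1) (fun q => q.1.2) :=
        PT.dmi (E := fun z : Z => UMG.pk (B z.1.1.1) z.1.1.2 (UMG.Eint (w z.1.1.1)
          (l z.1.1.1)) :: z.1.1.2 :: E z.1.1.1) hizb
      have hti : PT (fun q : D => sz q.1.1.1.1.1) (fun q => q.1.2 ::
          UMG.pk (B q.1.1.1.1.1) q.1.1.1.1.2 (UMG.Eint (w q.1.1.1.1.1) (l q.1.1.1.1.1)) ::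
            q.1.1.1.1.2 :: E q.1.1.1.1.1) (fun q => q.1.1.1.1.2) := hiZ.dm
      have hold : ∀ f : X → ℕ, PT sz E f → PT (fun q : D => sz q.1.1.1.1.1) (fun q => q.1.2 ::
          UMG.pk (B q.1.1.1.1.1) q.1.1.1.1.2 (UMG.Eint (w q.1.1.1.1.1) (l q.1.1.1.1.1)) ::
            q.1.1.1.1.2 :: E q.1.1.1.1.1) (fun q => f q.1.1.1.1.1) := fun f hf =>
        PT.old hf (fun q : D => q.1.1.1.1.1) (A := fun q => [q.1.2,
          UMG.pk (B q.1.1.1.1.1) q.1.1.1.1.2 (UMG.Eint (w q.1.1.1.1.1) (l q.1.1.1.1.1)),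
            q.1.1.1.1.2]) (a := 3) fun _ => rfl
      have hsum : PT (fun z : Z => sz z.1.1.1)
          (fun z => UMG.pk (B z.1.1.1) z.1.1.2 (UMG.Eint (w z.1.1.1) (l z.1.1.1)) ::
            z.1.1.2 :: E z.1.1.1)
          (fun z => ∑ t ∈ range z.1.1.2, (z.1.1.2 - 1).descFactorial t *
            w z.1.1.1 (l z.1.1.1 * (t + 1)) *
              UMG.Eint (w z.1.1.1) (l z.1.1.1) (z.1.1.2 - 1 - t)) := by
        refine PT.sum (f := fun (z : Z) t => (z.1.1.2 - 1).descFactorial t *
            w z.1.1.1 (l z.1.1.1 * (t + 1)) *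
              UMG.Eint (w z.1.1.1) (l z.1.1.1) (z.1.1.2 - 1 - t)) hiZ hizb ?_
        have p1 : PT (fun q : D => sz q.1.1.1.1.1) (fun q => q.1.2 ::
          UMG.pk (B q.1.1.1.1.1) q.1.1.1.1.2 (UMG.Eint (w q.1.1.1.1.1) (l q.1.1.1.1.1)) ::
            q.1.1.1.1.2 :: E q.1.1.1.1.1)
            (fun q => (q.1.1.1.1.2 - 1).descFactorial q.1.2) :=
          (hti.sub (PT.const 1)).descFactorial ht (PB.dmi hizb)
        have p2 : PT (fun q : D => sz q.1.1.1.1.1) (fun q => q.1.2 ::
          UMG.pk (B q.1.1.1.1.1) q.1.1.1.1.2 (UMG.Eint (w q.1.1.1.1.1) (l q.1.1.1.1.1)) ::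
            q.1.1.1.1.2 :: E q.1.1.1.1.1)
            (fun q => w q.1.1.1.1.1 (l q.1.1.1.1.1 * (q.1.2 + 1))) := by
          refine PT.use hw (fun q : D => q.1.1.1.1.1) (A := fun q => [q.1.2,
            UMG.pk (B q.1.1.1.1.1) q.1.1.1.1.2 (UMG.Eint (w q.1.1.1.1.1) (l q.1.1.1.1.1)),
              q.1.1.1.1.2]) (a := 3) (fun _ => rfl)
            (i := fun q => l q.1.1.1.1.1 * (q.1.2 + 1))
            ((hold l hl).mul (ht.add (PT.const 1))) fun q => ?_
          obtain ⟨i, hi1, hi2⟩ := hZ q.1.1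
          have h3 := q.2
          simp only at h3
          exact lt_of_le_of_lt (Nat.mul_le_mul_left _ (by omega)) (hlk q.1.1.1.1.1)
        have p3 : PT (fun q : D => sz q.1.1.1.1.1) (fun q => q.1.2 ::
          UMG.pk (B q.1.1.1.1.1) q.1.1.1.1.2 (UMG.Eint (w q.1.1.1.1.1) (l q.1.1.1.1.1)) ::
            q.1.1.1.1.2 :: E q.1.1.1.1.1)
            (fun q => UMG.Eint (w q.1.1.1.1.1) (l q.1.1.1.1.1) (q.1.1.1.1.2 - 1 - q.1.2)) := by
          refine PT.rdpk (m := fun q : D => q.1.1.1.1.2)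
            (g := fun q i => UMG.Eint (w q.1.1.1.1.1) (l q.1.1.1.1.1) i)
            (hold B hB) ((htab.comp (fun z : Z => z.1)).dm) ((hti.sub (PT.const 1)).sub ht)
            ((hizb.comp (fun q : D => q.1.1)).mono fun q => by omega) (fun q => ?_)
            (fun q i hi => hg q.1.1.1.1.1 i (hi.trans q.1.1.1.2))
          obtain ⟨i, hi1, hi2⟩ := hZ q.1.1
          omega
        exact (p1.mul p2).mul p3
      refine hsum.congr fun z => ?_
      obtain ⟨i, hi1, hi2⟩ := hZ z
      simp only [hi1, Nat.add_sub_cancel]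
      exact Eint_succ _ _ _
  exact key.app (g := fun x i => UMG.Eint (w x) (l x) i) hk fun x => Nat.lt_succ_self _

end

end Pool.Agent.UMG
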