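import Pool.Agent.UMG.Kit4

/-!
# Squad UMG, block C: the numbers `Aint`
-/

set_option autoImplicit false

namespace Pool.Agent.UMG

open Finset

theorem Aint_nil (w : ℕ → ℕ) : Aint w [] = 1 := by rw [Aint]

theorem Aint_cons (w : ℕ → ℕ) (k : ℕ) (t : List ℕ) : Aint w (k :: t) =
    ∑ i ∈ range (t.count k + 1), (t.count k).descFactorial i * k.factorial ^ i *
      Eint w (i + 1) k * Aint w (t.drop i) := by
  rw [Aint]
  simp only [Nat.cast_id]

theorem count_mul_le (L : List ℕ) (k : ℕ) : L.count k * k ≤ L.sum := by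
  induction L with
  | nil => simp
  | cons a L ih =>
    rw [List.sum_cons]
    by_cases h : a = k
    · subst h
      rw [List.count_cons_self, Nat.add_mul]
      omega
    · rw [List.count_cons_of_ne h]
      omega

theorem drop_eq_cons {L : List ℕ} {v : ℕ} (h : v < L.length) :
    L.drop v = L.getD v 0 :: L.drop (v + 1) := by
  rw [List.drop_eq_getElem_cons h, List.getD_eq_getElem _ _ h]

theorem mul_le_sum {L : List ℕ} {v i : ℕ} (h : v < L.length)
    (hi : i ≤ (L.drop (v + 1)).count (L.getD v 0)) : (i + 1) * L.getD v 0 ≤ L.sum := by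
  have h1 : (L.drop v).count (L.getD v 0) ≤ L.count (L.getD v 0) :=
    (List.drop_sublist v L).count_le _
  rw [drop_eq_cons h, List.count_cons_self] at h1
  exact (Nat.mul_le_mul_right _ (by omega)).trans (count_mul_le L _)

/-- a bound for one step of the recursion -/
def ab (w : ℕ → ℕ) (N n : ℕ) : ℕ :=
  (n + 1) * (n.factorial * N.factorial ^ n * (N.factorial * wb w N ^ N))

theorem ab_pos (w : ℕ → ℕ) (N n : ℕ) : 0 < ab w N n := by
  unfold ab wb
  positivity

theorem descF_le {c i n : ℕ} (hi : i ≤ c) (hc : c ≤ n) : c.descFactorial i ≤ n.factorial := by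
  have h1 := Nat.factorial_mul_descFactorial hi
  have h2 : 1 ≤ (c - i).factorial := Nat.factorial_pos _
  calc c.descFactorial i ≤ (c - i).factorial * c.descFactorial i := by nlinarith
    _ = c.factorial := h1
    _ ≤ n.factorial := Nat.factorial_le hc

theorem wb_pos (w : ℕ → ℕ) (N : ℕ) : 0 < wb w N := by unfold wb; omega

theorem Aint_le {w : ℕ → ℕ} {N : ℕ} {d : List ℕ} (hN : d.sum < N) : ∀ s ≤ d.length,
    Aint w (d.drop (d.length - s)) ≤ ab w N d.length ^ s := by
  intro s
  induction s using Nat.strong_induction_on with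
  | _ s ih =>
    intro hs
    cases s with
    | zero => simp [Aint_nil]
    | succ s =>
      have hv : d.length - (s + 1) < d.length := by omega
      rw [drop_eq_cons hv, Aint_cons]
      set v := d.length - (s + 1) with hvdef
      set k := d.getD v 0 with hk
      set t := d.drop (v + 1) with ht
      have htl : t.length = s := by
        rw [ht, List.length_drop]
        omega
      have hc : t.count k ≤ s := by
        rw [← htl]
        exact List.count_le_length
      have h1 : ∀ i ∈ range (t.count k + 1), (t.count k).descFactorial i * k.factorial ^ i *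
          Eint w (i + 1) k * Aint w (t.drop i) ≤
          d.length.factorial * N.factorial ^ d.length * (N.factorial * wb w N ^ N) *
            ab w N d.length ^ s := by
        intro i hi
        rw [Finset.mem_range] at hi
        have hik : (i + 1) * k ≤ d.sum := mul_le_sum hv (show i ≤ t.count k by omega)
        have hkN : k ≤ N := by nlinarith
        have e1 : (t.count k).descFactorial i ≤ d.length.factorial :=
          descF_le (by omega) (by omega)
        have e2 : k.factorial ^ i ≤ N.factorial ^ d.length :=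
          (Nat.pow_le_pow_left (Nat.factorial_le hkN) i).trans
            (Nat.pow_le_pow_right (Nat.factorial_pos _) (by omega))
        have e3 : Eint w (i + 1) k ≤ N.factorial * wb w N ^ N := by
          refine (Eint_le (N := N) (by omega : (i + 1) * k < N) k le_rfl).trans ?_
          exact Nat.mul_le_mul (Nat.factorial_le hkN)
            (Nat.pow_le_pow_right (wb_pos w N) hkN)
        have e4 : Aint w (t.drop i) ≤ ab w N d.length ^ s := by
          have h2 : t.drop i = d.drop (d.length - (s - i)) := by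
            rw [ht, List.drop_drop]
            congr 1
            omega
          rw [h2]
          refine (ih (s - i) (by omega) (by omega)).trans ?_
          exact Nat.pow_le_pow_right (ab_pos w N _) (by omega)
        exact Nat.mul_le_mul (Nat.mul_le_mul (Nat.mul_le_mul e1 e2) e3) e4
      refine (Finset.sum_le_sum h1).trans ?_
      rw [Finset.sum_const, Finset.card_range, smul_eq_mul]
      calc (t.count k + 1) * (d.length.factorial * N.factorial ^ d.length *
            (N.factorial * wb w N ^ N) * ab w N d.length ^ s)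
          ≤ (d.length + 1) * (d.length.factorial * N.factorial ^ d.length *
            (N.factorial * wb w N ^ N) * ab w N d.length ^ s) :=
            Nat.mul_le_mul_right _ (by omega)
        _ = ab w N d.length ^ (s + 1) := by
            rw [pow_succ, ab]
            ring

section

variable {X Y : Type} {sz : X → ℕ} {E : X → List ℕ}

theorem PT.ab {w : X → ℕ → ℕ} {N n : X → ℕ} (hN : PT sz E N) (hNb : PB sz N)
    (hw : PT (fun q : Dm N => sz q.1.1) (fun q => q.1.2 :: E q.1.1) (fun q => w q.1.1 q.1.2))
    (hn : PT sz E n) (hnb : PB sz n) : PT sz E (fun x => UMG.ab (w x) (N x) (n x)) :=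
  (hn.add (PT.const 1)).mul (((hn.factorial hnb).mul ((hN.factorial hNb).pow hn hnb)).mul
    ((hN.factorial hNb).mul ((PT.wb hN hNb hw).pow hN hNb)))

/-- the values `Aint w (d.drop (n - s))`, `s ≤ n` -/
theorem PT.AintS {w : X → ℕ → ℕ} {N : X → ℕ} {d : X → List ℕ} (hN : PT sz E N) (hNb : PB sz N)
    (hw : PT (fun q : Dm N => sz q.1.1) (fun q => q.1.2 :: E q.1.1) (fun q => w q.1.1 q.1.2))
    (hd : PL sz E d) (hdN : ∀ x, (d x).sum < N x) :
    PT (fun q : Dm (fun x => (d x).length + 1) => sz q.1.1) (fun q => q.1.2 :: E q.1.1)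
      (fun q => Aint (w q.1.1) ((d q.1.1).drop ((d q.1.1).length - q.1.2))) := by
  have hn : PT sz E (fun x => (d x).length + 1) := hd.len.add (PT.const 1)
  have hnb : PB sz (fun x => (d x).length + 1) := hd.lenb.add (PB.const 1)
  let g : X → ℕ → ℕ := fun x s => Aint (w x) ((d x).drop ((d x).length - s))
  let B : X → ℕ := fun x => UMG.ab (w x) (N x) (d x).length ^ (d x).length + 1
  have hB : PT sz E B := ((PT.ab hN hNb hw hd.len hd.lenb).pow hd.len hd.lenb).add (PT.const 1)
  have hg : ∀ x, ∀ i < (d x).length + 1, g x i < B x := by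
    intro x i hi
    have h1 := Aint_le (w := w x) (hdN x) i (by omega)
    have h2 : UMG.ab (w x) (N x) (d x).length ^ i ≤ UMG.ab (w x) (N x) (d x).length ^ (d x).length :=
      Nat.pow_le_pow_right (ab_pos _ _ _) (by omega)
    exact Nat.lt_succ_of_le (h1.trans h2)
  refine PT.covrec' (g := g) hn hnb hB hg ?_
  have htab := PT.tab (g := g) hnb hB hg
  have hi := (PT.dmi (E := E) hnb).tail (fun q : Dm (fun x => (d x).length + 1) =>
      UMG.pk (B q.1.1) q.1.2 (g q.1.1))
  refine PT.ite' (PD.eq hi (PT.const 0)) ?_ ?_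
  · refine (PT.const 1).congr fun q => ?_
    have h1 : q.1.1.2 = 0 := q.2
    simp only [g, h1, Nat.sub_zero, List.drop_length, Aint_nil]
  · let Z : Type := {q : Dm (fun x => (d x).length + 1) // ¬ q.1.2 = 0}
    have hZ : ∀ z : Z, ∃ s, z.1.1.2 = s + 1 ∧ s + 1 ≤ (d z.1.1.1).length := by
      intro z
      have h1 : ¬ z.1.1.2 = 0 := z.2
      have h2 : z.1.1.2 < (d z.1.1.1).length + 1 := z.1.2
      exact ⟨z.1.1.2 - 1, by omega, by omega⟩
    let AZ : Z → List ℕ := fun z => [UMG.pk (B z.1.1.1) z.1.1.2 (g z.1.1.1), z.1.1.2]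
    let EZ : Z → List ℕ := fun z => AZ z ++ E z.1.1.1
    let sZ : Z → ℕ := fun z => sz z.1.1.1
    have hiZ : PT sZ EZ (fun z => z.1.1.2) := hi.comp (fun z : Z => z.1)
    have htabZ : PT sZ EZ (fun z => UMG.pk (B z.1.1.1) z.1.1.2 (g z.1.1.1)) :=
      htab.comp (fun z : Z => z.1)
    have hizb : PB sZ (fun z : Z => z.1.1.2) := (PB.dmi hnb).comp (fun z : Z => z.1)
    have hdZ : PL sZ EZ (fun z => d z.1.1.1) :=
      PL.old hd (fun z : Z => z.1.1.1) (A := AZ) (a := 2) fun _ => rfl
    -- the position, the degree, the number of the other vertices of the same degree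
    let vv : Z → ℕ := fun z => (d z.1.1.1).length - z.1.1.2
    let kk : Z → ℕ := fun z => (d z.1.1.1).getD (vv z) 0
    let cc : Z → ℕ := fun z => ((d z.1.1.1).drop (vv z + 1)).count (kk z)
    have hvv : PT sZ EZ vv := hdZ.len.sub hiZ
    have hkk : PT sZ EZ kk := hdZ.getD hvv
    have hcc : PT sZ EZ cc := (hdZ.drop (hvv.add (PT.const 1))).count hkk
    have hccb : PB sZ cc := hdZ.lenb.mono fun z => by
      refine List.count_le_length.trans ?_
      rw [List.length_drop]
      omega
    have hvlt : ∀ z : Z, vv z < (d z.1.1.1).length := by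
      intro z
      obtain ⟨s, h1, h2⟩ := hZ z
      show (d z.1.1.1).length - z.1.1.2 < _
      omega
    have hNZ : PT sZ EZ (fun z => N z.1.1.1) :=
      PT.old hN (fun z : Z => z.1.1.1) (A := AZ) (a := 2) fun _ => rfl
    have hNZb : PB sZ (fun z : Z => N z.1.1.1) := hNb.comp (fun z : Z => z.1.1.1)
    have hkkb : PB sZ kk := hNZb.mono fun z => by
      have h1 := mul_le_sum (hvlt z) (i := 0) (Nat.zero_le _)
      have h2 := hdN z.1.1.1
      rw [zero_add, one_mul] at h1
      exact (h1.trans h2.le)
    have hBZ : PT sZ EZ (fun z => B z.1.1.1) :=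
      PT.old hB (fun z : Z => z.1.1.1) (A := AZ) (a := 2) fun _ => rfl
    -- the inner loop
    have hsum : PT sZ EZ (fun z => ∑ i ∈ range (cc z + 1), (cc z).descFactorial i *
        (kk z).factorial ^ i * UMG.Eint (w z.1.1.1) (i + 1) (kk z) *
          g z.1.1.1 (z.1.1.2 - 1 - i)) := by
      have hc1 : PT sZ EZ (fun z => cc z + 1) := hcc.add (PT.const 1)
      have hc1b : PB sZ (fun z => cc z + 1) := hccb.add (PB.const 1)
      refine PT.sum (c := fun z : Z => cc z + 1) (f := fun z i => (cc z).descFactorial i *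
        (kk z).factorial ^ i * UMG.Eint (w z.1.1.1) (i + 1) (kk z) *
          g z.1.1.1 (z.1.1.2 - 1 - i)) hc1 hc1b ?_
      let D : Type := Dm (fun z : Z => cc z + 1)
      have ht : PT (fun q : D => sZ q.1.1) (fun q => q.1.2 :: EZ q.1.1) (fun q => q.1.2) :=
        PT.dmi hc1b
      have htb : PB (fun q : D => sZ q.1.1) (fun q => q.1.2) := PB.dmi hc1b
      have hq : ∀ q : D, q.1.2 ≤ cc q.1.1 := fun q => Nat.lt_succ_iff.1 q.2
      have p1 : PT (fun q : D => sZ q.1.1) (fun q => q.1.2 :: EZ q.1.1)
          (fun q => (cc q.1.1).descFactorial q.1.2) := hcc.dm.descFactorial ht htb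
      have p2 : PT (fun q : D => sZ q.1.1) (fun q => q.1.2 :: EZ q.1.1)
          (fun q => (kk q.1.1).factorial ^ q.1.2) :=
        (hkk.dm.factorial (PB.dm hkkb)).pow ht htb
      have p3 : PT (fun q : D => sZ q.1.1) (fun q => q.1.2 :: EZ q.1.1)
          (fun q => UMG.Eint (w q.1.1.1.1.1) (q.1.2 + 1) (kk q.1.1)) := by
        refine PT.Eint (X := D) (w := fun q => w q.1.1.1.1.1) (N := fun q => N q.1.1.1.1.1)
          (l := fun q => q.1.2 + 1) (k := fun q => kk q.1.1) hNZ.dm (PB.dm hNZb) ?_
          (ht.add (PT.const 1)) hkk.dm (PB.dm hkkb) fun q => ?_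
        · exact PT.use1 (c := N) (g := w) (Y := D) hw (fun q : D => q.1.1.1.1.1)
            (A := fun q => q.1.2 :: AZ q.1.1) (a := 3) (fun _ => rfl)
            (c' := fun q => N q.1.1.1.1.1) fun _ => le_rfl
        · exact lt_of_le_of_lt (mul_le_sum (hvlt q.1.1) (hq q)) (hdN q.1.1.1.1.1)
      have p4 : PT (fun q : D => sZ q.1.1) (fun q => q.1.2 :: EZ q.1.1)
          (fun q => g q.1.1.1.1.1 (q.1.1.1.1.2 - 1 - q.1.2)) := by
        refine PT.rdpk (m := fun q : D => q.1.1.1.1.2)
          (g := fun q i => g q.1.1.1.1.1 i) hBZ.dm htabZ.dm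
          ((hiZ.dm.sub (PT.const 1)).sub ht)
          ((PB.dm hizb).mono fun q => by omega) (fun q => ?_)
          (fun q i hi => hg q.1.1.1.1.1 i (hi.trans q.1.1.1.2))
        obtain ⟨i, hi1, hi2⟩ := hZ q.1.1
        omega
      exact ((p1.mul p2).mul p3).mul p4
    refine hsum.congr fun z => ?_
    obtain ⟨s, hs1, hs2⟩ := hZ z
    show Aint (w z.1.1.1) ((d z.1.1.1).drop ((d z.1.1.1).length - z.1.1.2)) = _
    have h1 := hvlt z
    rw [show (d z.1.1.1).length - z.1.1.2 = vv z from rfl, drop_eq_cons h1, Aint_cons]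
    refine Finset.sum_congr rfl fun i hi => ?_
    rw [Finset.mem_range] at hi
    have h2 : i ≤ s := by
      have h3 : cc z ≤ (d z.1.1.1).length - (vv z + 1) := by
        refine List.count_le_length.trans ?_
        rw [List.length_drop]
      have h4 : vv z = (d z.1.1.1).length - z.1.1.2 := rfl
      have h5 : i < cc z + 1 := hi
      omega
    congr 2
    show _ = (d z.1.1.1).drop ((d z.1.1.1).length - (z.1.1.2 - 1 - i))
    rw [List.drop_drop]
    congr 1
    have h4 : vv z = (d z.1.1.1).length - z.1.1.2 := rfl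
    omega

/-- the total weight of the vertices behind the first `v` -/
theorem PT.Aint {w : X → ℕ → ℕ} {N v : X → ℕ} {d : X → List ℕ} (hN : PT sz E N) (hNb : PB sz N)
    (hw : PT (fun q : Dm N => sz q.1.1) (fun q => q.1.2 :: E q.1.1) (fun q => w q.1.1 q.1.2))
    (hd : PL sz E d) (hdN : ∀ x, (d x).sum < N x) (hv : PT sz E v) :
    PT sz E (fun x => UMG.Aint (w x) ((d x).drop (v x))) := by
  have h1 := PT.AintS hN hNb hw hd hdN
  have h2 : PT sz E (fun x => (d x).length - v x) := hd.len.sub hv
  refine (PT.app (c := fun x => (d x).length + 1)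
    (g := fun x s => UMG.Aint (w x) ((d x).drop ((d x).length - s))) h1 h2
    fun x => by omega).congr fun x => ?_
  rcases Nat.lt_or_ge (v x) (d x).length with h | h
  · congr 2
    omega
  · rw [List.drop_eq_nil_of_le h]
    rw [show (d x).length - v x = 0 by omega, Nat.sub_zero, List.drop_length]

end

end Pool.Agent.UMG
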