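import Pool.Agent.UMG.CStmts

/-!
# Squad UMG, block C: the integer fields
-/

set_option autoImplicit false

namespace Pool.Agent.UMG

open Finset

theorem pick_eq (m : ℕ) (w : ℕ → ℕ) (u : ℕ) : pick m w u = uidx w m u := by
  unfold pick uidx
  rw [Finset.card_filter]

section

variable {X Y : Type} {sz : X → ℕ} {E : X → List ℕ}

theorem PT.pick {n u : X → ℕ} {w : X → ℕ → ℕ} (hn : PT sz E n) (hnb : PB sz n)
    (hu : PT sz E u) (hw : Fn sz E n w) : PT sz E (fun x => UMG.pick (n x) (w x) (u x)) :=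
  (PT.uidx hn hnb hu hw).congr fun _ => pick_eq _ _ _

theorem PT.cum {n i : X → ℕ} {w : X → ℕ → ℕ} (hi : PT sz E i) (hib : PB sz i)
    (hin : ∀ x, i x ≤ n x) (hw : Fn sz E n w) : PT sz E (fun x => UMG.cum (w x) (i x)) :=
  PT.psum hi hib hin hw

theorem PT.dg {M g j : X → ℕ} (hM : PT sz E M) (hg : PT sz E g) (hj : PT sz E j)
    (hjb : PB sz j) : PT sz E (fun x => UMG.dg (M x) (g x) (j x)) :=
  (hg.div ((hM.add (PT.const 1)).pow hj hjb)).mod (hM.add (PT.const 1))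

theorem dg_lt (M g j : ℕ) : dg M g j < M + 1 := Nat.mod_lt _ (Nat.succ_pos M)

theorem PB.dg {M g j : X → ℕ} (hMb : PB sz M) : PB sz (fun x => UMG.dg (M x) (g x) (j x)) :=
  hMb.mono fun _ => Nat.lt_succ_iff.1 (dg_lt _ _ _)

theorem PT.Bn {M j i : X → ℕ} (hM : PT sz E M) (hMb : PB sz M) (hj : PT sz E j) (hjb : PB sz j)
    (hi : PT sz E i) (hib : PB sz i) : PT sz E (fun x => UMG.Bn (M x) (j x) (i x)) := by
  have h1 : PT sz E (fun x => (M x + 1) ^ 2 * j x * i x) :=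
    (((hM.add (PT.const 1)).pow (PT.const 2) (PB.const 2)).mul hj).mul hi
  have h2 : PB sz (fun x => (M x + 1) ^ 2 * j x * i x) :=
    (((hMb.add (PB.const 1)).pow 2).mul hjb).mul hib
  exact (((PT.const 2).mul (h1.sqrt h2)).add (PT.const 2)).add
    (PT.ite (PD.dvd 2 hj) (hM.add (PT.const 1)) (PT.const 0))

theorem PT.be {M : X → ℕ} (hM : PT sz E M) (hMb : PB sz M) :
    PT sz E (fun x => UMG.be (M x)) := (hM.sqrt hMb).add (PT.const 2)

theorem PT.fX (K : ℕ) {M g j : X → ℕ} (hM : PT sz E M) (hMb : PB sz M) (hg : PT sz E g)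
    (hj : PT sz E j) (hjb : PB sz j) : PT sz E (fun x => UMG.fX (M x) K (g x) (j x)) := by
  have hj1 : PT sz E (fun x => j x - 1) := hj.sub (PT.const 1)
  have hj1b : PB sz (fun x => j x - 1) := hjb.mono fun _ => Nat.sub_le _ _
  have h2M : PT sz E (fun x => 2 * (M x + 1)) := (PT.const 2).mul (hM.add (PT.const 1))
  refine PT.ite (P := fun x => j x ≤ K) (PD.le hj (PT.const K)) ?_ ?_
  · exact (h2M.pow hj1 hj1b).mul (PT.Bn hM hMb hj hjb ((hM.dg hg hj1 hj1b).add (PT.const 1))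
      ((PB.dg hMb).add (PB.const 1)))
  · exact (h2M.pow hj hjb).mul (PT.be hM hMb)

theorem PT.WW {M j : X → ℕ} (hM : PT sz E M) (hMb : PB sz M) (hj : PT sz E j) (hjb : PB sz j) :
    PT sz E (fun x => UMG.WW (M x) (j x)) := by
  have h1 : PT sz E (fun x => M x + 1) := hM.add (PT.const 1)
  have h1b : PB sz (fun x => M x + 1) := hMb.add (PB.const 1)
  refine PT.prod (f := fun x b => UMG.Bn (M x) (j x) (b + 1) ^ b) h1 h1b ?_
  exact (PT.Bn hM.dm (PB.dm hMb) hj.dm (PB.dm hjb) ((PT.dmi h1b).add (PT.const 1))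
    ((PB.dmi h1b).add (PB.const 1))).pow (PT.dmi h1b) (PB.dmi h1b)

theorem PT.coef {M j b : X → ℕ} (hM : PT sz E M) (hMb : PB sz M) (hj : PT sz E j)
    (hjb : PB sz j) (hb : PT sz E b) (hbb : PB sz b) :
    PT sz E (fun x => UMG.coef (M x) (j x) (b x)) := by
  have h1 : PT sz E (fun x => M x + 1) := hM.add (PT.const 1)
  have h1b : PB sz (fun x => M x + 1) := hMb.add (PB.const 1)
  refine PT.mul ?_ ?_
  · refine PT.prod (f := fun x i => UMG.Bn (M x) (j x) (i + 1)) hb hbb ?_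
    exact PT.Bn hM.dm (PB.dm hMb) hj.dm (PB.dm hjb) ((PT.dmi hbb).add (PT.const 1))
      ((PB.dmi hbb).add (PB.const 1))
  · refine PT.prod (f := fun x b' => if b' = b x then 1 else UMG.Bn (M x) (j x) (b' + 1) ^ b')
      h1 h1b ?_
    exact PT.ite (P := fun q : Dm (fun x => M x + 1) => q.1.2 = b q.1.1)
      (PD.eq (PT.dmi h1b) hb.dm) (PT.const 1)
      ((PT.Bn hM.dm (PB.dm hMb) hj.dm (PB.dm hjb) ((PT.dmi h1b).add (PT.const 1))
        ((PB.dmi h1b).add (PB.const 1))).pow (PT.dmi h1b) (PB.dmi h1b))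

theorem PT.cfg (K : ℕ) {M g : X → ℕ} (hM : PT sz E M) (hMb : PB sz M) (hg : PT sz E g) :
    PT sz E (fun x => UMG.cfg (M x) K (g x)) := by
  have hKb : PB sz (fun _ => K) := PB.const K
  refine PT.prod (c := fun _ => K) (f := fun x j => UMG.coef (M x) (j + 1) (UMG.dg (M x) (g x) j))
    (PT.const K) hKb ?_
  exact PT.coef hM.dm (PB.dm hMb) ((PT.dmi hKb).add (PT.const 1)) ((PB.dmi hKb).add (PB.const 1))
    (PT.dg hM.dm hg.dm (PT.dmi hKb) (PB.dmi hKb)) (PB.dg (PB.dm hMb))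

theorem PT.Xb {M j b : X → ℕ} (hM : PT sz E M) (hMb : PB sz M) (hj : PT sz E j)
    (hjb : PB sz j) (hb : PT sz E b) (hbb : PB sz b) :
    PT sz E (fun x => UMG.Xb (M x) (j x) (b x)) :=
  (((PT.const 2).mul (hM.add (PT.const 1))).pow (hj.sub (PT.const 1))
    (hjb.mono fun _ => Nat.sub_le _ _)).mul
    (PT.Bn hM hMb hj hjb (hb.add (PT.const 1)) (hbb.add (PB.const 1)))

end

end Pool.Agent.UMG
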