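import Pool.Agent.UMG.Kit7

/-!
# Squad UMG, block C: the program for `unE`
-/

set_option autoImplicit false

namespace Pool.Agent.UMG

open Finset

section

variable {X Y : Type} {sz : X → ℕ} {E : X → List ℕ}

theorem Fn.old {N : X → ℕ} {w : X → ℕ → ℕ} (hw : Fn sz E N w) (φ : Y → X) {A : Y → List ℕ}
    {a : ℕ} (hA : ∀ y, (A y).length = a) :
    Fn (fun y => sz (φ y)) (fun y => A y ++ E (φ y)) (fun y => N (φ y)) (fun y => w (φ y)) :=
  PT.use1 hw φ hA fun _ => le_rfl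

theorem Fn.comp {N : X → ℕ} {w : X → ℕ → ℕ} (hw : Fn sz E N w) (φ : Y → X) :
    Fn (fun y => sz (φ y)) (fun y => E (φ y)) (fun y => N (φ y)) (fun y => w (φ y)) :=
  PT.comp (X := Dm N) hw
    (fun q : Dm (fun y => N (φ y)) => (⟨(φ q.1.1, q.1.2), q.2⟩ : Dm N))

theorem Fn.dm {N c : X → ℕ} {w : X → ℕ → ℕ} (hw : Fn sz E N w) :
    Fn (fun q : Dm c => sz q.1.1) (fun q => q.1.2 :: E q.1.1) (fun q => N q.1.1)
      (fun q => w q.1.1) :=
  Fn.old hw (fun q : Dm c => q.1.1) (A := fun q => [q.1.2]) (a := 1) fun _ => rfl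

theorem Fn.app {N i : X → ℕ} {w : X → ℕ → ℕ} (hw : Fn sz E N w) (hi : PT sz E i)
    (hiN : ∀ x, i x < N x) : PT sz E (fun x => w x (i x)) :=
  PT.app (g := w) hw hi hiN

theorem PL.dm {c : X → ℕ} {L : X → List ℕ} (h : PL sz E L) :
    PL (fun q : Dm c => sz q.1.1) (fun q => q.1.2 :: E q.1.1) (fun q => L q.1.1) :=
  PL.old h (fun q : Dm c => q.1.1) (A := fun q => [q.1.2]) (a := 1) fun _ => rfl

/-- empty list or one entry -/
theorem PL.opt {P : X → Prop} [DecidablePred P] {a : X → ℕ} (hP : PD sz E P)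
    (ha : PT sz E a) : PL sz E (fun x => if P x then [] else [a x]) := by
  classical
  have hn : PT sz E (fun x => if P x then 0 else 1) := PT.ite hP (PT.const 0) (PT.const 1)
  have hnb : PB sz (fun x => if P x then 0 else 1) := (PB.const 1).mono fun x => by
    split_ifs <;> omega
  refine (PL.ofFn (g := fun x _ => a x) hn hnb ha.dm).congr fun x => ?_
  split_ifs <;> rfl

theorem sum_vE (x : ℕ → ℕ) (l A k W : ℕ) :
    ∑ i ∈ range (k + 1), k.descFactorial i * vE x l A k W i = W * (Eint x l (k + 1) * A) := by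
  rw [Eint_succ, Finset.sum_mul, Finset.mul_sum]
  refine Finset.sum_congr rfl fun i _ => ?_
  unfold vE
  ring

theorem pick_spec {m : ℕ} {w : ℕ → ℕ} {u : ℕ} (hu : u < ∑ j ∈ range m, w j) :
    UMG.pick m w u < m ∧ u - UMG.cum w (UMG.pick m w u) < w (UMG.pick m w u) := by
  have h := uidx_spec hu
  rw [pick_eq]
  exact ⟨h.1, h.2.1⟩

/-- one step of `unE` -/
theorem PT.stepE {N l A k W u : X → ℕ} {w : X → ℕ → ℕ} (hN : PT sz E N) (hNb : PB sz N)
    (hw : Fn sz E N w) (hl : PT sz E l) (hA : PT sz E A) (hk : PT sz E k) (hkb : PB sz k)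
    (hW : PT sz E W) (hu : PT sz E u) (hk0 : ∀ x, k x ≠ 0) (hlk : ∀ x, l x * k x < N x)
    (hu' : ∀ x, u x < W x * (UMG.Eint (w x) (l x) (k x) * A x)) :
    PT sz E (fun x => (C.stE (w x) (l x) (A x) (k x, W x, u x)).1) ∧
    PT sz E (fun x => (C.stE (w x) (l x) (A x) (k x, W x, u x)).2.1) ∧
    PT sz E (fun x => (C.stE (w x) (l x) (A x) (k x, W x, u x)).2.2) := by
  have hi1 : PT (fun q : Dm k => sz q.1.1) (fun q => q.1.2 :: E q.1.1) (fun q => q.1.2) :=
    PT.dmi hkb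
  have hkm : PT (fun q : Dm k => sz q.1.1) (fun q => q.1.2 :: E q.1.1)
      (fun q => k q.1.1 - 1) := hk.dm.sub (PT.const 1)
  have hkmb : PB (fun q : Dm k => sz q.1.1) (fun q => k q.1.1 - 1) :=
    (PB.dm hkb).mono fun _ => Nat.sub_le _ _
  have hV : Fn sz E k (fun x i => vE (w x) (l x) (A x) (k x - 1) (W x) i) := by
    have h1 : PT (fun q : Dm k => sz q.1.1) (fun q => q.1.2 :: E q.1.1)
        (fun q => w q.1.1 (l q.1.1 * (q.1.2 + 1))) := by
      refine PT.app (X := Dm k) (c := fun q => N q.1.1) (g := fun q => w q.1.1) (Fn.dm hw)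
        (hl.dm.mul (hi1.add (PT.const 1))) fun q => ?_
      exact lt_of_le_of_lt (Nat.mul_le_mul_left _ q.2) (hlk q.1.1)
    have h2 : PT (fun q : Dm k => sz q.1.1) (fun q => q.1.2 :: E q.1.1)
        (fun q => UMG.Eint (w q.1.1) (l q.1.1) (k q.1.1 - 1 - q.1.2)) := by
      refine PT.Eint (X := Dm k) (w := fun q => w q.1.1) (N := fun q => N q.1.1)
        (l := fun q => l q.1.1) (k := fun q => k q.1.1 - 1 - q.1.2) hN.dm (PB.dm hNb)
        (Fn.dm hw) hl.dm (hkm.sub hi1) (hkmb.mono fun _ => Nat.sub_le _ _) fun q => ?_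
      exact lt_of_le_of_lt (Nat.mul_le_mul_left _ (by omega)) (hlk q.1.1)
    exact (hW.dm.mul h1).mul (h2.mul hA.dm)
  have hWt : Fn sz E k (fun x i => (k x - 1).descFactorial i *
      vE (w x) (l x) (A x) (k x - 1) (W x) i) :=
    (hkm.descFactorial hi1 (PB.dmi hkb)).mul hV
  have hi : PT sz E (fun x => UMG.pick (k x) (fun i => (k x - 1).descFactorial i *
      vE (w x) (l x) (A x) (k x - 1) (W x) i) (u x)) := PT.pick hk hkb hu hWt
  have hspec : ∀ x, UMG.pick (k x) (fun i => (k x - 1).descFactorial i *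
      vE (w x) (l x) (A x) (k x - 1) (W x) i) (u x) < k x := by
    intro x
    refine (pick_spec ?_).1
    obtain ⟨m, hm⟩ : ∃ m, k x = m + 1 := ⟨k x - 1, by have := hk0 x; omega⟩
    have h1 := hu' x
    rw [hm] at h1 ⊢
    rw [Nat.add_sub_cancel, sum_vE]
    exact h1
  have hib : PB sz (fun x => UMG.pick (k x) (fun i => (k x - 1).descFactorial i *
      vE (w x) (l x) (A x) (k x - 1) (W x) i) (u x)) := hkb.mono fun x => (hspec x).le
  refine ⟨?_, ?_, ?_⟩
  · refine ((hk.sub (PT.const 1)).sub hi).congr fun x => ?_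
    simp only [C.stE, if_neg (hk0 x)]
  · have h1 : PT sz E (fun x => w x (l x * (UMG.pick (k x) (fun i => (k x - 1).descFactorial i *
        vE (w x) (l x) (A x) (k x - 1) (W x) i) (u x) + 1))) := by
      refine PT.app hw (hl.mul (hi.add (PT.const 1))) fun x => ?_
      exact lt_of_le_of_lt (Nat.mul_le_mul_left _ (hspec x)) (hlk x)
    refine (hW.mul h1).congr fun x => ?_
    simp only [C.stE, if_neg (hk0 x)]
  · refine ((hu.sub (PT.cum hi hib (fun x => (hspec x).le) hWt)).mod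
      (Fn.app hV hi hspec)).congr fun x => ?_
    simp only [C.stE, if_neg (hk0 x)]

/-- the registers of the loop for `unE` -/
def rE (x : ℕ → ℕ) (l A : ℕ) (s : ℕ × ℕ × ℕ) (t i : ℕ) : ℕ :=
  if i = 0 then (C.sE x l A s t).1
  else if i = 1 then (C.sE x l A s t).2.1 else (C.sE x l A s t).2.2

theorem PT.rE (hueb : C.UebStmt) {N l A k W u : X → ℕ} {w : X → ℕ → ℕ} (hN : PT sz E N)
    (hNb : PB sz N) (hw : Fn sz E N w) (hl : PT sz E l) (hA : PT sz E A) (hk : PT sz E k)
    (hkb : PB sz k) (hW : PT sz E W) (hu : PT sz E u) (hlk : ∀ x, l x * k x < N x)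
    (hu' : ∀ x, u x < W x * (UMG.Eint (w x) (l x) (k x) * A x)) {i : ℕ} (hi : i < 3) :
    Fn sz E (fun x => k x + 1)
      (fun x t => UMG.rE (w x) (l x) (A x) (k x, W x, u x) t i) := by
  let s : X → ℕ → ℕ × ℕ × ℕ := fun x t => C.sE (w x) (l x) (A x) (k x, W x, u x) t
  have hs : ∀ x t, (s x t).1 ≤ k x - t ∧
      (s x t).2.1 * UMG.wb (w x) (N x) ^ (s x t).1 ≤ W x * UMG.wb (w x) (N x) ^ k x ∧
      (s x t).2.2 < (s x t).2.1 * (UMG.Eint (w x) (l x) (s x t).1 * A x) := fun x t =>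
    hueb (w x) (l x) (A x) (k x) (W x) (u x) (N x) t (hu' x) (hlk x)
  let B : X → ℕ := fun x => (k x + 1) + W x * UMG.wb (w x) (N x) ^ k x +
    W x * UMG.wb (w x) (N x) ^ k x * ((k x).factorial * UMG.wb (w x) (N x) ^ k x * A x)
  have hwk : PT sz E (fun x => UMG.wb (w x) (N x) ^ k x) := (PT.wb hN hNb hw).pow hk hkb
  have hB : PT sz E B := ((hk.add (PT.const 1)).add (hW.mul hwk)).add
    ((hW.mul hwk).mul (((hk.factorial hkb).mul hwk).mul hA))
  have hb1 : ∀ x t, (s x t).2.1 ≤ W x * UMG.wb (w x) (N x) ^ k x := fun x t =>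
    (Nat.le_mul_of_pos_right _ (pow_pos (wb_pos _ _) _)).trans (hs x t).2.1
  have hb2 : ∀ x t, (s x t).2.2 < B x := by
    intro x t
    have h1 : UMG.Eint (w x) (l x) (s x t).1 ≤ (k x).factorial * UMG.wb (w x) (N x) ^ k x := by
      have h2 : (s x t).1 ≤ k x := (hs x t).1.trans (Nat.sub_le _ _)
      refine (Eint_le (hlk x) _ h2).trans (Nat.mul_le_mul (Nat.factorial_le h2) ?_)
      exact Nat.pow_le_pow_right (wb_pos _ _) h2
    have h3 := (hs x t).2.2
    have h4 : (s x t).2.1 * (UMG.Eint (w x) (l x) (s x t).1 * A x) ≤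
        W x * UMG.wb (w x) (N x) ^ k x * ((k x).factorial * UMG.wb (w x) (N x) ^ k x * A x) :=
      Nat.mul_le_mul (hb1 x t) (Nat.mul_le_mul_right _ h1)
    show _ < (k x + 1) + W x * UMG.wb (w x) (N x) ^ k x + _
    omega
  have hab : ∀ x, ∀ t ≤ k x + 1, ∀ i < 3,
      UMG.rE (w x) (l x) (A x) (k x, W x, u x) t i < B x := by
    intro x t _ i _
    unfold UMG.rE
    split_ifs
    · have h1 : (s x t).1 ≤ k x - t := (hs x t).1
      show (s x t).1 < (k x + 1) + W x * UMG.wb (w x) (N x) ^ k x + _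
      omega
    · have h1 := hb1 x t
      show (s x t).2.1 < (k x + 1) + W x * UMG.wb (w x) (N x) ^ k x + _
      omega
    · exact hb2 x t
  refine PT.loopk' (k := 3) (c := fun x => k x + 1) (B := B)
    (a := fun x t i => UMG.rE (w x) (l x) (A x) (k x, W x, u x) t i) (hkb.add (PB.const 1)) hB
    hab ?_ ?_ hi
  · intro i hi
    interval_cases i
    · exact hk
    · exact hW
    · exact hu
  · intro i hi
    -- the environment in a round
    let D : Type := Dm (fun x => k x + 1)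
    let AD : D → List ℕ := fun q => [UMG.pk (B q.1.1) 3
      (UMG.rE (w q.1.1) (l q.1.1) (A q.1.1) (k q.1.1, W q.1.1, u q.1.1) q.1.2), q.1.2]
    have hr : ∀ i < 3, PT (fun q : D => sz q.1.1) (fun q => AD q ++ E q.1.1)
        (fun q => UMG.rE (w q.1.1) (l q.1.1) (A q.1.1) (k q.1.1, W q.1.1, u q.1.1) q.1.2 i) :=
      fun i hi => PT.reg (k := 3) (c := fun x => k x + 1) (B := B)
        (a := fun x t i => UMG.rE (w x) (l x) (A x) (k x, W x, u x) t i) hB hab hi
    have r0 : PT (fun q : D => sz q.1.1) (fun q => AD q ++ E q.1.1)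
        (fun q => (s q.1.1 q.1.2).1) := hr 0 (by norm_num)
    have r1 : PT (fun q : D => sz q.1.1) (fun q => AD q ++ E q.1.1)
        (fun q => (s q.1.1 q.1.2).2.1) := hr 1 (by norm_num)
    have r2 : PT (fun q : D => sz q.1.1) (fun q => AD q ++ E q.1.1)
        (fun q => (s q.1.1 q.1.2).2.2) := hr 2 (by norm_num)
    have hst : ∀ q : D, s q.1.1 (q.1.2 + 1) = C.stE (w q.1.1) (l q.1.1) (A q.1.1)
        (s q.1.1 q.1.2) := fun q => rfl
    -- the situations with `k ≠ 0`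
    let Z : Type := {q : D // ¬ (s q.1.1 q.1.2).1 = 0}
    let φ : Z → X := fun z => z.1.1.1
    let AZ : Z → List ℕ := fun z => AD z.1
    have step := PT.stepE (X := Z) (sz := fun z => sz (φ z)) (E := fun z => AZ z ++ E (φ z))
      (N := fun z => N (φ z)) (l := fun z => l (φ z)) (A := fun z => A (φ z))
      (k := fun z => (s (φ z) z.1.1.2).1) (W := fun z => (s (φ z) z.1.1.2).2.1)
      (u := fun z => (s (φ z) z.1.1.2).2.2) (w := fun z => w (φ z))
      (hN.old φ (A := AZ) (a := 2) fun _ => rfl) (hNb.comp φ)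
      (Fn.old hw φ (A := AZ) (a := 2) fun _ => rfl)
      (hl.old φ (A := AZ) (a := 2) fun _ => rfl) (hA.old φ (A := AZ) (a := 2) fun _ => rfl)
      (r0.comp (fun z : Z => z.1))
      ((hkb.comp φ).mono fun z => (hs (φ z) z.1.1.2).1.trans (Nat.sub_le _ _))
      (r1.comp (fun z : Z => z.1)) (r2.comp (fun z : Z => z.1))
      (fun z => z.2)
      (fun z => lt_of_le_of_lt (Nat.mul_le_mul_left _ ((hs (φ z) z.1.1.2).1.trans
        (Nat.sub_le _ _))) (hlk (φ z)))
      (fun z => (hs (φ z) z.1.1.2).2.2)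
    refine PT.ite' (P := fun q : D => (s q.1.1 q.1.2).1 = 0) (PD.eq r0 (PT.const 0)) ?_ ?_
    · refine ((hr i hi).comp
        (fun z : {q : D // (s q.1.1 q.1.2).1 = 0} => z.1)).congr fun z => ?_
      have h1 : s z.1.1.1 (z.1.1.2 + 1) = s z.1.1.1 z.1.1.2 := by
        rw [hst]
        unfold C.stE
        rw [if_pos z.2]
      have h2 : C.sE (w z.1.1.1) (l z.1.1.1) (A z.1.1.1) (k z.1.1.1, W z.1.1.1, u z.1.1.1)
          (z.1.1.2 + 1) = C.sE (w z.1.1.1) (l z.1.1.1) (A z.1.1.1)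
            (k z.1.1.1, W z.1.1.1, u z.1.1.1) z.1.1.2 := h1
      unfold UMG.rE
      rw [h2]
    · interval_cases i
      · exact step.1
      · exact step.2.1
      · exact step.2.2

/-- the recursion `unE` -/
theorem PT.unE (hues : C.UesStmt) (hueb : C.UebStmt) {N l A k W u : X → ℕ} {w : X → ℕ → ℕ}
    (hN : PT sz E N) (hNb : PB sz N) (hw : Fn sz E N w) (hl : PT sz E l) (hA : PT sz E A)
    (hk : PT sz E k) (hkb : PB sz k) (hW : PT sz E W) (hu : PT sz E u)
    (hlk : ∀ x, l x * k x < N x)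
    (hu' : ∀ x, u x < W x * (UMG.Eint (w x) (l x) (k x) * A x)) :
    PL sz E (fun x => (UMG.unE (w x) (l x) (A x) (k x) (W x) (u x)).1) ∧
    PT sz E (fun x => (UMG.unE (w x) (l x) (A x) (k x) (W x) (u x)).2.1) ∧
    PT sz E (fun x => (UMG.unE (w x) (l x) (A x) (k x) (W x) (u x)).2.2) := by
  have hr : ∀ i < 3, Fn sz E (fun x => k x + 1)
      (fun x t => UMG.rE (w x) (l x) (A x) (k x, W x, u x) t i) := fun i hi =>
    PT.rE hueb hN hNb hw hl hA hk hkb hW hu hlk hu' hi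
  have hE := fun x => hues (w x) (l x) (A x) (k x) (W x) (u x) (k x) (hu' x) le_rfl
  refine ⟨?_, ?_, ?_⟩
  · have r0 := hr 0 (by norm_num)
    have hL : PL (fun q : Dm k => sz q.1.1) (fun q => q.1.2 :: E q.1.1) (fun q =>
        if (C.sE (w q.1.1) (l q.1.1) (A q.1.1) (k q.1.1, W q.1.1, u q.1.1) q.1.2).1 = 0 then []
        else [(C.sE (w q.1.1) (l q.1.1) (A q.1.1) (k q.1.1, W q.1.1, u q.1.1) q.1.2).1 -
          (C.sE (w q.1.1) (l q.1.1) (A q.1.1) (k q.1.1, W q.1.1, u q.1.1)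
            (q.1.2 + 1)).1]) := by
      have h0 : PT (fun q : Dm k => sz q.1.1) (fun q => q.1.2 :: E q.1.1) (fun q =>
          (C.sE (w q.1.1) (l q.1.1) (A q.1.1) (k q.1.1, W q.1.1, u q.1.1) q.1.2).1) :=
        PT.dmle (c := k) (c' := fun x => k x + 1)
          (g := fun x t => UMG.rE (w x) (l x) (A x) (k x, W x, u x) t 0)
          (fun x => Nat.le_succ _) r0
      have h1 : PT (fun q : Dm k => sz q.1.1) (fun q => q.1.2 :: E q.1.1) (fun q =>
          (C.sE (w q.1.1) (l q.1.1) (A q.1.1) (k q.1.1, W q.1.1, u q.1.1)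
            (q.1.2 + 1)).1) :=
        PT.app (X := Dm k) (c := fun q => k q.1.1 + 1) (i := fun q => q.1.2 + 1)
          (g := fun q t => UMG.rE (w q.1.1) (l q.1.1) (A q.1.1) (k q.1.1, W q.1.1, u q.1.1) t 0)
          (Fn.dm r0) ((PT.dmi hkb).add (PT.const 1))
          (fun q => Nat.add_lt_add_right q.2 1)
      exact PL.opt (P := fun q : Dm k =>
        (C.sE (w q.1.1) (l q.1.1) (A q.1.1) (k q.1.1, W q.1.1, u q.1.1) q.1.2).1 = 0)
        (PD.eq h0 (PT.const 0)) (h0.sub h1)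
    refine (PL.flatMap (L := fun x t =>
      if (C.sE (w x) (l x) (A x) (k x, W x, u x) t).1 = 0 then []
      else [(C.sE (w x) (l x) (A x) (k x, W x, u x) t).1 -
        (C.sE (w x) (l x) (A x) (k x, W x, u x) (t + 1)).1]) hk hkb hL).congr fun x => ?_
    exact (hE x).1
  · refine (Fn.app (hr 1 (by norm_num)) hk fun x => Nat.lt_succ_self _).congr fun x => ?_
    rw [(hE x).2]
    rfl
  · refine (Fn.app (hr 2 (by norm_num)) hk fun x => Nat.lt_succ_self _).congr fun x => ?_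
    rw [(hE x).2]
    rfl

end

end Pool.Agent.UMG
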