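import Pool.Agent.UMG.Kit8

/-!
# Squad UMG, block C: the program for `unA`
-/

set_option autoImplicit false

namespace Pool.Agent.UMG

open Finset

/-- a list of triples of polynomial length which is computed in polynomial time -/
structure PL3 {X : Type} (sz : X → ℕ) (E : X → List ℕ) (L : X → List (ℕ × ℕ × ℕ)) : Prop where
  a : PL sz E (fun x => (L x).map (fun b => b.1))
  b : PL sz E (fun x => (L x).map (fun b => b.2.1))
  c : PL sz E (fun x => (L x).map (fun b => b.2.2))

section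

variable {X Y : Type} {sz : X → ℕ} {E : X → List ℕ}

/-- case distinction for lists -/
theorem PL.ite' {P : X → Prop} {L : X → List ℕ} (hP : PD sz E P)
    (hf : PL (fun x : {x // P x} => sz x.1) (fun x => E x.1) (fun x => L x.1))
    (hg : PL (fun x : {x // ¬ P x} => sz x.1) (fun x => E x.1) (fun x => L x.1)) :
    PL sz E L := by
  refine ⟨PT.ite' hP hf.len hg.len, ?_, ?_⟩
  · obtain ⟨C₁, h₁⟩ := hf.lenb
    obtain ⟨C₂, h₂⟩ := hg.lenb
    refine (((PB.self.add (PB.const 2)).pow C₁).add ((PB.self.add (PB.const 2)).pow C₂)).mono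
      fun x => ?_
    by_cases hx : P x
    · exact (h₁ ⟨x, hx⟩).trans (Nat.le_add_right _ _)
    · exact (h₂ ⟨x, hx⟩).trans (Nat.le_add_left _ _)
  · refine PT.ite' (P := fun q : Dm (fun x => (L x).length) => P q.1.1)
      (PT.dm (f := fun x => @ite _ (P x) (Classical.propDecidable _) 1 0) hP) ?_ ?_
    · exact hf.ent.comp (fun q : {q : Dm (fun x => (L x).length) // P q.1.1} =>
        (⟨(⟨q.1.1.1, q.2⟩, q.1.1.2), q.1.2⟩ :
          Dm (fun x : {x // P x} => (L x.1).length)))
    · exact hg.ent.comp (fun q : {q : Dm (fun x => (L x).length) // ¬ P q.1.1} =>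
        (⟨(⟨q.1.1.1, q.2⟩, q.1.1.2), q.1.2⟩ :
          Dm (fun x : {x // ¬ P x} => (L x.1).length)))

theorem PL.nil : PL sz E (fun _ => []) :=
  (PL.ofFn (n := fun _ => 0) (g := fun _ _ => 0) (PT.const 0) (PB.const 0)
    (PT.const 0)).congr fun _ => rfl

/-- constant list of the length of another list -/
theorem PL.mapConst {L : X → List ℕ} {a : X → ℕ} (h : PL sz E L) (ha : PT sz E a) :
    PL sz E (fun x => (L x).map (fun _ => a x)) :=
  PL.map (g := fun x _ => a x) h ha.dm

theorem sum_wA (x : ℕ → ℕ) (d : List ℕ) (s : ℕ × ℕ × ℕ) (hs : s.1 < d.length) :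
    ∑ i ∈ range ((d.drop (s.1 + 1)).count (d.getD s.1 0) + 1), C.wA x d s i =
      s.2.1 * Aint x (d.drop s.1) := by
  rw [drop_eq_cons hs, Aint_cons, Finset.mul_sum]
  refine Finset.sum_congr rfl fun i _ => ?_
  unfold C.wA vA
  ring

/-- one step of `unA` -/
theorem PT.stepA (hues : C.UesStmt) (hueb : C.UebStmt) (huac : C.UacStmt) {N v W u : X → ℕ}
    {w : X → ℕ → ℕ} {d : X → List ℕ} (hN : PT sz E N) (hNb : PB sz N) (hw : Fn sz E N w)
    (hd : PL sz E d) (hdN : ∀ x, (d x).sum < N x) (hv : PT sz E v) (hW : PT sz E W)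
    (hu : PT sz E u) (hvlt : ∀ x, v x < (d x).length)
    (hok : ∀ x, C.okA (w x) (d x) (v x, W x, u x)) :
    PT sz E (fun x => C.iA (w x) (d x) (v x, W x, u x)) ∧
    PL sz E (fun x => (C.qA (w x) (d x) (v x, W x, u x)).1) ∧
    PT sz E (fun x => (C.qA (w x) (d x) (v x, W x, u x)).2.1) ∧
    PT sz E (fun x => (C.qA (w x) (d x) (v x, W x, u x)).2.2) := by
  let k : X → ℕ := fun x => (d x).getD (v x) 0
  let c : X → ℕ := fun x => ((d x).drop (v x + 1)).count (k x)
  have hv1 : PT sz E (fun x => v x + 1) := hv.add (PT.const 1)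
  have hk : PT sz E k := hd.getD hv
  have hkb : PB sz k := hNb.mono fun x => by
    have h1 := mul_le_sum (hvlt x) (i := 0) (Nat.zero_le _)
    have h2 := hdN x
    rw [zero_add, one_mul] at h1
    exact h1.trans h2.le
  have hc : PT sz E c := (hd.drop hv1).count hk
  have hcb : PB sz c := hd.lenb.mono fun x => by
    refine List.count_le_length.trans ?_
    rw [List.length_drop]
    omega
  have hc1 : PT sz E (fun x => c x + 1) := hc.add (PT.const 1)
  have hc1b : PB sz (fun x => c x + 1) := hcb.add (PB.const 1)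
  have hstep := fun x => huac (w x) (d x) (v x, W x, u x) (hok x) (hvlt x)
  have hi1 : PT (fun q : Dm (fun x => c x + 1) => sz q.1.1) (fun q => q.1.2 :: E q.1.1)
      (fun q => q.1.2) := PT.dmi hc1b
  have hV : Fn sz E (fun x => c x + 1)
      (fun x i => vA (w x) (k x) ((d x).drop (v x + 1)) (W x) i) := by
    have h2 : PT (fun q : Dm (fun x => c x + 1) => sz q.1.1) (fun q => q.1.2 :: E q.1.1)
        (fun q => UMG.Eint (w q.1.1) (q.1.2 + 1) (k q.1.1)) := by
      refine PT.Eint (X := Dm (fun x => c x + 1)) (w := fun q => w q.1.1)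
        (N := fun q => N q.1.1) (l := fun q => q.1.2 + 1) (k := fun q => k q.1.1) hN.dm
        (PB.dm hNb) (Fn.dm hw) (hi1.add (PT.const 1)) hk.dm (PB.dm hkb) fun q => ?_
      exact lt_of_le_of_lt (mul_le_sum (hvlt q.1.1) (Nat.lt_succ_iff.1 q.2)) (hdN q.1.1)
    have h3 : PT (fun q : Dm (fun x => c x + 1) => sz q.1.1) (fun q => q.1.2 :: E q.1.1)
        (fun q => UMG.Aint (w q.1.1) ((d q.1.1).drop (v q.1.1 + 1 + q.1.2))) := by
      exact PT.Aint (X := Dm (fun x => c x + 1)) (w := fun q => w q.1.1)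
        (N := fun q => N q.1.1) (v := fun q => v q.1.1 + 1 + q.1.2) (d := fun q => d q.1.1)
        hN.dm (PB.dm hNb) (Fn.dm hw) (PL.dm hd) (fun q => hdN q.1.1) (hv1.dm.add hi1)
    refine (hW.dm.mul (h2.mul h3)).congr fun q => ?_
    simp only [vA, List.drop_drop]
  have hWt : Fn sz E (fun x => c x + 1) (fun x i => C.wA (w x) (d x) (v x, W x, u x) i) :=
    ((hc.dm.descFactorial hi1 (PB.dmi hc1b)).mul
      ((hk.dm.factorial (PB.dm hkb)).pow hi1 (PB.dmi hc1b))).mul hV
  have hi : PT sz E (fun x => C.iA (w x) (d x) (v x, W x, u x)) :=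
    PT.pick (n := fun x => c x + 1) (w := fun x => C.wA (w x) (d x) (v x, W x, u x))
      hc1 hc1b hu hWt
  have hilt : ∀ x, C.iA (w x) (d x) (v x, W x, u x) < c x + 1 := fun x =>
    Nat.lt_succ_of_le (hstep x).1
  have hib : PB sz (fun x => C.iA (w x) (d x) (v x, W x, u x)) :=
    hc1b.mono fun x => (hilt x).le
  have hU : PT sz E (fun x => C.uA (w x) (d x) (v x, W x, u x)) := by
    have h1 : PT sz E (fun x => UMG.cum (C.wA (w x) (d x) (v x, W x, u x))
        (C.iA (w x) (d x) (v x, W x, u x))) :=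
      PT.cum (n := fun x => c x + 1) (w := fun x => C.wA (w x) (d x) (v x, W x, u x)) hi hib
        (fun x => (hilt x).le) hWt
    exact (hu.sub h1).mod (Fn.app hV hi hilt)
  have hQ := PT.unE hues hueb (l := fun x => C.iA (w x) (d x) (v x, W x, u x) + 1)
    (A := fun x => UMG.Aint (w x) ((d x).drop (v x + 1 + C.iA (w x) (d x) (v x, W x, u x))))
    (k := k) (W := W) (u := fun x => C.uA (w x) (d x) (v x, W x, u x)) hN hNb hw
    (hi.add (PT.const 1)) (PT.Aint hN hNb hw hd hdN (hv1.add hi)) hk hkb hW hU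
    (fun x => lt_of_le_of_lt (mul_le_sum (hvlt x) (hstep x).1) (hdN x))
    (fun x => (hstep x).2)
  exact ⟨hi, hQ.1, hQ.2.1, hQ.2.2⟩

/-- the registers of the loop for `unA` -/
def rA (x : ℕ → ℕ) (d : List ℕ) (s : ℕ × ℕ × ℕ) (t i : ℕ) : ℕ :=
  if i = 0 then (C.sA x d s t).1
  else if i = 1 then (C.sA x d s t).2.1 else (C.sA x d s t).2.2

theorem PT.rA (hues : C.UesStmt) (hueb : C.UebStmt) (huac : C.UacStmt) (huab : C.UabStmt)
    {N W u : X → ℕ} {w : X → ℕ → ℕ} {d : X → List ℕ} (hN : PT sz E N) (hNb : PB sz N)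
    (hw : Fn sz E N w) (hd : PL sz E d) (hdN : ∀ x, (d x).sum < N x) (hW : PT sz E W)
    (hu : PT sz E u) (hu' : ∀ x, u x < W x * UMG.Aint (w x) (d x)) {i : ℕ} (hi : i < 3) :
    Fn sz E (fun x => (d x).length + 1)
      (fun x t => UMG.rA (w x) (d x) (0, W x, u x) t i) := by
  let n : X → ℕ := fun x => (d x).length
  let s : X → ℕ → ℕ × ℕ × ℕ := fun x t => C.sA (w x) (d x) (0, W x, u x) t
  have hs : ∀ x t, C.okA (w x) (d x) (s x t) ∧
      (s x t).2.1 * UMG.wb (w x) (N x) ^ ((d x).drop (s x t).1).sum ≤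
        W x * UMG.wb (w x) (N x) ^ (d x).sum := fun x t =>
    huab (w x) (d x) (W x) (u x) (N x) t (hu' x) (hdN x)
  let B : X → ℕ := fun x => (n x + 1) + W x * UMG.wb (w x) (N x) ^ N x +
    W x * UMG.wb (w x) (N x) ^ N x * UMG.ab (w x) (N x) (n x) ^ n x
  have hwk : PT sz E (fun x => UMG.wb (w x) (N x) ^ N x) := (PT.wb hN hNb hw).pow hN hNb
  have hB : PT sz E B := ((hd.len.add (PT.const 1)).add (hW.mul hwk)).add
    ((hW.mul hwk).mul ((PT.ab hN hNb hw hd.len hd.lenb).pow hd.len hd.lenb))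
  have hb1 : ∀ x t, (s x t).2.1 ≤ W x * UMG.wb (w x) (N x) ^ N x := fun x t =>
    ((Nat.le_mul_of_pos_right _ (pow_pos (wb_pos _ _) _)).trans (hs x t).2).trans
      (Nat.mul_le_mul_left _ (Nat.pow_le_pow_right (wb_pos _ _) (hdN x).le))
  have hb2 : ∀ x t, (s x t).2.2 < B x := by
    intro x t
    have h0 : (s x t).1 ≤ n x := (hs x t).1.1
    have h1 : UMG.Aint (w x) ((d x).drop (s x t).1) ≤
        UMG.ab (w x) (N x) (n x) ^ n x := by
      have h2 := Aint_le (w := w x) (hdN x) (n x - (s x t).1) (Nat.sub_le _ _)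
      rw [show (d x).length - (n x - (s x t).1) = (s x t).1 by
        show n x - (n x - (s x t).1) = _
        omega] at h2
      exact h2.trans (Nat.pow_le_pow_right (ab_pos _ _ _) (Nat.sub_le _ _))
    have h3 : (s x t).2.2 < (s x t).2.1 * UMG.Aint (w x) ((d x).drop (s x t).1) :=
      (hs x t).1.2
    have h4 : (s x t).2.1 * UMG.Aint (w x) ((d x).drop (s x t).1) ≤
        W x * UMG.wb (w x) (N x) ^ N x * UMG.ab (w x) (N x) (n x) ^ n x :=
      Nat.mul_le_mul (hb1 x t) h1
    show _ < (n x + 1) + W x * UMG.wb (w x) (N x) ^ N x + _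
    omega
  have hab : ∀ x, ∀ t ≤ n x + 1, ∀ i < 3,
      UMG.rA (w x) (d x) (0, W x, u x) t i < B x := by
    intro x t _ i _
    unfold UMG.rA
    split_ifs
    · have h1 : (s x t).1 ≤ n x := (hs x t).1.1
      show (s x t).1 < (n x + 1) + W x * UMG.wb (w x) (N x) ^ N x + _
      omega
    · have h1 := hb1 x t
      show (s x t).2.1 < (n x + 1) + W x * UMG.wb (w x) (N x) ^ N x + _
      omega
    · exact hb2 x t
  refine PT.loopk' (k := 3) (c := fun x => n x + 1) (B := B)
    (a := fun x t i => UMG.rA (w x) (d x) (0, W x, u x) t i) (hd.lenb.add (PB.const 1)) hB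
    hab ?_ ?_ hi
  · intro i hi
    interval_cases i
    · exact PT.const 0
    · exact hW
    · exact hu
  · intro i hi
    -- the environment in a round
    let D : Type := Dm (fun x => n x + 1)
    let AD : D → List ℕ := fun q => [UMG.pk (B q.1.1) 3
      (UMG.rA (w q.1.1) (d q.1.1) (0, W q.1.1, u q.1.1) q.1.2), q.1.2]
    have hr : ∀ i < 3, PT (fun q : D => sz q.1.1) (fun q => AD q ++ E q.1.1)
        (fun q => UMG.rA (w q.1.1) (d q.1.1) (0, W q.1.1, u q.1.1) q.1.2 i) :=
      fun i hi => PT.reg (k := 3) (c := fun x => n x + 1) (B := B)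
        (a := fun x t i => UMG.rA (w x) (d x) (0, W x, u x) t i) hB hab hi
    have r0 : PT (fun q : D => sz q.1.1) (fun q => AD q ++ E q.1.1)
        (fun q => (s q.1.1 q.1.2).1) := hr 0 (by norm_num)
    have r1 : PT (fun q : D => sz q.1.1) (fun q => AD q ++ E q.1.1)
        (fun q => (s q.1.1 q.1.2).2.1) := hr 1 (by norm_num)
    have r2 : PT (fun q : D => sz q.1.1) (fun q => AD q ++ E q.1.1)
        (fun q => (s q.1.1 q.1.2).2.2) := hr 2 (by norm_num)
    have hst : ∀ q : D, s q.1.1 (q.1.2 + 1) = C.stA (w q.1.1) (d q.1.1)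
        (s q.1.1 q.1.2) := fun q => rfl
    have hnD : PT (fun q : D => sz q.1.1) (fun q => AD q ++ E q.1.1) (fun q => n q.1.1) :=
      hd.len.old (fun q : D => q.1.1) (A := AD) (a := 2) fun _ => rfl
    -- the situations with a vertex
    let Z : Type := {q : D // (s q.1.1 q.1.2).1 < n q.1.1}
    let φ : Z → X := fun z => z.1.1.1
    let AZ : Z → List ℕ := fun z => AD z.1
    have step := PT.stepA hues hueb huac (X := Z) (sz := fun z => sz (φ z))
      (E := fun z => AZ z ++ E (φ z)) (N := fun z => N (φ z)) (w := fun z => w (φ z))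
      (d := fun z => d (φ z)) (v := fun z => (s (φ z) z.1.1.2).1)
      (W := fun z => (s (φ z) z.1.1.2).2.1) (u := fun z => (s (φ z) z.1.1.2).2.2)
      (hN.old φ (A := AZ) (a := 2) fun _ => rfl) (hNb.comp φ)
      (Fn.old hw φ (A := AZ) (a := 2) fun _ => rfl)
      (hd.old φ (A := AZ) (a := 2) fun _ => rfl) (fun z => hdN (φ z))
      (r0.comp (fun z : Z => z.1)) (r1.comp (fun z : Z => z.1)) (r2.comp (fun z : Z => z.1))
      (fun z => z.2) (fun z => (hs (φ z) z.1.1.2).1)
    refine PT.ite' (P := fun q : D => (s q.1.1 q.1.2).1 < n q.1.1) (PD.lt r0 hnD) ?_ ?_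
    · have h2 : ∀ z : Z, C.sA (w z.1.1.1) (d z.1.1.1) (0, W z.1.1.1, u z.1.1.1)
          (z.1.1.2 + 1) = ((s (φ z) z.1.1.2).1 + 1 + C.iA (w (φ z)) (d (φ z)) (s (φ z) z.1.1.2),
            (C.qA (w (φ z)) (d (φ z)) (s (φ z) z.1.1.2)).2.1,
            (C.qA (w (φ z)) (d (φ z)) (s (φ z) z.1.1.2)).2.2) := by
        intro z
        have h1 : s z.1.1.1 (z.1.1.2 + 1) = _ := hst z.1
        unfold C.stA at h1
        rw [if_pos z.2] at h1
        exact h1
      interval_cases i
      · refine (((r0.comp (fun z : Z => z.1)).add (PT.const 1)).add step.1).congr fun z => ?_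
        unfold UMG.rA
        rw [h2, if_pos rfl]
      · refine step.2.2.1.congr fun z => ?_
        unfold UMG.rA
        rw [h2, if_neg (by norm_num), if_pos rfl]
      · refine step.2.2.2.congr fun z => ?_
        unfold UMG.rA
        rw [h2, if_neg (by norm_num), if_neg (by norm_num)]
    · refine ((hr i hi).comp
        (fun z : {q : D // ¬ (s q.1.1 q.1.2).1 < n q.1.1} => z.1)).congr fun z => ?_
      have h1 : s z.1.1.1 (z.1.1.2 + 1) = s z.1.1.1 z.1.1.2 := by
        rw [hst]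
        unfold C.stA
        rw [if_neg z.2]
      have h2 : C.sA (w z.1.1.1) (d z.1.1.1) (0, W z.1.1.1, u z.1.1.1) (z.1.1.2 + 1) =
          C.sA (w z.1.1.1) (d z.1.1.1) (0, W z.1.1.1, u z.1.1.1) z.1.1.2 := h1
      unfold UMG.rA
      rw [h2]

/-- the recursion `unA` -/
theorem PT.unA (hues : C.UesStmt) (hueb : C.UebStmt) (huas : C.UasStmt) (huac : C.UacStmt)
    (huab : C.UabStmt) {N W u : X → ℕ} {w : X → ℕ → ℕ} {d : X → List ℕ} (hN : PT sz E N)
    (hNb : PB sz N) (hw : Fn sz E N w) (hd : PL sz E d) (hdN : ∀ x, (d x).sum < N x)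
    (hW : PT sz E W) (hu : PT sz E u) (hu' : ∀ x, u x < W x * UMG.Aint (w x) (d x)) :
    PL3 sz E (fun x => bund 0 (UMG.unA (w x) (d x) (W x) (u x)).1) ∧
    PT sz E (fun x => (UMG.unA (w x) (d x) (W x) (u x)).2.1) ∧
    PT sz E (fun x => (UMG.unA (w x) (d x) (W x) (u x)).2.2) := by
  have hr : ∀ i < 3, Fn sz E (fun x => (d x).length + 1)
      (fun x t => UMG.rA (w x) (d x) (0, W x, u x) t i) := fun i hi =>
    PT.rA hues hueb huac huab hN hNb hw hd hdN hW hu hu' hi
  have hE := fun x => huas (w x) (d x) 0 (W x) (u x) (d x).length (Nat.sub_le _ _)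
  simp only [List.drop_zero] at hE
  refine ⟨?_, ?_, ?_⟩
  · let n : X → ℕ := fun x => (d x).length
    let s : X → ℕ → ℕ × ℕ × ℕ := fun x t => C.sA (w x) (d x) (0, W x, u x) t
    let D : Type := Dm n
    have r0 : PT (fun q : D => sz q.1.1) (fun q => q.1.2 :: E q.1.1)
        (fun q => (s q.1.1 q.1.2).1) := PT.dmle (c := n) (c' := fun x => n x + 1)
          (g := fun x t => UMG.rA (w x) (d x) (0, W x, u x) t 0) (fun x => Nat.le_succ _)
          (hr 0 (by norm_num))
    have r1 : PT (fun q : D => sz q.1.1) (fun q => q.1.2 :: E q.1.1)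
        (fun q => (s q.1.1 q.1.2).2.1) := PT.dmle (c := n) (c' := fun x => n x + 1)
          (g := fun x t => UMG.rA (w x) (d x) (0, W x, u x) t 1) (fun x => Nat.le_succ _)
          (hr 1 (by norm_num))
    have r2 : PT (fun q : D => sz q.1.1) (fun q => q.1.2 :: E q.1.1)
        (fun q => (s q.1.1 q.1.2).2.2) := PT.dmle (c := n) (c' := fun x => n x + 1)
          (g := fun x t => UMG.rA (w x) (d x) (0, W x, u x) t 2) (fun x => Nat.le_succ _)
          (hr 2 (by norm_num))
    let Z : Type := {q : D // (s q.1.1 q.1.2).1 < n q.1.1}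
    let φ : Z → X := fun z => z.1.1.1
    let AZ : Z → List ℕ := fun z => [z.1.1.2]
    have step := PT.stepA hues hueb huac (X := Z) (sz := fun z => sz (φ z))
      (E := fun z => AZ z ++ E (φ z)) (N := fun z => N (φ z)) (w := fun z => w (φ z))
      (d := fun z => d (φ z)) (v := fun z => (s (φ z) z.1.1.2).1)
      (W := fun z => (s (φ z) z.1.1.2).2.1) (u := fun z => (s (φ z) z.1.1.2).2.2)
      (hN.old φ (A := AZ) (a := 1) fun _ => rfl) (hNb.comp φ)
      (Fn.old hw φ (A := AZ) (a := 1) fun _ => rfl)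
      (hd.old φ (A := AZ) (a := 1) fun _ => rfl) (fun z => hdN (φ z))
      (r0.comp (fun z : Z => z.1)) (r1.comp (fun z : Z => z.1)) (r2.comp (fun z : Z => z.1))
      (fun z => z.2)
      (fun z => (huab (w (φ z)) (d (φ z)) (W (φ z)) (u (φ z)) (N (φ z)) z.1.1.2
        (hu' (φ z)) (hdN (φ z))).1)
    have hPD : PD (fun q : D => sz q.1.1) (fun q => q.1.2 :: E q.1.1)
        (fun q => (s q.1.1 q.1.2).1 < n q.1.1) := PD.lt r0 hd.len.dm
    have key : ∀ g : ℕ × ℕ × ℕ → ℕ,
        PL (fun z : Z => sz (φ z)) (fun z => AZ z ++ E (φ z)) (fun z =>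
          (C.qA (w (φ z)) (d (φ z)) (s (φ z) z.1.1.2)).1.map
            (fun i => g ((s (φ z) z.1.1.2).1, C.iA (w (φ z)) (d (φ z)) (s (φ z) z.1.1.2) + 1,
              i))) →
        PL sz E (fun x => (bund 0 (UMG.unA (w x) (d x) (W x) (u x)).1).map g) := by
      intro g hg
      have hL : PL (fun q : D => sz q.1.1) (fun q => q.1.2 :: E q.1.1) (fun q =>
          (if (s q.1.1 q.1.2).1 < n q.1.1 then
            (C.qA (w q.1.1) (d q.1.1) (s q.1.1 q.1.2)).1.map
              (fun i => ((s q.1.1 q.1.2).1, C.iA (w q.1.1) (d q.1.1) (s q.1.1 q.1.2) + 1, i))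
          else []).map g) := by
        refine PL.ite' hPD ?_ ?_
        · refine hg.congr fun z => ?_
          rw [if_pos z.2, List.map_map]
          rfl
        · refine PL.nil.congr fun z => ?_
          rw [if_neg z.2, List.map_nil]
      refine (PL.flatMap (n := n) (L := fun x t =>
        (if (s x t).1 < n x then
            (C.qA (w x) (d x) (s x t)).1.map
              (fun i => ((s x t).1, C.iA (w x) (d x) (s x t) + 1, i))
          else []).map g) hd.len hd.lenb hL).congr fun x => ?_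
      rw [(hE x).1, List.map_flatMap]
    refine ⟨key (fun b => b.1) ?_, key (fun b => b.2.1) ?_, key (fun b => b.2.2) ?_⟩
    · exact PL.mapConst step.2.1 (r0.comp (fun z : Z => z.1))
    · exact PL.mapConst step.2.1 (step.1.add (PT.const 1))
    · refine step.2.1.congr fun z => ?_
      exact List.map_id _
  · refine (Fn.app (hr 1 (by norm_num)) hd.len fun x => Nat.lt_succ_self _).congr fun x => ?_
    rw [(hE x).2]
    rfl
  · refine (Fn.app (hr 2 (by norm_num)) hd.len fun x => Nat.lt_succ_self _).congr fun x => ?_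
    rw [(hE x).2]
    rfl

end

end Pool.Agent.UMG
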